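import Pool.Agent.R924.D3

set_option autoImplicit false

/-!
Statements of modules of the project on finite-dimensional DG algebras and rationality.
-/

universe u

open CategoryTheory Limits TopologicalSpace AlgebraicGeometry Opposite Pretriangulated

namespace Pool.Agent.N212

open Pool.Agent.W506 Pool.Agent.W456 Pool.Agent.R924

set_option backward.isDefEq.respectTransparency false

attribute [local instance] HasDerivedCategory.standard MvPolynomial.gradedAlgebra

/-- An ample line bundle generates the perfect complexes (no regularity assumption). -/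
def StmGen : Prop :=
  ∀ (X : Scheme.{0}) (J : Type) (_ : Finite J) (F : Frame X J) (α : F.Div)
    (_ : CompactSpace X) (_ : IsLocallyNoetherian X) (_ : Frame.Ample F α)
    (T : ObjectProperty (DerivedCategory X.Modules)) (_ : T.IsTriangulated)
    (_ : T.IsClosedUnderIsomorphisms) (_ : T.IsStableUnderRetracts)
    (_ : ∀ d : ℕ, T (sg (Frame.lb ((α ^ d)⁻¹)))), isPerfect X ≤ T

/-- Perfect complexes form a triangulated subcategory closed under retracts. -/
def StmThick : Prop :=
  ∀ (X : Scheme.{0}) (_ : CompactSpace X) (_ : IsLocallyNoetherian X),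
    (isPerfect X).IsTriangulated ∧ (isPerfect X).IsStableUnderRetracts

/-- The projective spectrum of a finitely generated graded algebra is projective. -/
def StmProj : Prop :=
  ∀ (K : Type) [Field K] (A : Type) [CommRing A] [Algebra K A] (𝒜 : ℕ → Submodule K A)
    [GradedAlgebra 𝒜] [Algebra.FiniteType K A] (_ : ∀ a ∈ 𝒜 0, ∃ c : K, a = algebraMap K A c),
    ∃ (n : ℕ) (i : Proj 𝒜 ⟶ PP K n), IsClosedImmersion i ∧ i ≫ toK K n =
      Proj.toSpecZero 𝒜 ≫ Spec.map (CommRingCat.ofHom (algebraMap K (𝒜 0)))

/-- The Fermat cubic is not rationally parametrised. -/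
def StmFLT : Prop :=
  ∀ (K : Type) [Field K] [CharZero K] (n : ℕ) (u v : FractionRing (MvPolynomial (Fin n) K)),
    u ^ 3 + v ^ 3 + 1 = 0 → ∃ c d : K, u = algebraMap K _ c ∧ v = algebraMap K _ d

end Pool.Agent.N212
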