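import Mathlib

set_option autoImplicit false
set_option linter.unusedVariables false

/-!
The graded algebra of polynomials whose derivative with respect to the first variable is divisible
by the Fermat cubic.
-/

open MvPolynomial

namespace Pool.Agent.N212

noncomputable section

attribute [local instance] MvPolynomial.gradedAlgebra

variable (k : Type) [Field k]

/-- The polynomial ring in three variables `y = X 0`, `x = X 1`, `z = X 2`. -/
abbrev P : Type := MvPolynomial (Fin 3) k

/-- The homogeneous polynomials of degree `n`. -/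
abbrev PH (n : ℕ) : Submodule k (P k) := homogeneousSubmodule (Fin 3) k n

/-- The Fermat cubic. -/
def hh : P k := X 0 ^ 3 + X 1 ^ 3 + X 2 ^ 3

/-- The partial derivative with respect to the first variable. -/
abbrev dd : Derivation k (P k) (P k) := pderiv 0

variable {k}

lemma hh_mem : hh k ∈ PH k 3 :=
  add_mem (add_mem (isHomogeneous_X_pow 0 3) (isHomogeneous_X_pow 1 3)) (isHomogeneous_X_pow 2 3)

lemma dd_hh : dd k (hh k) = 3 * X 0 ^ 2 := by
  rw [hh, map_add, map_add, pderiv_pow, pderiv_pow, pderiv_pow, pderiv_X_self,
    pderiv_X_of_ne (by decide), pderiv_X_of_ne (by decide)]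
  norm_num

variable (k) in
/-- The polynomials whose derivative is divisible by the cubic. -/
def cu : Subalgebra k (P k) where
  carrier := {f | hh k ∣ dd k f}
  mul_mem' := by
    intro a b ha hb
    change hh k ∣ dd k (a * b)
    rw [pderiv_mul]
    exact dvd_add (ha.mul_right _) (hb.mul_left _)
  add_mem' := by
    intro a b ha hb
    change hh k ∣ dd k (a + b)
    rw [map_add]
    exact dvd_add ha hb
  algebraMap_mem' := by
    intro r
    change hh k ∣ dd k (C r)
    rw [pderiv_C]
    exact dvd_zero _

lemma mem_cu {f : P k} : f ∈ cu k ↔ hh k ∣ dd k f := Iff.rfl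

/-- components of a derivative -/
lemma comp_dd (n : ℕ) (f : P k) :
    homogeneousComponent n (dd k f) = dd k (homogeneousComponent (n + 1) f) := by
  classical
  ext m
  rw [coeff_homogeneousComponent, coeff_pderiv, coeff_pderiv, coeff_homogeneousComponent]
  have h : (m + Finsupp.single 0 1).degree = m.degree + 1 := by
    rw [map_add, Finsupp.degree_single]
  by_cases hm : m.degree = n
  · rw [if_pos hm, if_pos (by rw [h, hm])]
  · rw [if_neg hm, if_neg (by rw [h]; lia), zero_mul]

lemma dd_mem {n : ℕ} {f : P k} (hf : f ∈ PH k (n + 1)) : dd k f ∈ PH k n :=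
  IsHomogeneous.pderiv hf

lemma dd_zero {f : P k} (hf : f ∈ PH k 0) : dd k f = 0 := by
  obtain ⟨c, hc⟩ : ∃ c : k, C c = f := by
    have h1 : f.totalDegree = 0 := (totalDegree_zero_iff_isHomogeneous _).2 hf
    exact ⟨_, (totalDegree_eq_zero_iff_eq_C.1 h1).symm⟩
  rw [← hc, pderiv_C]

lemma dvd_comp {I : P k} {d : ℕ} (hI : I ∈ PH k d) {f : P k} (h : I ∣ f) (n : ℕ) :
    I ∣ homogeneousComponent n f := by
  have h1 : (Ideal.span {I}).IsHomogeneous (PH k) := by
    apply Ideal.homogeneous_span
    rintro x rfl
    exact ⟨d, hI⟩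
  have h2 := homogeneousComponent_mem_of_mem h1 (Ideal.mem_span_singleton.2 h) n
  exact Ideal.mem_span_singleton.1 h2

lemma comp_mem_cu {f : P k} (hf : f ∈ cu k) (n : ℕ) : homogeneousComponent n f ∈ cu k := by
  rw [mem_cu] at hf ⊢
  cases n with
  | zero =>
    rw [dd_zero (homogeneousComponent_mem 0 f)]
    exact dvd_zero _
  | succ n =>
    rw [← comp_dd]
    exact dvd_comp hh_mem hf n

/-- Families of submodules of an algebra. -/
abbrev Fam (k A : Type) [Field k] [CommRing A] [Algebra k A] : Type := ℕ → Submodule k A

/-- Gradings of an algebra. -/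
abbrev GrA {k A : Type} [Field k] [CommRing A] [Algebra k A] (𝒜 : Fam k A) : Type :=
  GradedAlgebra 𝒜

variable (k) in
/-- The grading by degree. -/
def cg : Fam k (cu k) := fun n => (PH k n).comap (cu k).val.toLinearMap

lemma mem_cg {n : ℕ} {a : cu k} : a ∈ cg k n ↔ (a : P k) ∈ PH k n := Iff.rfl

instance : SetLike.GradedMonoid (cg k) where
  one_mem := isHomogeneous_one _ _
  mul_mem := fun i j a b ha hb => IsHomogeneous.mul ha hb

lemma ext_comp {f g : P k} (h : ∀ n, homogeneousComponent n f = homogeneousComponent n g) :
    f = g := by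
  ext m
  have h1 := congrArg (coeff m) (h m.degree)
  rwa [coeff_homogeneousComponent, coeff_homogeneousComponent, if_pos rfl, if_pos rfl] at h1

lemma comp_of_mem {n : ℕ} {f : P k} (hf : f ∈ PH k n) (m : ℕ) :
    homogeneousComponent m f = if n = m then f else 0 := by
  rw [homogeneousComponent_of_mem hf]
  simp only [eq_comm]

lemma comp_coe (x : DirectSum ℕ (fun n => cg k n)) (n : ℕ) :
    homogeneousComponent n ((DirectSum.coeAddMonoidHom (cg k) x : cu k) : P k) =
      ((x n : cu k) : P k) := by
  induction x using DirectSum.induction_on with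
  | zero => simp
  | of i a =>
    rw [DirectSum.coeAddMonoidHom_of, comp_of_mem (show ((a : cu k) : P k) ∈ PH k i from a.2) n]
    by_cases h : i = n
    · subst h
      rw [if_pos rfl, DirectSum.of_eq_same]
    · rw [if_neg h, DirectSum.of_eq_of_ne _ _ _ (Ne.symm h)]
      rfl
  | add a b ha hb =>
    rw [map_add, DirectSum.add_apply]
    push_cast
    rw [map_add, ha, hb]

/-- The decomposition in homogeneous parts. -/
def cdec (a : cu k) : DirectSum ℕ (fun n => cg k n) :=
  DirectSum.mk (fun i => cg k i) ((a : P k).support.image Finsupp.degree)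
    (fun n => ⟨⟨homogeneousComponent n (a : P k), comp_mem_cu a.2 n⟩, homogeneousComponent_mem _ _⟩)

lemma cdec_apply (a : cu k) (n : ℕ) :
    ((cdec a n : cu k) : P k) = homogeneousComponent n (a : P k) := by
  by_cases h : n ∈ (a : P k).support.image Finsupp.degree
  · rw [cdec, DirectSum.mk_apply_of_mem h]
  · rw [cdec, DirectSum.mk_apply_of_notMem h]
    symm
    apply homogeneousComponent_eq_zero'
    intro d hd hdn
    exact h (Finset.mem_image.2 ⟨d, hd, hdn⟩)

instance : DirectSum.Decomposition (cg k) where
  decompose' := cdec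
  left_inv a := by
    apply Subtype.ext
    apply ext_comp
    intro n
    rw [comp_coe, cdec_apply]
  right_inv x := by
    apply DFinsupp.ext
    intro n
    apply Subtype.ext
    apply Subtype.ext
    rw [cdec_apply, comp_coe]

instance instGrA : GrA (cg k) where

lemma decompose_apply (a : cu k) (n : ℕ) :
    ((DirectSum.decompose (cg k) a n : cu k) : P k) = homogeneousComponent n (a : P k) :=
  cdec_apply a n

end

end Pool.Agent.N212
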