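import Pool.Agent.N212.A0

set_option autoImplicit false
set_option linter.unusedVariables false

/-!
Elements of the algebra; finite generation.
-/

open MvPolynomial

namespace Pool.Agent.N212

noncomputable section

attribute [local instance] MvPolynomial.gradedAlgebra

variable {k : Type} [Field k]

/-- the sum of two cubes -/
def ww (k : Type) [Field k] : P k := X 1 ^ 3 + X 2 ^ 3

lemma hh_eq : hh k = X 0 ^ 3 + ww k := by rw [hh, ww, add_assoc]

lemma ww_mem : ww k ∈ PH k 3 := add_mem (isHomogeneous_X_pow 1 3) (isHomogeneous_X_pow 2 3)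

lemma dd_ww : dd k (ww k) = 0 := by
  rw [ww, map_add, pderiv_pow, pderiv_pow, pderiv_X_of_ne (by decide), pderiv_X_of_ne (by decide)]
  ring

lemma X1_mem : (X 1 : P k) ∈ cu k := by
  rw [mem_cu, pderiv_X_of_ne (by decide)]
  exact dvd_zero _

lemma X2_mem : (X 2 : P k) ∈ cu k := by
  rw [mem_cu, pderiv_X_of_ne (by decide)]
  exact dvd_zero _

lemma ww_mem_cu : ww k ∈ cu k := by
  rw [mem_cu, dd_ww]
  exact dvd_zero _

lemma sq_mul_mem (f : P k) : hh k ^ 2 * f ∈ cu k := by
  rw [mem_cu, pderiv_mul, pderiv_pow]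
  refine dvd_add ?_ ?_
  · refine Dvd.dvd.mul_right ?_ _
    rw [show 2 - 1 = 1 from rfl, pow_one]
    exact (Dvd.intro_left _ rfl).mul_right _
  · exact (dvd_pow_self _ two_ne_zero).mul_right _

lemma mem_cu_of_sq_dvd {f : P k} (h : hh k ^ 2 ∣ f) : f ∈ cu k := by
  obtain ⟨g, rfl⟩ := h
  exact sq_mul_mem g

/-- the first elements -/
def xx (k : Type) [Field k] : cu k := ⟨X 1, X1_mem⟩

/-- the second element -/
def zz (k : Type) [Field k] : cu k := ⟨X 2, X2_mem⟩

/-- the element of degree eight -/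
def vv (k : Type) [Field k] : cu k := ⟨hh k ^ 2 * X 0 ^ 2, sq_mul_mem _⟩

lemma g4_mem : (X 0 ^ 4 + 4 * ww k * X 0 : P k) ∈ cu k := by
  rw [mem_cu, map_add, pderiv_pow, pderiv_mul, pderiv_mul, dd_ww, pderiv_X_self]
  refine ⟨4, ?_⟩
  rw [hh_eq]
  have : dd k (4 : P k) = 0 := by
    have h : (4 : P k) = C 4 := (map_ofNat C 4).symm
    rw [h, pderiv_C]
  rw [this]
  push_cast
  ring

/-- the element of degree four -/
def g4 (k : Type) [Field k] : cu k := ⟨X 0 ^ 4 + 4 * ww k * X 0, g4_mem⟩

lemma xx_mem : xx k ∈ cg k 1 := isHomogeneous_X _ _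

lemma zz_mem : zz k ∈ cg k 1 := isHomogeneous_X _ _

lemma vv_mem : vv k ∈ cg k 8 :=
  IsHomogeneous.mul (m := 6) (n := 2) (IsHomogeneous.pow hh_mem 2) (isHomogeneous_X_pow 0 2)

lemma smul_def' (a : cu k) (f : P k) : a • f = (a : P k) * f := rfl

/-- The polynomial ring is a finite module. -/
lemma span_eq_top : Submodule.span (cu k) {(1 : P k), X 0, X 0 ^ 2, X 0 ^ 3} = ⊤ := by
  set N := Submodule.span (cu k) {(1 : P k), X 0, X 0 ^ 2, X 0 ^ 3} with hN
  have h0 : (1 : P k) ∈ N := Submodule.subset_span (by simp)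
  have h1 : (X 0 : P k) ∈ N := Submodule.subset_span (by simp)
  have h2 : (X 0 ^ 2 : P k) ∈ N := Submodule.subset_span (by simp)
  have h3 : (X 0 ^ 3 : P k) ∈ N := Submodule.subset_span (by simp)
  have h4 : (X 0 ^ 4 : P k) ∈ N := by
    have e : (X 0 ^ 4 : P k) = g4 k • (1 : P k) - (4 * ⟨ww k, ww_mem_cu⟩ : cu k) • (X 0 : P k) := by
      rw [smul_def', smul_def']
      change _ = (X 0 ^ 4 + 4 * ww k * X 0) * 1 - (4 * ww k) * X 0
      ring
    rw [e]
    exact sub_mem (N.smul_mem _ h0) (N.smul_mem _ h1)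
  have hy : ∀ f ∈ N, f * X 0 ∈ N := by
    intro f hf
    induction hf using Submodule.span_induction with
    | mem x hx =>
      rcases hx with rfl | rfl | rfl | rfl
      · rwa [one_mul]
      · rwa [← sq]
      · rwa [← pow_succ]
      · rwa [← pow_succ]
    | zero => rw [zero_mul]; exact zero_mem _
    | add x y _ _ hx hy => rw [add_mul]; exact add_mem hx hy
    | smul a x _ hx =>
      rw [smul_mul_assoc]
      exact N.smul_mem a hx
  rw [eq_top_iff]
  intro f _
  induction f using MvPolynomial.induction_on with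
  | C a =>
    have e : (C a : P k) = (algebraMap k (cu k) a) • (1 : P k) := by
      rw [smul_def', mul_one]
      rfl
    rw [e]
    exact N.smul_mem _ h0
  | add p q hp hq => exact add_mem (hp trivial) (hq trivial)
  | mul_X p i hp =>
    fin_cases i
    · exact hy _ (hp trivial)
    · have e : p * X 1 = xx k • p := by
        rw [smul_def', mul_comm]
        rfl
      exact e ▸ N.smul_mem _ (hp trivial)
    · have e : p * X 2 = zz k • p := by
        rw [smul_def', mul_comm]
        rfl
      exact e ▸ N.smul_mem _ (hp trivial)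

instance finite_cu : Module.Finite (cu k) (P k) := by
  classical
  refine ⟨⟨{(1 : P k), X 0, X 0 ^ 2, X 0 ^ 3}, ?_⟩⟩
  rw [← span_eq_top]
  simp

instance finiteType_cu : Algebra.FiniteType k (cu k) := by
  refine ⟨fg_of_fg_of_fg k (cu k) (P k) (Algebra.FiniteType.out) finite_cu.1 ?_⟩
  exact Subtype.val_injective

instance : IsDomain (cu k) := inferInstance

instance : IsNoetherianRing (cu k) := Algebra.FiniteType.isNoetherianRing k (cu k)

lemma zero_deg {a : cu k} (ha : a ∈ cg k 0) : ∃ c : k, a = algebraMap k (cu k) c := by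
  have h1 : (a : P k).totalDegree = 0 := (totalDegree_zero_iff_isHomogeneous _).2 ha
  exact ⟨_, Subtype.ext (totalDegree_eq_zero_iff_eq_C.1 h1)⟩

/-- Integration. -/
lemma exists_int [CharZero k] {n : ℕ} {f : P k} (hf : f ∈ PH k n) :
    ∃ g ∈ PH k (n + 1), dd k g = f := by
  rw [← support_sum_monomial_coeff f]
  refine Finset.sum_induction _ (fun f => ∃ g ∈ PH k (n + 1), dd k g = f) ?_ ?_ ?_
  · rintro a b ⟨g, hg, rfl⟩ ⟨g', hg', rfl⟩
    exact ⟨g + g', add_mem hg hg', map_add _ _ _⟩
  · exact ⟨0, zero_mem _, map_zero _⟩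
  · intro d hd
    have hdeg : d.degree = n := by
      have h1 := hf (mem_support_iff.1 hd)
      rw [← h1, Finsupp.degree_eq_weight_one]
      rfl
    refine ⟨monomial (d + Finsupp.single 0 1) (coeff d f / (d 0 + 1)), ?_, ?_⟩
    · apply isHomogeneous_monomial
      rw [map_add, Finsupp.degree_single, hdeg]
    · rw [pderiv_monomial, add_tsub_cancel_right]
      congr 1
      rw [Finsupp.add_apply, Finsupp.single_eq_same]
      push_cast
      have : (d 0 + 1 : k) ≠ 0 := by exact_mod_cast Nat.succ_ne_zero (d 0)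
      field_simp

end

end Pool.Agent.N212
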