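import Pool.Agent.N212.A1

set_option autoImplicit false
set_option linter.unusedVariables false

/-!
The cubic is prime; regular sequences.
-/

open MvPolynomial

namespace Pool.Agent.N212

noncomputable section

attribute [local instance] MvPolynomial.gradedAlgebra

variable {k : Type} [Field k]

/-- the presentation as polynomials in the first variable -/
abbrev fe (k : Type) [Field k] : P k ≃ₐ[k] Polynomial (MvPolynomial (Fin 2) k) := finSuccEquiv k 2

lemma fe_X0 : fe k (X 0) = Polynomial.X := finSuccEquiv_X_zero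

lemma fe_X1 : fe k (X 1) = Polynomial.C (X 0) := finSuccEquiv_X_succ (j := 0)

lemma fe_X2 : fe k (X 2) = Polynomial.C (X 1) := finSuccEquiv_X_succ (j := 1)

lemma fe_hh : fe k (hh k) = Polynomial.X ^ 3 + Polynomial.C (X 0 ^ 3 + X 1 ^ 3) := by
  rw [hh, map_add, map_add, map_pow, map_pow, map_pow, fe_X0, fe_X1, fe_X2, add_assoc, map_add,
    map_pow, map_pow]

lemma monic_hh : (fe k (hh k)).Monic := by
  rw [fe_hh]
  exact Polynomial.monic_X_pow_add_C _ (by norm_num)

lemma monic_vv : (fe k (vv k : P k)).Monic := by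
  change (fe k (hh k ^ 2 * X 0 ^ 2)).Monic
  rw [map_mul, map_pow, map_pow, fe_X0]
  exact (monic_hh.pow 2).mul (Polynomial.monic_X_pow 2)

lemma monic_reg {R : Type} [CommRing R] (I : Ideal R) {F G : Polynomial R} (hF : F.Monic)
    (h : F * G ∈ I.map Polynomial.C) : G ∈ I.map Polynomial.C := by
  have key : ∀ f : Polynomial R, f ∈ I.map Polynomial.C ↔ f.map (Ideal.Quotient.mk I) = 0 := by
    intro f
    rw [Ideal.mem_map_C_iff, Polynomial.ext_iff]
    simp only [Polynomial.coeff_map, Polynomial.coeff_zero, Ideal.Quotient.eq_zero_iff_mem]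
  rw [key] at h ⊢
  rw [Polynomial.map_mul] at h
  exact (hF.map _).isRegular.left (by simpa using h)

lemma reg_span (N M : ℕ) {F G : P k} (hF : (fe k F).Monic)
    (h : F * G ∈ Ideal.span {(X 1 ^ N : P k), X 2 ^ M}) :
    G ∈ Ideal.span {(X 1 ^ N : P k), X 2 ^ M} := by
  have e : ∀ f : P k, f ∈ Ideal.span {(X 1 ^ N : P k), X 2 ^ M} ↔
      fe k f ∈ (Ideal.span {(X 0 ^ N : MvPolynomial (Fin 2) k), X 1 ^ M}).map Polynomial.C := by
    intro f
    rw [Ideal.map_span, Set.image_pair, Ideal.mem_span_pair, Ideal.mem_span_pair]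
    have h1 : fe k (X 1 ^ N) = Polynomial.C (X 0 ^ N) := by rw [map_pow, fe_X1, map_pow]
    have h2 : fe k (X 2 ^ M) = Polynomial.C (X 1 ^ M) := by rw [map_pow, fe_X2, map_pow]
    constructor
    · rintro ⟨a, b, hab⟩
      refine ⟨fe k a, fe k b, ?_⟩
      rw [← h1, ← h2, ← map_mul, ← map_mul, ← map_add, hab]
    · rintro ⟨a, b, hab⟩
      refine ⟨(fe k).symm a, (fe k).symm b, ?_⟩
      apply (fe k).injective
      rw [map_add, map_mul, map_mul, h1, h2, AlgEquiv.apply_symm_apply, AlgEquiv.apply_symm_apply,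
        hab]
  rw [e] at h ⊢
  rw [map_mul] at h
  exact monic_reg _ hF h

section Prime

variable [CharZero k]

lemma irreducible_fe_hh : Irreducible (fe k (hh k)) := by
  let φ : MvPolynomial (Fin 2) k →+* Polynomial k :=
    (aeval ![Polynomial.X, -Polynomial.X] : MvPolynomial (Fin 2) k →ₐ[k] Polynomial k).toRingHom
  have h0 : φ (X 0) = Polynomial.X := by simp [φ]
  have h1 : φ (X 1) = -Polynomial.X := by simp [φ]
  have hP : (RingHom.ker φ).IsPrime := RingHom.ker_isPrime φ
  have hw : X 0 ^ 3 + X 1 ^ 3 ∈ RingHom.ker φ := by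
    rw [RingHom.mem_ker, map_add, map_pow, map_pow, h0, h1]
    ring
  have hd : (fe k (hh k)).degree = 3 := by
    rw [fe_hh, Polynomial.degree_X_pow_add_C (by norm_num)]
    rfl
  refine Polynomial.irreducible_of_eisenstein_criterion hP ?_ ?_ ?_ ?_ monic_hh.isPrimitive
  · rw [monic_hh.leadingCoeff]
    exact (Ideal.ne_top_iff_one _).1 hP.ne_top
  · intro n hn
    rw [hd] at hn
    have hn' : n < 3 := by exact_mod_cast hn
    rw [fe_hh, Polynomial.coeff_add, Polynomial.coeff_X_pow, if_neg (by lia), zero_add,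
      Polynomial.coeff_C]
    split_ifs
    · exact hw
    · exact zero_mem _
  · rw [hd]
    norm_num
  · intro h
    have hder : ∀ f ∈ (RingHom.ker φ) ^ 2, pderiv 0 f ∈ RingHom.ker φ := by
      intro f hf
      rw [sq] at hf
      refine Submodule.mul_induction_on hf ?_ ?_
      · intro a ha b hb
        rw [pderiv_mul]
        exact add_mem (Ideal.mul_mem_left _ _ hb) (Ideal.mul_mem_right _ _ ha)
      · intro a b ha hb
        rw [map_add]
        exact add_mem ha hb
    have h2 : (fe k (hh k)).coeff 0 = X 0 ^ 3 + X 1 ^ 3 := by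
      rw [fe_hh, Polynomial.coeff_add, Polynomial.coeff_X_pow, if_neg (by norm_num), zero_add,
        Polynomial.coeff_C_zero]
    rw [h2] at h
    have h3 := hder _ h
    rw [map_add, pderiv_pow, pderiv_pow, pderiv_X_self, pderiv_X_of_ne (by decide),
      RingHom.mem_ker] at h3
    simp only [mul_one, mul_zero, add_zero, map_mul, map_pow, map_natCast, h0] at h3
    have h4 := congrArg (Polynomial.eval 1) h3
    simp at h4

lemma hh_prime : Prime (hh k) := by
  have h1 : Irreducible (hh k) :=
    (MulEquiv.irreducible_iff (fe k : P k ≃ₐ[k] _)).1 irreducible_fe_hh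
  exact h1.prime

end Prime

end

end Pool.Agent.N212
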