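import Pool.Agent.N212.T2
import Pool.Agent.W506.S2

set_option autoImplicit false
set_option linter.unusedVariables false

/-!
Exactness of the functor from graded modules to sheaves.
-/

open CategoryTheory Limits TopologicalSpace AlgebraicGeometry Opposite TopCat

namespace Pool.Agent.N212

noncomputable section

set_option backward.isDefEq.respectTransparency false

open Pool.Agent.W506

section General

variable {X : Scheme.{0}}

theorem exact_of_local_lift (S : ShortComplex X.Modules)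
    (h : ∀ (U : X.Opens) (s : Γ(S.X₂, U)), ap S.g U s = 0 → ∀ x ∈ U,
      ∃ (V : X.Opens) (hV : V ≤ U) (_ : x ∈ V) (t : Γ(S.X₁, V)), ap S.f V t = rs S.X₂ hV s) :
    S.Exact := by
  rw [S.exact_iff_epi_kernel_lift]
  apply epi_of_locally_surj
  intro W s x hx
  have h1 : ap S.g W (ap (kernel.ι S.g) W s) = 0 := by
    rw [← ap_comp, kernel.condition]
    rfl
  obtain ⟨V, hV, hxV, t, ht⟩ := h W _ h1 x hx
  refine ⟨V, hV, hxV, t, ?_⟩
  apply ap_injective (kernel.ι S.g)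
  rw [← ap_comp, kernel.lift_ι, ht, ap_rs]

end General

variable {k : Type} [Field k] {A : Type} [CommRing A] [Algebra k A]
  {𝒜 : ℕ → Submodule k A} [GradedAlgebra 𝒜]

/-- Annihilators of homogeneous elements are homogeneous. -/
class IsGr (N : GM 𝒜) : Prop where
  comp_smul : ∀ {i : ℤ} {m : N.M}, m ∈ N.deg i → ∀ c : A, c • m = 0 → ∀ n,
    (DirectSum.decompose 𝒜 c n : A) • m = 0

lemma exists_comp_mem (x : ProjectiveSpectrum.top 𝒜) {c : A} (hc : c ∈ pc x) :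
    ∃ n, (DirectSum.decompose 𝒜 c n : A) ∈ pc x := by
  classical
  by_contra! h
  apply hc
  rw [← DirectSum.sum_support_decompose 𝒜 c]
  exact sum_mem fun n _ => not_not.1 (h n)

lemma exists_hom_ann {N : GM 𝒜} [IsGr N] {i : ℤ} {m : N.M} (hm : m ∈ N.deg i)
    (x : ProjectiveSpectrum.top 𝒜) (a : pc x) (h : (LocalizedModule.mk m a : Lo N x) = 0) :
    ∃ (l : ℕ) (c : A), c ∈ 𝒜 l ∧ c ∈ pc x ∧ c • m = 0 := by
  rw [← LocalizedModule.zero_mk 1, LocalizedModule.mk_eq] at h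
  obtain ⟨u, hu⟩ := h
  have hu' : (u : A) • m = 0 := by
    have h2 : (u : A) • (1 : A) • m = (u : A) • (a : A) • (0 : N.M) := hu
    simpa using h2
  obtain ⟨n, hn⟩ := exists_comp_mem x u.2
  exact ⟨n, _, SetLike.coe_mem _, hn, IsGr.comp_smul hm _ hu' n⟩

lemma mk_eq_zero_of {N : GM 𝒜} {m : N.M} {c : A} {x : ProjectiveSpectrum.top 𝒜} (hc : c ∈ pc x)
    (h : c • m = 0) (a : pc x) : (LocalizedModule.mk m a : Lo N x) = 0 := by
  rw [← LocalizedModule.zero_mk 1, LocalizedModule.mk_eq]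
  refine ⟨⟨c, hc⟩, ?_⟩
  change c • (1 : A) • m = c • (a : A) • (0 : N.M)
  simpa using h

lemma mk_cancel {N : GM 𝒜} {m : N.M} {c a : A} {x : ProjectiveSpectrum.top 𝒜} (hc : c ∈ pc x)
    (ha : a ∈ pc x) : (LocalizedModule.mk (c • m) ⟨c * a, (pc x).mul_mem hc ha⟩ : Lo N x) =
      LocalizedModule.mk m ⟨a, ha⟩ := by
  rw [LocalizedModule.mk_eq]
  refine ⟨1, ?_⟩
  change (1 : A) • a • c • m = (1 : A) • (c * a) • m
  rw [one_smul, one_smul, smul_smul, mul_comm]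

/-- A section given by a fraction. -/
lemma exists_section {N : GM 𝒜} {j : ℤ} (U : (Proj 𝒜).Opens) (n : ℕ) (m : N.M) (a : A)
    (hm : m ∈ N.deg (n + j)) (ha : a ∈ 𝒜 n) (hU : ∀ x ∈ U, a ∈ pc x) :
    ∃ s : Γ(til N j, U), ∀ x (hx : x ∈ U), vl s x hx = LocalizedModule.mk m ⟨a, hU x hx⟩ :=
  ⟨mkS N j U (fun x hx => LocalizedModule.mk m ⟨a, hU x hx⟩) fun x hx =>
    ⟨U, le_rfl, hx, n, m, a, hm, ha, fun y hy => ⟨hU y hy, rfl⟩⟩, fun x hx => rfl⟩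

lemma lmap_injective {N N' : GM 𝒜} (f : N.M →ₗ[A] N'.M) (hf : Function.Injective f)
    (x : ProjectiveSpectrum.top 𝒜) : Function.Injective (lmap f x) := by
  rw [injective_iff_map_eq_zero]
  intro s hs
  induction s using LocalizedModule.induction_on with
  | h m a =>
    rw [lmap_mk, ← LocalizedModule.zero_mk 1, LocalizedModule.mk_eq] at hs
    obtain ⟨u, hu⟩ := hs
    have hu' : f ((u : A) • m) = 0 := by
      have h2 : (u : A) • (1 : A) • f m = (u : A) • (a : A) • (0 : N'.M) := hu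
      rw [map_smul]
      simpa using h2
    exact mk_eq_zero_of u.2 (hf (by rw [hu', map_zero])) a

lemma mono_tmap {N N' : GM 𝒜} {e : ℤ} (f : GH N N' e) (hf : Function.Injective f.f) {j j' : ℤ}
    (h : j' = j + e) : Mono (tmap f h) := by
  apply mono_of_ap_injective
  intro U s t hst
  apply vl_ext
  intro x hx
  apply lmap_injective f.f hf x
  rw [← vl_tmap f h, ← vl_tmap f h, hst]

/-- Local surjectivity. -/
def LSurj {N N' : GM 𝒜} {e : ℤ} (f : GH N N' e) : Prop :=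
  ∀ (x : ProjectiveSpectrum.top 𝒜) (i : ℤ) (m' : N'.M), m' ∈ N'.deg i →
    ∃ (l : ℕ) (c : A) (m : N.M), c ∈ 𝒜 l ∧ c ∈ pc x ∧ m ∈ N.deg (l + i - e) ∧ f.f m = c • m'

lemma epi_tmap {N N' : GM 𝒜} {e : ℤ} (f : GH N N' e) (hf : LSurj f) {j j' : ℤ}
    (h : j' = j + e) : Epi (tmap f h) := by
  apply epi_of_locally_surj
  intro U s x hx
  obtain ⟨V, hV, hxV, n, m', a, h2, h3, h4⟩ := exists_frac s x hx
  obtain ⟨l, c, m, hc, hcx, hm, hfm⟩ := hf x _ m' h2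
  obtain ⟨t, ht⟩ := exists_section (N := N) (j := j) (V ⊓ Dp c) (l + n) m (c * a) (by
    have e1 : ((l + n : ℕ) : ℤ) + j = l + (n + j') - e := by rw [h]; push_cast; ring
    rwa [e1]) (SetLike.mul_mem_graded hc h3) (fun y hy => (pc y).mul_mem hy.2 (h4 y hy.1).choose)
  refine ⟨V ⊓ Dp c, inf_le_left.trans hV, ⟨hxV, hcx⟩, t, ?_⟩
  apply vl_ext
  intro y hy
  obtain ⟨h5, h6⟩ := h4 y hy.1
  rw [vl_tmap, ht y hy, lmap_mk, vl_rs, hfm]
  exact (mk_cancel hy.2 h5).trans h6.symm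

/-- Local exactness. -/
def LExact {N₁ N₂ N₃ : GM 𝒜} {e₁ e₂ : ℤ} (f : GH N₁ N₂ e₁) (g : GH N₂ N₃ e₂) : Prop :=
  ∀ (x : ProjectiveSpectrum.top 𝒜) (i : ℤ) (m : N₂.M), m ∈ N₂.deg i → g.f m = 0 →
    ∃ (l : ℕ) (c : A) (m₁ : N₁.M), c ∈ 𝒜 l ∧ c ∈ pc x ∧ m₁ ∈ N₁.deg (l + i - e₁) ∧
      f.f m₁ = c • m

lemma tmap_comp_zero {N₁ N₂ N₃ : GM 𝒜} {e₁ e₂ : ℤ} (f : GH N₁ N₂ e₁) (g : GH N₂ N₃ e₂)
    (h0 : ∀ m, g.f (f.f m) = 0) {j₁ j₂ j₃ : ℤ} (h₁ : j₂ = j₁ + e₁) (h₂ : j₃ = j₂ + e₂) :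
    tmap f h₁ ≫ tmap g h₂ = 0 := by
  apply ap_ext
  intro U s
  apply vl_ext
  intro x hx
  rw [ap_comp, vl_tmap, vl_tmap, ap_zero, vl_zero]
  induction (vl s x hx) using LocalizedModule.induction_on with
  | h m a => rw [lmap_mk, lmap_mk, h0, LocalizedModule.zero_mk]

lemma exact_tmap {N₁ N₂ N₃ : GM 𝒜} [IsGr N₃] {e₁ e₂ : ℤ} (f : GH N₁ N₂ e₁) (g : GH N₂ N₃ e₂)
    (hfg : LExact f g) {j₁ j₂ j₃ : ℤ} (h₁ : j₂ = j₁ + e₁) (h₂ : j₃ = j₂ + e₂)
    (w : tmap f h₁ ≫ tmap g h₂ = 0) :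
    (ShortComplex.mk (tmap f h₁) (tmap g h₂) w).Exact := by
  apply exact_of_local_lift
  intro U s hs x hx
  obtain ⟨V, hV, hxV, n, m, a, h3, h4, h5⟩ := exists_frac s x hx
  have h6 : (LocalizedModule.mk (g.f m) ⟨a, (h5 x hxV).choose⟩ : Lo N₃ x) = 0 := by
    rw [← lmap_mk, ← (h5 x hxV).choose_spec, ← vl_tmap g h₂]
    exact congrArg (fun z => vl z x hx) hs
  obtain ⟨l, c, hc, hcx, hcm⟩ := exists_hom_ann (g.map_deg h3) x _ h6
  have h7 : g.f (c • m) = 0 := by rw [map_smul, hcm]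
  obtain ⟨l', c', m₁, hc', hcx', hm₁, hfm⟩ := hfg x _ (c • m) (N₂.smul_mem hc h3) h7
  obtain ⟨t, ht⟩ := exists_section (N := N₁) (j := j₁) (V ⊓ Dp (c' * c)) (l' + l + n) m₁
    ((c' * c) * a) (by
    have e1 : ((l' + l + n : ℕ) : ℤ) + j₁ = l' + (l + (n + j₂)) - e₁ := by rw [h₁]; push_cast; ring
    rwa [e1]) (SetLike.mul_mem_graded (SetLike.mul_mem_graded hc' hc) h4)
    (fun y hy => (pc y).mul_mem hy.2 (h5 y hy.1).choose)
  refine ⟨V ⊓ Dp (c' * c), inf_le_left.trans hV, ⟨hxV, (pc x).mul_mem hcx' hcx⟩, t, ?_⟩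
  apply vl_ext
  intro y hy
  obtain ⟨h8, h9⟩ := h5 y hy.1
  rw [vl_tmap, ht y hy, lmap_mk, hfm, smul_smul]
  exact (mk_cancel hy.2 h8).trans h9.symm

end

end Pool.Agent.N212
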