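import Pool.Agent.N212.A0
import Pool.Agent.N212.T3

set_option autoImplicit false
set_option linter.unusedVariables false

/-!
Generic values of sections.
-/

open CategoryTheory Limits TopologicalSpace AlgebraicGeometry Opposite TopCat

namespace Pool.Agent.N212

noncomputable section

set_option backward.isDefEq.respectTransparency false

open Pool.Agent.W506

attribute [local instance] MvPolynomial.gradedAlgebra

section HomZ

variable {k : Type} [Field k] {S : Type} [CommRing S] [Algebra k S]
  (𝒮 : ℕ → Submodule k S) [GradedAlgebra 𝒮]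

/-- The homogeneous elements of integral degree. -/
def homZ (i : ℤ) : Submodule k S where
  carrier := {a | ∀ n : ℕ, (n : ℤ) ≠ i → (DirectSum.decompose 𝒮 a n : S) = 0}
  add_mem' := by
    intro a b ha hb n hn
    rw [DirectSum.decompose_add, DirectSum.add_apply]
    push_cast
    rw [ha n hn, hb n hn, add_zero]
  zero_mem' := by
    intro n hn
    rw [DirectSum.decompose_zero]
    rfl
  smul_mem' := by
    intro c a ha n hn
    rw [DirectSum.decompose_smul, DirectSum.smul_apply]
    push_cast
    rw [ha n hn, smul_zero]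

variable {𝒮}

lemma mem_homZ {i : ℤ} {a : S} : a ∈ homZ 𝒮 i ↔
    ∀ n : ℕ, (n : ℤ) ≠ i → (DirectSum.decompose 𝒮 a n : S) = 0 := Iff.rfl

lemma mem_homZ_nat {n : ℕ} {a : S} : a ∈ homZ 𝒮 (n : ℤ) ↔ a ∈ 𝒮 n := by
  classical
  constructor
  · intro h
    rw [← DirectSum.sum_support_decompose 𝒮 a]
    refine sum_mem fun m _ => ?_
    by_cases hm : m = n
    · subst hm
      exact SetLike.coe_mem _
    · rw [h m (by exact_mod_cast hm)]
      exact zero_mem _
  · intro h m hm
    exact DirectSum.decompose_of_mem_ne 𝒮 h (fun e => hm (by rw [e]))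

lemma mul_mem_homZ {i : ℕ} {j : ℤ} {a m : S} (ha : a ∈ 𝒮 i) (hm : m ∈ homZ 𝒮 j) :
    a * m ∈ homZ 𝒮 (i + j) := by
  intro n hn
  by_cases h : i ≤ n
  · rw [DirectSum.coe_decompose_mul_of_left_mem_of_le 𝒮 ha h, hm (n - i) (by
      intro e
      apply hn
      rw [← e]
      push_cast [h]
      ring), mul_zero]
  · exact DirectSum.coe_decompose_mul_of_left_mem_of_not_le 𝒮 ha h

lemma mul_mem_homZ' {i j : ℤ} {a m : S} (ha : a ∈ homZ 𝒮 i) (hm : m ∈ homZ 𝒮 j) :
    a * m ∈ homZ 𝒮 (i + j) := by
  by_cases h : 0 ≤ i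
  · obtain ⟨n, rfl⟩ := Int.eq_ofNat_of_zero_le h
    exact mul_mem_homZ (mem_homZ_nat.1 ha) hm
  · have h0 : a = 0 := by
      classical
      rw [← DirectSum.sum_support_decompose 𝒮 a]
      exact Finset.sum_eq_zero fun n _ => ha n (by lia)
    rw [h0, zero_mul]
    exact zero_mem _

lemma homZ_neg {i : ℤ} (hi : i < 0) {a : S} (ha : a ∈ homZ 𝒮 i) : a = 0 := by
  classical
  rw [← DirectSum.sum_support_decompose 𝒮 a]
  exact Finset.sum_eq_zero fun n _ => ha n (by lia)

lemma homZ_of_mul [IsDomain S] {l : ℕ} {i : ℤ} {a m : S} (ha : a ∈ 𝒮 l) (h0 : a ≠ 0)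
    (h : a * m ∈ homZ 𝒮 (l + i)) : m ∈ homZ 𝒮 i := by
  intro n hn
  have h1 := h (l + n) (by push_cast; intro e; exact hn (by linarith))
  rw [DirectSum.coe_decompose_mul_add_of_left_mem 𝒮 ha] at h1
  exact (mul_eq_zero.1 h1).resolve_left h0

end HomZ

/-- The projective spectrum. -/
abbrev PrA {k A : Type} [Field k] [CommRing A] [Algebra k A] (𝒜 : Fam k A) [GrA 𝒜] :
    Scheme.{0} := Proj 𝒜

/-- The scheme. -/
abbrev Zs (k : Type) [Field k] : Scheme.{0} := PrA (cg k)

variable (k : Type) [Field k]

/-- The graded algebra as a graded module. -/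
def GA : GM (cg k) where
  M := cu k
  deg i := (homZ (cg k) i).toAddSubgroup
  smul_mem ha hm := mul_mem_homZ ha hm

/-- The polynomial ring as a graded module. -/
def GS : GM (cg k) where
  M := P k
  deg i := (homZ (PH k) i).toAddSubgroup
  smul_mem ha hm := mul_mem_homZ (𝒮 := PH k) ha hm

variable {k}

instance : IsGr (GA k) where
  comp_smul := by
    intro i m hm c hc n
    have e : c * (show cu k from m) = 0 := hc
    rcases mul_eq_zero.1 e with h | h
    · subst h
      rw [DirectSum.decompose_zero]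
      exact zero_smul _ _
    · have h' : m = 0 := h
      rw [h', smul_zero]

instance : IsGr (GS k) where
  comp_smul := by
    intro i m hm c hc n
    have e : (c : P k) * (show P k from m) = 0 := hc
    rcases mul_eq_zero.1 e with h | h
    · have h' : c = 0 := Subtype.ext h
      subst h'
      rw [DirectSum.decompose_zero]
      exact zero_smul _ _
    · have h' : m = 0 := h
      rw [h', smul_zero]

end

end Pool.Agent.N212
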