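import Pool.Agent.N212.A2
import Pool.Agent.N212.T4

set_option autoImplicit false
set_option linter.unusedVariables false

/-!
Polynomial computations for the Cech complex.
-/

open MvPolynomial

namespace Pool.Agent.N212

noncomputable section

attribute [local instance] MvPolynomial.gradedAlgebra

section CompZ

variable {k : Type} [Field k] {S : Type} [CommRing S] [Algebra k S]
  (𝒮 : ℕ → Submodule k S) [GradedAlgebra 𝒮]

/-- The homogeneous component of integral degree. -/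
def compZ (i : ℤ) (p : S) : S := if 0 ≤ i then (DirectSum.decompose 𝒮 p i.toNat : S) else 0

variable {𝒮}

lemma compZ_mem (i : ℤ) (p : S) : compZ 𝒮 i p ∈ homZ 𝒮 i := by
  rw [compZ]
  split_ifs with h
  · obtain ⟨n, rfl⟩ := Int.eq_ofNat_of_zero_le h
    exact mem_homZ_nat.2 (SetLike.coe_mem _)
  · exact zero_mem _

lemma compZ_of_mem {i : ℤ} {p : S} (hp : p ∈ homZ 𝒮 i) : compZ 𝒮 i p = p := by
  rw [compZ]
  split_ifs with h
  · obtain ⟨n, rfl⟩ := Int.eq_ofNat_of_zero_le h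
    exact DirectSum.decompose_of_mem_same 𝒮 (mem_homZ_nat.1 hp)
  · exact (homZ_neg (not_le.1 h) hp).symm

lemma compZ_add (i : ℤ) (p q : S) : compZ 𝒮 i (p + q) = compZ 𝒮 i p + compZ 𝒮 i q := by
  rw [compZ, compZ, compZ]
  split_ifs with h
  · rw [DirectSum.decompose_add, DirectSum.add_apply]
    rfl
  · rw [add_zero]

lemma compZ_mul {d : ℕ} {f : S} (hf : f ∈ 𝒮 d) (i : ℤ) (p : S) :
    compZ 𝒮 i (f * p) = f * compZ 𝒮 (i - d) p := by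
  rw [compZ, compZ]
  split_ifs with h h' h'
  · obtain ⟨n, rfl⟩ := Int.eq_ofNat_of_zero_le h
    have e : ((n : ℤ)).toNat - d = ((n : ℤ) - d).toNat := by lia
    rw [DirectSum.coe_decompose_mul_of_left_mem_of_le 𝒮 hf (show d ≤ ((n : ℤ)).toNat by lia), e]
  · obtain ⟨n, rfl⟩ := Int.eq_ofNat_of_zero_le h
    rw [DirectSum.coe_decompose_mul_of_left_mem_of_not_le 𝒮 hf (show ¬ d ≤ ((n : ℤ)).toNat by lia),
      mul_zero]
  · lia
  · rw [mul_zero]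

lemma hom_coeff₂ {i : ℤ} {a f₁ f₂ p₁ p₂ : S} {d₁ d₂ : ℕ} (ha : a ∈ homZ 𝒮 i) (h₁ : f₁ ∈ 𝒮 d₁)
    (h₂ : f₂ ∈ 𝒮 d₂) (h : a = f₁ * p₁ + f₂ * p₂) :
    ∃ q₁ q₂, q₁ ∈ homZ 𝒮 (i - d₁) ∧ q₂ ∈ homZ 𝒮 (i - d₂) ∧ a = f₁ * q₁ + f₂ * q₂ := by
  refine ⟨_, _, compZ_mem (i - d₁) p₁, compZ_mem (i - d₂) p₂, ?_⟩
  rw [← compZ_mul h₁, ← compZ_mul h₂, ← compZ_add, ← h, compZ_of_mem ha]

lemma hom_coeff₃ {i : ℤ} {a f₁ f₂ f₃ p₁ p₂ p₃ : S} {d₁ d₂ d₃ : ℕ} (ha : a ∈ homZ 𝒮 i)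
    (h₁ : f₁ ∈ 𝒮 d₁) (h₂ : f₂ ∈ 𝒮 d₂) (h₃ : f₃ ∈ 𝒮 d₃) (h : a = f₁ * p₁ + f₂ * p₂ + f₃ * p₃) :
    ∃ q₁ q₂ q₃, q₁ ∈ homZ 𝒮 (i - d₁) ∧ q₂ ∈ homZ 𝒮 (i - d₂) ∧ q₃ ∈ homZ 𝒮 (i - d₃) ∧
      a = f₁ * q₁ + f₂ * q₂ + f₃ * q₃ := by
  refine ⟨_, _, _, compZ_mem (i - d₁) p₁, compZ_mem (i - d₂) p₂, compZ_mem (i - d₃) p₃, ?_⟩
  rw [← compZ_mul h₁, ← compZ_mul h₂, ← compZ_mul h₃, ← compZ_add, ← compZ_add, ← h,
    compZ_of_mem ha]

end CompZ

variable {k : Type} [Field k]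

/-- The section of degree eight as a polynomial. -/
abbrev VV (k : Type) [Field k] : P k := hh k ^ 2 * X 0 ^ 2

lemma VV_mem : VV k ∈ PH k 8 := vv_mem

lemma mem_xz (N : ℕ) {a : P k} (h : VV k ^ N * a ∈ Ideal.span {(X 1 ^ N : P k), X 2 ^ N}) :
    a ∈ Ideal.span {(X 1 ^ N : P k), X 2 ^ N} := by
  refine reg_span N N ?_ h
  rw [map_pow]
  exact monic_vv.pow N

/-- The ideal generated by three powers. -/
def I3 (k : Type) [Field k] (A B C : ℕ) : Ideal (P k) :=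
  Ideal.span {(X 1 ^ A : P k), X 2 ^ B, VV k ^ C}

lemma mem_I3 {A B C : ℕ} {f : P k} : f ∈ I3 k A B C ↔
    ∃ p q r, f = X 1 ^ A * p + X 2 ^ B * q + VV k ^ C * r := by
  rw [I3, Ideal.mem_span_insert]
  constructor
  · rintro ⟨p, z, hz, rfl⟩
    obtain ⟨q, r, rfl⟩ := Ideal.mem_span_pair.1 hz
    exact ⟨p, q, r, by ring⟩
  · rintro ⟨p, q, r, rfl⟩
    exact ⟨p, q * X 2 ^ B + r * VV k ^ C, Ideal.mem_span_pair.2 ⟨q, r, rfl⟩, by ring⟩

lemma mono_I3 (a : ℕ) : ∀ (b c A B C : ℕ), A + B + 8 * C ≤ a + b + c + 2 →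
    (X 0 ^ a * X 1 ^ b * X 2 ^ c : P k) ∈ I3 k A B C := by
  induction a using Nat.strong_induction_on with
  | _ a ih =>
    intro b c A B C h
    by_cases hb : A ≤ b
    · refine mem_I3.2 ⟨X 0 ^ a * X 1 ^ (b - A) * X 2 ^ c, 0, 0, ?_⟩
      have : (X 1 ^ b : P k) = X 1 ^ A * X 1 ^ (b - A) := by rw [← pow_add]; congr 1; lia
      rw [this]
      ring
    by_cases hc : B ≤ c
    · refine mem_I3.2 ⟨0, X 0 ^ a * X 1 ^ b * X 2 ^ (c - B), 0, ?_⟩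
      have : (X 2 ^ c : P k) = X 2 ^ B * X 2 ^ (c - B) := by rw [← pow_add]; congr 1; lia
      rw [this]
      ring
    cases C with
    | zero => exact mem_I3.2 ⟨0, 0, X 0 ^ a * X 1 ^ b * X 2 ^ c, by ring⟩
    | succ C =>
      have ha : 8 ≤ a := by lia
      obtain ⟨a, rfl⟩ := Nat.exists_eq_add_of_le ha
      have e : (X 0 ^ (8 + a) * X 1 ^ b * X 2 ^ c : P k) =
          VV k * (X 0 ^ a * X 1 ^ b * X 2 ^ c) +
          (-(2 * (X 0 ^ (a + 5) * X 1 ^ (b + 3) * X 2 ^ c)) +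
          -(2 * (X 0 ^ (a + 5) * X 1 ^ b * X 2 ^ (c + 3))) +
          -(X 0 ^ (a + 2) * X 1 ^ (b + 6) * X 2 ^ c) +
          -(2 * (X 0 ^ (a + 2) * X 1 ^ (b + 3) * X 2 ^ (c + 3))) +
          -(X 0 ^ (a + 2) * X 1 ^ b * X 2 ^ (c + 6))) := by
        rw [VV, hh]
        ring
      rw [e]
      refine add_mem ?_ (add_mem (add_mem (add_mem (add_mem ?_ ?_) ?_) ?_) ?_)
      · obtain ⟨p, q, r, hpqr⟩ := mem_I3.1 (ih a (by lia) b c A B C (by lia))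
        rw [hpqr]
        exact mem_I3.2 ⟨VV k * p, VV k * q, r, by ring⟩
      · exact neg_mem (Ideal.mul_mem_left _ _ (ih _ (by lia) _ _ _ _ _ (by lia)))
      · exact neg_mem (Ideal.mul_mem_left _ _ (ih _ (by lia) _ _ _ _ _ (by lia)))
      · exact neg_mem (ih _ (by lia) _ _ _ _ _ (by lia))
      · exact neg_mem (Ideal.mul_mem_left _ _ (ih _ (by lia) _ _ _ _ _ (by lia)))
      · exact neg_mem (ih _ (by lia) _ _ _ _ _ (by lia))

lemma monomial_eq' (d : Fin 3 →₀ ℕ) (c : k) :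
    monomial d c = C c * (X 0 ^ d 0 * X 1 ^ d 1 * X 2 ^ d 2) := by
  rw [monomial_eq, Finsupp.prod_fintype _ _ (by simp), Fin.prod_univ_three]

/-- The surjectivity at the triple intersection. -/
lemma hom_I3 {D A B C : ℕ} (h : A + B + 8 * C ≤ D + 2) {f : P k} (hf : f ∈ PH k D) :
    f ∈ I3 k A B C := by
  rw [← support_sum_monomial_coeff f]
  refine sum_mem fun d hd => ?_
  have hdeg : d 0 + d 1 + d 2 = D := by
    have h1 := hf (mem_support_iff.1 hd)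
    have h2 : d.degree = D := by
      rw [← h1, Finsupp.degree_eq_weight_one]
      rfl
    rw [← h2, Finsupp.degree_eq_sum, Fin.sum_univ_three]
  rw [monomial_eq']
  exact Ideal.mul_mem_left _ _ (mono_I3 _ _ _ _ _ _ (by lia))

lemma not_X_dvd {i j : Fin 3} (hij : i ≠ j) (n : ℕ) : ¬ (X i : P k) ∣ X j ^ n := by
  intro h
  have h1 := (X_prime (R := k) (i := i)).dvd_of_dvd_pow h
  rw [X_dvd_X] at h1
  exact hij h1

lemma X_pow_dvd {i j : Fin 3} (hij : i ≠ j) (n m : ℕ) {f : P k}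
    (h : (X i ^ n : P k) ∣ X j ^ m * f) : X i ^ n ∣ f :=
  (X_prime (R := k) (i := i)).pow_dvd_of_dvd_mul_left n (not_X_dvd hij m) h

end

end Pool.Agent.N212
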