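import Pool.Agent.R924.D3

set_option autoImplicit false
set_option linter.unusedVariables false

/-!
The class of modules without higher cohomology with respect to a line bundle, on a scheme with
three charts.
-/

open CategoryTheory Limits TopologicalSpace AlgebraicGeometry Opposite

namespace Pool.Agent.N212

noncomputable section

set_option backward.isDefEq.respectTransparency false

open Pool.Agent.W506 Pool.Agent.R924

variable {X : Scheme.{0}} (F : Frame X (Fin 3))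

/-- The triple intersection. -/
abbrev WW : X.Opens := (F.U 0 ⊓ F.U 1) ⊓ F.U 2

lemma w01 : WW F ≤ F.U 0 ⊓ F.U 1 := inf_le_left

lemma w02 : WW F ≤ F.U 0 ⊓ F.U 2 := inf_le_inf_right _ inf_le_left

lemma w12 : WW F ≤ F.U 1 ⊓ F.U 2 := inf_le_inf_right _ inf_le_right

variable {F}

/-- The modules without higher cohomology. -/
structure Cls (δ : F.Div) (N : X.Modules) : Prop where
  sum : ∀ j, SumOn N (F.U j)
  c1 : ∀ (s₀₁ : Γ(N, F.U 0 ⊓ F.U 1)) (s₀₂ : Γ(N, F.U 0 ⊓ F.U 2)) (s₁₂ : Γ(N, F.U 1 ⊓ F.U 2)),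
    rs N (w02 F) s₀₂ = rs N (w12 F) s₁₂ + ro (w12 F) (Frame.tr δ 1 2) • rs N (w01 F) s₀₁ →
    ∃ t : ∀ j, Γ(N, F.U j),
      s₀₁ = rs N inf_le_right (t 1) - Frame.tr δ 0 1 • rs N inf_le_left (t 0) ∧
      s₀₂ = rs N inf_le_right (t 2) - Frame.tr δ 0 2 • rs N inf_le_left (t 0) ∧
      s₁₂ = rs N inf_le_right (t 2) - Frame.tr δ 1 2 • rs N inf_le_left (t 1)
  c2 : ∀ s : Γ(N, WW F), ∃ (a₀₁ : Γ(N, F.U 0 ⊓ F.U 1)) (a₀₂ : Γ(N, F.U 0 ⊓ F.U 2))
    (a₁₂ : Γ(N, F.U 1 ⊓ F.U 2)),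
    s = rs N (w02 F) a₀₂ + rs N (w12 F) a₁₂ + ro (w12 F) (Frame.tr δ 1 2) • rs N (w01 F) a₀₁

lemma tr_self (δ : F.Div) (i : Fin 3) : Frame.tr δ i i = 1 := by
  apply F.inj₂ i i
  rw [Frame.ro_tr, mul_inv_cancel, Units.val_one, map_one]

lemma tr_cocycle (δ : F.Div) (i j l : Fin 3) {V : X.Opens} (hij : V ≤ F.U i ⊓ F.U j)
    (hjl : V ≤ F.U j ⊓ F.U l) (hil : V ≤ F.U i ⊓ F.U l) :
    ro hjl (Frame.tr δ j l) * ro hij (Frame.tr δ i j) = ro hil (Frame.tr δ i l) := by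
  have h0 : ro (le_inf (inf_le_left.trans inf_le_right) inf_le_right :
        (F.U i ⊓ F.U j) ⊓ F.U l ≤ F.U j ⊓ F.U l) (Frame.tr δ j l) *
      ro (inf_le_left : (F.U i ⊓ F.U j) ⊓ F.U l ≤ _) (Frame.tr δ i j) =
      ro (le_inf (inf_le_left.trans inf_le_left) inf_le_right :
        (F.U i ⊓ F.U j) ⊓ F.U l ≤ F.U i ⊓ F.U l) (Frame.tr δ i l) := by
    apply F.inj i j l
    rw [map_mul, ro_ro, ro_ro, ro_ro, Frame.ro_tr, Frame.ro_tr, Frame.ro_tr, ← Units.val_mul]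
    congr 1
    rw [mul_assoc, inv_mul_cancel_left]
  have hV : V ≤ (F.U i ⊓ F.U j) ⊓ F.U l := le_inf hij (hjl.trans inf_le_right)
  have h1 := congrArg (ro hV) h0
  rwa [map_mul, ro_ro, ro_ro, ro_ro] at h1

lemma compat_symm (δ : F.Div) {N : X.Modules} (t : ∀ j, Γ(N, F.U j)) {j l : Fin 3}
    (h : rs N (inf_le_right : F.U j ⊓ F.U l ≤ F.U l) (t l) =
      Frame.tr δ j l • rs N (inf_le_left : F.U j ⊓ F.U l ≤ F.U j) (t j)) :
    rs N (inf_le_right : F.U l ⊓ F.U j ≤ F.U j) (t j) =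
      Frame.tr δ l j • rs N (inf_le_left : F.U l ⊓ F.U j ≤ F.U l) (t l) := by
  have hle : F.U l ⊓ F.U j ≤ F.U j ⊓ F.U l := le_inf inf_le_right inf_le_left
  have h1 := congrArg (rs N hle) h
  rw [rs_smul, rs_rs, rs_rs] at h1
  rw [h1, smul_smul]
  have h2 := tr_cocycle δ j l j hle le_rfl (le_inf inf_le_right inf_le_right)
  rw [ro_refl, tr_self, map_one] at h2
  rw [h2, one_smul]

lemma compat_of (δ : F.Div) {N : X.Modules} (t : ∀ j, Γ(N, F.U j))
    (h01 : rs N inf_le_right (t 1) = Frame.tr δ 0 1 • rs N inf_le_left (t 0))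
    (h02 : rs N inf_le_right (t 2) = Frame.tr δ 0 2 • rs N inf_le_left (t 0))
    (h12 : rs N inf_le_right (t 2) = Frame.tr δ 1 2 • rs N inf_le_left (t 1)) :
    Compat F.U (Frame.tr δ) t := by
  have hd : ∀ j, rs N (inf_le_right : F.U j ⊓ F.U j ≤ F.U j) (t j) =
      Frame.tr δ j j • rs N (inf_le_left : F.U j ⊓ F.U j ≤ F.U j) (t j) := by
    intro j
    rw [tr_self, one_smul]
  intro j l
  fin_cases j <;> fin_cases l
  · exact hd 0
  · exact h01
  · exact h02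
  · exact compat_symm δ t h01
  · exact hd 1
  · exact h12
  · exact compat_symm δ t h02
  · exact compat_symm δ t h12
  · exact hd 2

variable {α : F.Div} (A : Frame.Ample F α)

include A in
lemma isAffine_WW : IsAffineOpen (WW F) := by
  have h1 : X.basicOpen (ro (inf_le_right : F.U 0 ⊓ F.U 1 ≤ F.U 1) (A.co 1 2)) = WW F := by
    rw [basicOpen_ro, A.basicOpen_co, ← inf_assoc]
    congr 1
    exact inf_eq_left.2 inf_le_right
  rw [← h1]
  exact (A.isAffineOpen_inf 0 1).basicOpen _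

section SES

variable (S : ShortComplex X.Modules) (hS : S.ShortExact) {δ : F.Div}

include hS in
lemma ses_lift {U V : X.Opens} (hsum : SumOn S.X₁ V) (hU : IsAffineOpen U) (hle : U ≤ V)
    (s : Γ(S.X₃, U)) : ∃ t, ap S.g U t = s :=
  ap_surjective_of_sumOn S hS hsum hU hle s

include A hS in
/-- Lifting of morphisms from the line bundle. -/
theorem Cls.lift (h : Cls δ S.X₁) (q : Frame.lb δ ⟶ S.X₃) : ∃ g : Frame.lb δ ⟶ S.X₂,
    g ≫ S.g = q := by
  have := hS.mono_f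
  have hz : ∀ (U : X.Opens) (a : Γ(S.X₁, U)), ap S.g U (ap S.f U a) = 0 := by
    intro U a
    rw [← ap_comp, S.zero]
    rfl
  have h1 : ∀ j, ∃ t, ap S.g (F.U j) t = ap q _ (Frame.lbE δ j) := fun j =>
    ses_lift S hS (h.sum j) (A.aff j) le_rfl _
  choose g hg using h1
  have h2 : ∀ j l, ∃ f, ap S.f (F.U j ⊓ F.U l) f = rs _ inf_le_right (g l) -
      Frame.tr δ j l • rs _ inf_le_left (g j) := by
    intro j l
    apply ap_exact S hS.exact
    rw [map_sub, map_smul, ap_rs, ap_rs, hg, hg, sub_eq_zero, ← ap_rs, ← ap_rs,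
      Frame.lb_compat δ j l, map_smul]
  choose f hf using h2
  obtain ⟨t, ht01, ht02, ht12⟩ := h.c1 (f 0 1) (f 0 2) (f 1 2) (by
    apply ap_injective S.f
    rw [map_add, map_smul, ap_rs, ap_rs, ap_rs, hf, hf, hf, map_sub, map_sub, map_sub, rs_smul,
      rs_smul, rs_smul, rs_rs, rs_rs, rs_rs, rs_rs, rs_rs, rs_rs, smul_sub, smul_smul,
      tr_cocycle δ 0 1 2 (w01 F) (w12 F) (w02 F)]
    abel)
  obtain ⟨φ, hφ⟩ := Frame.lb_hom δ S.X₂ (fun j => g j - ap S.f _ (t j)) (by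
    have key : ∀ j l, f j l = rs _ inf_le_right (t l) - Frame.tr δ j l • rs _ inf_le_left (t j) →
        rs _ (inf_le_right : F.U j ⊓ F.U l ≤ F.U l) (g l - ap S.f _ (t l)) =
        Frame.tr δ j l • rs _ (inf_le_left : F.U j ⊓ F.U l ≤ F.U j) (g j - ap S.f _ (t j)) := by
      intro j l hjl
      have h3 := hf j l
      rw [hjl, map_sub, map_smul, ap_rs, ap_rs] at h3
      rw [map_sub, map_sub, smul_sub, sub_eq_sub_iff_sub_eq_sub, ← h3]
    exact compat_of δ _ (key 0 1 ht01) (key 0 2 ht02) (key 1 2 ht12))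
  refine ⟨φ, Frame.lb_ext δ fun j => ?_⟩
  rw [ap_comp, hφ, map_sub, hg, hz, sub_zero]

include A hS in
/-- Quotients. -/
theorem Cls.coker (h₁ : Cls δ S.X₁) (h₂ : Cls δ S.X₂) : Cls δ S.X₃ where
  sum j := sumOn_coker S hS (h₁.sum j) (h₂.sum j)
  c1 := by
    intro s₀₁ s₀₂ s₁₂ hs
    obtain ⟨g₀₁, rfl⟩ := ses_lift S hS (h₁.sum 0) (A.isAffineOpen_inf 0 1) inf_le_left s₀₁
    obtain ⟨g₀₂, rfl⟩ := ses_lift S hS (h₁.sum 0) (A.isAffineOpen_inf 0 2) inf_le_left s₀₂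
    obtain ⟨g₁₂, rfl⟩ := ses_lift S hS (h₁.sum 1) (A.isAffineOpen_inf 1 2) inf_le_left s₁₂
    have := hS.mono_f
    have hz : ∀ (U : X.Opens) (a : Γ(S.X₁, U)), ap S.g U (ap S.f U a) = 0 := by
      intro U a
      rw [← ap_comp, S.zero]
      rfl
    obtain ⟨e, he⟩ := ap_exact S hS.exact (WW F) (rs _ (w02 F) g₀₂ - rs _ (w12 F) g₁₂ -
      ro (w12 F) (Frame.tr δ 1 2) • rs _ (w01 F) g₀₁) (by
        rw [map_sub, map_sub, map_smul, ap_rs, ap_rs, ap_rs, hs]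
        abel)
    obtain ⟨a₀₁, a₀₂, a₁₂, ha⟩ := h₁.c2 e
    obtain ⟨t, h01, h02, h12⟩ := h₂.c1 (g₀₁ + ap S.f _ a₀₁) (g₀₂ - ap S.f _ a₀₂)
      (g₁₂ + ap S.f _ a₁₂) (by
        have h3 := congrArg (ap S.f (WW F)) ha
        rw [he, map_add, map_add, map_smul, ap_rs, ap_rs, ap_rs] at h3
        rw [map_sub, map_add, map_add, smul_add]
        have h4 : rs _ (w02 F) g₀₂ = (rs _ (w02 F) (ap S.f _ a₀₂) + rs _ (w12 F) (ap S.f _ a₁₂) +
          ro (w12 F) (Frame.tr δ 1 2) • rs _ (w01 F) (ap S.f _ a₀₁)) + rs _ (w12 F) g₁₂ +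
          ro (w12 F) (Frame.tr δ 1 2) • rs _ (w01 F) g₀₁ := by
          rw [← h3]
          abel
        rw [h4]
        abel)
    refine ⟨fun j => ap S.g _ (t j), ?_, ?_, ?_⟩
    · have h5 := congrArg (ap S.g _) h01
      rw [map_add, hz, add_zero, map_sub, map_smul, ap_rs, ap_rs] at h5
      exact h5
    · have h5 := congrArg (ap S.g _) h02
      rw [map_sub, hz, sub_zero, map_sub, map_smul, ap_rs, ap_rs] at h5
      exact h5
    · have h5 := congrArg (ap S.g _) h12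
      rw [map_add, hz, add_zero, map_sub, map_smul, ap_rs, ap_rs] at h5
      exact h5
  c2 := by
    intro s
    obtain ⟨g, rfl⟩ := ses_lift S hS (h₁.sum 2) (isAffine_WW A) inf_le_right s
    obtain ⟨a₀₁, a₀₂, a₁₂, ha⟩ := h₂.c2 g
    refine ⟨ap S.g _ a₀₁, ap S.g _ a₀₂, ap S.g _ a₁₂, ?_⟩
    rw [ha, map_add, map_add, map_smul, ap_rs, ap_rs, ap_rs]

end SES

theorem cls_of_flasque (δ : F.Div) {N : X.Modules} (hN : Flasque N) : Cls δ N where
  sum j := sumOn_of_flasque hN _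
  c1 := by
    intro s₀₁ s₀₂ s₁₂ hs
    obtain ⟨t₁, ht₁⟩ := hN (F.U 1) (F.U 0 ⊓ F.U 1) inf_le_right s₀₁
    obtain ⟨r, hr₁, hr₂⟩ := exists_glue₂ (M := N)
      (le_sup_left : F.U 0 ⊓ F.U 2 ≤ (F.U 0 ⊓ F.U 2) ⊔ (F.U 1 ⊓ F.U 2)) le_sup_right le_rfl
      s₀₂ (s₁₂ + Frame.tr δ 1 2 • rs N inf_le_left t₁) (by
        have hle : (F.U 0 ⊓ F.U 2) ⊓ (F.U 1 ⊓ F.U 2) ≤ WW F :=
          le_inf (le_inf (inf_le_left.trans inf_le_left) (inf_le_right.trans inf_le_left))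
            (inf_le_left.trans inf_le_right)
        have h1 := congrArg (rs N hle) hs
        rw [← ht₁] at h1
        simp only [map_add, rs_smul, rs_rs, ro_ro] at h1 ⊢
        exact h1)
    obtain ⟨t₂, ht₂⟩ := hN (F.U 2) ((F.U 0 ⊓ F.U 2) ⊔ (F.U 1 ⊓ F.U 2))
      (sup_le inf_le_right inf_le_right) r
    refine ⟨fun j => match j with | 0 => 0 | 1 => t₁ | 2 => t₂, ?_, ?_, ?_⟩
    · change s₀₁ = rs N inf_le_right t₁ - Frame.tr δ 0 1 • rs N inf_le_left 0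
      rw [map_zero, smul_zero, sub_zero, ht₁]
    · change s₀₂ = rs N inf_le_right t₂ - Frame.tr δ 0 2 • rs N inf_le_left 0
      rw [map_zero, smul_zero, sub_zero, ← hr₁, ← ht₂, rs_rs]
    · change s₁₂ = rs N inf_le_right t₂ - Frame.tr δ 1 2 • rs N inf_le_left t₁
      rw [← ht₂, rs_rs] at hr₂
      rw [hr₂]
      abel
  c2 := by
    intro s
    obtain ⟨a, ha⟩ := hN (F.U 0 ⊓ F.U 2) (WW F) (w02 F) s
    exact ⟨0, a, 0, by rw [ha, map_zero, map_zero, smul_zero, add_zero, add_zero]⟩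

/-- Finite sums. -/
theorem cls_of_split (δ : F.Div) {N : X.Modules} {ι : Type} [Fintype ι] (M : ι → X.Modules)
    (p : ∀ a, N ⟶ M a) (i : ∀ a, M a ⟶ N) (hpi : ∑ a, p a ≫ i a = 𝟙 N)
    (h : ∀ a, Cls δ (M a)) : Cls δ N := by
  have key : ∀ (U : X.Opens) (s : Γ(N, U)), s = ∑ a, ap (i a) U (ap (p a) U s) := by
    intro U s
    have h1 : ap (∑ a, p a ≫ i a) U s = ∑ a, ap (i a) U (ap (p a) U s) := by
      have h2 : ∀ t : Finset ι, ap (∑ a ∈ t, p a ≫ i a) U s =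
          ∑ a ∈ t, ap (i a) U (ap (p a) U s) := by
        classical
        intro t
        induction t using Finset.induction_on with
        | empty => rw [Finset.sum_empty, Finset.sum_empty]; rfl
        | insert a t ha ih =>
          rw [Finset.sum_insert ha, Finset.sum_insert ha, ap_add, ih, ap_comp]
      exact h2 Finset.univ
    rw [hpi] at h1
    exact h1
  refine ⟨fun j => ?_, ?_, ?_⟩
  · intro W' hW' hle f g hfg n
    have h1 : ∀ a, ∃ (b : Γ(M a, X.basicOpen f)) (c : Γ(M a, X.basicOpen g)),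
        ap (p a) _ n = rs _ inf_le_left b + rs _ inf_le_right c := fun a =>
      (h a).sum j W' hW' hle f g hfg _
    choose b c hbc using h1
    refine ⟨∑ a, ap (i a) _ (b a), ∑ a, ap (i a) _ (c a), ?_⟩
    rw [key _ n, map_sum, map_sum, ← Finset.sum_add_distrib]
    refine Finset.sum_congr rfl fun a _ => ?_
    rw [hbc, map_add, ap_rs, ap_rs]
  · intro s₀₁ s₀₂ s₁₂ hs
    have h1 : ∀ a, ∃ t : ∀ j, Γ(M a, F.U j),
      ap (p a) _ s₀₁ = rs _ inf_le_right (t 1) - Frame.tr δ 0 1 • rs _ inf_le_left (t 0) ∧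
      ap (p a) _ s₀₂ = rs _ inf_le_right (t 2) - Frame.tr δ 0 2 • rs _ inf_le_left (t 0) ∧
      ap (p a) _ s₁₂ = rs _ inf_le_right (t 2) - Frame.tr δ 1 2 • rs _ inf_le_left (t 1) := by
      intro a
      apply (h a).c1
      rw [← ap_rs, ← ap_rs, ← ap_rs, hs, map_add, map_smul]
    choose t h01 h02 h12 using h1
    refine ⟨fun j => ∑ a, ap (i a) _ (t a j), ?_, ?_, ?_⟩
    · rw [key _ s₀₁, map_sum, map_sum, Finset.smul_sum, ← Finset.sum_sub_distrib]
      refine Finset.sum_congr rfl fun a _ => ?_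
      rw [h01, map_sub, map_smul, ap_rs, ap_rs]
    · rw [key _ s₀₂, map_sum, map_sum, Finset.smul_sum, ← Finset.sum_sub_distrib]
      refine Finset.sum_congr rfl fun a _ => ?_
      rw [h02, map_sub, map_smul, ap_rs, ap_rs]
    · rw [key _ s₁₂, map_sum, map_sum, Finset.smul_sum, ← Finset.sum_sub_distrib]
      refine Finset.sum_congr rfl fun a _ => ?_
      rw [h12, map_sub, map_smul, ap_rs, ap_rs]
  · intro s
    have h1 : ∀ a, ∃ (a₀₁ : Γ(M a, F.U 0 ⊓ F.U 1)) (a₀₂ : Γ(M a, F.U 0 ⊓ F.U 2))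
      (a₁₂ : Γ(M a, F.U 1 ⊓ F.U 2)), ap (p a) _ s = rs _ (w02 F) a₀₂ + rs _ (w12 F) a₁₂ +
        ro (w12 F) (Frame.tr δ 1 2) • rs _ (w01 F) a₀₁ := fun a => (h a).c2 _
    choose b₀₁ b₀₂ b₁₂ hb using h1
    refine ⟨∑ a, ap (i a) _ (b₀₁ a), ∑ a, ap (i a) _ (b₀₂ a), ∑ a, ap (i a) _ (b₁₂ a), ?_⟩
    rw [key _ s, map_sum, map_sum, map_sum, Finset.smul_sum, ← Finset.sum_add_distrib,
      ← Finset.sum_add_distrib]
    refine Finset.sum_congr rfl fun a _ => ?_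
    rw [hb, map_add, map_add, map_smul, ap_rs, ap_rs, ap_rs]

theorem cls_of_iso (δ : F.Div) {N M : X.Modules} (e : N ≅ M) (h : Cls δ M) : Cls δ N :=
  cls_of_split δ (fun _ : Unit => M) (fun _ => e.hom) (fun _ => e.inv) (by simp) (fun _ => h)

theorem cls_biprod (δ : F.Div) {N M : X.Modules} (h : Cls δ M) (h' : Cls δ N) :
    Cls δ (M ⊞ N) := by
  refine cls_of_split δ (ι := Bool) (fun b => match b with | true => M | false => N)
    (fun b => match b with | true => biprod.fst | false => biprod.snd)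
    (fun b => match b with | true => biprod.inl | false => biprod.inr) ?_ ?_
  · rw [Fintype.sum_bool]
    exact biprod.total
  · rintro (_ | _)
    · exact h'
    · exact h

theorem cls_of_isZero (δ : F.Div) {N : X.Modules} (h : IsZero N) : Cls δ N :=
  cls_of_split δ (ι := Empty) (fun _ => N) (fun a => a.elim) (fun a => a.elim)
    (by rw [Finset.univ_eq_empty, Finset.sum_empty]; exact h.eq_of_src _ _) (fun a => a.elim)

end

end Pool.Agent.N212
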