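import Pool.Agent.N212.C1

set_option autoImplicit false
set_option linter.unusedVariables false

/-!
Acyclic complexes of modules without higher cohomology.
-/

open CategoryTheory Limits TopologicalSpace AlgebraicGeometry Opposite

namespace Pool.Agent.N212

noncomputable section

set_option backward.isDefEq.respectTransparency false

open Pool.Agent.W506 Pool.Agent.R924

section General

variable {C : Type*} [Category C] [Abelian C] (K : CochainComplex C ℤ)

/-- The short complex from the cycles of a complex. -/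
def cycSC (p q r : ℤ) : ShortComplex C :=
  ShortComplex.mk (X₃ := kernel (K.d q r)) (kernel.ι (K.d p q))
    (kernel.lift (K.d q r) (K.d p q) (K.d_comp_d _ _ _)) (by
      rw [← cancel_mono (kernel.ι (K.d q r)), Category.assoc, kernel.lift_ι,
        kernel.condition, zero_comp])

lemma cycSC_shortExact (p q r : ℤ) (hpq : p + 1 = q) (hqr : q + 1 = r) (h : K.ExactAt q) :
    (cycSC K p q r).ShortExact := by
  have h1 : (K.sc' p q r).Exact :=
    (K.exactAt_iff' p q r (by simp; lia) (by simp; lia)).1 h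
  have h2 : Epi (cycSC K p q r).g := (ShortComplex.exact_iff_epi_kernel_lift _).1 h1
  have h3 : Mono (cycSC K p q r).f := inferInstanceAs (Mono (kernel.ι _))
  have h4 : (ShortComplex.mk (kernel.ι (K.d p q)) (K.d p q)
      (kernel.condition _)).Exact :=
    ShortComplex.exact_of_f_is_kernel _ (kernelIsKernel _)
  let φ : cycSC K p q r ⟶ ShortComplex.mk (kernel.ι (K.d p q)) (K.d p q)
      (kernel.condition _) :=
    { τ₁ := 𝟙 _
      τ₂ := 𝟙 _
      τ₃ := kernel.ι (K.d q r)
      comm₁₂ := by simp [cycSC]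
      comm₂₃ := by simp [cycSC] }
  have h5 : Epi φ.τ₁ := inferInstanceAs (Epi (𝟙 _))
  have h6 : IsIso φ.τ₂ := inferInstanceAs (IsIso (𝟙 _))
  have h7 : Mono φ.τ₃ := inferInstanceAs (Mono (kernel.ι _))
  exact { exact := (ShortComplex.exact_iff_of_epi_of_isIso_of_mono φ).2 h4 }

end General

variable {X : Scheme.{0}} {F : Frame X (Fin 3)} {α : F.Div} (A : Frame.Ample F α)
  (K : CochainComplex X.Modules ℤ) {δ : F.Div} (hK : ∀ p, Cls δ (K.X p))
  (hex : ∀ p, K.ExactAt p) (a : ℤ) (ha : ∀ p, p < a → IsZero (K.X p))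

include A hK hex ha in
theorem cls_cycles (p q : ℤ) (hpq : p + 1 = q) : Cls δ (kernel (K.d p q)) := by
  subst hpq
  have h1 : ∀ n : ℕ, Cls δ (kernel (K.d (a - 1 + n) (a - 1 + n + 1))) := by
    intro n
    induction n with
    | zero =>
      apply cls_of_isZero
      exact IsZero.of_mono (kernel.ι _) (ha _ (by push_cast; lia))
    | succ n ih =>
      have h2 := Cls.coker A _ (cycSC_shortExact K (a - 1 + n) (a - 1 + n + 1) (a - 1 + n + 1 + 1)
        rfl rfl (hex _)) ih (hK _)
      have e : (a - 1 + ((n + 1 : ℕ) : ℤ)) = a - 1 + n + 1 := by push_cast; ring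
      rw [e]
      exact h2
  by_cases hp : a - 1 ≤ p
  · obtain ⟨n, hn⟩ := Int.eq_ofNat_of_zero_le (sub_nonneg.2 hp)
    have e : p = a - 1 + n := by lia
    rw [e]
    exact h1 n
  · apply cls_of_isZero
    exact IsZero.of_mono (kernel.ι _) (ha _ (by lia))

include A hK hex ha in
/-- Exactness of the complex of morphisms. -/
theorem hom_exact (p q r : ℤ) (hpq : p + 1 = q) (hqr : q + 1 = r) (g : Frame.lb δ ⟶ K.X q)
    (hg : g ≫ K.d q r = 0) : ∃ g' : Frame.lb δ ⟶ K.X p, g' ≫ K.d p q = g := by
  obtain ⟨g', hg'⟩ := Cls.lift A _ (cycSC_shortExact K p q r hpq hqr (hex _))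
    (cls_cycles A K hK hex a ha p q hpq) (kernel.lift _ g hg)
  refine ⟨g', ?_⟩
  have h1 := congrArg (fun z => z ≫ kernel.ι (K.d q r)) hg'
  simp only [cycSC, Category.assoc, kernel.lift_ι] at h1
  exact h1

end

end Pool.Agent.N212
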