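import Pool.Agent.N212.T5

set_option autoImplicit false
set_option linter.unusedVariables false

/-!
Sections over basic open sets; quasi-coherence.
-/

open CategoryTheory Limits TopologicalSpace AlgebraicGeometry Opposite TopCat

namespace Pool.Agent.N212

noncomputable section

set_option backward.isDefEq.respectTransparency false

open Pool.Agent.W506

attribute [local instance] MvPolynomial.gradedAlgebra

variable {k : Type} [Field k]

/-- A function with a given generic value. -/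
lemma exists_fun (U : (Zs k).Opens) (n : K0 k)
    (h : ∀ x ∈ U, ∃ (l : ℕ) (b a : cu k), b ∈ cg k l ∧ a ∈ cg k l ∧
      a ∈ pc x ∧ n = nu (b : P k) / nu (a : P k)) :
    ∃ s : Γ(Zs k, U), ∀ x hx, gF s x hx = n := by
  choose! l b a h1 h2 h3 h4 using h
  let s : ∀ x : U, HomogeneousLocalization.AtPrime (cg k) x.1.asHomogeneousIdeal.toIdeal :=
    fun x => HomogeneousLocalization.mk ⟨l x.1, ⟨b x.1, h1 x.1 x.2⟩, ⟨a x.1, h2 x.1 x.2⟩, h3 x.1 x.2⟩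
  have hs : ∀ x : U, kF x.1 (s x) = n := fun x =>
    (kF_of_val x.1 (s x) (b x.1) ⟨a x.1, h3 x.1 x.2⟩ rfl).trans (h4 x.1 x.2).symm
  refine ⟨(⟨s, fun x => ⟨Dp (a x.1) ⊓ U, ⟨h3 x.1 x.2, x.2⟩, Opens.infLERight _ _, l x.1,
    ⟨b x.1, h1 x.1 x.2⟩, ⟨a x.1, h2 x.1 x.2⟩, fun y => y.2.1, fun y => ?_⟩⟩ :
    (ProjectiveSpectrum.StructureSheaf.structureSheafInType (cg k)).1.obj (op U)), fun x hx => ?_⟩
  · apply kF_injective y.1
    refine (hs ⟨y.1, y.2.2⟩).trans ?_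
    rw [h4 x.1 x.2]
    exact (kF_of_val y.1 _ (b x.1) ⟨a x.1, y.2.1⟩ rfl).symm
  · exact hs ⟨x, hx⟩

/-- Fractions of degree `j` regular at a point, with numerator in a submodule. -/
def Fr (Mo : Submodule (cu k) (P k)) (x : ProjectiveSpectrum.top (cg k)) (j : ℤ) (n : K0 k) :
    Prop :=
  ∃ (l : ℕ) (m : P k) (a : cu k), m ∈ Mo ∧ m ∈ homZ (PH k) (l + j) ∧ a ∈ cg k l ∧ a ∈ pc x ∧
    n = nu m / nu (a : P k)

variable (k) in
/-- The subring as a submodule. -/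
def Am : Submodule (cu k) (P k) where
  carrier := {f | f ∈ cu k}
  add_mem' := fun ha hb => (cu k).add_mem ha hb
  zero_mem' := (cu k).zero_mem
  smul_mem' := fun c x hx => (cu k).mul_mem c.2 hx

lemma mem_Am {f : P k} : f ∈ Am k ↔ f ∈ cu k := Iff.rfl

lemma Fr.mul {Mo : Submodule (cu k) (P k)} {x : ProjectiveSpectrum.top (cg k)} {i j : ℤ}
    {n n' : K0 k} (h : Fr (Am k) x i n) (h' : Fr Mo x j n') : Fr Mo x (i + j) (n * n') := by
  obtain ⟨l, m, a, h1, h2, h3, h4, rfl⟩ := h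
  obtain ⟨l', m', a', h1', h2', h3', h4', rfl⟩ := h'
  refine ⟨l + l', m * m', a * a', Mo.smul_mem ⟨m, h1⟩ h1', ?_, SetLike.mul_mem_graded h3 h3',
    (pc x).mul_mem h4 h4', ?_⟩
  · have := mul_mem_homZ' h2 h2'
    have e : ((l : ℤ) + i) + (l' + j) = ((l + l' : ℕ) : ℤ) + (i + j) := by push_cast; ring
    rwa [e] at this
  · rw [div_mul_div_comm, ← map_mul, ← map_mul]
    rfl

/-- The ideal of denominators argument. -/
lemma exists_pow (Mo : Submodule (cu k) (P k)) {f : cu k} {d : ℕ} (hf : f ∈ cg k d) (hd : 0 < d)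
    (hf0 : f ≠ 0) (j : ℤ) (n : K0 k)
    (h : ∀ x : ProjectiveSpectrum.top (cg k), f ∈ pc x → Fr Mo x j n) :
    ∃ (r : ℕ) (m : P k), m ∈ Mo ∧ m ∈ homZ (PH k) (r * d + j) ∧ n = nu m / nu (f : P k) ^ r := by
  let I : Ideal (cu k) := Ideal.span {a | ∃ l, a ∈ cg k l ∧ ∃ m : P k, m ∈ Mo ∧
    nu (a : P k) * n = nu m}
  have hI : I.IsHomogeneous (cg k) := Ideal.homogeneous_span _ _ (by
    rintro a ⟨l, hl, -⟩
    exact ⟨l, hl⟩)
  have h1 : f ∈ I.radical := by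
    rw [hI.radical_eq, Ideal.mem_sInf]
    rintro J ⟨hJ, hIJ, hJp⟩
    by_contra hfJ
    let x : ProjectiveSpectrum.top (cg k) := ⟨⟨J, hJ⟩, hJp, fun hle => hfJ (hle
      (HomogeneousIdeal.mem_irrelevant_of_mem (cg k) hd hf))⟩
    obtain ⟨l, m, a, hm, -, h3, h4, h5⟩ := h x hfJ
    apply h4
    apply hIJ
    apply Ideal.subset_span
    refine ⟨l, h3, m, hm, ?_⟩
    rw [h5, mul_div_cancel₀ _ (nu_pc_ne_zero h4)]
  obtain ⟨r, hr⟩ := h1
  have h2 : ∀ c ∈ I, ∃ m : P k, m ∈ Mo ∧ nu (c : P k) * n = nu m := by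
    intro c hc
    refine Submodule.span_induction ?_ ?_ ?_ ?_ hc
    · rintro a ⟨l, -, m, hm⟩
      exact ⟨m, hm⟩
    · exact ⟨0, zero_mem _, by simp⟩
    · rintro a b _ _ ⟨m, hm1, hm⟩ ⟨m', hm1', hm'⟩
      refine ⟨m + m', add_mem hm1 hm1', ?_⟩
      rw [map_add, ← hm, ← hm', ← add_mul, ← map_add]
      rfl
    · rintro a b _ ⟨m, hm1, hm⟩
      refine ⟨(a : P k) * m, Mo.smul_mem a hm1, ?_⟩
      rw [map_mul, ← hm, ← mul_assoc, ← map_mul]
      rfl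
  obtain ⟨m, hm1, hm⟩ := h2 _ hr
  obtain ⟨l, m₀, a₀, -, h6, h7, h8, h9⟩ := h (eta k) (eta_mem_Dp hf0)
  have ha0 : nu (a₀ : P k) ≠ 0 := nu_pc_ne_zero h8
  have e1 : (a₀ : P k) * m = (f : P k) ^ r * m₀ := by
    apply nu_injective
    rw [map_mul, map_mul, ← hm, h9]
    change nu (a₀ : P k) * (nu ((f : P k) ^ r) * _) = _
    field_simp
  refine ⟨r, m, hm1, ?_, ?_⟩
  · apply homZ_of_mul (𝒮 := PH k) (l := l) (show (a₀ : P k) ∈ PH k l from h7) (pc_ne_zero h8)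
    rw [e1]
    have h10 := mul_mem_homZ (𝒮 := PH k) (a := (f : P k) ^ r) (i := r • d) (SetLike.pow_mem_graded r
      (show (f : P k) ∈ PH k d from hf)) h6
    have e2 : ((r • d : ℕ) : ℤ) + (l + j) = l + (r * d + j) := by
      rw [smul_eq_mul]; push_cast; ring
    rwa [e2] at h10
  · have h11 : nu (f : P k) ^ r * n = nu m := by
      rw [← hm]
      rw [← map_pow]
      rfl
    rw [← h11, mul_div_cancel_left₀ _ (pow_ne_zero _ (nu_ne_zero (fun e => hf0 (Subtype.ext e))))]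

lemma exists_fun' (U : (Zs k).Opens) (n : K0 k) (h : ∀ x ∈ U, Fr (Am k) x 0 n) :
    ∃ s : Γ(Zs k, U), ∀ x hx, gF s x hx = n := by
  apply exists_fun U n
  intro x hx
  obtain ⟨l, m, a, h1, h2, h3, h4, h5⟩ := h x hx
  rw [add_zero] at h2
  exact ⟨l, ⟨m, h1⟩, a, (mem_homZ_nat (𝒮 := PH k)).1 h2, h3, h4, h5⟩

lemma exists_sec' {j : ℤ} (U : (Zs k).Opens) (n : K0 k) (h : ∀ x ∈ U, Fr ⊤ x j n) :
    ∃ s : Γ(til (GS k) j, U), ∀ x hx, gS s x hx = n := by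
  apply exists_sec U n
  intro x hx
  obtain ⟨l, m, a, h1, h2, h3, h4, h5⟩ := h x hx
  exact ⟨l, m, a, h2, h3, h4, h5⟩

lemma gF_fr {U : (Zs k).Opens} (r : Γ(Zs k, U)) (x : ProjectiveSpectrum.top (cg k)) (hx : x ∈ U)
    (y : ProjectiveSpectrum.top (cg k)) (hy : y ∈ U) : Fr (Am k) y 0 (gF r x hx) := by
  obtain ⟨V, hV, hyV, n, b, a, h1, h2, h3⟩ := exists_gF r y hy
  refine ⟨n, b, a, b.2, ?_, h2, (h3 y hyV).1, ?_⟩
  · rw [add_zero]
    exact mem_homZ_nat.2 h1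
  · rw [gF_const r x y hx hy]
    exact (h3 y hyV).2

lemma gS_fr {j : ℤ} {U : (Zs k).Opens} (r : Γ(til (GS k) j, U)) (x : ProjectiveSpectrum.top (cg k))
    (hx : x ∈ U) (y : ProjectiveSpectrum.top (cg k)) (hy : y ∈ U) : Fr ⊤ y j (gS r x hx) := by
  obtain ⟨V, hV, hyV, n, b, a, h1, h2, h3⟩ := exists_gS r y hy
  refine ⟨n, b, a, trivial, h1, h2, (h3 y hyV).1, ?_⟩
  rw [gS_const r x y hx hy]
  exact (h3 y hyV).2

end

end Pool.Agent.N212
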