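import Pool.Agent.N212.A2
import Pool.Agent.N212.T6
import Pool.Agent.R924.D2

set_option autoImplicit false
set_option linter.unusedVariables false

/-!
The twisted structure sheaves and the charts.
-/

open CategoryTheory Limits TopologicalSpace AlgebraicGeometry Opposite TopCat

namespace Pool.Agent.N212

noncomputable section

set_option backward.isDefEq.respectTransparency false

open Pool.Agent.W506 Pool.Agent.R924

attribute [local instance] MvPolynomial.gradedAlgebra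

variable {k : Type} [Field k]

lemma decompose_PH (f : P k) (n : ℕ) :
    (DirectSum.decompose (PH k) f n : P k) = MvPolynomial.homogeneousComponent n f :=
  MvPolynomial.decomposition.decompose'_apply _ _

lemma mem_homZ_cg {i : ℤ} {a : cu k} : a ∈ homZ (cg k) i ↔ (a : P k) ∈ homZ (PH k) i := by
  rw [mem_homZ, mem_homZ]
  refine forall_congr' fun n => imp_congr_right fun _ => ?_
  rw [decompose_PH, ← decompose_apply]
  constructor
  · intro h
    rw [h]
    rfl
  · intro h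
    exact Subtype.ext h

variable (k) in
/-- The inclusion of the subring. -/
def iA : GH (GA k) (GS k) 0 where
  f := (Am k).subtype
  map_deg := by
    intro i m hm
    rw [add_zero]
    exact mem_homZ_cg.1 hm

lemma iA_injective : Function.Injective (iA k).f := Subtype.val_injective

variable (k) in
/-- The inclusion of sheaves. -/
def ιA (j : ℤ) : til (GA k) j ⟶ til (GS k) j := tmap (iA k) (by rw [add_zero])

instance (j : ℤ) : Mono (ιA k j) := mono_tmap _ iA_injective _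

/-- The generic value of a section. -/
def gA {j : ℤ} {U : (Zs k).Opens} (s : Γ(til (GA k) j, U)) (x : ProjectiveSpectrum.top (cg k))
    (hx : x ∈ U) : K0 k := gS (ap (ιA k j) U s) x hx

lemma gA_const {j : ℤ} {U : (Zs k).Opens} (s : Γ(til (GA k) j, U))
    (x y : ProjectiveSpectrum.top (cg k)) (hx : x ∈ U) (hy : y ∈ U) : gA s x hx = gA s y hy :=
  gS_const _ _ _ _ _

lemma gA_rs {j : ℤ} {U V : (Zs k).Opens} (h : V ≤ U) (s : Γ(til (GA k) j, U))
    (x : ProjectiveSpectrum.top (cg k)) (hx : x ∈ V) :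
    gA (rs _ h s) x hx = gA s x (h hx) := rfl

lemma gA_zero {j : ℤ} {U : (Zs k).Opens}
    (x : ProjectiveSpectrum.top (cg k)) (hx : x ∈ U) : gA (0 : Γ(til (GA k) j, U)) x hx = 0 := by
  rw [gA, map_zero, gS_zero]

lemma gA_smul {j : ℤ} {U : (Zs k).Opens} (r : Γ(Zs k, U)) (s : Γ(til (GA k) j, U))
    (x : ProjectiveSpectrum.top (cg k)) (hx : x ∈ U) : gA (r • s) x hx = gF r x hx * gA s x hx := by
  rw [gA, map_smul, gS_smul]
  rfl

lemma gA_ext {j : ℤ} {U : (Zs k).Opens} {s t : Γ(til (GA k) j, U)}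
    {x : ProjectiveSpectrum.top (cg k)} {hx : x ∈ U} (h : gA s x hx = gA t x hx) : s = t :=
  ap_injective (ιA k j) U (gS_ext h)

lemma gA_fr {j : ℤ} {U : (Zs k).Opens} (r : Γ(til (GA k) j, U))
    (x : ProjectiveSpectrum.top (cg k)) (hx : x ∈ U) (y : ProjectiveSpectrum.top (cg k))
    (hy : y ∈ U) : Fr (Am k) y j (gA r x hx) := by
  obtain ⟨V, hV, hyV, n, m, a, h1, h2, h3⟩ := exists_frac r y hy
  obtain ⟨h4, h5⟩ := h3 y hyV
  refine ⟨n, (iA k).f m, a, (m : cu k).2, mem_homZ_cg.1 h1, h2, h4, ?_⟩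
  rw [gA_const r x y hx hy, gA, gS, ιA, vl_tmap, h5, lmap_mk]
  exact kS_mk y _ _

lemma exists_secA {j : ℤ} (U : (Zs k).Opens) (n : K0 k) (h : ∀ x ∈ U, Fr (Am k) x j n) :
    ∃ s : Γ(til (GA k) j, U), ∀ x hx, gA s x hx = n := by
  choose! l m a h1 h2 h3 h4 h5 using h
  refine ⟨mkS (GA k) j U (fun x hx => LocalizedModule.mk (M := (GA k).M) (⟨m x, h1 x hx⟩ : cu k)
    ⟨a x, h4 x hx⟩) fun x hx => ⟨Dp (a x) ⊓ U, inf_le_right, ⟨h4 x hx, hx⟩, l x,
      (⟨m x, h1 x hx⟩ : cu k), a x, mem_homZ_cg.2 (h2 x hx), h3 x hx,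
      fun y hy => ⟨hy.1, ?_⟩⟩, fun x hx => ?_⟩
  · apply lmap_injective (iA k).f iA_injective y
    apply kS_injective y
    rw [lmap_mk, lmap_mk]
    refine (kS_mk y _ _).trans (Eq.trans ?_ (kS_mk y _ _).symm)
    exact (h5 y hy.2).symm.trans (h5 x hx)
  · rw [gA, gS, ιA, vl_tmap, vl_mkS, lmap_mk]
    exact (kS_mk x _ _).trans (h5 x hx).symm

/-! ### The charts -/

variable (k) in
/-- The coordinates of the charts. -/
def ch (i : Fin 3) : cu k := ![xx k, zz k, vv k] i

variable (k) in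
/-- The charts. -/
def UU (i : Fin 3) : (Zs k).Opens := Dp (ch k i)

variable (k) in
/-- The generic values of the generators. -/
def tt (i : Fin 3) : K0 k := ![nu (MvPolynomial.X 1), nu (MvPolynomial.X 2), nu (MvPolynomial.X 0)] i

lemma tt_ne_zero (i : Fin 3) : tt k i ≠ 0 := by
  fin_cases i <;> exact nu_ne_zero (MvPolynomial.X_ne_zero _)

lemma hh_ne_zero : hh k ≠ 0 := by
  intro h
  have h1 := monic_hh (k := k)
  rw [h, map_zero] at h1
  exact h1.ne_zero rfl

lemma fr_pow {a : cu k} (ha : a ∈ cg k 1) {x : ProjectiveSpectrum.top (cg k)} (hx : a ∈ pc x)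
    (j : ℤ) : Fr (Am k) x j (nu (a : P k) ^ j) := by
  obtain ⟨n, rfl | rfl⟩ := j.eq_nat_or_neg
  · refine ⟨0, (a : P k) ^ n, 1, ((a ^ n : cu k)).2, ?_, SetLike.GradedOne.one_mem, one_mem _, ?_⟩
    · rw [Nat.cast_zero, zero_add, mem_homZ_nat]
      have := SetLike.pow_mem_graded (A := PH k) n (show (a : P k) ∈ PH k 1 from ha)
      rwa [smul_eq_mul, mul_one] at this
    · rw [zpow_natCast, map_pow]
      change _ = _ / nu (1 : P k)
      rw [map_one, div_one]
  · refine ⟨n, 1, a ^ n, one_mem (cu k), ?_, ?_, (pc x).pow_mem hx n, ?_⟩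
    · rw [add_neg_cancel, ← Nat.cast_zero, mem_homZ_nat]
      exact MvPolynomial.isHomogeneous_one _ _
    · have := SetLike.pow_mem_graded (A := cg k) n ha
      rwa [smul_eq_mul, mul_one] at this
    · rw [zpow_neg, zpow_natCast, map_one, one_div]
      congr 1
      exact (map_pow nu _ _).symm

lemma tt_fr (i : Fin 3) (j : ℤ) {x : ProjectiveSpectrum.top (cg k)} (hx : x ∈ UU k i) :
    Fr (Am k) x j (tt k i ^ j) := by
  fin_cases i
  · exact fr_pow xx_mem hx j
  · exact fr_pow zz_mem hx j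
  · obtain ⟨N, hN, m, hm⟩ : ∃ N : ℕ, 1 ≤ N ∧ ∃ m : ℕ, (m : ℤ) = j + 2 * N :=
      ⟨j.natAbs + 1, by lia, (j + 2 * ((j.natAbs + 1 : ℕ) : ℤ)).toNat, by
        rw [Int.toNat_of_nonneg (by lia)]⟩
    refine ⟨8 * N, hh k ^ (2 * N) * MvPolynomial.X 0 ^ m, vv k ^ N, ?_, ?_, ?_,
      (pc x).pow_mem hx N, ?_⟩
    · apply mem_cu_of_sq_dvd
      exact (pow_dvd_pow _ (by lia)).mul_right _
    · have e : ((8 * N : ℕ) : ℤ) + j = ((3 * (2 * N) + 1 * m : ℕ) : ℤ) := by push_cast; lia
      rw [e, mem_homZ_nat]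
      exact MvPolynomial.IsHomogeneous.mul (hh_mem.pow (2 * N))
        ((MvPolynomial.isHomogeneous_X k 0).pow m)
    · have := SetLike.pow_mem_graded (A := cg k) N vv_mem
      rwa [smul_eq_mul, mul_comm] at this
    · have e1 : nu (hh k) ≠ 0 := nu_ne_zero hh_ne_zero
      have e2 : nu (MvPolynomial.X 0 : P k) ≠ 0 := nu_ne_zero (MvPolynomial.X_ne_zero _)
      have e3 : nu ((vv k ^ N : cu k) : P k) = (nu (hh k) ^ 2 * nu (MvPolynomial.X 0) ^ 2) ^ N := by
        change nu ((hh k ^ 2 * MvPolynomial.X 0 ^ 2) ^ N) = _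
        rw [map_pow, map_mul, map_pow, map_pow]
      rw [e3, map_mul, map_pow, map_pow]
      change nu (MvPolynomial.X 0) ^ j = _
      have e4 : nu (MvPolynomial.X 0 : P k) ^ m = nu (MvPolynomial.X 0) ^ j *
          nu (MvPolynomial.X 0) ^ (2 * N) := by
        rw [← zpow_natCast, hm, zpow_add₀ e2]
        congr 1
      rw [e4, mul_pow, ← pow_mul, ← pow_mul]
      field_simp

lemma exists_unit (U : (Zs k).Opens) (hU : eta k ∈ U) (n : K0 k) (hn : n ≠ 0)
    (h : ∀ x ∈ U, Fr (Am k) x 0 n) (h' : ∀ x ∈ U, Fr (Am k) x 0 n⁻¹) :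
    ∃ u : Γ(Zs k, U)ˣ, ∀ x hx, gF (u : Γ(Zs k, U)) x hx = n := by
  obtain ⟨s, hs⟩ := exists_fun' U n h
  obtain ⟨t, ht⟩ := exists_fun' U n⁻¹ h'
  refine ⟨⟨s, t, ?_, ?_⟩, hs⟩
  · apply gF_ext (x := eta k) (hx := hU)
    rw [gF_mul, hs, ht, gF_one, mul_inv_cancel₀ hn]
  · apply gF_ext (x := eta k) (hx := hU)
    rw [gF_mul, hs, ht, gF_one, inv_mul_cancel₀ hn]

/-- The generic value as a ring homomorphism. -/
def gFh (U : (Zs k).Opens) (hU : eta k ∈ U) : Γ(Zs k, U) →+* K0 k where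
  toFun r := gF r (eta k) hU
  map_one' := gF_one _ _
  map_zero' := gF_zero _ _
  map_add' _ _ := gF_add _ _ _ _
  map_mul' _ _ := gF_mul _ _ _ _

lemma mem_irr {x : ProjectiveSpectrum.top (cg k)} (h0 : xx k ∈ x.asHomogeneousIdeal)
    (h1 : zz k ∈ x.asHomogeneousIdeal) (h2 : vv k ∈ x.asHomogeneousIdeal) : False := by
  apply x.not_irrelevant_le
  intro f hf
  have : Algebra.IsIntegral (cu k) (P k) := inferInstance
  obtain ⟨Q, -, hQ, hQx⟩ := Ideal.exists_ideal_over_prime_of_isIntegral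
    x.asHomogeneousIdeal.toIdeal (⊥ : Ideal (P k)) (by
      intro a ha
      have ha' : (a : P k) = 0 := ha
      have : a = 0 := Subtype.ext ha'
      rw [this]
      exact zero_mem _)
  have key : ∀ a : cu k, a ∈ x.asHomogeneousIdeal ↔ (a : P k) ∈ Q := by
    intro a
    rw [← HomogeneousIdeal.mem_iff, ← hQx]
    rfl
  have e1 : (MvPolynomial.X 1 : P k) ∈ Q := (key (xx k)).1 h0
  have e2 : (MvPolynomial.X 2 : P k) ∈ Q := (key (zz k)).1 h1
  have e3 : (hh k ^ 2 * MvPolynomial.X 0 ^ 2 : P k) ∈ Q := (key (vv k)).1 h2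
  have e4 : (MvPolynomial.X 0 : P k) ∈ Q := by
    rcases hQ.mem_or_mem e3 with h | h
    · have h4 := hQ.mem_of_pow_mem _ h
      rw [hh_eq, ww] at h4
      have h5 : (MvPolynomial.X 1 ^ 3 + MvPolynomial.X 2 ^ 3 : P k) ∈ Q :=
        add_mem (Ideal.pow_mem_of_mem _ e1 3 (by norm_num))
          (Ideal.pow_mem_of_mem _ e2 3 (by norm_num))
      exact hQ.mem_of_pow_mem _ ((Ideal.add_mem_iff_left _ h5).1 h4)
    · exact hQ.mem_of_pow_mem _ h
  rw [key]
  have hf0 : MvPolynomial.homogeneousComponent 0 (f : P k) = 0 := by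
    rw [← decompose_apply]
    have := (HomogeneousIdeal.mem_irrelevant_iff (cg k) f).1 hf
    rw [GradedRing.proj_apply] at this
    rw [this]
    rfl
  have hf1 : MvPolynomial.coeff 0 (f : P k) = 0 := by
    rw [MvPolynomial.homogeneousComponent_zero] at hf0
    exact (MvPolynomial.C_eq_zero (R := k)).1 hf0
  have hX : ∀ i : Fin 3, (MvPolynomial.X i : P k) ∈ Q := by
    intro i
    fin_cases i
    · exact e4
    · exact e1
    · exact e2
  rw [← MvPolynomial.support_sum_monomial_coeff (f : P k)]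
  refine sum_mem fun d hd => ?_
  have hd0 : d ≠ 0 := by
    rintro rfl
    exact (MvPolynomial.mem_support_iff.1 hd) hf1
  obtain ⟨i, hi⟩ : ∃ i, d i ≠ 0 := by
    by_contra! h
    exact hd0 (Finsupp.ext h)
  have e5 : MvPolynomial.X i ∣ MvPolynomial.monomial d (MvPolynomial.coeff d (f : P k)) := by
    rw [MvPolynomial.X_dvd_monomial]
    exact Or.inr hi
  exact Ideal.mem_of_dvd _ e5 (hX i)

variable (k) in
/-- The charts of the scheme. -/
def FF : Frame (Zs k) (Fin 3) where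
  U := UU k
  T := (UU k 0 ⊓ UU k 1) ⊓ UU k 2
  le j := by
    fin_cases j
    · exact inf_le_left.trans inf_le_left
    · exact inf_le_left.trans inf_le_right
    · exact inf_le_right
  inj i j l := by
    intro a b hab
    have hT : eta k ∈ ((UU k 0 ⊓ UU k 1) ⊓ UU k 2 : (Zs k).Opens) := by
      refine ⟨⟨eta_mem_Dp ?_, eta_mem_Dp ?_⟩, eta_mem_Dp ?_⟩
      · exact fun e => MvPolynomial.X_ne_zero (1 : Fin 3) (congrArg Subtype.val e)
      · exact fun e => MvPolynomial.X_ne_zero (2 : Fin 3) (congrArg Subtype.val e)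
      · intro e
        have h1 : (hh k ^ 2 * MvPolynomial.X 0 ^ 2 : P k) = 0 := congrArg Subtype.val e
        rcases mul_eq_zero.1 h1 with h | h
        · exact hh_ne_zero (pow_eq_zero_iff (by norm_num) |>.1 h)
        · exact MvPolynomial.X_ne_zero (0 : Fin 3) (pow_eq_zero_iff (by norm_num) |>.1 h)
    refine gF_ext (x := eta k) (hx := ?_) ?_
    · have hle : ∀ j : Fin 3, ((UU k 0 ⊓ UU k 1) ⊓ UU k 2 : (Zs k).Opens) ≤ UU k j := by
        intro j
        fin_cases j
        · exact inf_le_left.trans inf_le_left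
        · exact inf_le_left.trans inf_le_right
        · exact inf_le_right
      exact ⟨⟨hle i hT, hle j hT⟩, hle l hT⟩
    · have h1 := congrArg (fun z => gF z (eta k) hT) hab
      exact h1
  cover x := by
    by_contra! h
    refine mem_irr (x := x) ?_ ?_ ?_
    · exact not_not.1 (h 0)
    · exact not_not.1 (h 1)
    · exact not_not.1 (h 2)

end

end Pool.Agent.N212
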