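import Pool.Agent.N212.T7
import Pool.Agent.N212.T8
import Pool.Agent.R924.D3

set_option autoImplicit false
set_option linter.unusedVariables false

/-!
The ample divisor and the line bundles.
-/

open CategoryTheory Limits TopologicalSpace AlgebraicGeometry Opposite TopCat

namespace Pool.Agent.N212

noncomputable section

set_option backward.isDefEq.respectTransparency false

open Pool.Agent.W506 Pool.Agent.R924

attribute [local instance] MvPolynomial.gradedAlgebra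

variable {k : Type} [Field k]

lemma eta_UU (i : Fin 3) : eta k ∈ UU k i := by
  fin_cases i
  · exact eta_mem_Dp fun e => MvPolynomial.X_ne_zero (1 : Fin 3) (congrArg Subtype.val e)
  · exact eta_mem_Dp fun e => MvPolynomial.X_ne_zero (2 : Fin 3) (congrArg Subtype.val e)
  · refine eta_mem_Dp fun e => ?_
    have h1 : (hh k ^ 2 * MvPolynomial.X 0 ^ 2 : P k) = 0 := congrArg Subtype.val e
    rcases mul_eq_zero.1 h1 with h | h
    · exact hh_ne_zero (pow_eq_zero_iff (by norm_num) |>.1 h)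
    · exact MvPolynomial.X_ne_zero (0 : Fin 3) (pow_eq_zero_iff (by norm_num) |>.1 h)

lemma eta_T : eta k ∈ (FF k).T := ⟨⟨eta_UU 0, eta_UU 1⟩, eta_UU 2⟩

lemma isAffine_Dp {a : cu k} {d : ℕ} (ha : a ∈ cg k d) (hd : 0 < d) :
    IsAffineOpen (X := Zs k) (Dp a) :=
  Proj.isAffineOpen_basicOpen (cg k) a ha hd

lemma isAffine_UU (i : Fin 3) : IsAffineOpen (UU k i) := by
  fin_cases i
  · exact isAffine_Dp xx_mem one_pos
  · exact isAffine_Dp zz_mem one_pos
  · exact isAffine_Dp vv_mem (by norm_num)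

/-- A unit function on the small open set with a given value. -/
lemma exists_unitT (n : K0 k) (hn : n ≠ 0) (h : ∀ x ∈ (FF k).T, Fr (Am k) x 0 n)
    (h' : ∀ x ∈ (FF k).T, Fr (Am k) x 0 n⁻¹) :
    ∃ u : Γ(Zs k, (FF k).T)ˣ, gF (u : Γ(Zs k, (FF k).T)) (eta k) eta_T = n := by
  obtain ⟨u, hu⟩ := exists_unit (FF k).T eta_T n hn h h'
  exact ⟨u, hu _ _⟩

lemma fr_ratio (i j : Fin 3) (m : ℤ) {x : ProjectiveSpectrum.top (cg k)} (hi : x ∈ UU k i)
    (hj : x ∈ UU k j) : Fr (Am k) x 0 ((tt k i / tt k j) ^ m) := by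
  have h := (tt_fr i m hi).mul (tt_fr j (-m) hj)
  rw [add_neg_cancel] at h
  rwa [div_zpow, div_eq_mul_inv, ← zpow_neg]

lemma exists_bet (i : Fin 3) : ∃ u : Γ(Zs k, (FF k).T)ˣ,
    gF (u : Γ(Zs k, (FF k).T)) (eta k) eta_T = tt k i / tt k 0 := by
  refine exists_unitT _ (div_ne_zero (tt_ne_zero i) (tt_ne_zero 0)) ?_ ?_
  · intro x hx
    have := fr_ratio i 0 1 ((FF k).le i hx) ((FF k).le 0 hx)
    rwa [zpow_one] at this
  · intro x hx
    have := fr_ratio i 0 (-1) ((FF k).le i hx) ((FF k).le 0 hx)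
    rwa [zpow_neg_one] at this

lemma gF_T_ext {U : (Zs k).Opens} (hU : (FF k).T ≤ U) {a : Γ(Zs k, U)} {b : Γ(Zs k, (FF k).T)}
    (h : gF a (eta k) (hU eta_T) = gF b (eta k) eta_T) : ro hU a = b :=
  gF_ext (x := eta k) (hx := eta_T) h

/-- The generic value of a unit. -/
def gU (u : Γ(Zs k, (FF k).T)ˣ) : K0 k := gF (u : Γ(Zs k, (FF k).T)) (eta k) eta_T

lemma gU_mul (u v : Γ(Zs k, (FF k).T)ˣ) : gU (u * v) = gU u * gU v := gF_mul _ _ _ _

lemma gU_eq (u : Γ(Zs k, (FF k).T)ˣ) : gU u = ((Units.map (gFh (FF k).T eta_T).toMonoidHom u :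
    (K0 k)ˣ) : K0 k) := rfl

lemma gU_inv (u : Γ(Zs k, (FF k).T)ˣ) : gU u⁻¹ = (gU u)⁻¹ := by
  rw [gU_eq, gU_eq, map_inv, Units.val_inv_eq_inv_val]

lemma gU_zpow (u : Γ(Zs k, (FF k).T)ˣ) (m : ℤ) : gU (u ^ m) = gU u ^ m := by
  rw [gU_eq, gU_eq, map_zpow, Units.val_zpow_eq_zpow_val]

variable (k) in
/-- The divisor of the hyperplane class. -/
def bet : (FF k).Div := ⟨fun i => (exists_bet i).choose, by
  intro i j
  obtain ⟨s, hs⟩ := exists_fun' ((FF k).U i ⊓ (FF k).U j) (tt k j / tt k i) (by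
    intro x hx
    have := fr_ratio j i 1 hx.2 hx.1
    rwa [zpow_one] at this)
  refine ⟨s, ?_⟩
  apply gF_T_ext
  rw [hs]
  change _ = gU _
  rw [gU_mul, gU_inv, gU, (exists_bet j).choose_spec, gU, (exists_bet i).choose_spec]
  have h0 := tt_ne_zero (k := k) 0
  have hi := tt_ne_zero (k := k) i
  field_simp⟩

lemma gU_bet (i : Fin 3) : gU ((bet k).1 i) = tt k i / tt k 0 := (exists_bet i).choose_spec

lemma gU_bet_zpow (m : ℤ) (i : Fin 3) : gU ((bet k ^ m).1 i) = (tt k i / tt k 0) ^ m := by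
  have h : (bet k ^ m).1 i = ((bet k).1 i) ^ m := by
    rw [Subgroup.coe_zpow]
    rfl
  rw [h, gU_zpow, gU_bet]

lemma gF_tr (m : ℤ) (i j : Fin 3) (x : ProjectiveSpectrum.top (cg k))
    (hx : x ∈ (FF k).U i ⊓ (FF k).U j) :
    gF (Frame.tr (bet k ^ m) i j) x hx = (tt k j / tt k i) ^ m := by
  rw [gF_const _ x (eta k) hx (le_inf ((FF k).le i) ((FF k).le j) eta_T)]
  rw [← gF_ro (le_inf ((FF k).le i) ((FF k).le j)) _ (eta k) eta_T, Frame.ro_tr]
  change gU _ = _
  rw [gU_mul, gU_inv, gU_bet_zpow, gU_bet_zpow, ← div_eq_mul_inv, ← div_zpow]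
  congr 1
  have h0 := tt_ne_zero (k := k) 0
  have hi := tt_ne_zero (k := k) i
  field_simp

lemma exists_ee (m : ℤ) (i : Fin 3) : ∃ s : Γ(til (GA k) m, (FF k).U i),
    ∀ x hx, gA s x hx = tt k i ^ m :=
  exists_secA _ _ fun x hx => tt_fr i m hx

/-- The generators. -/
def ee (m : ℤ) (i : Fin 3) : Γ(til (GA k) m, (FF k).U i) := (exists_ee m i).choose

lemma gA_ee (m : ℤ) (i : Fin 3) (x : ProjectiveSpectrum.top (cg k)) (hx : x ∈ (FF k).U i) :
    gA (ee m i) x hx = tt k i ^ m := (exists_ee m i).choose_spec x hx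

lemma extA_empty {j : ℤ} {U : (Zs k).Opens} (hU : eta k ∉ U) (s t : Γ(til (GA k) j, U)) : s = t :=
  vl_ext fun x hx => absurd (eta_mem hx) hU

lemma extF_empty {U : (Zs k).Opens} (hU : eta k ∉ U) (s t : Γ(Zs k, U)) : s = t :=
  fv_ext fun x hx => absurd (eta_mem hx) hU

lemma isGen_ee (m : ℤ) (i : Fin 3) : IsGen (ee (k := k) m i) := by
  apply isGen_of
  · intro V hV s
    by_cases he : eta k ∈ V
    · obtain ⟨a, ha⟩ := exists_fun' V (gA s (eta k) he * tt k i ^ (-m)) (by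
        intro x hx
        have := (tt_fr i (-m) (hV hx)).mul (gA_fr s (eta k) he x hx)
        rwa [neg_add_cancel, mul_comm] at this)
      refine ⟨a, gA_ext (x := eta k) (hx := he) ?_⟩
      rw [gA_smul, ha, gA_rs, gA_ee, mul_assoc, ← zpow_add₀ (tt_ne_zero i), neg_add_cancel,
        zpow_zero, mul_one]
    · exact ⟨0, extA_empty he _ _⟩
  · intro V hV a ha
    by_cases he : eta k ∈ V
    · apply gF_ext (x := eta k) (hx := he)
      have h1 := congrArg (fun z => gA z (eta k) he) ha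
      change gA _ _ _ = gA _ _ _ at h1
      rw [gA_smul, gA_rs, gA_ee, gA_zero] at h1
      rw [gF_zero]
      exact (mul_eq_zero.1 h1).resolve_right (zpow_ne_zero _ (tt_ne_zero i))
    · exact extF_empty he _ _

lemma compat_ee (m : ℤ) : Compat (FF k).U (Frame.tr (bet k ^ m)) (ee (k := k) m) := by
  intro i j
  refine gA_ext (x := eta k) (hx := ⟨eta_UU i, eta_UU j⟩) ?_
  rw [gA_rs, gA_ee, gA_smul, gA_rs, gA_ee, gF_tr, div_zpow, div_mul_cancel₀]
  exact zpow_ne_zero _ (tt_ne_zero i)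

section General

variable {X : Scheme.{0}} {J : Type} (F : Frame X J)

lemma isIso_of_gen {L L' : X.Modules} (f : L ⟶ L') (e : ∀ j, Γ(L, F.U j)) (he : ∀ j, IsGen (e j))
    (he' : ∀ j, IsGen (ap f _ (e j))) : IsIso f := by
  have : Mono f := by
    apply mono_of_ap_injective
    intro U s t hst
    apply ext_rs_of_mem
    intro x hx
    obtain ⟨j, hj⟩ := F.cover x
    refine ⟨U ⊓ F.U j, inf_le_left, ⟨hx, hj⟩, ?_⟩
    obtain ⟨a, ha⟩ := (he j).exists_smul (inf_le_right : U ⊓ F.U j ≤ _) (rs L inf_le_left s)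
    obtain ⟨b, hb⟩ := (he j).exists_smul (inf_le_right : U ⊓ F.U j ≤ _) (rs L inf_le_left t)
    have h1 := congrArg (rs L' (inf_le_left : U ⊓ F.U j ≤ U)) hst
    rw [← ap_rs, ← ap_rs, ← ha, ← hb, map_smul, map_smul, ap_rs] at h1
    rw [← ha, ← hb, (he' j).smul_inj _ h1]
  have : Epi f := by
    apply epi_of_locally_surj
    intro U s x hx
    obtain ⟨j, hj⟩ := F.cover x
    obtain ⟨a, ha⟩ := (he' j).exists_smul (inf_le_right : U ⊓ F.U j ≤ _) (rs L' inf_le_left s)
    refine ⟨U ⊓ F.U j, inf_le_left, ⟨hx, hj⟩, a • rs L inf_le_right (e j), ?_⟩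
    rw [map_smul, ap_rs, ha]
  exact isIso_of_mono_of_epi f

end General

lemma exists_theta (m : ℤ) : ∃ f : Frame.lb (bet k ^ m) ⟶ til (GA k) m,
    ∀ j, ap f _ (Frame.lbE _ j) = ee m j :=
  Frame.lb_hom (bet k ^ m) _ _ (compat_ee m)

variable (k) in
/-- The comparison of line bundles. -/
def theta (m : ℤ) : Frame.lb (bet k ^ m) ⟶ til (GA k) m := (exists_theta m).choose

lemma ap_theta (m : ℤ) (j : Fin 3) : ap (theta k m) _ (Frame.lbE _ j) = ee m j :=
  (exists_theta m).choose_spec j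

instance (m : ℤ) : IsIso (theta k m) :=
  isIso_of_gen (FF k) _ (Frame.lbE _) (fun j => Frame.isGen_lbE _ j)
    (fun j => by rw [ap_theta]; exact isGen_ee m j)

lemma hom_ext_ee {m : ℤ} {N : (Zs k).Modules} {f g : til (GA k) m ⟶ N}
    (h : ∀ j, ap f _ (ee m j) = ap g _ (ee m j)) : f = g := by
  have : Epi (theta k m) := IsIso.epi_of_iso _
  rw [← cancel_epi (theta k m)]
  apply Frame.lb_ext
  intro j
  rw [ap_comp, ap_comp, ap_theta, h]

lemma exists_hom_ee {m : ℤ} {N : (Zs k).Modules} (t : ∀ j, Γ(N, (FF k).U j))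
    (ht : Compat (FF k).U (Frame.tr (bet k ^ m)) t) :
    ∃ f : til (GA k) m ⟶ N, ∀ j, ap f _ (ee m j) = t j := by
  obtain ⟨f, hf⟩ := Frame.lb_hom (bet k ^ m) N t ht
  refine ⟨inv (theta k m) ≫ f, fun j => ?_⟩
  rw [← ap_theta, ← ap_comp, IsIso.hom_inv_id_assoc, hf]

/-! ### The ample divisor -/

lemma frac_of_mem_basicOpen {W : (Zs k).Opens} (f : Γ(Zs k, W))
    {x : ProjectiveSpectrum.top (cg k)} (hx : x ∈ W) {a b : cu k} (hax : a ∈ pc x)
    (hb0 : b ≠ 0) (h : gF f x hx = nu (b : P k) / nu (a : P k)) (hxf : x ∈ (Zs k).basicOpen f) :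
    b ∈ pc x := by
  obtain ⟨r, hr⟩ := (isUnit_ro_basicOpen f).exists_right_inv
  obtain ⟨l, m, c, h1, h2, h3, h4, h5⟩ := gF_fr r x hxf x hxf
  have h6 := congrArg (fun z => gF z x hxf) hr
  change gF _ _ _ = gF _ _ _ at h6
  rw [gF_mul, gF_one, gF_ro, h5, h] at h6
  have e1 := nu_pc_ne_zero hax
  have e2 := nu_pc_ne_zero h4
  have h7 : nu ((b : P k) * m) = nu ((a : P k) * (c : P k)) := by
    rw [map_mul, map_mul]
    field_simp at h6
    exact h6
  have h8 : b * ⟨m, h1⟩ = a * c := Subtype.ext (nu_injective h7)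
  have h9 : a * c ∈ pc x := (pc x).mul_mem hax h4
  rw [← h8] at h9
  intro hb
  exact h9 (Ideal.mul_mem_right _ _ hb)

variable (k) in
/-- The sections of degree eight. -/
def al (i : Fin 3) : cu k := ![xx k ^ 8, zz k ^ 8, vv k] i

lemma al_mem (i : Fin 3) : al k i ∈ cg k 8 := by
  fin_cases i
  · exact SetLike.pow_mem_graded 8 xx_mem
  · exact SetLike.pow_mem_graded 8 zz_mem
  · exact vv_mem

lemma al_pc (i : Fin 3) (x : ProjectiveSpectrum.top (cg k)) : al k i ∈ pc x ↔ x ∈ UU k i := by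
  fin_cases i
  · constructor
    · intro h h'
      exact h (Ideal.pow_mem_of_mem _ h' 8 (by norm_num))
    · intro h
      exact (pc x).pow_mem h 8
  · constructor
    · intro h h'
      exact h (Ideal.pow_mem_of_mem _ h' 8 (by norm_num))
    · intro h
      exact (pc x).pow_mem h 8
  · exact Iff.rfl

lemma al_ne_zero (i : Fin 3) : al k i ≠ 0 := fun h =>
  pc_ne_zero ((al_pc i (eta k)).2 (eta_UU i)) (by rw [h]; rfl)

lemma exists_gam (i : Fin 3) : ∃ u : Γ(Zs k, (FF k).T)ˣ,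
    gF (u : Γ(Zs k, (FF k).T)) (eta k) eta_T = nu (al k i : P k) / nu (al k 0 : P k) := by
  have h0 : ∀ i, nu (al k i : P k) ≠ 0 := fun i => nu_ne_zero fun e => al_ne_zero i (Subtype.ext e)
  refine exists_unitT _ (div_ne_zero (h0 i) (h0 0)) ?_ ?_
  · intro x hx
    exact fr_inv (al_mem i) (al_mem 0) ((al_pc 0 x).2 ((FF k).le 0 hx))
  · intro x hx
    rw [inv_div]
    exact fr_inv (al_mem 0) (al_mem i) ((al_pc i x).2 ((FF k).le i hx))

variable (k) in
/-- The ample divisor. -/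
def gam : (FF k).Div := ⟨fun i => (exists_gam i).choose, by
  intro i j
  obtain ⟨s, hs⟩ := exists_fun' ((FF k).U i ⊓ (FF k).U j) (nu (al k j : P k) / nu (al k i : P k)) (by
    intro x hx
    exact fr_inv (al_mem j) (al_mem i) ((al_pc i x).2 hx.1))
  refine ⟨s, ?_⟩
  apply gF_T_ext
  rw [hs]
  change _ = gU _
  rw [gU_mul, gU_inv, gU, (exists_gam j).choose_spec, gU, (exists_gam i).choose_spec]
  have h0 : ∀ i, nu (al k i : P k) ≠ 0 := fun i => nu_ne_zero fun e => al_ne_zero i (Subtype.ext e)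
  have h0' := h0 0
  have hi := h0 i
  field_simp⟩

lemma gU_gam (i : Fin 3) : gU ((gam k).1 i) = nu (al k i : P k) / nu (al k 0 : P k) :=
  (exists_gam i).choose_spec

lemma exists_co (j i : Fin 3) : ∃ s : Γ(Zs k, (FF k).U j),
    ∀ x hx, gF s x hx = nu (al k i : P k) / nu (al k j : P k) :=
  exists_fun' _ _ fun x hx => fr_inv (al_mem i) (al_mem j) ((al_pc j x).2 hx)

variable (k) in
/-- The charts are the nonvanishing loci of sections of an ample line bundle. -/
def ampleFF : Frame.Ample (FF k) (gam k) where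
  aff := isAffine_UU
  co j i := (exists_co j i).choose
  ro_co j i := by
    apply gF_T_ext
    rw [(exists_co j i).choose_spec]
    change _ = gU _
    rw [gU_mul, gU_inv, gU_gam, gU_gam]
    have h0 : ∀ i, nu (al k i : P k) ≠ 0 := fun i =>
      nu_ne_zero fun e => al_ne_zero i (Subtype.ext e)
    have h0' := h0 0
    have hj := h0 j
    field_simp
  basicOpen_co j i := by
    have hco := (exists_co (k := k) j i).choose_spec
    apply le_antisymm
    · refine le_inf ((Zs k).basicOpen_le _) ?_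
      intro x hx
      have hxj : x ∈ (FF k).U j := (Zs k).basicOpen_le _ hx
      exact (al_pc i x).1 (frac_of_mem_basicOpen _ hxj ((al_pc j x).2 hxj) (al_ne_zero i)
        (hco x hxj) hx)
    · rintro x ⟨hxj, hxi⟩
      exact mem_basicOpen_of_frac _ hxj (al_mem j) (al_mem i) ((al_pc j x).2 hxj)
        ((al_pc i x).2 hxi) (hco x hxj)

end

end Pool.Agent.N212
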