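import Pool.Agent.N212.A3
import Pool.Agent.N212.C1
import Pool.Agent.N212.T9

set_option autoImplicit false
set_option linter.unusedVariables false

/-!
The sheaves of fractions of polynomials have no higher cohomology.
-/

open CategoryTheory Limits TopologicalSpace AlgebraicGeometry Opposite TopCat

namespace Pool.Agent.N212

noncomputable section

set_option backward.isDefEq.respectTransparency false

open Pool.Agent.W506 Pool.Agent.R924

attribute [local instance] MvPolynomial.gradedAlgebra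

variable {k : Type} [Field k]

lemma exists_pow_ge {f : cu k} {d : ℕ} (hf : f ∈ cg k d) (hd : 0 < d)
    (hf0 : f ≠ 0) (j : ℤ) (n : K0 k)
    (h : ∀ x : ProjectiveSpectrum.top (cg k), f ∈ pc x → Fr ⊤ x j n) :
    ∃ r₀ : ℕ, ∀ r, r₀ ≤ r → ∃ m : P k, m ∈ homZ (PH k) (r * d + j) ∧
      nu (f : P k) ^ r * n = nu m := by
  obtain ⟨r₀, m, -, hm, hn⟩ := exists_pow ⊤ hf hd hf0 j n h
  refine ⟨r₀, fun r hr => ?_⟩
  obtain ⟨q, rfl⟩ := Nat.exists_eq_add_of_le hr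
  refine ⟨(f : P k) ^ q * m, ?_, ?_⟩
  · have h1 : (f : P k) ^ q ∈ PH k (q • d) := SetLike.pow_mem_graded (A := PH k) q
      (show (f : P k) ∈ PH k d from hf)
    have h2 := mul_mem_homZ (𝒮 := PH k) h1 hm
    have e : ((q • d : ℕ) : ℤ) + (r₀ * d + j) = ((r₀ + q : ℕ) : ℤ) * d + j := by
      rw [smul_eq_mul]; push_cast; ring
    rwa [e] at h2
  · have h0 : nu (f : P k) ≠ 0 := nu_ne_zero fun e => hf0 (Subtype.ext e)
    rw [hn, map_mul, map_pow, pow_add]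
    field_simp

lemma ttm {i : ℤ} (j : Fin 3) (n : K0 k) : tt k j ^ i * (tt k j ^ (-i) * n) = n := by
  rw [← mul_assoc, ← zpow_add₀ (tt_ne_zero j), add_neg_cancel, zpow_zero, one_mul]

lemma nrm_fr {m i : ℤ} {U : (Zs k).Opens} (j : Fin 3) (hU : U ≤ UU k j) (he : eta k ∈ U)
    (s : Γ(til (GS k) m, U)) : ∀ x ∈ U, Fr ⊤ x (m - i) (tt k j ^ (-i) * gS s (eta k) he) := by
  intro x hx
  have := (tt_fr j (-i) (hU hx)).mul (gS_fr s (eta k) he x hx)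
  rwa [neg_add_eq_sub] at this

lemma exists_nrm {m i : ℤ} {U : (Zs k).Opens} (j : Fin 3) (hU : U ≤ UU k j) (n : K0 k)
    (h : ∀ x ∈ U, Fr ⊤ x (m - i) n) :
    ∃ s : Γ(til (GS k) m, U), ∀ x hx, gS s x hx = tt k j ^ i * n := by
  apply exists_sec'
  intro x hx
  have := (tt_fr j i (hU hx)).mul (h x hx)
  rwa [add_sub_cancel] at this

lemma fr_of {p : P k} {a : cu k} {l : ℕ} {d : ℤ} (hp : p ∈ homZ (PH k) (l + d)) (ha : a ∈ cg k l)
    {x : ProjectiveSpectrum.top (cg k)} (hx : a ∈ pc x) : Fr ⊤ x d (nu p / nu (a : P k)) :=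
  ⟨l, p, a, trivial, hp, ha, hx, rfl⟩

lemma pow_mem_cg {a : cu k} {d : ℕ} (ha : a ∈ cg k d) (N : ℕ) : a ^ N ∈ cg k (N * d) :=
  SetLike.pow_mem_graded N ha

lemma coe_pow_cu (a : cu k) (N : ℕ) : nu ((a ^ N : cu k) : P k) = nu (a : P k) ^ N :=
  map_pow nu _ _

lemma Dp_mul {a b : cu k} {x : ProjectiveSpectrum.top (cg k)} :
    a * b ∈ pc x ↔ a ∈ pc x ∧ b ∈ pc x := by
  constructor
  · intro h
    exact ⟨fun h' => h (Ideal.mul_mem_right _ _ h'), fun h' => h (Ideal.mul_mem_left _ _ h')⟩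
  · rintro ⟨h, h'⟩
    exact (pc x).mul_mem h h'

lemma ne_xx : xx k ≠ 0 := fun e => MvPolynomial.X_ne_zero (1 : Fin 3) (congrArg Subtype.val e)
lemma ne_zz : zz k ≠ 0 := fun e => MvPolynomial.X_ne_zero (2 : Fin 3) (congrArg Subtype.val e)
lemma ne_vv : vv k ≠ 0 := fun e => pc_ne_zero (eta_UU (k := k) 2) (congrArg Subtype.val e)

variable (k) in
/-- The first coordinate. -/
abbrev nx : K0 k := nu (MvPolynomial.X 1 : P k)
variable (k) in
/-- The second coordinate. -/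
abbrev nz : K0 k := nu (MvPolynomial.X 2 : P k)
variable (k) in
/-- The third coordinate. -/
abbrev nV : K0 k := nu (VV k)

lemma nx_ne : nx k ≠ 0 := nu_ne_zero (MvPolynomial.X_ne_zero _)
lemma nz_ne : nz k ≠ 0 := nu_ne_zero (MvPolynomial.X_ne_zero _)
lemma nV_ne : nV k ≠ 0 := nu_ne_zero fun e => ne_vv (Subtype.ext e)

lemma xpow_dvd (N : ℕ) {b c p q : P k}
    (h : MvPolynomial.X 2 ^ N * b = MvPolynomial.X 1 ^ N * c +
      VV k ^ N * (MvPolynomial.X 1 ^ N * p + MvPolynomial.X 2 ^ N * q)) :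
    ∃ r, b = VV k ^ N * q + MvPolynomial.X 1 ^ N * r := by
  have h1 : (MvPolynomial.X 1 ^ N : P k) ∣ MvPolynomial.X 2 ^ N * (b - VV k ^ N * q) := by
    refine ⟨c + VV k ^ N * p, ?_⟩
    rw [mul_sub, h]
    ring
  obtain ⟨r, hr⟩ := X_pow_dvd (by decide) N N h1
  exact ⟨r, by rw [← hr]; ring⟩

lemma exists_pow_mul {a b : cu k} {d e : ℕ} (ha : a ∈ cg k d) (hb : b ∈ cg k e) (hd : 0 < d)
    (ha0 : a ≠ 0) (hb0 : b ≠ 0) (j : ℤ) (n : K0 k)
    (h : ∀ x : ProjectiveSpectrum.top (cg k), a ∈ pc x → b ∈ pc x → Fr ⊤ x j n) :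
    ∃ r₀ : ℕ, ∀ r, r₀ ≤ r → ∃ m : P k, m ∈ homZ (PH k) (r * ((d + e : ℕ) : ℤ) + j) ∧
      (nu (a : P k) * nu (b : P k)) ^ r * n = nu m := by
  have h1 : a * b ∈ cg k (d + e) := SetLike.mul_mem_graded ha hb
  obtain ⟨r₀, hr⟩ := exists_pow_ge h1 (by lia) (mul_ne_zero ha0 hb0) j n
    (fun x hx => h x (Dp_mul.1 hx).1 (Dp_mul.1 hx).2)
  have c1 : nu ((a * b : cu k) : P k) = nu (a : P k) * nu (b : P k) := map_mul nu _ _
  rw [c1] at hr
  exact ⟨r₀, hr⟩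

theorem cls_GS (m i : ℤ) (hmi : -2 ≤ m - i) : Cls (bet k ^ i) (til (GS k) m) where
  sum j := (qcOn_GS m _).sumOn
  c1 := by
    intro s₀₁ s₀₂ s₁₂ hs
    have e01 : eta k ∈ (FF k).U 0 ⊓ (FF k).U 1 := ⟨eta_UU 0, eta_UU 1⟩
    have e02 : eta k ∈ (FF k).U 0 ⊓ (FF k).U 2 := ⟨eta_UU 0, eta_UU 2⟩
    have e12 : eta k ∈ (FF k).U 1 ⊓ (FF k).U 2 := ⟨eta_UU 1, eta_UU 2⟩
    have eW : eta k ∈ WW (FF k) := ⟨e01, eta_UU 2⟩
    obtain ⟨d, hd⟩ : ∃ d, d = m - i := ⟨_, rfl⟩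
    obtain ⟨n₀₁, hn₀₁⟩ : ∃ n, n = tt k 1 ^ (-i) * gS s₀₁ (eta k) e01 := ⟨_, rfl⟩
    obtain ⟨n₀₂, hn₀₂⟩ : ∃ n, n = tt k 2 ^ (-i) * gS s₀₂ (eta k) e02 := ⟨_, rfl⟩
    obtain ⟨n₁₂, hn₁₂⟩ : ∃ n, n = tt k 2 ^ (-i) * gS s₁₂ (eta k) e12 := ⟨_, rfl⟩
    have h1 : n₀₂ = n₁₂ + n₀₁ := by
      have h2 := congrArg (fun z => gS z (eta k) eW) hs
      change gS _ _ _ = gS _ _ _ at h2
      rw [gS_add, gS_smul, gS_rs, gS_rs, gS_rs, gF_ro, gF_tr] at h2
      rw [hn₀₂, h2, hn₁₂, hn₀₁, mul_add, ← mul_assoc, div_zpow]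
      congr 2
      rw [mul_div_assoc', ← zpow_add₀ (tt_ne_zero 2), neg_add_cancel, zpow_zero, one_div,
        zpow_neg]
    have f01 := nrm_fr (i := i) 1 inf_le_right e01 s₀₁
    have f02 := nrm_fr (i := i) 2 inf_le_right e02 s₀₂
    have f12 := nrm_fr (i := i) 2 inf_le_right e12 s₁₂
    rw [← hn₀₁, ← hd] at f01
    rw [← hn₀₂, ← hd] at f02
    rw [← hn₁₂, ← hd] at f12
    obtain ⟨r₁, k₁⟩ := exists_pow_mul (xx_mem (k := k)) zz_mem (by norm_num)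
      ne_xx ne_zz d n₀₁ (fun x hx hx' => f01 x ⟨hx, hx'⟩)
    obtain ⟨r₂, k₂⟩ := exists_pow_mul (xx_mem (k := k)) vv_mem (by norm_num)
      ne_xx ne_vv d n₀₂ (fun x hx hx' => f02 x ⟨hx, hx'⟩)
    obtain ⟨r₃, k₃⟩ := exists_pow_mul (zz_mem (k := k)) vv_mem (by norm_num)
      ne_zz ne_vv d n₁₂ (fun x hx hx' => f12 x ⟨hx, hx'⟩)
    obtain ⟨N, l₁, l₂, l₃⟩ : ∃ N, r₁ ≤ N ∧ r₂ ≤ N ∧ r₃ ≤ N :=
      ⟨r₁ + r₂ + r₃, by omega, by omega, by omega⟩
    obtain ⟨a, ha, ha'⟩ := k₁ N l₁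
    obtain ⟨b, hb, hb'⟩ := k₂ N l₂
    obtain ⟨c, hc, hc'⟩ := k₃ N l₃
    change (nx k * nz k) ^ N * n₀₁ = nu a at ha'
    change (nx k * nV k) ^ N * n₀₂ = nu b at hb'
    change (nz k * nV k) ^ N * n₁₂ = nu c at hc'
    have h3 : MvPolynomial.X 2 ^ N * b = MvPolynomial.X 1 ^ N * c + VV k ^ N * a := by
      apply nu_injective
      rw [map_add, map_mul, map_mul, map_mul, map_pow, map_pow, map_pow, ← ha', ← hb', ← hc', h1]
      ring
    obtain ⟨p, q, hpq⟩ := Ideal.mem_span_pair.1 (mem_xz N (a := a) (by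
      have h4 : VV k ^ N * a = (-c) * MvPolynomial.X 1 ^ N + b * MvPolynomial.X 2 ^ N := by
        rw [mul_comm b, h3]
        ring
      rw [h4]
      exact Ideal.mem_span_pair.2 ⟨_, _, rfl⟩))
    obtain ⟨p, q, hp, hq, hpq⟩ := hom_coeff₂ (𝒮 := PH k) ha
      (MvPolynomial.isHomogeneous_X_pow (R := k) (1 : Fin 3) N)
      (MvPolynomial.isHomogeneous_X_pow (R := k) (2 : Fin 3) N) (p₁ := p) (p₂ := q) (by
        rw [← hpq]; ring)
    rw [hpq] at h3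
    obtain ⟨r, hr⟩ := xpow_dvd N h3
    have hVq : VV k ^ N * q ∈ homZ (PH k) (N * ((1 + 8 : ℕ) : ℤ) + d) := by
      have := mul_mem_homZ (𝒮 := PH k) (SetLike.pow_mem_graded (A := PH k) N VV_mem) hq
      have e : ((N • 8 : ℕ) : ℤ) + (N * ((1 + 1 : ℕ) : ℤ) + d - N) =
        N * ((1 + 8 : ℕ) : ℤ) + d := by rw [smul_eq_mul]; push_cast; ring
      rwa [e] at this
    have hr' : r ∈ homZ (PH k) (N * 8 + d) := by
      apply homZ_of_mul (𝒮 := PH k) (MvPolynomial.isHomogeneous_X_pow (R := k) (1 : Fin 3) N)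
        (pow_ne_zero _ (MvPolynomial.X_ne_zero _))
      have h5 : (MvPolynomial.X 1 ^ N * r : P k) = b - VV k ^ N * q := by rw [hr]; ring
      have e : (N : ℤ) + (N * 8 + d) = N * ((1 + 8 : ℕ) : ℤ) + d := by push_cast; ring
      rw [h5, e]
      exact sub_mem hb hVq
    have m0 : (N : ℤ) * ((1 + 1 : ℕ) : ℤ) + d - N = ((N * 1 : ℕ) : ℤ) + d := by push_cast; ring
    rw [m0] at hp hq
    have m1 : (N : ℤ) * 8 + d = ((N * 8 : ℕ) : ℤ) + d := by push_cast; ring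
    rw [m1] at hr'
    obtain ⟨t₀, ht₀⟩ := exists_nrm (m := m) (i := i) (U := (FF k).U 0) 0 le_rfl
      (nu (-q) / nu ((xx k ^ N : cu k) : P k)) (fun x hx => by
        rw [← hd]
        exact fr_of (neg_mem hq) (pow_mem_cg xx_mem N) ((pc x).pow_mem hx N))
    obtain ⟨t₁, ht₁⟩ := exists_nrm (m := m) (i := i) (U := (FF k).U 1) 1 le_rfl
      (nu p / nu ((zz k ^ N : cu k) : P k)) (fun x hx => by
        rw [← hd]
        exact fr_of hp (pow_mem_cg zz_mem N) ((pc x).pow_mem hx N))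
    obtain ⟨t₂, ht₂⟩ := exists_nrm (m := m) (i := i) (U := (FF k).U 2) 2 le_rfl
      (nu r / nu ((vv k ^ N : cu k) : P k)) (fun x hx => by
        rw [← hd]
        exact fr_of hr' (pow_mem_cg vv_mem N) ((pc x).pow_mem hx N))
    rw [coe_pow_cu] at ht₀ ht₁ ht₂
    change ∀ x hx, gS t₀ x hx = tt k 0 ^ i * (nu (-q) / nx k ^ N) at ht₀
    change ∀ x hx, gS t₁ x hx = tt k 1 ^ i * (nu p / nz k ^ N) at ht₁
    change ∀ x hx, gS t₂ x hx = tt k 2 ^ i * (nu r / nV k ^ N) at ht₂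
    have x0 := nx_ne (k := k)
    have z0 := nz_ne (k := k)
    have V0 := nV_ne (k := k)
    have v1 : n₀₁ = nu p / nz k ^ N - nu (-q) / nx k ^ N := by
      have h6 : nu a = nx k ^ N * nu p + nz k ^ N * nu q := by
        rw [hpq, map_add, map_mul, map_mul, map_pow, map_pow]
      rw [h6, mul_pow] at ha'
      rw [map_neg]
      field_simp
      linear_combination ha'
    have v2 : n₀₂ = nu r / nV k ^ N - nu (-q) / nx k ^ N := by
      have h6 : nu b = nV k ^ N * nu q + nx k ^ N * nu r := by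
        rw [hr, map_add, map_mul, map_mul, map_pow, map_pow]
      rw [h6, mul_pow] at hb'
      rw [map_neg]
      field_simp
      linear_combination hb'
    have v3 : n₁₂ = nu r / nV k ^ N - nu p / nz k ^ N := by
      have : n₁₂ = n₀₂ - n₀₁ := by rw [h1]; ring
      rw [this, v1, v2]
      ring
    have key : ∀ (j l : Fin 3) (A B : K0 k), tt k l ^ i * (B - A) =
        tt k l ^ i * B - (tt k l / tt k j) ^ i * (tt k j ^ i * A) := by
      intro j l A B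
      rw [div_zpow, mul_sub, ← mul_assoc, div_mul_cancel₀ _ (zpow_ne_zero i (tt_ne_zero j))]
    refine ⟨fun j => match j with | 0 => t₀ | 1 => t₁ | 2 => t₂, ?_, ?_, ?_⟩
    · refine gS_ext (x := eta k) (hx := e01) ?_
      change gS s₀₁ _ _ = gS (rs _ inf_le_right t₁ - _ • rs _ inf_le_left t₀) _ _
      rw [gS_sub, gS_smul, gS_rs, gS_rs, ht₀, ht₁, gF_tr, ← key 0 1, ← v1, hn₀₁, ttm]
    · refine gS_ext (x := eta k) (hx := e02) ?_
      change gS s₀₂ _ _ = gS (rs _ inf_le_right t₂ - _ • rs _ inf_le_left t₀) _ _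
      rw [gS_sub, gS_smul, gS_rs, gS_rs, ht₀, ht₂, gF_tr, ← key 0 2, ← v2, hn₀₂, ttm]
    · refine gS_ext (x := eta k) (hx := e12) ?_
      change gS s₁₂ _ _ = gS (rs _ inf_le_right t₂ - _ • rs _ inf_le_left t₁) _ _
      rw [gS_sub, gS_smul, gS_rs, gS_rs, ht₁, ht₂, gF_tr, ← key 1 2, ← v3, hn₁₂, ttm]
  c2 := by
    intro s
    have eW : eta k ∈ WW (FF k) := ⟨⟨eta_UU 0, eta_UU 1⟩, eta_UU 2⟩
    obtain ⟨d, hd⟩ : ∃ d, d = m - i := ⟨_, rfl⟩
    obtain ⟨n, hn⟩ : ∃ n, n = tt k 2 ^ (-i) * gS s (eta k) eW := ⟨_, rfl⟩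
    have f01 := nrm_fr (i := i) 2 inf_le_right eW s
    rw [← hn, ← hd] at f01
    obtain ⟨r₁, k₁⟩ := exists_pow_ge (SetLike.mul_mem_graded
      (SetLike.mul_mem_graded (xx_mem (k := k)) zz_mem) vv_mem) (by norm_num)
      (mul_ne_zero (mul_ne_zero ne_xx ne_zz) ne_vv) d n (fun x hx => f01 x
        ⟨Dp_mul.1 (Dp_mul.1 hx).1, (Dp_mul.1 hx).2⟩)
    obtain ⟨N, hN⟩ : ∃ N, N = r₁ + 1 := ⟨_, rfl⟩
    obtain ⟨a, ha, ha'⟩ := k₁ N (by omega)
    have c1 : nu ((xx k * zz k * vv k : cu k) : P k) = nx k * nz k * nV k := by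
      change nu ((MvPolynomial.X 1 * MvPolynomial.X 2) * VV k) = _
      rw [map_mul, map_mul]
    rw [c1] at ha'
    obtain ⟨D, hD⟩ : ∃ D : ℕ, (D : ℤ) = (N : ℤ) * ((1 + 1 + 8 : ℕ) : ℤ) + d :=
      ⟨((N : ℤ) * ((1 + 1 + 8 : ℕ) : ℤ) + d).toNat, by
        rw [Int.toNat_of_nonneg (by push_cast; omega)]⟩
    have ha1 : a ∈ PH k D := by
      rw [← hD] at ha
      exact mem_homZ_nat.1 ha
    obtain ⟨p, q, r, hpqr⟩ := mem_I3.1 (hom_I3 (A := N) (B := N) (C := N) (by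
      have : (10 * N : ℤ) ≤ D + 2 := by rw [hD]; push_cast; omega
      omega) ha1)
    obtain ⟨p, q, r, hp, hq, hr, hpqr⟩ := hom_coeff₃ (𝒮 := PH k) ha
      (MvPolynomial.isHomogeneous_X_pow (R := k) (1 : Fin 3) N)
      (MvPolynomial.isHomogeneous_X_pow (R := k) (2 : Fin 3) N)
      (SetLike.pow_mem_graded (A := PH k) N VV_mem) hpqr
    have m0 : (N : ℤ) * ((1 + 1 + 8 : ℕ) : ℤ) + d - N = ((N * (1 + 8) : ℕ) : ℤ) + d := by
      push_cast; ring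
    have m1 : (N : ℤ) * ((1 + 1 + 8 : ℕ) : ℤ) + d - ((N • 8 : ℕ) : ℤ) =
      ((N * (1 + 1) : ℕ) : ℤ) + d := by rw [smul_eq_mul]; push_cast; ring
    rw [m0] at hp hq
    rw [m1] at hr
    obtain ⟨t₁₂, ht₁₂⟩ := exists_nrm (m := m) (i := i) (U := (FF k).U 1 ⊓ (FF k).U 2) 2 inf_le_right
      (nu p / nu (((zz k * vv k) ^ N : cu k) : P k)) (fun x hx => by
        rw [← hd]
        exact fr_of hp (pow_mem_cg (SetLike.mul_mem_graded zz_mem vv_mem) N)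
          ((pc x).pow_mem (Dp_mul.2 hx) N))
    obtain ⟨t₀₂, ht₀₂⟩ := exists_nrm (m := m) (i := i) (U := (FF k).U 0 ⊓ (FF k).U 2) 2 inf_le_right
      (nu q / nu (((xx k * vv k) ^ N : cu k) : P k)) (fun x hx => by
        rw [← hd]
        exact fr_of hq (pow_mem_cg (SetLike.mul_mem_graded xx_mem vv_mem) N)
          ((pc x).pow_mem (Dp_mul.2 hx) N))
    obtain ⟨t₀₁, ht₀₁⟩ := exists_nrm (m := m) (i := i) (U := (FF k).U 0 ⊓ (FF k).U 1) 1 inf_le_right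
      (nu r / nu (((xx k * zz k) ^ N : cu k) : P k)) (fun x hx => by
        rw [← hd]
        exact fr_of hr (pow_mem_cg (SetLike.mul_mem_graded xx_mem zz_mem) N)
          ((pc x).pow_mem (Dp_mul.2 hx) N))
    have c2 : nu (((zz k * vv k) ^ N : cu k) : P k) = (nz k * nV k) ^ N := by
      change nu ((MvPolynomial.X 2 * VV k) ^ N) = _
      rw [map_pow, map_mul]
    have c3 : nu (((xx k * vv k) ^ N : cu k) : P k) = (nx k * nV k) ^ N := by
      change nu ((MvPolynomial.X 1 * VV k) ^ N) = _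
      rw [map_pow, map_mul]
    have c4 : nu (((xx k * zz k) ^ N : cu k) : P k) = (nx k * nz k) ^ N := by
      change nu ((MvPolynomial.X 1 * MvPolynomial.X 2) ^ N) = _
      rw [map_pow, map_mul]
    rw [c2] at ht₁₂
    rw [c3] at ht₀₂
    rw [c4] at ht₀₁
    refine ⟨t₀₁, t₀₂, t₁₂, gS_ext (x := eta k) (hx := eW) ?_⟩
    rw [gS_add, gS_add, gS_smul, gS_rs, gS_rs, gS_rs, ht₀₁, ht₀₂, ht₁₂, gF_ro, gF_tr, div_zpow,
      ← mul_assoc (_ / _), div_mul_cancel₀ _ (zpow_ne_zero i (tt_ne_zero 1)), ← mul_add, ← mul_add]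
    rw [← ttm (i := i) 2 (gS s (eta k) eW), ← hn]
    congr 1
    have x0 := nx_ne (k := k)
    have z0 := nz_ne (k := k)
    have V0 := nV_ne (k := k)
    have h6 : nu a = nx k ^ N * nu p + nz k ^ N * nu q + nV k ^ N * nu r := by
      rw [hpqr, map_add, map_add, map_mul, map_mul, map_mul, map_pow, map_pow, map_pow]
    rw [h6] at ha'
    rw [mul_pow, mul_pow] at ha'
    rw [mul_pow, mul_pow, mul_pow]
    have h7 : n = (nx k ^ N * nu p + nz k ^ N * nu q + nV k ^ N * nu r) /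
        (nx k ^ N * nz k ^ N * nV k ^ N) := by
      rw [← ha']
      field_simp
    rw [h7]
    field_simp
    ring

end

end Pool.Agent.N212
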