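import Pool.Agent.N212.T3

set_option autoImplicit false
set_option linter.unusedVariables false

/-!
Further properties of the functor from graded modules to sheaves.
-/

open CategoryTheory Limits TopologicalSpace AlgebraicGeometry Opposite TopCat

namespace Pool.Agent.N212

noncomputable section

set_option backward.isDefEq.respectTransparency false

open Pool.Agent.W506

variable {k : Type} [Field k] {A : Type} [CommRing A] [Algebra k A]
  {𝒜 : ℕ → Submodule k A} [GradedAlgebra 𝒜]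

lemma tmap_ext' {N N' : GM 𝒜} {e e' : ℤ} (f : GH N N' e) (g : GH N N' e') {j j' : ℤ}
    (h : j' = j + e) (h' : j' = j + e') (hfg : ∀ i m, m ∈ N.deg i → f.f m = g.f m) :
    tmap f h = tmap g h' := by
  apply ap_ext
  intro U s
  apply vl_ext
  intro x hx
  rw [vl_tmap, vl_tmap]
  obtain ⟨V, hV, hxV, n, m, a, h1, h2, h3⟩ := exists_frac s x hx
  obtain ⟨h4, h5⟩ := h3 x hxV
  rw [h5, lmap_mk, lmap_mk, hfg _ _ h1]

lemma tmap_comp' {N₁ N₂ N₃ : GM 𝒜} {e₁ e₂ e₃ : ℤ} (f : GH N₁ N₂ e₁) (g : GH N₂ N₃ e₂)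
    (l : GH N₁ N₃ e₃) {j₁ j₂ j₃ : ℤ} (h₁ : j₂ = j₁ + e₁) (h₂ : j₃ = j₂ + e₂) (h₃ : j₃ = j₁ + e₃)
    (h : ∀ i m, m ∈ N₁.deg i → l.f m = g.f (f.f m)) : tmap f h₁ ≫ tmap g h₂ = tmap l h₃ := by
  apply ap_ext
  intro U s
  apply vl_ext
  intro x hx
  rw [ap_comp, vl_tmap, vl_tmap, vl_tmap]
  obtain ⟨V, hV, hxV, n, m, a, h4, h5, h6⟩ := exists_frac s x hx
  obtain ⟨h7, h8⟩ := h6 x hxV
  rw [h8, lmap_mk, lmap_mk, lmap_mk, h _ _ h4]

lemma tmap_add' {N N' : GM 𝒜} {e e' e'' : ℤ} (f : GH N N' e) (g : GH N N' e') (l : GH N N' e'')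
    {j j' : ℤ} (h : j' = j + e) (h' : j' = j + e') (h'' : j' = j + e'')
    (hfg : ∀ i m, m ∈ N.deg i → l.f m = f.f m + g.f m) : tmap f h + tmap g h' = tmap l h'' := by
  apply ap_ext
  intro U s
  apply vl_ext
  intro x hx
  rw [ap_add, vl_add, vl_tmap, vl_tmap, vl_tmap]
  obtain ⟨V, hV, hxV, n, m, a, h1, h2, h3⟩ := exists_frac s x hx
  obtain ⟨h4, h5⟩ := h3 x hxV
  rw [h5, lmap_mk, lmap_mk, lmap_mk, hfg _ _ h1, LocalizedModule.mk_add_mk]
  rw [LocalizedModule.mk_eq]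
  refine ⟨1, ?_⟩
  change (1 : A) • a • (a • f.f m + a • g.f m) = (1 : A) • (a * a) • (f.f m + g.f m)
  rw [one_smul, one_smul, ← smul_add, smul_smul]

lemma tmap_zero' {N N' : GM 𝒜} {e : ℤ} (f : GH N N' e) {j j' : ℤ}
    (h : j' = j + e) (hf : ∀ i m, m ∈ N.deg i → f.f m = 0) : tmap f h = 0 := by
  apply ap_ext
  intro U s
  apply vl_ext
  intro x hx
  rw [vl_tmap, ap_zero, vl_zero]
  obtain ⟨V, hV, hxV, n, m, a, h1, h2, h3⟩ := exists_frac s x hx
  obtain ⟨h4, h5⟩ := h3 x hxV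
  rw [h5, lmap_mk, hf _ _ h1, LocalizedModule.zero_mk]

lemma tmap_id' {N : GM 𝒜} {e : ℤ} (f : GH N N e) {j : ℤ}
    (h : j = j + e) (hf : ∀ i m, m ∈ N.deg i → f.f m = m) : tmap f h = 𝟙 (til N j) := by
  apply ap_ext
  intro U s
  apply vl_ext
  intro x hx
  rw [vl_tmap, ap_id]
  obtain ⟨V, hV, hxV, n, m, a, h1, h2, h3⟩ := exists_frac s x hx
  obtain ⟨h4, h5⟩ := h3 x hxV
  rw [h5, lmap_mk, hf _ _ h1]

lemma tmap_sum' {ι : Type} [Fintype ι] {N : GM 𝒜} (M : ι → GM 𝒜) {j : ℤ} (j' : ι → ℤ)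
    (e e' : ι → ℤ) (p : ∀ a, GH N (M a) (e a)) (i : ∀ a, GH (M a) N (e' a))
    (h : ∀ a, j' a = j + e a) (h' : ∀ a, j = j' a + e' a)
    (hs : ∀ l m, m ∈ N.deg l → ∑ a, (i a).f ((p a).f m) = m) :
    ∑ a, tmap (p a) (h a) ≫ tmap (i a) (h' a) = 𝟙 (til N j) := by
  classical
  apply ap_ext
  intro U s
  apply vl_ext
  intro x hx
  have h1 : ∀ t : Finset ι, vl (ap (∑ a ∈ t, tmap (p a) (h a) ≫ tmap (i a) (h' a)) U s) x hx =
      ∑ a ∈ t, lmap (i a).f x (lmap (p a).f x (vl s x hx)) := by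
    intro t
    induction t using Finset.induction_on with
    | empty => rw [Finset.sum_empty, Finset.sum_empty]; rfl
    | insert a t ha ih =>
      rw [Finset.sum_insert ha, Finset.sum_insert ha, ap_add, vl_add, ih, ap_comp, vl_tmap, vl_tmap]
  rw [h1, ap_id]
  obtain ⟨V, hV, hxV, n, m, a, h2, h3, h4⟩ := exists_frac s x hx
  obtain ⟨h5, h6⟩ := h4 x hxV
  rw [h6]
  have h7 : ∀ t : Finset ι, ∑ b ∈ t, lmap (i b).f x (lmap (p b).f x
      (LocalizedModule.mk m ⟨a, h5⟩)) = LocalizedModule.mk (∑ b ∈ t, (i b).f ((p b).f m)) ⟨a, h5⟩ := by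
    intro t
    induction t using Finset.induction_on with
    | empty => rw [Finset.sum_empty, Finset.sum_empty, LocalizedModule.zero_mk]
    | insert b t hb ih =>
      rw [Finset.sum_insert hb, Finset.sum_insert hb, ih, lmap_mk, lmap_mk,
        LocalizedModule.mk_add_mk, LocalizedModule.mk_eq]
      refine ⟨1, ?_⟩
      change (1 : A) • a • (a • (i b).f ((p b).f m) + a • ∑ b ∈ t, (i b).f ((p b).f m)) =
        (1 : A) • (a * a) • ((i b).f ((p b).f m) + ∑ b ∈ t, (i b).f ((p b).f m))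
      rw [one_smul, one_smul, ← smul_add, smul_smul]
  rw [h7, hs _ _ h2]

/-- Injectivity on homogeneous elements. -/
lemma mono_tmap' {N N' : GM 𝒜} [IsGr N'] {e : ℤ} (f : GH N N' e)
    (hf : ∀ i m, m ∈ N.deg i → f.f m = 0 → m = 0) {j j' : ℤ} (h : j' = j + e) :
    Mono (tmap f h) := by
  apply mono_of_ap_injective
  intro U
  rw [injective_iff_map_eq_zero]
  intro s hs
  apply vl_ext
  intro x hx
  obtain ⟨V, hV, hxV, n, m, a, h1, h2, h3⟩ := exists_frac s x hx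
  obtain ⟨h4, h5⟩ := h3 x hxV
  have h6 : (LocalizedModule.mk (f.f m) ⟨a, h4⟩ : Lo N' x) = 0 := by
    rw [← lmap_mk, ← h5, ← vl_tmap f h]
    exact congrArg (fun z => vl z x hx) hs
  obtain ⟨l, c, hc, hcx, hcm⟩ := exists_hom_ann (f.map_deg h1) x _ h6
  have h7 : c • m = 0 := hf _ _ (N.smul_mem hc h1) (by rw [map_smul, hcm])
  rw [vl_zero]
  exact h5.trans (mk_eq_zero_of hcx h7 _)

end

end Pool.Agent.N212
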