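import Pool.Agent.N212.A1
import Pool.Agent.N212.T10

set_option autoImplicit false
set_option linter.unusedVariables false

/-!
Short exact sequences of twisted sheaves.
-/

open CategoryTheory Limits TopologicalSpace AlgebraicGeometry Opposite TopCat

namespace Pool.Agent.N212

noncomputable section

set_option backward.isDefEq.respectTransparency false

open Pool.Agent.W506

attribute [local instance] MvPolynomial.gradedAlgebra

variable {k : Type} [Field k]

lemma ses_tmap {N₁ N₂ N₃ : GM (cg k)} [IsGr N₂] [IsGr N₃] {e₁ e₂ : ℤ} (f : GH N₁ N₂ e₁)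
    (g : GH N₂ N₃ e₂) (hf : ∀ i m, m ∈ N₁.deg i → f.f m = 0 → m = 0)
    (h0 : ∀ m, g.f (f.f m) = 0) (hex : LExact f g) (hs : LSurj g) {j₁ j₂ j₃ : ℤ}
    (h₁ : j₂ = j₁ + e₁) (h₂ : j₃ = j₂ + e₂) :
    (ShortComplex.mk (tmap f h₁) (tmap g h₂) (tmap_comp_zero f g h0 h₁ h₂)).ShortExact where
  exact := exact_tmap f g hex h₁ h₂ _
  mono_f := mono_tmap' f hf h₁
  epi_g := epi_tmap g hs h₂

end

end Pool.Agent.N212
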