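import Pool.Agent.N212.C1
import Pool.Agent.N212.C4a
import Pool.Agent.N212.T9

set_option autoImplicit false
set_option linter.unusedVariables false

/-!
Morphisms from a line bundle are multiplications by homogeneous elements.
-/

open CategoryTheory Limits TopologicalSpace AlgebraicGeometry Opposite TopCat

namespace Pool.Agent.N212

noncomputable section

set_option backward.isDefEq.respectTransparency false

open Pool.Agent.W506 Pool.Agent.R924

attribute [local instance] MvPolynomial.gradedAlgebra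

variable {k : Type} [Field k]

/-- Multiplication by a homogeneous element. -/
def mulr (N : GM (cg k)) {d : ℤ} {r : N.M} (hr : r ∈ N.deg d) : GH (GA k) N d where
  f := LinearMap.toSpanSingleton (cu k) N.M r
  map_deg := by
    intro i m hm
    by_cases hi : 0 ≤ i
    · obtain ⟨n, rfl⟩ := Int.eq_ofNat_of_zero_le hi
      exact N.smul_mem (mem_homZ_nat.1 hm) hr
    · have h0 : (show cu k from m) = 0 := homZ_neg (𝒮 := cg k) (not_le.1 hi) hm
      have h1 : m = 0 := h0
      rw [h1, map_zero]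
      exact zero_mem _

/-- All morphisms are multiplications by homogeneous elements. -/
def HR (N : GM (cg k)) (i j : ℤ) : Prop :=
  ∀ φ : til (GA k) i ⟶ til N j, ∃ (r : N.M) (hr : r ∈ N.deg (j - i)),
    φ = tmap (mulr N hr) (show j = i + (j - i) by ring)

/-- Passage to quotients. -/
theorem HR.quot {N₁ N₂ N₃ : GM (cg k)} [IsGr N₂] [IsGr N₃] {e₁ e₂ : ℤ} (f : GH N₁ N₂ e₁)
    (g : GH N₂ N₃ e₂) (hf : ∀ i m, m ∈ N₁.deg i → f.f m = 0 → m = 0)
    (h0 : ∀ m, g.f (f.f m) = 0) (hex : LExact f g) (hs : LSurj g) {i j₁ j₂ j₃ : ℤ}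
    (h₁ : j₂ = j₁ + e₁) (h₂ : j₃ = j₂ + e₂) (hc : Cls (bet k ^ i) (til N₁ j₁))
    (hr : HR N₂ i j₂) : HR N₃ i j₃ := by
  intro φ
  obtain ⟨q, hq⟩ := Cls.lift (ampleFF k) (ShortComplex.mk _ _ _)
    (ses_tmap f g hf h0 hex hs h₁ h₂) hc (theta k i ≫ φ)
  change q ≫ tmap g h₂ = theta k i ≫ φ at hq
  obtain ⟨r, hr, hr'⟩ := hr (inv (theta k i) ≫ q)
  have e : j₂ - i + e₂ = j₃ - i := by rw [h₂]; ring
  have hgr : g.f r ∈ N₃.deg (j₃ - i) := by
    rw [← e]
    exact g.map_deg hr
  refine ⟨g.f r, hgr, ?_⟩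
  have h3 : φ = (inv (theta k i) ≫ q) ≫ tmap g h₂ := by
    rw [Category.assoc, hq, IsIso.inv_hom_id_assoc]
  rw [h3, hr']
  apply tmap_comp'
  intro l m hm
  exact (map_smul g.f _ _).symm

end

end Pool.Agent.N212
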