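import Pool.Agent.N212.C3
import Pool.Agent.N212.C4b

set_option autoImplicit false
set_option linter.unusedVariables false

/-!
Morphisms from a line bundle are multiplications by homogeneous elements.
-/

open CategoryTheory Limits TopologicalSpace AlgebraicGeometry Opposite TopCat

namespace Pool.Agent.N212

noncomputable section

set_option backward.isDefEq.respectTransparency false

open Pool.Agent.W506 Pool.Agent.R924

attribute [local instance] MvPolynomial.gradedAlgebra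

variable {k : Type} [Field k]

lemma gS_mulr {d : ℤ} {r : P k} (hr : (show (GS k).M from r) ∈ (GS k).deg d) {j j' : ℤ}
    (h : j' = j + d) {U : (Zs k).Opens} (s : Γ(til (GA k) j, U))
    (x : ProjectiveSpectrum.top (cg k)) (hx : x ∈ U) :
    gS (ap (tmap (mulr (GS k) hr) h) U s) x hx = gA s x hx * nu r := by
  obtain ⟨V, hV, hxV, n, m, a, h1, h2, h3⟩ := exists_frac s x hx
  obtain ⟨h4, h5⟩ := h3 x hxV
  rw [gS, vl_tmap, h5, lmap_mk, gA, gS, ιA, vl_tmap, h5, lmap_mk]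
  refine (kS_mk x _ _).trans ?_
  refine Eq.trans ?_ (congrArg (fun z => z * nu r) (kS_mk x _ _).symm)
  change nu (((show cu k from m) : P k) * r) / _ = nu ((show cu k from m) : P k) / _ * nu r
  rw [map_mul, div_mul_eq_mul_div]

theorem hr_GS (i j : ℤ) : HR (GS k) i j := by
  intro φ
  obtain ⟨n, hn⟩ : ∃ n : Fin 3 → K0 k, ∀ a, n a = gS (ap φ _ (ee i a)) (eta k) (eta_UU a) :=
    ⟨_, fun a => rfl⟩
  have h1 : ∀ a b : Fin 3, n b = (tt k b / tt k a) ^ i * n a := by
    intro a b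
    have eab : eta k ∈ (FF k).U a ⊓ (FF k).U b := ⟨eta_UU a, eta_UU b⟩
    have h2 := congrArg (fun z => gS (ap φ _ z) (eta k) eab) (compat_ee i a b)
    change gS _ _ _ = gS _ _ _ at h2
    rw [ap_rs, map_smul, ap_rs, gS_smul, gS_rs, gS_rs, gF_tr] at h2
    rw [hn, hn]
    exact h2
  obtain ⟨N, hN⟩ : ∃ N, N = tt k 0 ^ (-i) * n 0 := ⟨_, rfl⟩
  have h2 : ∀ a, tt k a ^ (-i) * n a = N := by
    intro a
    rw [h1 0 a, hN, div_zpow, ← mul_assoc]
    congr 1
    have h0 := tt_ne_zero (k := k) 0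
    have ha := tt_ne_zero (k := k) a
    rw [zpow_neg, zpow_neg]
    have h0' := zpow_ne_zero i h0
    have ha' := zpow_ne_zero i ha
    field_simp
  have h3 : ∀ a, ∀ x ∈ UU k a, Fr ⊤ x (j - i) N := by
    intro a x hx
    have h4 := nrm_fr (m := j) (i := i) a le_rfl (eta_UU a) (ap φ _ (ee i a)) x hx
    rw [← h2 a, hn a]
    exact h4
  obtain ⟨r₁, k₁⟩ := exists_pow_ge (xx_mem (k := k)) (by norm_num) ne_xx (j - i) N
    (fun x hx => h3 0 x hx)
  obtain ⟨r₂, k₂⟩ := exists_pow_ge (zz_mem (k := k)) (by norm_num) ne_zz (j - i) N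
    (fun x hx => h3 1 x hx)
  obtain ⟨R, l₁, l₂⟩ : ∃ R, r₁ ≤ R ∧ r₂ ≤ R := ⟨r₁ + r₂, by omega, by omega⟩
  obtain ⟨a, ha, ha'⟩ := k₁ R l₁
  obtain ⟨b, hb, hb'⟩ := k₂ R l₂
  change nx k ^ R * N = nu a at ha'
  change nz k ^ R * N = nu b at hb'
  have x0 := nx_ne (k := k)
  have e1 : (MvPolynomial.X 2 ^ R * a : P k) = MvPolynomial.X 1 ^ R * b := by
    apply nu_injective
    rw [map_mul, map_mul, map_pow, map_pow, ← ha', ← hb']
    ring
  obtain ⟨c, hc⟩ := X_pow_dvd (k := k) (by decide) R R ⟨b, e1⟩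
  have hcm : c ∈ homZ (PH k) (j - i) := by
    apply homZ_of_mul (𝒮 := PH k) (MvPolynomial.isHomogeneous_X_pow (R := k) (1 : Fin 3) R)
      (pow_ne_zero _ (MvPolynomial.X_ne_zero _))
    rw [← hc]
    have e : (R : ℤ) + (j - i) = R * ((1 : ℕ) : ℤ) + (j - i) := by push_cast; ring
    rw [e]
    exact ha
  have hNc : N = nu c := by
    rw [hc, map_mul, map_pow] at ha'
    exact mul_left_cancel₀ (pow_ne_zero R x0) ha'
  refine ⟨c, hcm, hom_ext_ee fun a => ?_⟩
  refine gS_ext (x := eta k) (hx := eta_UU a) ?_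
  rw [gS_mulr, gA_ee, ← hn, ← hNc, ← h2 a, ttm]


end

end Pool.Agent.N212
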