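import Pool.Agent.N212.Q1
import Pool.Agent.N212.T10

set_option autoImplicit false
set_option linter.unusedVariables false

/-!
Complexes of sheaves from complexes of graded modules.
-/

open MvPolynomial CategoryTheory Limits AlgebraicGeometry

namespace Pool.Agent.N212

noncomputable section

set_option backward.isDefEq.respectTransparency false

attribute [local instance] MvPolynomial.gradedAlgebra

section General

open Pool.Agent.W506

variable {k : Type} [Field k] {A : Type} [CommRing A] [Algebra k A] {𝒜 : ℕ → Submodule k A}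
  [GradedAlgebra 𝒜]

/-- A complex of sheaves from a complex of graded modules. -/
def tilC (N : ℤ → GM 𝒜) (d : ∀ p q : ℤ, p + 1 = q → GH (N p) (N q) 0)
    (hd : ∀ (p q r : ℤ) (h : p + 1 = q) (h' : q + 1 = r) (m : (N p).M),
      (d q r h').f ((d p q h).f m) = 0) (j : ℤ) : CochainComplex (Proj 𝒜).Modules ℤ where
  X p := til (N p) j
  d p q := if h : p + 1 = q then tmap (d p q h) (by rw [add_zero]) else 0
  shape p q h := dif_neg h
  d_comp_d' p q r h h' := by
    have e1 : p + 1 = q := h
    have e2 : q + 1 = r := h'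
    rw [dif_pos e1, dif_pos e2]
    exact tmap_comp_zero _ _ (hd p q r e1 e2) _ _

variable (N : ℤ → GM 𝒜) (d : ∀ p q : ℤ, p + 1 = q → GH (N p) (N q) 0)
    (hd : ∀ (p q r : ℤ) (h : p + 1 = q) (h' : q + 1 = r) (m : (N p).M),
      (d q r h').f ((d p q h).f m) = 0) (j : ℤ)

lemma tilC_d (p q : ℤ) (h : p + 1 = q) :
    (tilC N d hd j).d p q = tmap (d p q h) (by rw [add_zero]) :=
  dif_pos h

lemma isZero_til (N : GM 𝒜) (h : ∀ i m, m ∈ N.deg i → m = 0) (j : ℤ) : IsZero (til N j) := by
  rw [IsZero.iff_id_eq_zero]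
  let f : GH N N 0 :=
    { f := LinearMap.id
      map_deg := by
        intro i m hm
        rw [add_zero]
        exact hm }
  have e1 : tmap f (show j = j + 0 by rw [add_zero]) = 𝟙 (til N j) :=
    tmap_id' f _ (fun _ _ _ => rfl)
  have e2 : tmap f (show j = j + 0 by rw [add_zero]) = 0 :=
    tmap_zero' f _ h
  exact e1.symm.trans e2

lemma exact_congr {C : Type*} [Category C] [Preadditive C] {A B D : C} {f f' : A ⟶ B}
    {g g' : B ⟶ D} (hf : f' = f) (hg : g' = g) (w : f ≫ g = 0) (w' : f' ≫ g' = 0)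
    (h : (ShortComplex.mk f g w).Exact) : (ShortComplex.mk f' g' w').Exact := by
  subst hf hg
  exact h

lemma tilC_exactAt (p q r : ℤ) (h : p + 1 = q) (h' : q + 1 = r) [IsGr (N r)]
    (he : LExact (d p q h) (d q r h')) : (tilC N d hd j).ExactAt q := by
  rw [(tilC N d hd j).exactAt_iff' p q r (by simp; lia) (by simp; lia)]
  exact exact_congr (tilC_d N d hd j p q h) (tilC_d N d hd j q r h')
    (tmap_comp_zero _ _ (hd p q r h h') _ _) _
    (exact_tmap _ _ he _ _ _)

lemma tilC_exactAt_epi (p q r : ℤ) (h : p + 1 = q) (h' : q + 1 = r)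
    (hz : IsZero (til (N r) j))
    (he : LSurj (d p q h)) : (tilC N d hd j).ExactAt q := by
  rw [(tilC N d hd j).exactAt_iff' p q r (by simp; lia) (by simp; lia)]
  have h1 : Epi (tmap (d p q h) (show j = j + 0 by rw [add_zero])) := epi_tmap _ he _
  have h2 : Epi ((tilC N d hd j).d p q) := by
    rw [tilC_d N d hd j p q h]
    exact h1
  have h3 : (tilC N d hd j).d q r = 0 := hz.eq_of_tgt _ _
  exact (ShortComplex.exact_iff_epi _ h3).2 h2

variable {M : GM 𝒜} (f : GH M (N 0) 0) (hf : ∀ m, (d 0 1 rfl).f (f.f m) = 0)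

/-- The augmentation. -/
def augT : til M j ⟶ (tilC N d hd j).X 0 := tmap f (by rw [add_zero])

include hf in
lemma augT_d : augT N d hd j f ≫ (tilC N d hd j).d 0 1 = 0 := by
  rw [tilC_d N d hd j 0 1 rfl]
  exact tmap_comp_zero f (d 0 1 rfl) hf (by rw [add_zero]) (by rw [add_zero])

lemma exact_augT [IsGr (N 1)] (he : LExact f (d 0 1 rfl)) :
    (ShortComplex.mk (augT N d hd j f) ((tilC N d hd j).d 0 1)
      (augT_d N d hd j f hf)).Exact :=
  exact_congr rfl (tilC_d N d hd j 0 1 rfl)
    (tmap_comp_zero f (d 0 1 rfl) hf (by rw [add_zero]) (by rw [add_zero])) _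
    (exact_tmap _ _ he _ _ _)

/-- The augmentation as a morphism of complexes. -/
def augCT := augC (tilC N d hd j) (augT N d hd j f) (augT_d N d hd j f hf)

theorem quasiIso_augCT [IsGr (N 1)] (hm : Mono (augT N d hd j f)) (he : LExact f (d 0 1 rfl))
    (h : ∀ p : ℤ, p ≠ 0 → (tilC N d hd j).ExactAt p) (hz : IsZero ((tilC N d hd j).X (-1))) :
    QuasiIso (augCT N d hd j f hf) :=
  quasiIso_augC (tilC N d hd j) (augT N d hd j f) (augT_d N d hd j f hf)
    (exact_augT N d hd j f hf he) h hz

end General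

end

end Pool.Agent.N212
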