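import Pool.Agent.N212.E6
import Pool.Agent.N212.T11

set_option autoImplicit false
set_option linter.unusedVariables false

/-!
The components of the complex as direct sums.
-/

open CategoryTheory Limits TopologicalSpace AlgebraicGeometry Opposite TopCat

namespace Pool.Agent.N212

noncomputable section

set_option backward.isDefEq.respectTransparency false

open Pool.Agent.W506 Pool.Agent.R924

attribute [local instance] MvPolynomial.gradedAlgebra

variable {k : Type} [Field k]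

variable (k) in
/-- The projections. -/
def p3 (p : ℤ) (i : Fin 3) : til (GK3 k p) 0 ⟶ til (GK k p) (i : ℕ) :=
  tmap (pr3 k p i) (by rw [zero_add])

variable (k) in
/-- The inclusions. -/
def i3 (p : ℤ) (i : Fin 3) : til (GK k p) (i : ℕ) ⟶ til (GK3 k p) 0 :=
  tmap (ic3 k p i) (by rw [add_neg_cancel])

lemma sum3 (p : ℤ) : ∑ i, p3 k p i ≫ i3 k p i = 𝟙 (til (GK3 k p) 0) :=
  tmap_sum' (fun _ => GK k p) _ _ _ (pr3 k p) (ic3 k p) _ _ (sum_ic3 k p)

variable (k) in
/-- The projections. -/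
def pA (i : Fin 3) : til (GA3 k) 0 ⟶ til (GA k) (i : ℕ) :=
  tmap (prA k i) (by rw [zero_add])

variable (k) in
/-- The inclusions. -/
def jA (i : Fin 3) : til (GA k) (i : ℕ) ⟶ til (GA3 k) 0 :=
  tmap (icA k i) (by rw [add_neg_cancel])

lemma sumA : ∑ i, pA k i ≫ jA k i = 𝟙 (til (GA3 k) 0) :=
  tmap_sum' (fun _ => GA k) _ _ _ (prA k) (icA k) _ _ (sum_icA k)

lemma hom_ext_sum {C : Type*} [Category C] [Preadditive C] {ι : Type} [Fintype ι] {G N : C}
    {H : ι → C} {M : ι → C} (p : ∀ a, G ⟶ H a) (i : ∀ a, H a ⟶ G) (hG : ∑ a, p a ≫ i a = 𝟙 G)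
    (q : ∀ a, N ⟶ M a) (j : ∀ a, M a ⟶ N) (hN : ∑ a, q a ≫ j a = 𝟙 N) {φ ψ : G ⟶ N}
    (h : ∀ a b, i a ≫ φ ≫ q b = i a ≫ ψ ≫ q b) : φ = ψ := by
  have key : ∀ φ : G ⟶ N, φ = ∑ a, ∑ b, p a ≫ (i a ≫ φ ≫ q b) ≫ j b := by
    intro φ
    have h1 : φ = (∑ a, p a ≫ i a) ≫ φ ≫ ∑ b, q b ≫ j b := by
      rw [hG, hN, Category.comp_id, Category.id_comp]
    rw [Preadditive.sum_comp] at h1
    refine h1.trans (Finset.sum_congr rfl fun a _ => ?_)
    rw [Preadditive.comp_sum, Preadditive.comp_sum]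
    refine Finset.sum_congr rfl fun b _ => ?_
    simp only [Category.assoc]
  rw [key φ, key ψ]
  exact Finset.sum_congr rfl fun a _ => Finset.sum_congr rfl fun b _ => by rw [h]

variable (k)

lemma jA_pA (i : Fin 3) : jA k i ≫ pA k i = 𝟙 (til (GA k) (i : ℕ)) := by
  have h1 : ∀ l m, m ∈ (GA k).deg l → (prA k i).f ((icA k i).f m) = m := fun l m _ =>
    Pi.single_eq_same (M := fun _ : Fin 3 => cu k) i m
  let e : GH (GA k) (GA k) 0 :=
    { f := LinearMap.id
      map_deg := by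
        intro l m hm
        rw [add_zero]
        exact hm }
  have h2 : jA k i ≫ pA k i = tmap e (show ((i : ℕ) : ℤ) = (i : ℕ) + 0 by rw [add_zero]) :=
    tmap_comp' _ _ _ _ _ _ fun l m hm => (h1 l m hm).symm
  rw [h2]
  exact tmap_id' _ _ fun _ _ _ => rfl

end

end Pool.Agent.N212
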