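import Pool.Agent.N212.E3

set_option autoImplicit false
set_option linter.unusedVariables false

/-!
Presentations of the components of the complex.
-/

open MvPolynomial

namespace Pool.Agent.N212

noncomputable section

attribute [local instance] MvPolynomial.gradedAlgebra

variable (k : Type) [Field k]

/-- Multiplication by the cubic. -/
def mH : GH (GS k) (GS k) 3 where
  f := (LinearMap.mulLeft (P k) (hh k)).restrictScalars (cu k)
  map_deg := by
    intro i m hm
    have h := mul_mem_homZ (𝒮 := PH k) (hh_mem (k := k)) hm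
    rw [add_comm]
    exact h

lemma mH_apply (m : P k) : (mH k).f m = hh k * m := rfl

/-- The projection to the first quotient. -/
def qE1 : GH (GS k) (GK k 1) (-3) where
  f := (e1 (k := k)).restrictScalars (cu k)
  map_deg := by
    intro i m hm
    refine mem_Kd1.2 ⟨m, ?_, rfl⟩
    rw [neg_add_cancel_right]
    exact hm

lemma qE1_apply (m : P k) : (qE1 k).f m = e1 m := rfl

/-- The embedding in degree zero. -/
def qE0 : GH (GS k) (GK k 0) 0 where
  f := (e0 (k := k)).restrictScalars (cu k)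
  map_deg := by
    intro i m hm
    refine mem_Kd0.2 ⟨m, ?_, rfl⟩
    rw [add_zero]
    exact hm

lemma qE0_apply (m : P k) : (qE0 k).f m = e0 m := rfl

/-- Multiplication by a power of a variable. -/
def mX : GH (GK k 1) (GK k 1) 4 where
  f := (LinearMap.lsmul (P k) (E k) (X 1 ^ 4 : P k)).restrictScalars (cu k)
  map_deg := by
    intro i m hm
    have h := smul_mem_Kd (isHomogeneous_X_pow (R := k) (1 : Fin 3) 4) (p := 1) (i := i) hm
    rw [add_comm]
    exact h

lemma mX_apply (a : E k) : (mX k).f a = (X 1 ^ 4 : P k) • a := rfl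

/-- The map between the quotients. -/
def rho : E k →ₗ[P k] E k where
  toFun a := TrivSqZeroExt.inr (0, q12 a.snd.1)
  map_add' a b := by
    apply E_ext
    · simp
    · simp
    · change q12 (a.snd.1 + b.snd.1) = q12 _ + q12 _
      rw [map_add]
  map_smul' r a := by
    apply E_ext
    · simp
    · simp
    · change q12 (r • a.snd.1) = r • q12 _
      rw [map_smul]

lemma rho_e1 (s : P k) : rho k (e1 s) = e2 s := rfl

/-- The map between the quotients. -/
def qE2 : GH (GK k 1) (GK k 2) (-4) where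
  f := (rho k).restrictScalars (cu k)
  map_deg := by
    intro i m hm
    obtain ⟨s, hs, rfl⟩ := mem_Kd1.1 hm
    refine mem_Kd2.2 ⟨s, ?_, rfl⟩
    rw [show i + -4 + 7 = i + 3 by ring]
    exact hs

lemma qE2_apply (a : E k) : (qE2 k).f a = rho k a := rfl

lemma qE1_mH (m : (GS k).M) : (qE1 k).f ((mH k).f m) = 0 := by
  change e1 (hh k * (show P k from m)) = 0
  rw [e1_eq_zero]
  exact Ideal.mem_span_singleton.2 (Dvd.intro _ rfl)

lemma qE2_mX (a : (GK k 1).M) : (qE2 k).f ((mX k).f a) = 0 := by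
  change rho k ((X 1 ^ 4 : P k) • (show E k from a)) = 0
  rw [map_smul]
  apply E_ext
  · change (X 1 ^ 4 : P k) * 0 = 0
    rw [mul_zero]
  · change (X 1 ^ 4 : P k) • (0 : Q1 k) = 0
    rw [smul_zero]
  · change (X 1 ^ 4 : P k) • q12 (show E k from a).snd.1 = 0
    obtain ⟨t, ht⟩ := Submodule.mkQ_surjective (I1 k) (show E k from a).snd.1
    rw [← ht]
    change (X 1 ^ 4 : P k) • c2 t = 0
    rw [← map_smul, c2_eq_zero]
    exact mem_I2.2 ⟨0, t, by rw [mul_zero, zero_add]; rfl⟩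

lemma mH_inj (i : ℤ) (m : (GS k).M) (hm : m ∈ (GS k).deg i) (h : (mH k).f m = 0) : m = 0 := by
  have h1 : hh k * (show P k from m) = 0 := h
  exact (mul_eq_zero.1 h1).resolve_left hh_ne_zero

lemma lexact_H : LExact (mH k) (qE1 k) := by
  intro x i m hm h0
  have h1 : e1 (show P k from m) = 0 := h0
  rw [e1_eq_zero] at h1
  obtain ⟨g, hg⟩ := Ideal.mem_span_singleton.1 h1
  refine ⟨0, 1, g, SetLike.GradedOne.one_mem, one_mem _, ?_, ?_⟩
  · rw [Nat.cast_zero, zero_add]
    apply homZ_of_mul (𝒮 := PH k) (hh_mem (k := k)) hh_ne_zero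
    rw [← hg, show ((3 : ℕ) : ℤ) + (i - 3) = i by push_cast; ring]
    exact hm
  · exact hg.symm.trans (one_smul (cu k) m).symm

lemma lsurj_E1 : LSurj (qE1 k) := by
  intro x i m hm
  obtain ⟨s, hs, rfl⟩ := mem_Kd1.1 hm
  refine ⟨0, 1, s, SetLike.GradedOne.one_mem, one_mem _, ?_, ?_⟩
  · rw [Nat.cast_zero, zero_add, sub_neg_eq_add]
    exact hs
  · exact (one_smul (cu k) (show (GK k 1).M from e1 s)).symm

lemma lsurj_E0 : LSurj (qE0 k) := by
  intro x i m hm
  obtain ⟨s, hs, rfl⟩ := mem_Kd0.1 hm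
  refine ⟨0, 1, s, SetLike.GradedOne.one_mem, one_mem _, ?_, ?_⟩
  · rw [Nat.cast_zero, zero_add, sub_zero]
    exact hs
  · exact (one_smul (cu k) (show (GK k 0).M from e0 s)).symm

lemma qE0_inj (i : ℤ) (m : (GS k).M) (hm : m ∈ (GS k).deg i) (h : (qE0 k).f m = 0) : m = 0 :=
  e0_eq_zero.1 h

lemma lsurj_E2 : LSurj (qE2 k) := by
  intro x i m hm
  obtain ⟨s, hs, rfl⟩ := mem_Kd2.1 hm
  refine ⟨0, 1, e1 s, SetLike.GradedOne.one_mem, one_mem _, ?_, ?_⟩
  · rw [Nat.cast_zero, zero_add, sub_neg_eq_add]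
    refine mem_Kd1.2 ⟨s, ?_, rfl⟩
    rw [show i + 4 + 3 = i + 7 by ring]
    exact hs
  · exact (one_smul (cu k) (show (GK k 2).M from e2 s)).symm

lemma lexact_X : LExact (mX k) (qE2 k) := by
  intro x i m hm h0
  obtain ⟨s, hs, rfl⟩ := mem_Kd1.1 hm
  have h1 : e2 s = 0 := h0
  rw [e2_eq_zero] at h1
  obtain ⟨b, c, hbc⟩ := mem_I2.1 h1
  obtain ⟨b, c, hb, hc, hbc⟩ := hom_coeff₂ (𝒮 := PH k) hs hh_mem
    (isHomogeneous_X_pow (R := k) (1 : Fin 3) 4) hbc
  refine ⟨0, 1, e1 c, SetLike.GradedOne.one_mem, one_mem _, ?_, ?_⟩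
  · rw [Nat.cast_zero, zero_add]
    refine mem_Kd1.2 ⟨c, ?_, rfl⟩
    rw [show i - 4 + 3 = i + 3 - ((4 : ℕ) : ℤ) by push_cast; ring]
    exact hc
  · refine Eq.trans ?_ (one_smul (cu k) (show (GK k 1).M from e1 s)).symm
    change (X 1 ^ 4 : P k) • e1 c = e1 s
    rw [← map_smul, ← sub_eq_zero, ← map_sub, e1_eq_zero, hbc, smul_eq_mul]
    exact Ideal.mem_span_singleton.2 ⟨-b, by ring⟩

variable [CharZero k]

lemma mX_inj (i : ℤ) (m : (GK k 1).M) (hm : m ∈ (GK k 1).deg i) (h : (mX k).f m = 0) :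
    m = 0 := by
  obtain ⟨s, hs, rfl⟩ := mem_Kd1.1 hm
  have h1 : (X 1 ^ 4 : P k) • e1 s = 0 := h
  rw [← map_smul, e1_eq_zero, smul_eq_mul] at h1
  exact e1_eq_zero.2 (Ideal.mem_span_singleton.2
    (dvd_of_X1 (Ideal.mem_span_singleton.1 h1)))

end

end Pool.Agent.N212
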