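import Pool.Agent.N212.E2

set_option autoImplicit false
set_option linter.unusedVariables false

/-!
Matrices with entries in the differential graded object.
-/

open MvPolynomial

namespace Pool.Agent.N212

noncomputable section

attribute [local instance] MvPolynomial.gradedAlgebra

variable (k : Type) [Field k]

/-! ### Components -/

/-- The components of the sum of three copies. -/
def pr3 (p : ℤ) (j : Fin 3) : GH (GK3 k p) (GK k p) (j : ℕ) where
  f := (LinearMap.proj (R := cu k) (φ := fun _ : Fin 3 => E k) j)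
  map_deg := by
    intro i m hm
    exact hm j

/-- The inclusions in the sum of three copies. -/
def ic3 (p : ℤ) (j : Fin 3) : GH (GK k p) (GK3 k p) (-((j : ℕ) : ℤ)) where
  f := LinearMap.single (cu k) (fun _ : Fin 3 => E k) j
  map_deg := by
    intro i m hm l
    by_cases h : l = j
    · subst h
      have e : (LinearMap.single (cu k) (fun _ : Fin 3 => E k) l) m l = m := Pi.single_eq_same _ _
      rw [neg_add_cancel_right]
      exact e.symm ▸ hm
    · have e : (LinearMap.single (cu k) (fun _ : Fin 3 => E k) j) m l = 0 :=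
        Pi.single_eq_of_ne h _
      exact e.symm ▸ zero_mem _

lemma sum_ic3 (p : ℤ) (l : ℤ) (m : (GK3 k p).M) (hm : m ∈ (GK3 k p).deg l) :
    ∑ j, (ic3 k p j).f ((pr3 k p j).f m) = m :=
  Finset.univ_sum_single (show Fin 3 → E k from m)

/-- The components of the sum of three copies. -/
def prA (j : Fin 3) : GH (GA3 k) (GA k) (j : ℕ) where
  f := (LinearMap.proj (R := cu k) (φ := fun _ : Fin 3 => cu k) j)
  map_deg := by
    intro i m hm
    exact hm j

/-- The inclusions in the sum of three copies. -/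
def icA (j : Fin 3) : GH (GA k) (GA3 k) (-((j : ℕ) : ℤ)) where
  f := LinearMap.single (cu k) (fun _ : Fin 3 => cu k) j
  map_deg := by
    intro i m hm l
    by_cases h : l = j
    · subst h
      have e : (LinearMap.single (cu k) (fun _ : Fin 3 => cu k) l) m l = m := Pi.single_eq_same _ _
      rw [neg_add_cancel_right]
      exact e.symm ▸ hm
    · have e : (LinearMap.single (cu k) (fun _ : Fin 3 => cu k) j) m l = 0 :=
        Pi.single_eq_of_ne h _
      exact e.symm ▸ zero_mem _

lemma sum_icA (l : ℤ) (m : (GA3 k).M) (hm : m ∈ (GA3 k).deg l) :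
    ∑ j, (icA k j).f ((prA k j).f m) = m :=
  Finset.univ_sum_single (show Fin 3 → cu k from m)

/-! ### Matrices -/

/-- Matrices. -/
abbrev Ma : Type := Matrix (Fin 3) (Fin 3) (E k)

/-- The homogeneous matrices. -/
def RA (n : ℤ) : Submodule k (Ma k) where
  carrier := {r | ∀ i j : Fin 3, r i j ∈ Kd k n ((i : ℕ) - (j : ℕ) : ℤ)}
  add_mem' := fun ha hb i j => add_mem (ha i j) (hb i j)
  zero_mem' := fun i j => zero_mem _
  smul_mem' := fun c a ha i j => (Kd k n _).smul_mem c (ha i j)

variable {k}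

lemma mem_RA {n : ℤ} {r : Ma k} : r ∈ RA k n ↔
    ∀ i j : Fin 3, r i j ∈ Kd k n ((i : ℕ) - (j : ℕ) : ℤ) := Iff.rfl

lemma one_mem_RA : (1 : Ma k) ∈ RA k 0 := by
  intro i j
  by_cases h : i = j
  · subst h
    rw [Matrix.one_apply_eq, sub_self]
    exact mem_Kd0.2 ⟨1, mem_homZ_nat.2 (isHomogeneous_one _ _), rfl⟩
  · rw [Matrix.one_apply_ne h]
    exact zero_mem _

lemma mul_mem_RA {p q : ℤ} {a b : Ma k} (ha : a ∈ RA k p) (hb : b ∈ RA k q) :
    a * b ∈ RA k (p + q) := by
  intro i l
  rw [Matrix.mul_apply]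
  exact sum_mem fun j _ => mul_mem_Kd rfl (by ring) (ha i j) (hb j l)

variable (k) in
/-- The differential of matrices. -/
def DM : Ma k →ₗ[k] Ma k where
  toFun a := fun i j => DD (a i j)
  map_add' a b := by
    funext i j
    exact map_add DD (a i j) (b i j)
  map_smul' c a := by
    funext i j
    exact map_smul DD c (a i j)

lemma DM_apply (a : Ma k) (i j : Fin 3) : DM k a i j = DD (a i j) := rfl

lemma DM_mem {p : ℤ} {a : Ma k} (ha : a ∈ RA k p) : DM k a ∈ RA k (p + 1) :=
  fun i j => DD_mem rfl (ha i j)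

lemma DM_DM (a : Ma k) : DM k (DM k a) = 0 := by
  funext i j
  exact DD_DD (a i j)

lemma DM_mul {p : ℤ} {a : Ma k} (ha : a ∈ RA k p) (b : Ma k) :
    DM k (a * b) = DM k a * b + p.negOnePow • (a * DM k b) := by
  ext1 i l
  rw [DM_apply, Matrix.mul_apply, map_sum, Matrix.add_apply, Matrix.mul_apply]
  have h : (p.negOnePow • (a * DM k b)) i l = ∑ j, p.negOnePow • (a i j * DD (b j l)) := by
    rw [← Finset.smul_sum]
    rfl
  rw [h, ← Finset.sum_add_distrib]
  exact Finset.sum_congr rfl fun j _ => DD_mul (ha i j) (b j l)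

lemma smul_eq_e0_mul (c : P k) (a : E k) : c • a = e0 c * a := by
  apply E_ext
  · rfl
  · rw [mul_snd₁, e0_snd₁, smul_zero, add_zero]
    rfl
  · rw [mul_snd₂, e0_snd₂, smul_zero, add_zero]
    rfl

lemma E_mul_smul (r : E k) (c : P k) (a : E k) : r * (c • a) = c • (r * a) := by
  rw [smul_eq_e0_mul, smul_eq_e0_mul, mul_left_comm]

/-- The action of matrices. -/
def mac (r : Ma k) : (Fin 3 → E k) →ₗ[cu k] (Fin 3 → E k) where
  toFun e := fun i => ∑ j, r i j * e j
  map_add' e f := by
    funext i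
    change ∑ j, r i j * (e j + f j) = ∑ j, r i j * e j + ∑ j, r i j * f j
    rw [← Finset.sum_add_distrib]
    exact Finset.sum_congr rfl fun j _ => mul_add _ _ _
  map_smul' c e := by
    funext i
    change ∑ j, r i j * ((c : P k) • e j) = (c : P k) • ∑ j, r i j * e j
    rw [Finset.smul_sum]
    exact Finset.sum_congr rfl fun j _ => E_mul_smul _ _ _

lemma mac_apply (r : Ma k) (e : Fin 3 → E k) (i : Fin 3) : mac r e i = ∑ j, r i j * e j := rfl

/-- The action of matrices on the complex. -/
def macG {n : ℤ} {r : Ma k} (hr : r ∈ RA k n) (p q : ℤ) (h : p + n = q) :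
    GH (GK3 k p) (GK3 k q) 0 where
  f := mac r
  map_deg := by
    intro i m hm l
    rw [add_zero]
    have key : ∀ j : Fin 3, r l j * (show Fin 3 → E k from m) j ∈ Kd k q (i + (l : ℕ)) :=
      fun j => mul_mem_Kd (by rw [← h, add_comm]) (by ring) (hr l j) (hm j)
    have h2 : ∑ j, r l j * (show Fin 3 → E k from m) j ∈ Kd k q (i + (l : ℕ)) :=
      sum_mem fun j _ => key j
    exact h2

lemma macG_apply {n : ℤ} {r : Ma k} (hr : r ∈ RA k n) (p q : ℤ) (h : p + n = q)
    (m : (GK3 k p).M) : (macG hr p q h).f m = mac r m := rfl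

/-- The morphism of modules attached to a matrix. -/
def maa (r : Ma k) : (Fin 3 → cu k) →ₗ[cu k] (Fin 3 → E k) where
  toFun a := fun i => ∑ j, a j • r i j
  map_add' a b := by
    funext i
    change ∑ j, (a j + b j) • r i j = ∑ j, a j • r i j + ∑ j, b j • r i j
    rw [← Finset.sum_add_distrib]
    exact Finset.sum_congr rfl fun j _ => add_smul _ _ _
  map_smul' c a := by
    funext i
    change ∑ j, (c * a j) • r i j = c • ∑ j, a j • r i j
    rw [Finset.smul_sum]
    exact Finset.sum_congr rfl fun j _ => mul_smul _ _ _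

lemma maa_apply (r : Ma k) (a : Fin 3 → cu k) (i : Fin 3) : maa r a i = ∑ j, a j • r i j := rfl

/-- The morphism of graded modules attached to a homogeneous matrix. -/
def maaG {n : ℤ} {r : Ma k} (hr : r ∈ RA k n) : GH (GA3 k) (GK3 k n) 0 where
  f := maa r
  map_deg := by
    intro i m hm l
    rw [add_zero]
    have key : ∀ j : Fin 3, (show Fin 3 → cu k from m) j • r l j ∈ Kd k n (i + (l : ℕ)) := by
      intro j
      have h1 : (show Fin 3 → cu k from m) j ∈ homZ (cg k) (i + (j : ℕ)) := hm j
      have h2 : (((show Fin 3 → cu k from m) j : cu k) : P k) ∈ homZ (PH k) (i + (j : ℕ)) :=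
        mem_homZ_cg.1 h1
      have h3 := mul_mem_Kd (zero_add n) (show i + (j : ℕ) + ((l : ℕ) - (j : ℕ)) = i + (l : ℕ) by
        ring) (mem_Kd0.2 ⟨_, h2, rfl⟩) (hr l j)
      rw [← smul_eq_e0_mul] at h3
      exact h3
    have h2 : ∑ j, (show Fin 3 → cu k from m) j • r l j ∈ Kd k n (i + (l : ℕ)) :=
      sum_mem fun j _ => key j
    exact h2

/-- Compatibility with the augmentation. -/
lemma mac_aug (r : Ma k) (m : (GA3 k).M) : mac r ((aug k).f m) = maa r m := by
  funext i
  change ∑ j, r i j * e0 (((show Fin 3 → cu k from m) j : cu k) : P k) =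
    ∑ j, (((show Fin 3 → cu k from m) j : cu k) : P k) • r i j
  exact Finset.sum_congr rfl fun j _ => by rw [smul_eq_e0_mul, mul_comm]

lemma mac_one (e : Fin 3 → E k) : mac (1 : Ma k) e = e := by
  funext i
  rw [mac_apply]
  simp only [Matrix.one_apply, ite_mul, one_mul, zero_mul, Finset.sum_ite_eq,
    Finset.mem_univ, if_true]

lemma mac_mul (a b : Ma k) (e : Fin 3 → E k) : mac (a * b) e = mac a (mac b e) := by
  funext i
  rw [mac_apply, mac_apply]
  simp only [Matrix.mul_apply, mac_apply, Finset.sum_mul, Finset.mul_sum]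
  rw [Finset.sum_comm]
  exact Finset.sum_congr rfl fun j _ => Finset.sum_congr rfl fun l _ => mul_assoc _ _ _

lemma mac_D {p n : ℤ} {r : Ma k} (hr : r ∈ RA k n) (e : Fin 3 → E k) (i : Fin 3) :
    DD (mac r e i) = mac (DM k r) e i + n.negOnePow • mac r (fun j => DD (e j)) i := by
  rw [mac_apply, mac_apply, mac_apply, map_sum, Finset.smul_sum, ← Finset.sum_add_distrib]
  exact Finset.sum_congr rfl fun j _ => DD_mul (hr i j) (e j)

end

end Pool.Agent.N212
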