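import Pool.Agent.N212.E3
import Pool.Agent.N212.E6

set_option autoImplicit false
set_option linter.unusedVariables false

/-!
Auxiliary facts on homogeneous elements.
-/

open MvPolynomial

namespace Pool.Agent.N212

noncomputable section

attribute [local instance] MvPolynomial.gradedAlgebra

variable (k : Type) [Field k]

lemma GK_zero (p : ℤ) (h0 : p ≠ 0) (h1 : p ≠ 1) (h2 : p ≠ 2) (i : ℤ) (m : (GK k p).M)
    (hm : m ∈ (GK k p).deg i) : m = 0 := by
  have h3 : (show E k from m) ∈ Kd k p i := hm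
  rw [Kd_other h0 h1 h2, Submodule.mem_bot] at h3
  exact h3

variable {k}

lemma maa_single (r : Ma k) (i j : Fin 3) (a : cu k) :
    maa r (LinearMap.single (cu k) (fun _ : Fin 3 => cu k) j a) i = a • r i j := by
  rw [maa_apply]
  refine (Finset.sum_eq_single j ?_ ?_).trans ?_
  · intro l _ hl
    have e : (LinearMap.single (cu k) (fun _ : Fin 3 => cu k) j) a l = 0 :=
      Pi.single_eq_of_ne hl _
    rw [e, zero_smul]
  · intro h
    exact absurd (Finset.mem_univ _) h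
  · have e : (LinearMap.single (cu k) (fun _ : Fin 3 => cu k) j) a j = a := Pi.single_eq_same _ _
    rw [e]

/-- The annihilator ideal. -/
def annE (r : E k) : Ideal (cu k) := LinearMap.ker (LinearMap.toSpanSingleton (cu k) (E k) r)

lemma mem_annE {r : E k} {c : cu k} : c ∈ annE r ↔ (c : P k) • r = 0 := Iff.rfl

lemma homE {p i : ℤ} {r : E k} (hr : r ∈ Kd k p i) : (annE r).IsHomogeneous (cg k) := by
  intro n c hc
  rw [mem_annE] at hc ⊢
  rw [decompose_apply]
  exact comp_smul_Kd hr hc n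

lemma exists_pow_annE {p i : ℤ} {r : E k} (hr : r ∈ Kd k p i)
    (h : ∀ x : ProjectiveSpectrum.top (cg k), zz k ∈ pc x → ∃ c ∈ pc x, (c : P k) • r = 0) :
    ∃ n : ℕ, (X 2 ^ n : P k) • r = 0 := by
  have h1 : zz k ∈ (annE r).radical := by
    rw [(homE hr).radical_eq, Ideal.mem_sInf]
    rintro J ⟨hJ, hIJ, hJp⟩
    by_contra hfJ
    let x : ProjectiveSpectrum.top (cg k) := ⟨⟨J, hJ⟩, hJp, fun hle => hfJ (hle
      (HomogeneousIdeal.mem_irrelevant_of_mem (cg k) one_pos zz_mem))⟩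
    obtain ⟨c, hc, hcr⟩ := h x hfJ
    exact hc (hIJ (mem_annE.2 hcr))
  obtain ⟨n, hn⟩ := h1
  exact ⟨n, mem_annE.1 hn⟩

variable [CharZero k]

lemma reg_z {p i : ℤ} {r : E k} (hr : r ∈ Kd k p i) (n : ℕ) (h : (X 2 ^ n : P k) • r = 0) :
    r = 0 := by
  rcases Kd_cases p with rfl | rfl | rfl | ⟨h0, h1, h2⟩
  · obtain ⟨s, hs, rfl⟩ := mem_Kd0.1 hr
    rw [← map_smul, e0_eq_zero, smul_eq_mul] at h
    rw [(mul_eq_zero.1 h).resolve_left (pow_ne_zero _ (X_ne_zero _)), map_zero]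
  · obtain ⟨s, hs, rfl⟩ := mem_Kd1.1 hr
    rw [← map_smul, e1_eq_zero, smul_eq_mul] at h
    exact e1_eq_zero.2 (reg_I1_pow n h)
  · obtain ⟨s, hs, rfl⟩ := mem_Kd2.1 hr
    rw [← map_smul, e2_eq_zero, smul_eq_mul] at h
    exact e2_eq_zero.2 (reg_I2_pow n h)
  · rw [Kd_other h0 h1 h2, Submodule.mem_bot] at hr
    exact hr

end

end Pool.Agent.N212
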