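import Pool.Agent.N212.C3
import Pool.Agent.N212.C4a
import Pool.Agent.N212.C5a
import Pool.Agent.N212.E5
import Pool.Agent.N212.E7

set_option autoImplicit false
set_option linter.unusedVariables false

/-!
Morphisms from a line bundle to the components of the complex.
-/

open CategoryTheory Limits TopologicalSpace AlgebraicGeometry Opposite TopCat

namespace Pool.Agent.N212

noncomputable section

set_option backward.isDefEq.respectTransparency false

open Pool.Agent.W506 Pool.Agent.R924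

attribute [local instance] MvPolynomial.gradedAlgebra

variable {k : Type} [Field k]

theorem cls_GK1 (m i : ℤ) (h : -2 ≤ m - i) : Cls (bet k ^ i) (til (GK k 1) m) :=
  Cls.coker (ampleFF k) _ (ses_tmap (mH k) (qE1 k) (mH_inj k) (qE1_mH k) (lexact_H k)
    (lsurj_E1 k) (j₁ := m) (j₂ := m + 3) (j₃ := m) rfl (by ring)) (cls_GS m i h)
    (cls_GS (m + 3) i (by omega))

theorem cls_GK0 (m i : ℤ) (h : -2 ≤ m - i) : Cls (bet k ^ i) (til (GK k 0) m) := by
  have h3 : Mono (tmap (qE0 k) (show m = m + 0 by rw [add_zero])) :=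
    mono_tmap' (qE0 k) (qE0_inj k) _
  have h4 : Epi (tmap (qE0 k) (show m = m + 0 by rw [add_zero])) :=
    epi_tmap (qE0 k) (lsurj_E0 k) _
  have h5 : IsIso (tmap (qE0 k) (show m = m + 0 by rw [add_zero])) := isIso_of_mono_of_epi _
  exact cls_of_iso _ (asIso (tmap (qE0 k) (show m = m + 0 by rw [add_zero]))).symm (cls_GS m i h)

variable [CharZero k]

theorem cls_GK2 (m i : ℤ) (h : -2 ≤ m - i) : Cls (bet k ^ i) (til (GK k 2) m) :=
  Cls.coker (ampleFF k) _ (ses_tmap (mX k) (qE2 k) (mX_inj k) (qE2_mX k) (lexact_X k)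
    (lsurj_E2 k) (j₁ := m) (j₂ := m + 4) (j₃ := m) rfl (by ring)) (cls_GK1 m i h)
    (cls_GK1 (m + 4) i (by omega))

theorem cls_GK (p m i : ℤ) (h : -2 ≤ m - i) : Cls (bet k ^ i) (til (GK k p) m) := by
  rcases Kd_cases p with rfl | rfl | rfl | ⟨h0, h1, h2⟩
  · exact cls_GK0 m i h
  · exact cls_GK1 m i h
  · exact cls_GK2 m i h
  · exact cls_of_isZero _ (isZero_til (GK k p) (GK_zero k p h0 h1 h2) m)

theorem cls_GK3 (p i : ℤ) (hi : i ≤ 2) (hi0 : i ≤ 2) : Cls (bet k ^ i) (til (GK3 k p) 0) :=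
  cls_of_split _ (fun j : Fin 3 => til (GK k p) (j : ℕ)) (p3 k p) (i3 k p) (sum3 p)
    (fun j => cls_GK p _ i (by omega))

end

end Pool.Agent.N212
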