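import Pool.Agent.N212.C4b
import Pool.Agent.N212.C5a
import Pool.Agent.N212.E5
import Pool.Agent.N212.E7

set_option autoImplicit false
set_option linter.unusedVariables false

/-!
Morphisms from a line bundle to the components of the complex.
-/

open CategoryTheory Limits TopologicalSpace AlgebraicGeometry Opposite TopCat

namespace Pool.Agent.N212

noncomputable section

set_option backward.isDefEq.respectTransparency false

open Pool.Agent.W506 Pool.Agent.R924

attribute [local instance] MvPolynomial.gradedAlgebra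

variable {k : Type} [Field k]

variable [CharZero k]

theorem mulr_inj {p d : ℤ} {r : E k} (hr : (show (GK k p).M from r) ∈ (GK k p).deg d) {i j : ℤ}
    (h : j = i + d) (h0 : tmap (mulr (GK k p) hr) h = 0) : r = 0 := by
  have key : ∀ x : ProjectiveSpectrum.top (cg k), zz k ∈ pc x →
      ∃ c ∈ pc x, (c : P k) • r = 0 := by
    intro x hx
    obtain ⟨n, m, a, hm, ha, hmx, hax⟩ : ∃ (n : ℕ) (m a : cu k), m ∈ homZ (cg k) (n + i) ∧
        a ∈ cg k n ∧ m ∈ pc x ∧ ∀ y ∈ UU k 1, a ∈ pc y := by
      by_cases hi : 0 ≤ i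
      · obtain ⟨n, rfl⟩ := Int.eq_ofNat_of_zero_le hi
        refine ⟨0, zz k ^ n, 1, ?_, SetLike.GradedOne.one_mem, (pc x).pow_mem hx n,
          fun y _ => one_mem _⟩
        have h1 := SetLike.pow_mem_graded n (zz_mem (k := k))
        rw [Nat.cast_zero, zero_add, mem_homZ_nat]
        rwa [smul_eq_mul, mul_one] at h1
      · obtain ⟨n, hn⟩ := Int.eq_ofNat_of_zero_le (show 0 ≤ -i by omega)
        refine ⟨n, 1, zz k ^ n, ?_, ?_, one_mem _, fun y hy => (pc y).pow_mem hy n⟩
        · rw [← hn, neg_add_cancel]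
          exact mem_homZ_nat.2 (SetLike.one_mem_graded (cg k))
        · have h1 := SetLike.pow_mem_graded n (zz_mem (k := k))
          rwa [smul_eq_mul, mul_one] at h1
    obtain ⟨s, hs⟩ := exists_section (N := GA k) (j := i) (UU k 1) n m a hm ha hax
    have h2 := congrArg (fun z => vl (ap z (UU k 1) s) x hx) h0
    change vl (ap _ _ _) _ _ = vl (ap _ _ _) _ _ at h2
    rw [vl_tmap, hs, lmap_mk, ap_zero, vl_zero] at h2
    obtain ⟨l, c, hc, hcx, h3⟩ := exists_hom_ann ((mulr (GK k p) hr).map_deg hm) x _ h2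
    refine ⟨c * m, (pc x).mul_mem hcx hmx, ?_⟩
    have h4 : (c : P k) • ((m : P k) • r) = 0 := h3
    rw [smul_smul] at h4
    exact h4
  obtain ⟨n, hn⟩ := exists_pow_annE hr key
  exact reg_z hr n hn

lemma comp_maaG {n : ℤ} {r : Ma k} (hr : r ∈ RA k n) (i j : Fin 3) :
    jA k j ≫ tmap (maaG hr) (show (0 : ℤ) = 0 + 0 by rw [add_zero]) ≫ p3 k n i =
      tmap (mulr (GK k n) (r := r i j) (hr i j)) (by ring) := by
  have h1 : tmap (maaG hr) (show (0 : ℤ) = 0 + 0 by rw [add_zero]) ≫ p3 k n i =
      tmap (N := GA3 k) (N' := GK k n) (e := (i : ℕ))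
        { f := (pr3 k n i).f ∘ₗ (maaG hr).f
          map_deg := by
            intro l m hm
            have := (pr3 k n i).map_deg ((maaG hr).map_deg hm)
            rwa [add_zero] at this } (by rw [zero_add]) :=
    tmap_comp' _ _ _ _ _ _ (fun _ _ _ => rfl)
  rw [h1]
  apply tmap_comp'
  intro l m hm
  exact (maa_single r i j m).symm

theorem maa_inj {n : ℤ} {r : Ma k} (hr : r ∈ RA k n)
    (h : tmap (maaG hr) (show (0 : ℤ) = 0 + 0 by rw [add_zero]) = 0) : r = 0 := by
  funext i j
  have h1 := comp_maaG hr i j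
  rw [h, zero_comp, comp_zero] at h1
  exact mulr_inj _ _ h1.symm

end

end Pool.Agent.N212
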