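import Pool.Agent.N212.C4
import Pool.Agent.N212.C5b
import Pool.Agent.N212.C5c

set_option autoImplicit false
set_option linter.unusedVariables false

/-!
Morphisms from a line bundle to the components of the complex.
-/

open CategoryTheory Limits TopologicalSpace AlgebraicGeometry Opposite TopCat

namespace Pool.Agent.N212

noncomputable section

set_option backward.isDefEq.respectTransparency false

open Pool.Agent.W506 Pool.Agent.R924

attribute [local instance] MvPolynomial.gradedAlgebra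

variable {k : Type} [Field k]

/-- Passage to isomorphic modules. -/
theorem HR.iso {N₂ N₃ : GM (cg k)} [IsGr N₃] {e₂ : ℤ} (g : GH N₂ N₃ e₂)
    (hg : ∀ i m, m ∈ N₂.deg i → g.f m = 0 → m = 0) (hs : LSurj g) {i j₂ j₃ : ℤ}
    (h₂ : j₃ = j₂ + e₂) (hr : HR N₂ i j₂) : HR N₃ i j₃ := by
  intro φ
  have h3 : Mono (tmap g h₂) := mono_tmap' g hg h₂
  have h4 : Epi (tmap g h₂) := epi_tmap g hs h₂
  have h5 : IsIso (tmap g h₂) := isIso_of_mono_of_epi _
  obtain ⟨r, hr, hr'⟩ := hr (φ ≫ inv (tmap g h₂))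
  have e : j₂ - i + e₂ = j₃ - i := by rw [h₂]; ring
  have hgr : g.f r ∈ N₃.deg (j₃ - i) := by
    rw [← e]
    exact g.map_deg hr
  refine ⟨g.f r, hgr, ?_⟩
  have h3 : φ = (φ ≫ inv (tmap g h₂)) ≫ tmap g h₂ := by
    rw [Category.assoc, IsIso.inv_hom_id, Category.comp_id]
  rw [h3, hr']
  apply tmap_comp'
  intro l m hm
  exact (map_smul g.f _ _).symm

theorem hr_GK0 (i j : ℤ) : HR (GK k 0) i j :=
  HR.iso (qE0 k) (qE0_inj k) (lsurj_E0 k) (j₂ := j) (by rw [add_zero]) (hr_GS i j)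

theorem hr_GK1 (i j : ℤ) (h : -2 ≤ j - i) : HR (GK k 1) i j :=
  HR.quot (mH k) (qE1 k) (mH_inj k) (qE1_mH k) (lexact_H k) (lsurj_E1 k) (j₁ := j) (j₂ := j + 3)
    rfl (by ring) (cls_GS j i h) (hr_GS i (j + 3))

variable [CharZero k]

theorem hr_GK2 (i j : ℤ) (h : -2 ≤ j - i) : HR (GK k 2) i j :=
  HR.quot (mX k) (qE2 k) (mX_inj k) (qE2_mX k) (lexact_X k) (lsurj_E2 k) (j₁ := j) (j₂ := j + 4)
    rfl (by ring) (cls_GK1 j i h) (hr_GK1 i (j + 4) (by omega))

theorem hr_GK (p i j : ℤ) (h : -2 ≤ j - i) : HR (GK k p) i j := by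
  rcases Kd_cases p with rfl | rfl | rfl | ⟨h0, h1, h2⟩
  · exact hr_GK0 i j
  · exact hr_GK1 i j h
  · exact hr_GK2 i j h
  · intro φ
    refine ⟨0, zero_mem _, ?_⟩
    exact (isZero_til (GK k p) (GK_zero k p h0 h1 h2) j).eq_of_tgt _ _

theorem exists_maa (n : ℤ) (φ : til (GA3 k) 0 ⟶ til (GK3 k n) 0) :
    ∃ (r : Ma k) (hr : r ∈ RA k n), φ = tmap (maaG hr) (by rw [add_zero]) := by
  have h1 : ∀ i j : Fin 3, ∃ (r : E k) (hr : r ∈ Kd k n ((i : ℕ) - (j : ℕ) : ℤ)),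
      jA k j ≫ φ ≫ p3 k n i = tmap (mulr (GK k n) (r := r) hr) (by ring) := by
    intro i j
    exact hr_GK n _ _ (by omega) _
  choose r hr hr' using h1
  refine ⟨fun i j => r i j, hr, ?_⟩
  apply hom_ext_sum (pA k) (jA k) sumA (p3 k n) (i3 k n) (sum3 n)
  intro j i
  rw [hr']
  exact (comp_maaG (r := fun i j => r i j) hr i j).symm

end

end Pool.Agent.N212
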