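import Pool.Agent.N212.A0

set_option autoImplicit false
set_option linter.unusedVariables false

/-!
The differential graded object: the polynomial ring and two quotients.
-/

open MvPolynomial

namespace Pool.Agent.N212

noncomputable section

attribute [local instance] MvPolynomial.gradedAlgebra

variable (k : Type) [Field k]

/-- The ideal of the cubic. -/
abbrev I1 : Ideal (P k) := Ideal.span {hh k}

/-- The ideal of the cubic and a power of the first coordinate. -/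
abbrev I2 : Ideal (P k) := Ideal.span {hh k, (X 1 : P k) ^ 4}

/-- The first quotient. -/
abbrev Q1 : Type := P k ⧸ I1 k

/-- The second quotient. -/
abbrev Q2 : Type := P k ⧸ I2 k

/-- The total object. -/
abbrev E : Type := TrivSqZeroExt (P k) (Q1 k × Q2 k)

variable {k}

lemma I1_le : I1 k ≤ I2 k := Ideal.span_mono (by simp)

/-- The projection of quotients. -/
def q12 : Q1 k →ₗ[P k] Q2 k := Submodule.mapQ (I1 k) (I2 k) LinearMap.id I1_le

/-- The class of a polynomial. -/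
abbrev c1 : P k →ₗ[P k] Q1 k := Submodule.mkQ (I1 k)

/-- The class of a polynomial. -/
abbrev c2 : P k →ₗ[P k] Q2 k := Submodule.mkQ (I2 k)

lemma q12_c1 (s : P k) : q12 (c1 s) = c2 s := rfl

/-- The embedding in degree zero. -/
def e0 : P k →ₗ[P k] E k where
  toFun s := TrivSqZeroExt.inl s
  map_add' s t := TrivSqZeroExt.inl_add _ s t
  map_smul' r s := TrivSqZeroExt.inl_smul _ r s

/-- The embedding in degree one. -/
def e1 : P k →ₗ[P k] E k :=
  TrivSqZeroExt.inrHom (P k) (Q1 k × Q2 k) ∘ₗ LinearMap.inl (P k) (Q1 k) (Q2 k) ∘ₗ c1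

/-- The embedding in degree two. -/
def e2 : P k →ₗ[P k] E k :=
  TrivSqZeroExt.inrHom (P k) (Q1 k × Q2 k) ∘ₗ LinearMap.inr (P k) (Q1 k) (Q2 k) ∘ₗ c2

lemma E_ext {a b : E k} (h₀ : a.fst = b.fst) (h₁ : a.snd.1 = b.snd.1) (h₂ : a.snd.2 = b.snd.2) :
    a = b := TrivSqZeroExt.ext h₀ (Prod.ext h₁ h₂)

lemma e0_fst (s : P k) : (e0 s).fst = s := rfl
lemma e0_snd₁ (s : P k) : (e0 s).snd.1 = 0 := rfl
lemma e0_snd₂ (s : P k) : (e0 s).snd.2 = 0 := rfl
lemma e1_fst (s : P k) : (e1 s).fst = 0 := rfl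
lemma e1_snd₁ (s : P k) : (e1 s).snd.1 = c1 s := rfl
lemma e1_snd₂ (s : P k) : (e1 s).snd.2 = 0 := rfl
lemma e2_fst (s : P k) : (e2 s).fst = 0 := rfl
lemma e2_snd₁ (s : P k) : (e2 s).snd.1 = 0 := rfl
lemma e2_snd₂ (s : P k) : (e2 s).snd.2 = c2 s := rfl

lemma mul_fst (a b : E k) : (a * b).fst = a.fst * b.fst := rfl

lemma mul_snd₁ (a b : E k) : (a * b).snd.1 = a.fst • b.snd.1 + b.fst • a.snd.1 := by
  rw [TrivSqZeroExt.snd_mul, op_smul_eq_smul]
  rfl

lemma mul_snd₂ (a b : E k) : (a * b).snd.2 = a.fst • b.snd.2 + b.fst • a.snd.2 := by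
  rw [TrivSqZeroExt.snd_mul, op_smul_eq_smul]
  rfl

lemma smul_fst (r : P k) (a : E k) : (r • a).fst = r * a.fst := rfl
lemma smul_snd₁ (r : P k) (a : E k) : (r • a).snd.1 = r • a.snd.1 := rfl
lemma smul_snd₂ (r : P k) (a : E k) : (r • a).snd.2 = r • a.snd.2 := rfl
lemma add_fst (a b : E k) : (a + b).fst = a.fst + b.fst := rfl
lemma add_snd₁ (a b : E k) : (a + b).snd.1 = a.snd.1 + b.snd.1 := rfl
lemma add_snd₂ (a b : E k) : (a + b).snd.2 = a.snd.2 + b.snd.2 := rfl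

lemma c1_eq_zero {s : P k} : c1 s = 0 ↔ s ∈ I1 k := Submodule.Quotient.mk_eq_zero _
lemma c2_eq_zero {s : P k} : c2 s = 0 ↔ s ∈ I2 k := Submodule.Quotient.mk_eq_zero _

lemma ksmul_fst (r : k) (a : E k) : (r • a).fst = r • a.fst := rfl
lemma ksmul_snd₁ (r : k) (a : E k) : (r • a).snd.1 = r • a.snd.1 := rfl
lemma ksmul_snd₂ (r : k) (a : E k) : (r • a).snd.2 = r • a.snd.2 := rfl

/-- The differential. -/
def DD : E k →ₗ[k] E k where
  toFun a := TrivSqZeroExt.inr (c1 (X 1 ^ 4 * dd k a.fst), (X 2 ^ 4 : P k) • q12 a.snd.1)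
  map_add' a b := by
    apply E_ext
    · simp
    · change c1 (X 1 ^ 4 * dd k (a.fst + b.fst)) = c1 _ + c1 _
      rw [map_add, mul_add, map_add]
    · change (X 2 ^ 4 : P k) • q12 (a.snd.1 + b.snd.1) = _ • q12 _ + _ • q12 _
      rw [map_add, smul_add]
  map_smul' r a := by
    apply E_ext
    · simp
    · change c1 (X 1 ^ 4 * dd k (r • a.fst)) = r • c1 _
      rw [(dd k).map_smul, mul_smul_comm]
      rfl
    · change (X 2 ^ 4 : P k) • q12 (r • a.snd.1) = r • (_ • q12 _)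
      have h1 : r • a.snd.1 = (C r : P k) • a.snd.1 := by
        rw [← algebraMap_eq, algebraMap_smul]
      have h2 : ∀ z : Q2 k, r • z = (C r : P k) • z := by
        intro z
        rw [← algebraMap_eq, algebraMap_smul]
      rw [h1, map_smul, h2, smul_smul, smul_smul, mul_comm]

lemma DD_fst (a : E k) : (DD a).fst = 0 := rfl
lemma DD_snd₁ (a : E k) : (DD a).snd.1 = c1 (X 1 ^ 4 * dd k a.fst) := rfl
lemma DD_snd₂ (a : E k) : (DD a).snd.2 = (X 2 ^ 4 : P k) • q12 a.snd.1 := rfl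

lemma DD_DD (a : E k) : DD (DD a) = 0 := by
  apply E_ext
  · rfl
  · rw [DD_snd₁, DD_fst, map_zero, mul_zero, map_zero]
    rfl
  · rw [DD_snd₂, DD_snd₁, q12_c1, ← map_smul, smul_eq_mul]
    change _ = (0 : Q2 k)
    rw [c2_eq_zero]
    have h : (X 1 ^ 4 : P k) ∈ I2 k := Ideal.subset_span (by simp)
    exact Ideal.mul_mem_left _ _ (Ideal.mul_mem_right _ _ h)

lemma DD_smul (c : cu k) (a : E k) : DD ((c : P k) • a) = (c : P k) • DD a := by
  apply E_ext
  · rw [DD_fst, smul_fst, DD_fst, mul_zero]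
  · rw [DD_snd₁, smul_fst, smul_snd₁, DD_snd₁, pderiv_mul, ← map_smul, smul_eq_mul,
      ← sub_eq_zero, ← map_sub, c1_eq_zero]
    obtain ⟨g, hg⟩ := (mem_cu.1 c.2)
    refine Ideal.mem_span_singleton.2 ⟨X 1 ^ 4 * (g * a.fst), ?_⟩
    rw [hg]
    ring
  · rw [DD_snd₂, smul_snd₁, smul_snd₂, DD_snd₂, map_smul, smul_smul, smul_smul, mul_comm]

lemma DD_e0 (s : P k) : DD (e0 s) = e1 (X 1 ^ 4 * dd k s) := by
  apply E_ext
  · rfl
  · rfl
  · rw [DD_snd₂, e0_snd₁, map_zero, smul_zero]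
    rfl

lemma DD_e1 (s : P k) : DD (e1 s) = e2 (X 2 ^ 4 * s) := by
  apply E_ext
  · rfl
  · rw [DD_snd₁, e1_fst, map_zero, mul_zero, map_zero]
    rfl
  · rw [DD_snd₂, e1_snd₁, q12_c1, ← map_smul]
    rfl

lemma DD_e2 (s : P k) : DD (e2 s) = 0 := by
  apply E_ext
  · rfl
  · rw [DD_snd₁, e2_fst, map_zero, mul_zero, map_zero]
    rfl
  · rw [DD_snd₂, e2_snd₁, map_zero, smul_zero]
    rfl

lemma DD_mul_e0 (s : P k) (b : E k) : DD (e0 s * b) = DD (e0 s) * b + e0 s * DD b := by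
  apply E_ext
  · rw [DD_fst, add_fst, mul_fst, mul_fst, DD_fst, DD_fst, zero_mul, mul_zero, add_zero]
  · rw [DD_snd₁, mul_fst, add_snd₁, mul_snd₁, mul_snd₁, DD_fst, DD_fst, DD_snd₁, DD_snd₁, e0_snd₁,
      e0_fst, zero_smul, zero_smul, zero_add, add_zero, ← map_smul, ← map_smul, ← map_add,
      pderiv_mul, smul_eq_mul, smul_eq_mul]
    congr 1
    ring
  · rw [DD_snd₂, mul_snd₁, add_snd₂, mul_snd₂, mul_snd₂, DD_fst, DD_fst, DD_snd₂, DD_snd₂, e0_snd₁,
      e0_snd₂, e0_fst, smul_zero, smul_zero, map_zero, smul_zero, smul_zero, zero_smul, zero_add,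
      add_zero, add_zero, zero_add, map_smul, smul_smul, smul_smul, mul_comm]

lemma DD_mul_e1 (s : P k) (b : E k) : DD (e1 s * b) = DD (e1 s) * b - e1 s * DD b := by
  have h1 : e1 s * DD b = 0 := by
    apply E_ext
    · rw [mul_fst, DD_fst, mul_zero]; rfl
    · rw [mul_snd₁, e1_fst, DD_fst, zero_smul, zero_smul, add_zero]; rfl
    · rw [mul_snd₂, e1_fst, DD_fst, zero_smul, zero_smul, add_zero]; rfl
  rw [h1, sub_zero]
  apply E_ext
  · rw [DD_fst, mul_fst, DD_fst, zero_mul]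
  · rw [DD_snd₁, mul_fst, mul_snd₁, e1_fst, zero_mul, map_zero, mul_zero, map_zero, DD_fst,
      DD_snd₁, e1_fst, map_zero, mul_zero, map_zero, zero_smul, smul_zero, add_zero]
  · rw [DD_snd₂, mul_snd₁, mul_snd₂, e1_fst, DD_fst, zero_smul, zero_smul, zero_add, zero_add,
      DD_snd₂, map_smul, smul_smul, smul_smul, mul_comm]

lemma DD_mul_e2 (s : P k) (b : E k) : DD (e2 s * b) = DD (e2 s) * b + e2 s * DD b := by
  have h1 : e2 s * DD b = 0 := by
    apply E_ext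
    · rw [mul_fst, DD_fst, mul_zero]; rfl
    · rw [mul_snd₁, e2_fst, DD_fst, zero_smul, zero_smul, add_zero]; rfl
    · rw [mul_snd₂, e2_fst, DD_fst, zero_smul, zero_smul, add_zero]; rfl
  rw [h1, add_zero, DD_e2, zero_mul]
  apply E_ext
  · rfl
  · rw [DD_snd₁, mul_fst, e2_fst, zero_mul, map_zero, mul_zero, map_zero]; rfl
  · rw [DD_snd₂, mul_snd₁, e2_fst, e2_snd₁, zero_smul, smul_zero, add_zero, map_zero,
      smul_zero]
    rfl

lemma e0_mul_e0 (s t : P k) : e0 s * e0 t = e0 (s * t) := by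
  apply E_ext
  · rfl
  · rw [mul_snd₁, e0_snd₁, e0_snd₁, smul_zero, smul_zero, add_zero]; rfl
  · rw [mul_snd₂, e0_snd₂, e0_snd₂, smul_zero, smul_zero, add_zero]; rfl

lemma e0_mul_e1 (s t : P k) : e0 s * e1 t = e1 (s * t) := by
  apply E_ext
  · rw [mul_fst, e1_fst, mul_zero]; rfl
  · rw [mul_snd₁, e0_snd₁, e0_fst, e1_snd₁, e1_snd₁, smul_zero, add_zero, ← map_smul]; rfl
  · rw [mul_snd₂, e0_snd₂, e1_snd₂, smul_zero, smul_zero, add_zero]; rfl

lemma e0_mul_e2 (s t : P k) : e0 s * e2 t = e2 (s * t) := by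
  apply E_ext
  · rw [mul_fst, e2_fst, mul_zero]; rfl
  · rw [mul_snd₁, e0_snd₁, e2_snd₁, smul_zero, smul_zero, add_zero]; rfl
  · rw [mul_snd₂, e0_snd₂, e0_fst, e2_snd₂, e2_snd₂, smul_zero, add_zero, ← map_smul]; rfl

lemma mul_zero_of (a b : E k) (ha : a.fst = 0) (hb : b.fst = 0) : a * b = 0 := by
  apply E_ext
  · rw [mul_fst, ha, zero_mul]; rfl
  · rw [mul_snd₁, ha, hb, zero_smul, zero_smul, add_zero]; rfl
  · rw [mul_snd₂, ha, hb, zero_smul, zero_smul, add_zero]; rfl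

end

end Pool.Agent.N212
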