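import Pool.Agent.N212.E1
import Pool.Agent.N212.T8

set_option autoImplicit false
set_option linter.unusedVariables false

/-!
The homogeneous parts of the differential graded object.
-/

open MvPolynomial

namespace Pool.Agent.N212

noncomputable section

attribute [local instance] MvPolynomial.gradedAlgebra

variable {k : Type} [Field k]

variable (k) in
/-- The homogeneous elements of cohomological degree `p` and degree `i`. -/
def Kd (p i : ℤ) : Submodule k (E k) :=
  if p = 0 then (homZ (PH k) i).map (e0.restrictScalars k)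
  else if p = 1 then (homZ (PH k) (i + 3)).map (e1.restrictScalars k)
  else if p = 2 then (homZ (PH k) (i + 7)).map (e2.restrictScalars k) else ⊥

lemma mem_Kd0 {i : ℤ} {a : E k} : a ∈ Kd k 0 i ↔ ∃ s ∈ homZ (PH k) i, e0 s = a := by
  rw [Kd, if_pos rfl]
  exact Iff.rfl

lemma mem_Kd1 {i : ℤ} {a : E k} : a ∈ Kd k 1 i ↔ ∃ s ∈ homZ (PH k) (i + 3), e1 s = a := by
  rw [Kd, if_neg one_ne_zero, if_pos rfl]
  exact Iff.rfl

lemma mem_Kd2 {i : ℤ} {a : E k} : a ∈ Kd k 2 i ↔ ∃ s ∈ homZ (PH k) (i + 7), e2 s = a := by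
  rw [Kd, if_neg two_ne_zero, if_neg (by norm_num), if_pos rfl]
  exact Iff.rfl

lemma Kd_other {p i : ℤ} (h0 : p ≠ 0) (h1 : p ≠ 1) (h2 : p ≠ 2) : Kd k p i = ⊥ := by
  rw [Kd, if_neg h0, if_neg h1, if_neg h2]

lemma Kd_cases (p : ℤ) : p = 0 ∨ p = 1 ∨ p = 2 ∨ (p ≠ 0 ∧ p ≠ 1 ∧ p ≠ 2) := by
  by_cases h0 : p = 0
  · exact Or.inl h0
  by_cases h1 : p = 1
  · exact Or.inr (Or.inl h1)
  by_cases h2 : p = 2
  · exact Or.inr (Or.inr (Or.inl h2))
  exact Or.inr (Or.inr (Or.inr ⟨h0, h1, h2⟩))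

lemma DD_mem {p q i : ℤ} (hpq : p + 1 = q) {a : E k} (ha : a ∈ Kd k p i) : DD a ∈ Kd k q i := by
  subst hpq
  rcases Kd_cases p with rfl | rfl | rfl | ⟨h0, h1, h2⟩
  · obtain ⟨s, hs, rfl⟩ := mem_Kd0.1 ha
    rw [DD_e0, zero_add]
    refine mem_Kd1.2 ⟨_, ?_, rfl⟩
    have h3 : dd k s ∈ homZ (PH k) (i - 1) := by
      by_cases hi : 0 ≤ i
      · obtain ⟨n, rfl⟩ := Int.eq_ofNat_of_zero_le hi
        have hs' : s ∈ PH k n := mem_homZ_nat.1 hs
        cases n with
        | zero =>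
          rw [dd_zero hs']
          exact zero_mem _
        | succ n =>
          rw [show (((n + 1 : ℕ) : ℤ) - 1) = (n : ℤ) by push_cast; ring, mem_homZ_nat]
          exact dd_mem hs'
      · rw [homZ_neg (not_le.1 hi) hs, map_zero]
        exact zero_mem _
    have h4 := mul_mem_homZ (𝒮 := PH k) (isHomogeneous_X_pow (R := k) (1 : Fin 3) 4) h3
    have e : ((4 : ℕ) : ℤ) + (i - 1) = i + 3 := by push_cast; ring
    rwa [e] at h4
  · obtain ⟨s, hs, rfl⟩ := mem_Kd1.1 ha
    rw [DD_e1, one_add_one_eq_two]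
    refine mem_Kd2.2 ⟨_, ?_, rfl⟩
    have h4 := mul_mem_homZ (𝒮 := PH k) (isHomogeneous_X_pow (R := k) (2 : Fin 3) 4) hs
    have e : ((4 : ℕ) : ℤ) + (i + 3) = i + 7 := by push_cast; ring
    rwa [e] at h4
  · obtain ⟨s, hs, rfl⟩ := mem_Kd2.1 ha
    rw [DD_e2]
    exact zero_mem _
  · rw [Kd_other h0 h1 h2, Submodule.mem_bot] at ha
    rw [ha, map_zero]
    exact zero_mem _

lemma mul_mem_Kd {p q r i j l : ℤ} (hpq : p + q = r) (hij : i + j = l) {a b : E k}
    (ha : a ∈ Kd k p i) (hb : b ∈ Kd k q j) : a * b ∈ Kd k r l := by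
  subst hpq hij
  rcases Kd_cases p with rfl | rfl | rfl | ⟨h0, h1, h2⟩
  · obtain ⟨s, hs, rfl⟩ := mem_Kd0.1 ha
    rw [zero_add]
    rcases Kd_cases q with rfl | rfl | rfl | ⟨h0, h1, h2⟩
    · obtain ⟨t, ht, rfl⟩ := mem_Kd0.1 hb
      rw [e0_mul_e0]
      exact mem_Kd0.2 ⟨_, mul_mem_homZ' hs ht, rfl⟩
    · obtain ⟨t, ht, rfl⟩ := mem_Kd1.1 hb
      rw [e0_mul_e1]
      refine mem_Kd1.2 ⟨_, ?_, rfl⟩
      rw [add_assoc]
      exact mul_mem_homZ' hs ht
    · obtain ⟨t, ht, rfl⟩ := mem_Kd2.1 hb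
      rw [e0_mul_e2]
      refine mem_Kd2.2 ⟨_, ?_, rfl⟩
      rw [add_assoc]
      exact mul_mem_homZ' hs ht
    · rw [Kd_other h0 h1 h2, Submodule.mem_bot] at hb
      rw [hb, mul_zero]
      exact zero_mem _
  · obtain ⟨s, hs, rfl⟩ := mem_Kd1.1 ha
    rcases Kd_cases q with rfl | rfl | rfl | ⟨h0, h1, h2⟩
    · obtain ⟨t, ht, rfl⟩ := mem_Kd0.1 hb
      rw [mul_comm, e0_mul_e1, add_zero]
      refine mem_Kd1.2 ⟨_, ?_, rfl⟩
      have := mul_mem_homZ' ht hs
      rwa [show j + (i + 3) = i + j + 3 by ring] at this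
    · obtain ⟨t, ht, rfl⟩ := mem_Kd1.1 hb
      rw [mul_zero_of _ _ rfl rfl]
      exact zero_mem _
    · obtain ⟨t, ht, rfl⟩ := mem_Kd2.1 hb
      rw [mul_zero_of _ _ rfl rfl]
      exact zero_mem _
    · rw [Kd_other h0 h1 h2, Submodule.mem_bot] at hb
      rw [hb, mul_zero]
      exact zero_mem _
  · obtain ⟨s, hs, rfl⟩ := mem_Kd2.1 ha
    rcases Kd_cases q with rfl | rfl | rfl | ⟨h0, h1, h2⟩
    · obtain ⟨t, ht, rfl⟩ := mem_Kd0.1 hb
      rw [mul_comm, e0_mul_e2, add_zero]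
      refine mem_Kd2.2 ⟨_, ?_, rfl⟩
      have := mul_mem_homZ' ht hs
      rwa [show j + (i + 7) = i + j + 7 by ring] at this
    · obtain ⟨t, ht, rfl⟩ := mem_Kd1.1 hb
      rw [mul_zero_of _ _ rfl rfl]
      exact zero_mem _
    · obtain ⟨t, ht, rfl⟩ := mem_Kd2.1 hb
      rw [mul_zero_of _ _ rfl rfl]
      exact zero_mem _
    · rw [Kd_other h0 h1 h2, Submodule.mem_bot] at hb
      rw [hb, mul_zero]
      exact zero_mem _
  · rw [Kd_other h0 h1 h2, Submodule.mem_bot] at ha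
    rw [ha, zero_mul]
    exact zero_mem _

lemma DD_mul {p i : ℤ} {a : E k} (ha : a ∈ Kd k p i) (b : E k) :
    DD (a * b) = DD a * b + p.negOnePow • (a * DD b) := by
  rcases Kd_cases p with rfl | rfl | rfl | ⟨h0, h1, h2⟩
  · obtain ⟨s, hs, rfl⟩ := mem_Kd0.1 ha
    rw [DD_mul_e0, Int.negOnePow_zero, one_smul]
  · obtain ⟨s, hs, rfl⟩ := mem_Kd1.1 ha
    rw [DD_mul_e1, Int.negOnePow_one, Units.neg_smul, one_smul, sub_eq_add_neg]
  · obtain ⟨s, hs, rfl⟩ := mem_Kd2.1 ha
    rw [DD_mul_e2, Int.negOnePow_even 2 (by decide), one_smul]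
  · rw [Kd_other h0 h1 h2, Submodule.mem_bot] at ha
    rw [ha, zero_mul, map_zero, zero_mul, zero_mul, smul_zero, add_zero]

lemma smul_mem_Kd {n : ℕ} {c : P k} (hc : c ∈ PH k n) {p i : ℤ} {a : E k} (ha : a ∈ Kd k p i) :
    c • a ∈ Kd k p (n + i) := by
  have h1 : c • a = e0 c * a := by
    apply E_ext
    · rfl
    · rw [mul_snd₁, e0_snd₁, smul_zero, add_zero]
      rfl
    · rw [mul_snd₂, e0_snd₂, smul_zero, add_zero]
      rfl
  rw [h1]
  exact mul_mem_Kd (zero_add p) rfl (mem_Kd0.2 ⟨c, mem_homZ_nat.2 hc, rfl⟩) ha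

lemma hom_I1 : (I1 k).IsHomogeneous (PH k) := by
  apply Ideal.homogeneous_span
  rintro x rfl
  exact ⟨3, hh_mem⟩

lemma hom_I2 : (I2 k).IsHomogeneous (PH k) := by
  apply Ideal.homogeneous_span
  rintro x (rfl | rfl)
  · exact ⟨3, hh_mem⟩
  · exact ⟨4, isHomogeneous_X_pow _ _⟩

lemma comp_mul_mem {I : Ideal (P k)} (hI : I.IsHomogeneous (PH k)) {i : ℤ} {s : P k}
    (hs : s ∈ homZ (PH k) i) {c : P k} (h : c * s ∈ I) (n : ℕ) :
    homogeneousComponent n c * s ∈ I := by
  by_cases hi : 0 ≤ i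
  · obtain ⟨m, rfl⟩ := Int.eq_ofNat_of_zero_le hi
    have hs' : s ∈ PH k m := mem_homZ_nat.1 hs
    have h1 := hI (n + m) h
    rw [DirectSum.coe_decompose_mul_add_of_right_mem (PH k) hs', decompose_PH] at h1
    exact h1
  · rw [homZ_neg (not_le.1 hi) hs, mul_zero]
    exact zero_mem _

lemma e0_eq_zero {s : P k} : e0 s = 0 ↔ s = 0 :=
  ⟨fun h => congrArg TrivSqZeroExt.fst h, fun h => by rw [h, map_zero]⟩

lemma e1_eq_zero {s : P k} : e1 s = 0 ↔ s ∈ I1 k := by
  rw [← c1_eq_zero]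
  constructor
  · intro h
    exact congrArg (fun z : E k => z.snd.1) h
  · intro h
    exact E_ext rfl h rfl

lemma e2_eq_zero {s : P k} : e2 s = 0 ↔ s ∈ I2 k := by
  rw [← c2_eq_zero]
  constructor
  · intro h
    exact congrArg (fun z : E k => z.snd.2) h
  · intro h
    exact E_ext rfl rfl h

lemma comp_smul_Kd {p i : ℤ} {a : E k} (ha : a ∈ Kd k p i) {c : P k} (h : c • a = 0) (n : ℕ) :
    homogeneousComponent n c • a = 0 := by
  rcases Kd_cases p with rfl | rfl | rfl | ⟨h0, h1, h2⟩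
  · obtain ⟨s, hs, rfl⟩ := mem_Kd0.1 ha
    rw [← map_smul, e0_eq_zero, smul_eq_mul] at h ⊢
    rcases mul_eq_zero.1 h with h | h
    · rw [h, map_zero, zero_mul]
    · rw [h, mul_zero]
  · obtain ⟨s, hs, rfl⟩ := mem_Kd1.1 ha
    rw [← map_smul, e1_eq_zero, smul_eq_mul] at h ⊢
    exact comp_mul_mem hom_I1 hs h n
  · obtain ⟨s, hs, rfl⟩ := mem_Kd2.1 ha
    rw [← map_smul, e2_eq_zero, smul_eq_mul] at h ⊢
    exact comp_mul_mem hom_I2 hs h n
  · rw [Kd_other h0 h1 h2, Submodule.mem_bot] at ha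
    rw [ha, smul_zero]

/-! ### Graded modules -/

lemma cu_smul (c : cu k) (a : E k) : c • a = (c : P k) • a := rfl

variable (k) in
/-- The components of the complex. -/
def GK (p : ℤ) : GM (cg k) where
  M := E k
  deg i := (Kd k p i).toAddSubgroup
  smul_mem := fun {i j a m} ha hm => smul_mem_Kd (c := (a : P k)) ha hm

instance (p : ℤ) : IsGr (GK k p) where
  comp_smul := by
    intro i m hm c hc n
    have h1 := comp_smul_Kd (p := p) (i := i) (a := m) hm (c := (c : P k)) hc n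
    rw [← decompose_apply] at h1
    exact h1

variable (k) in
/-- The sums of three twists of the components of the complex. -/
def GK3 (p : ℤ) : GM (cg k) where
  M := Fin 3 → E k
  deg i := { carrier := {a | ∀ j : Fin 3, a j ∈ Kd k p (i + (j : ℕ))}
             add_mem' := fun ha hb j => add_mem (ha j) (hb j)
             zero_mem' := fun j => zero_mem _
             neg_mem' := fun ha j => neg_mem (ha j) }
  smul_mem := fun {i j a m} ha hm l => by
    have h := smul_mem_Kd (c := (a : P k)) ha (hm l)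
    rw [← add_assoc] at h
    exact h

lemma mem_GK3 {p i : ℤ} {a : Fin 3 → E k} :
    (show (GK3 k p).M from a) ∈ (GK3 k p).deg i ↔ ∀ j : Fin 3, a j ∈ Kd k p (i + (j : ℕ)) := Iff.rfl

instance (p : ℤ) : IsGr (GK3 k p) where
  comp_smul := by
    intro i m hm c hc n
    funext j
    have h0 : c • (show Fin 3 → E k from m) j = 0 := congrFun hc j
    have h1 := comp_smul_Kd (p := p) (i := i + (j : ℕ)) (a := (show Fin 3 → E k from m) j)
      (hm j) (c := (c : P k)) h0 n
    rw [← decompose_apply] at h1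
    exact h1

variable (k) in
/-- The sum of three line bundles. -/
def GA3 : GM (cg k) where
  M := Fin 3 → cu k
  deg i := { carrier := {a | ∀ j : Fin 3, a j ∈ homZ (cg k) (i + (j : ℕ))}
             add_mem' := fun ha hb j => add_mem (ha j) (hb j)
             zero_mem' := fun j => zero_mem _
             neg_mem' := fun ha j => neg_mem (ha j) }
  smul_mem := fun {i j a m} ha hm l => by
    have h := mul_mem_homZ (𝒮 := cg k) ha (hm l)
    rw [← add_assoc] at h
    exact h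

instance : IsGr (GA3 k) where
  comp_smul := by
    intro i m hm c hc n
    funext j
    have h0 : c * (show Fin 3 → cu k from m) j = 0 := congrFun hc j
    rcases mul_eq_zero.1 h0 with h | h
    · rw [h, DirectSum.decompose_zero]
      exact zero_mul _
    · change _ * (show Fin 3 → cu k from m) j = 0
      rw [h, mul_zero]

/-- The differential as a linear map. -/
def DDc : E k →ₗ[cu k] E k where
  toFun := DD
  map_add' := map_add DD
  map_smul' c a := DD_smul c a

variable (k) in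
/-- The differential of the complex. -/
def KD (p q : ℤ) (h : p + 1 = q) : GH (GK3 k p) (GK3 k q) 0 where
  f := DDc.compLeft (Fin 3)
  map_deg := by
    intro i m hm j
    rw [add_zero]
    exact DD_mem h (hm j)

lemma KD_apply (p q : ℤ) (h : p + 1 = q) (m : Fin 3 → E k) (j : Fin 3) :
    (show Fin 3 → E k from (KD k p q h).f m) j = DD (m j) := rfl

variable (k) in
/-- The augmentation. -/
def aug : GH (GA3 k) (GK3 k 0) 0 where
  f := { toFun := fun a j => e0 ((a j : cu k) : P k)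
         map_add' := fun a b => funext fun j => by
          change e0 (((a j : cu k) : P k) + ((b j : cu k) : P k)) = _
          rw [map_add]
          rfl
         map_smul' := fun c a => funext fun j => by
          change e0 ((c : P k) * ((a j : cu k) : P k)) = _
          rw [← smul_eq_mul, map_smul]
          rfl }
  map_deg := by
    intro i m hm j
    rw [add_zero]
    exact mem_Kd0.2 ⟨_, mem_homZ_cg.1 (hm j), rfl⟩

lemma aug_apply (a : Fin 3 → cu k) (j : Fin 3) :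
    (show Fin 3 → E k from (aug k).f a) j = e0 ((a j : cu k) : P k) := rfl

end

end Pool.Agent.N212
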