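import Pool.Agent.N212.A3
import Pool.Agent.N212.E2

set_option autoImplicit false
set_option linter.unusedVariables false

/-!
Exactness of the resolution: the algebraic part.
-/

open MvPolynomial

namespace Pool.Agent.N212

noncomputable section

attribute [local instance] MvPolynomial.gradedAlgebra

section Algebra

variable {k : Type} [Field k] [CharZero k]

omit [CharZero k] in
lemma hh_not_dvd_X1 : ¬ hh k ∣ X 1 := by
  rintro ⟨g, hg⟩
  let φ : P k →ₐ[k] Polynomial k := aeval ![0, Polynomial.X, 0]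
  have h1 := congrArg φ hg
  have e0 : φ (X 0) = 0 := by simp [φ]
  have e1 : φ (X 1) = Polynomial.X := by simp [φ]
  have e2 : φ (X 2) = 0 := by simp [φ]
  rw [map_mul, hh, map_add, map_add, map_pow, map_pow, map_pow, e0, e1, e2] at h1
  have h2 : (Polynomial.X : Polynomial k) ^ 3 ∣ Polynomial.X := ⟨φ g, by
    refine h1.trans ?_
    ring⟩
  have h3 := Polynomial.natDegree_le_of_dvd h2 Polynomial.X_ne_zero
  rw [Polynomial.natDegree_X_pow, Polynomial.natDegree_X] at h3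
  lia

omit [CharZero k] in
lemma hh_not_dvd_X2 : ¬ hh k ∣ X 2 := by
  rintro ⟨g, hg⟩
  let φ : P k →ₐ[k] Polynomial k := aeval ![0, 0, Polynomial.X]
  have h1 := congrArg φ hg
  have e0 : φ (X 0) = 0 := by simp [φ]
  have e1 : φ (X 1) = 0 := by simp [φ]
  have e2 : φ (X 2) = Polynomial.X := by simp [φ]
  rw [map_mul, hh, map_add, map_add, map_pow, map_pow, map_pow, e0, e1, e2] at h1
  have h2 : (Polynomial.X : Polynomial k) ^ 3 ∣ Polynomial.X := ⟨φ g, by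
    refine h1.trans ?_
    ring⟩
  have h3 := Polynomial.natDegree_le_of_dvd h2 Polynomial.X_ne_zero
  rw [Polynomial.natDegree_X_pow, Polynomial.natDegree_X] at h3
  lia

lemma dvd_of_X1 {n : ℕ} {a : P k} (h : hh k ∣ X 1 ^ n * a) : hh k ∣ a := by
  rcases hh_prime.dvd_or_dvd h with h | h
  · exact absurd (hh_prime.dvd_of_dvd_pow h) hh_not_dvd_X1
  · exact h

lemma dvd_of_X2 {n : ℕ} {a : P k} (h : hh k ∣ X 2 ^ n * a) : hh k ∣ a := by
  rcases hh_prime.dvd_or_dvd h with h | h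
  · exact absurd (hh_prime.dvd_of_dvd_pow h) hh_not_dvd_X2
  · exact h

omit [CharZero k] in
lemma mem_I2 {a : P k} : a ∈ I2 k ↔ ∃ b c, a = hh k * b + X 1 ^ 4 * c := by
  rw [I2, Ideal.mem_span_pair]
  constructor
  · rintro ⟨b, c, rfl⟩
    exact ⟨b, c, by ring⟩
  · rintro ⟨b, c, rfl⟩
    exact ⟨b, c, by ring⟩

omit [CharZero k] in
lemma reg_I2 {a : P k} (h : X 2 * a ∈ I2 k) : a ∈ I2 k := by
  obtain ⟨b, c, hbc⟩ := mem_I2.1 h
  have h1 : hh k * b ∈ Ideal.span {(X 1 ^ 4 : P k), X 2 ^ 1} := by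
    refine Ideal.mem_span_pair.2 ⟨-c, a, ?_⟩
    rw [pow_one, mul_comm a, hbc]
    ring
  obtain ⟨b1, b2, hb⟩ := Ideal.mem_span_pair.1 (reg_span 4 1 monic_hh h1)
  rw [pow_one] at hb
  have h2 : (X 1 ^ 4 : P k) ∣ X 2 ^ 1 * (a - hh k * b2) := by
    refine ⟨c + hh k * b1, ?_⟩
    rw [pow_one, mul_sub, hbc, ← hb]
    ring
  obtain ⟨c', hc'⟩ := X_pow_dvd (by decide) 4 1 h2
  exact mem_I2.2 ⟨b2, c', by rw [← hc']; ring⟩

omit [CharZero k] in
lemma reg_I2_pow (n : ℕ) {a : P k} (h : X 2 ^ n * a ∈ I2 k) : a ∈ I2 k := by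
  induction n with
  | zero => rwa [pow_zero, one_mul] at h
  | succ n ih =>
    apply ih
    apply reg_I2
    rwa [← mul_assoc, ← pow_succ']

omit [CharZero k] in
lemma reg_I1_pow (n : ℕ) [CharZero k] {a : P k} (h : X 2 ^ n * a ∈ I1 k) : a ∈ I1 k :=
  Ideal.mem_span_singleton.2 (dvd_of_X2 (Ideal.mem_span_singleton.1 h))

omit [CharZero k] in
lemma DD_e0_cu (c : cu k) : DD (e0 (c : P k)) = 0 := by
  rw [DD_e0, e1_eq_zero]
  exact Ideal.mem_span_singleton.2 (Dvd.dvd.mul_left (mem_cu.1 c.2) _)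

/-- Exactness at the first term. -/
lemma exact_zero {i : ℤ} {a : E k} (ha : a ∈ Kd k 0 i) (h : DD a = 0) :
    ∃ c : cu k, c ∈ homZ (cg k) i ∧ e0 (c : P k) = a := by
  obtain ⟨s, hs, rfl⟩ := mem_Kd0.1 ha
  rw [DD_e0, e1_eq_zero] at h
  exact ⟨⟨s, dvd_of_X1 (Ideal.mem_span_singleton.1 h)⟩, mem_homZ_cg.2 hs, rfl⟩

/-- Exactness at the second term. -/
lemma exact_one {i : ℤ} {a : E k} (ha : a ∈ Kd k 1 i) (h : DD a = 0) :
    ∃ b ∈ Kd k 0 i, DD b = a := by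
  obtain ⟨s, hs, rfl⟩ := mem_Kd1.1 ha
  rw [DD_e1, e2_eq_zero] at h
  obtain ⟨b, c, hbc⟩ := mem_I2.1 (reg_I2_pow 4 h)
  obtain ⟨b, c, hb, hc, hbc⟩ := hom_coeff₂ (𝒮 := PH k) hs hh_mem
    (isHomogeneous_X_pow (R := k) (1 : Fin 3) 4) hbc
  have h1 : ∃ g ∈ homZ (PH k) i, dd k g = c := by
    rw [show i + 3 - ((4 : ℕ) : ℤ) = i - 1 by push_cast; ring] at hc
    by_cases hi : 0 ≤ i - 1
    · obtain ⟨n, hn⟩ := Int.eq_ofNat_of_zero_le hi
      rw [hn] at hc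
      obtain ⟨g, hg, hgc⟩ := exists_int (mem_homZ_nat.1 hc)
      refine ⟨g, ?_, hgc⟩
      rw [show i = ((n + 1 : ℕ) : ℤ) by push_cast; lia]
      exact mem_homZ_nat.2 hg
    · refine ⟨0, zero_mem _, ?_⟩
      rw [homZ_neg (not_le.1 hi) hc, map_zero]
  obtain ⟨g, hg, rfl⟩ := h1
  refine ⟨e0 g, mem_Kd0.2 ⟨g, hg, rfl⟩, ?_⟩
  rw [DD_e0, ← sub_eq_zero, ← map_sub, e1_eq_zero, hbc]
  exact Ideal.mem_span_singleton.2 ⟨-b, by ring⟩

omit [CharZero k] in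
/-- Surjectivity at the third term. -/
lemma exact_two (x : ProjectiveSpectrum.top (cg k)) :
    ∃ (l : ℕ) (c : cu k), c ∈ cg k l ∧ c ∈ pc x ∧ ∀ (i : ℤ) (a : E k), a ∈ Kd k 2 i →
      ∃ b ∈ Kd k 1 (l + i), DD b = (c : P k) • a := by
  by_cases h1 : zz k ∈ pc x
  · refine ⟨4, zz k ^ 4, ?_, (pc x).pow_mem h1 4, ?_⟩
    · exact SetLike.pow_mem_graded 4 zz_mem
    · intro i a ha
      obtain ⟨s, hs, rfl⟩ := mem_Kd2.1 ha
      refine ⟨e1 s, mem_Kd1.2 ⟨s, ?_, rfl⟩, ?_⟩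
      · rw [show ((4 : ℕ) : ℤ) + i + 3 = i + 7 by push_cast; ring]
        exact hs
      · rw [DD_e1, ← smul_eq_mul, map_smul]
        rfl
  by_cases h2 : xx k ∈ pc x
  · refine ⟨4, xx k ^ 4, SetLike.pow_mem_graded 4 xx_mem, (pc x).pow_mem h2 4, ?_⟩
    intro i a ha
    obtain ⟨s, hs, rfl⟩ := mem_Kd2.1 ha
    refine ⟨0, zero_mem _, ?_⟩
    rw [map_zero, eq_comm, ← map_smul, e2_eq_zero]
    exact mem_I2.2 ⟨0, s, by rw [mul_zero, zero_add]; rfl⟩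
  by_cases h3 : vv k ∈ pc x
  · refine ⟨8, vv k, vv_mem, h3, ?_⟩
    intro i a ha
    obtain ⟨s, hs, rfl⟩ := mem_Kd2.1 ha
    refine ⟨0, zero_mem _, ?_⟩
    rw [map_zero, eq_comm, ← map_smul, e2_eq_zero]
    refine mem_I2.2 ⟨hh k * X 0 ^ 2 * s, 0, ?_⟩
    change (hh k ^ 2 * X 0 ^ 2) * s = _
    ring
  · exact (mem_irr (x := x) (not_not.1 h2) (not_not.1 h1) (not_not.1 h3)).elim

end Algebra

end

end Pool.Agent.N212
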