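import Pool.Agent.N212.E3

set_option autoImplicit false
set_option linter.unusedVariables false

/-!
Exactness of the resolution: the graded modules.
-/

open MvPolynomial

namespace Pool.Agent.N212

noncomputable section

attribute [local instance] MvPolynomial.gradedAlgebra

variable (k : Type) [Field k]

lemma KD_KD (p q r : ℤ) (h : p + 1 = q) (h' : q + 1 = r) (m : (GK3 k p).M) :
    (KD k q r h').f ((KD k p q h).f m) = 0 := by
  funext j
  exact DD_DD ((show Fin 3 → E k from m) j)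

lemma aug_KD (m : (GA3 k).M) :
    (KD k 0 1 rfl).f ((aug k).f m) = 0 := by
  funext j
  exact DD_e0_cu ((show Fin 3 → cu k from m) j)

lemma GK3_zero (p : ℤ) (h0 : p ≠ 0) (h1 : p ≠ 1) (h2 : p ≠ 2) (i : ℤ) (m : (GK3 k p).M)
    (hm : m ∈ (GK3 k p).deg i) : m = 0 := by
  funext j
  have h3 : (show Fin 3 → E k from m) j ∈ Kd k p (i + (j : ℕ)) := hm j
  rw [Kd_other h0 h1 h2] at h3
  exact (Submodule.mem_bot k).1 h3

variable [CharZero k]

lemma lexact_aug : LExact (aug k) (KD k 0 1 rfl) := by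
  intro x i m hm h0
  have h1 : ∀ j : Fin 3, ∃ c : cu k, c ∈ homZ (cg k) (i + (j : ℕ)) ∧
      e0 (c : P k) = (show Fin 3 → E k from m) j :=
    fun j => exact_zero (hm j) (congrFun h0 j)
  choose c hc hc' using h1
  refine ⟨0, 1, c, SetLike.GradedOne.one_mem, one_mem _, ?_, ?_⟩
  · rw [Nat.cast_zero, zero_add, sub_zero]
    exact hc
  · rw [one_smul]
    funext j
    exact hc' j

lemma lexact_KD : LExact (KD k 0 1 rfl) (KD k 1 2 rfl) := by
  intro x i m hm h0
  have h1 : ∀ j : Fin 3, ∃ b ∈ Kd k 0 (i + (j : ℕ)), DD b = (show Fin 3 → E k from m) j :=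
    fun j => exact_one (hm j) (congrFun h0 j)
  choose b hb hb' using h1
  refine ⟨0, 1, b, SetLike.GradedOne.one_mem, one_mem _, ?_, ?_⟩
  · rw [Nat.cast_zero, zero_add, sub_zero]
    exact hb
  · rw [one_smul]
    funext j
    exact hb' j

omit [CharZero k] in
lemma lsurj_KD : LSurj (KD k 1 2 rfl) := by
  intro x i m hm
  obtain ⟨l, c, hc, hcx, h⟩ := exact_two x
  have h1 : ∀ j : Fin 3, ∃ b ∈ Kd k 1 (l + (i + (j : ℕ))), DD b =
      (c : P k) • (show Fin 3 → E k from m) j := fun j => h _ _ (hm j)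
  choose b hb hb' using h1
  refine ⟨l, c, b, hc, hcx, ?_, ?_⟩
  · rw [sub_zero]
    intro j
    have := hb j
    rwa [← add_assoc] at this
  · funext j
    exact hb' j

end

end Pool.Agent.N212
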