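import Pool.Agent.N212.E3b
import Pool.Agent.N212.T11

set_option autoImplicit false
set_option linter.unusedVariables false

/-!
The complex of sheaves and the resolution.
-/

open MvPolynomial CategoryTheory Limits AlgebraicGeometry

namespace Pool.Agent.N212

noncomputable section

set_option backward.isDefEq.respectTransparency false

attribute [local instance] MvPolynomial.gradedAlgebra

section Complex

variable (k : Type) [Field k]

open Pool.Agent.W506 Pool.Agent.R924

/-- The complex of sheaves. -/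
def KK : CochainComplex (Zs k).Modules ℤ := tilC (GK3 k) (KD k) (KD_KD k) 0

lemma KK_X (p : ℤ) : (KK k).X p = til (GK3 k p) 0 := rfl

lemma KK_d (p q : ℤ) (h : p + 1 = q) : (KK k).d p q = tmap (KD k p q h) (by rw [add_zero]) :=
  tilC_d _ _ _ _ p q h

lemma KK_isZero (p : ℤ) (h0 : p ≠ 0) (h1 : p ≠ 1) (h2 : p ≠ 2) : IsZero ((KK k).X p) :=
  isZero_til (GK3 k p) (GK3_zero k p h0 h1 h2) 0

/-- The augmentation. -/
def eps : til (GA3 k) 0 ⟶ (KK k).X 0 := augT (GK3 k) (KD k) (KD_KD k) 0 (aug k)

lemma aug_injective : Function.Injective (aug k).f := by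
  intro a b hab
  funext j
  have h1 : e0 ((show Fin 3 → cu k from a) j : P k) = e0 ((show Fin 3 → cu k from b) j : P k) :=
    congrFun hab j
  exact Subtype.ext (congrArg TrivSqZeroExt.fst h1)

instance instMonoEps : Mono (eps k) := mono_tmap (aug k) (aug_injective k) (by rw [add_zero])

lemma eps_d : eps k ≫ (KK k).d 0 1 = 0 :=
  augT_d (GK3 k) (KD k) (KD_KD k) 0 (aug k) (aug_KD k)

variable [CharZero k]

lemma exact_eps : (ShortComplex.mk (eps k) ((KK k).d 0 1) (eps_d k)).Exact :=
  exact_augT (GK3 k) (KD k) (KD_KD k) 0 (aug k) (aug_KD k) (lexact_aug k)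

lemma exact_KK (p : ℤ) (hp : p ≠ 0) : (KK k).ExactAt p := by
  by_cases h1 : p = 1
  · rw [h1]
    exact tilC_exactAt (GK3 k) (KD k) (KD_KD k) 0 0 1 2 rfl rfl (lexact_KD k)
  by_cases h2 : p = 2
  · rw [h2]
    exact tilC_exactAt_epi (GK3 k) (KD k) (KD_KD k) 0 1 2 3 rfl rfl
      (KK_isZero k 3 (by norm_num) (by norm_num) (by norm_num)) (lsurj_KD k)
  · exact ShortComplex.exact_of_isZero_X₂ _ (KK_isZero k p hp h1 h2)

/-- The augmentation as a morphism of complexes. -/
def epsC := augCT (GK3 k) (KD k) (KD_KD k) 0 (aug k) (aug_KD k)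

instance : QuasiIso (epsC k) :=
  quasiIso_augCT (GK3 k) (KD k) (KD_KD k) 0 (aug k) (aug_KD k) (instMonoEps k) (lexact_aug k)
    (exact_KK k) (KK_isZero k (-1) (by norm_num) (by norm_num) (by norm_num))

end Complex

end

end Pool.Agent.N212
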