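import Mathlib

set_option autoImplicit false
set_option linter.unusedVariables false

/-!
Resolutions as quasi-isomorphisms, in an abelian category.
-/

open CategoryTheory Limits

namespace Pool.Agent.N212

noncomputable section

variable {C : Type*} [Category C] [Abelian C] (K : CochainComplex C ℤ) {G : C} (ε : G ⟶ K.X 0)
  (w : ε ≫ K.d 0 1 = 0)

/-- The augmentation as a morphism of complexes. -/
def augC : (HomologicalComplex.single C (ComplexShape.up ℤ) 0).obj G ⟶ K :=
  HomologicalComplex.mkHomFromSingle ε (by
    rintro j hj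
    obtain rfl : (0 : ℤ) + 1 = j := hj
    exact w)

lemma augC_f : (augC K ε w).f 0 = (HomologicalComplex.singleObjXSelf (ComplexShape.up ℤ) 0
    G).hom ≫ ε := HomologicalComplex.mkHomFromSingle_f _ _

include w in
theorem quasiIso_augC [Mono ε] (hex : (ShortComplex.mk ε (K.d 0 1) w).Exact)
    (h : ∀ p : ℤ, p ≠ 0 → K.ExactAt p) (hz : IsZero (K.X (-1))) : QuasiIso (augC K ε w) where
  quasiIsoAt p := by
    by_cases hp : p = 0
    · subst hp
      rw [quasiIsoAt_iff' (augC K ε w) (-1) 0 1 (by simp) (by simp)]
      rw [ShortComplex.quasiIso_iff_of_zeros]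
      · have e1 := augC_f K ε w
        constructor
        · have w' : (augC K ε w).f 0 ≫ K.d 0 1 = 0 := by
            rw [e1, Category.assoc, w, comp_zero]
          let i : ShortComplex.mk ((augC K ε w).f 0) (K.d 0 1) w' ≅
              ShortComplex.mk ε (K.d 0 1) w :=
            ShortComplex.isoMk (HomologicalComplex.singleObjXSelf (ComplexShape.up ℤ) 0 G)
              (Iso.refl _) (Iso.refl _) (by
                exact e1.symm.trans (Category.comp_id _).symm) (by
                change 𝟙 _ ≫ K.d 0 1 = K.d 0 1 ≫ 𝟙 _
                rw [Category.id_comp, Category.comp_id])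
          exact (ShortComplex.exact_iff_of_iso i).2 hex
        · change Mono ((augC K ε w).f 0)
          rw [e1]
          exact mono_comp _ _
      · exact (HomologicalComplex.isZero_single_obj_X (ComplexShape.up ℤ) (0 : ℤ) G
          (-1 : ℤ) (by norm_num)).eq_of_src _ _
      · exact (HomologicalComplex.isZero_single_obj_X (ComplexShape.up ℤ) (0 : ℤ) G
          (1 : ℤ) (by norm_num)).eq_of_tgt _ _
      · exact hz.eq_of_src _ _
    · rw [quasiIsoAt_iff_exactAt' _ _ (h p hp)]
      exact ShortComplex.exact_of_isZero_X₂ _
        (HomologicalComplex.isZero_single_obj_X (ComplexShape.up ℤ) (0 : ℤ) G p hp)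

end

end Pool.Agent.N212
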