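import Pool.Agent.N212.E4
import Pool.Agent.N212.Q1

set_option autoImplicit false
set_option linter.unusedVariables false

/-!
The augmentation is a quasi-isomorphism.
-/

open CategoryTheory Limits TopologicalSpace AlgebraicGeometry Opposite TopCat

namespace Pool.Agent.N212

noncomputable section

set_option backward.isDefEq.respectTransparency false

open Pool.Agent.W506

attribute [local instance] MvPolynomial.gradedAlgebra HasDerivedCategory.standard

variable (k : Type) [Field k] [CharZero k]

lemma quasiIso_epsA : QuasiIso (augC (KK k) (eps k) (eps_d k)) :=
  inferInstanceAs (QuasiIso (epsC k))

end

end Pool.Agent.N212
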