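import Pool.Agent.N849.Cusp.FLT
import Pool.Agent.R924.Defs

set_option autoImplicit false
set_option linter.unusedVariables false

/-!
Stratifications by open subschemes of affine spaces.
-/

open CategoryTheory TopologicalSpace AlgebraicGeometry IsLocalRing

namespace Pool.Agent.N212

open Pool.Agent.R924

/-- A stratification of a scheme over `K`: a finite cover by pairwise disjoint locally closed
subschemes, reduced and isomorphic over `K` to open subschemes of affine spaces. -/
def HasAffineStratification (K : Type) [Field K] {Z : Scheme.{0}}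
    (π : Z ⟶ Spec (CommRingCat.of K)) : Prop :=
  ∃ (m : ℕ) (Y : Fin m → Scheme.{0}) (i : ∀ a, Y a ⟶ Z), (∀ a, IsImmersion (i a)) ∧
    (∀ a, IsReduced (Y a)) ∧
    (∀ a b, a ≠ b → Disjoint (Set.range (i a)) (Set.range (i b))) ∧
    (∀ z : Z, ∃ a, z ∈ Set.range (i a)) ∧
    ∀ a, ∃ (n : ℕ) (j : Y a ⟶ Spec (CommRingCat.of (MvPolynomial (Fin n) K))),
      IsOpenImmersion j ∧
        j ≫ Spec.map (CommRingCat.ofHom (MvPolynomial.C (R := K) (σ := Fin n))) = i a ≫ π

noncomputable section

variable {K : Type} [Field K]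

/-- The germ of a scalar. -/
def gk {X : Scheme.{0}} (π : X ⟶ Spec (CommRingCat.of K)) (x : X) : K →+* X.presheaf.stalk x :=
  (X.presheaf.germ ⊤ x trivial).hom.comp (skK π)

lemma stalkMap_gk {X Y : Scheme.{0}} (f : Y ⟶ X) (π : X ⟶ Spec (CommRingCat.of K))
    (π' : Y ⟶ Spec (CommRingCat.of K)) (h : π' = f ≫ π) (y : Y) (c : K) :
    (f.stalkMap y).hom (gk π (f y) c) = gk π' y c := by
  subst h
  have h1 := Scheme.Hom.germ_stalkMap_apply f ⊤ y trivial (skK π c)
  refine h1.trans ?_
  have h2 : f.app ⊤ (skK π c) = skK (f ≫ π) c := by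
    change _ = ((Scheme.ΓSpecIso (CommRingCat.of K)).inv ≫ (f ≫ π).appTop).hom c
    rw [Scheme.Hom.comp_appTop]
    rfl
  rw [h2]
  rfl

lemma gk_affine {n : ℕ} (p : Spec (CommRingCat.of (MvPolynomial (Fin n) K))) (c : K) :
    gk (Spec.map (CommRingCat.ofHom (MvPolynomial.C (R := K) (σ := Fin n)))) p c =
      (StructureSheaf.toStalk (CommRingCat.of (MvPolynomial (Fin n) K)) p).hom
        (MvPolynomial.C c) := by
  have h1 := congr($(Scheme.ΓSpecIso_inv_naturality
    (CommRingCat.ofHom (MvPolynomial.C (R := K) (σ := Fin n)))) c)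
  have h2 : skK (Spec.map (CommRingCat.ofHom (MvPolynomial.C (R := K) (σ := Fin n)))) c =
      (Scheme.ΓSpecIso (CommRingCat.of (MvPolynomial (Fin n) K))).inv (MvPolynomial.C c) := h1.symm
  change (Spec (CommRingCat.of (MvPolynomial (Fin n) K))).presheaf.germ ⊤ p trivial
    (skK (Spec.map (CommRingCat.ofHom (MvPolynomial.C (R := K) (σ := Fin n)))) c) = _
  rw [h2]
  rfl

section Normal

set_option backward.isDefEq.respectTransparency false

variable {Y : Scheme.{0}} {R : CommRingCat.{0}} [IsDomain R] [IsIntegrallyClosed R]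
  (j : Y ⟶ Spec R) [IsOpenImmersion j]

include j in
lemma normal_stalk (y : Y) : IsIntegrallyClosed (Y.presheaf.stalk y) := by
  let _ : Algebra R ((Spec R).presheaf.stalk (j y)) := StructureSheaf.stalkAlgebra R (j y)
  have h1 : IsLocalization.AtPrime ((Spec R).presheaf.stalk (j y)) (j y).asIdeal :=
    StructureSheaf.IsLocalization.to_stalk R (j y)
  have h2 : IsIntegrallyClosed ((Spec R).presheaf.stalk (j y)) :=
    isIntegrallyClosed_of_isLocalization _ (j y).asIdeal.primeCompl
      (Ideal.primeCompl_le_nonZeroDivisors _)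
  exact IsIntegrallyClosed.of_equiv (asIso (j.stalkMap y)).commRingCatIsoToRingEquiv

end Normal

lemma bijective_stalkMap {Z Y : Scheme.{0}} [IsIntegral Z] [IsIntegral Y] (i : Y ⟶ Z)
    [IsImmersion i] (h : i (genericPoint Y) = genericPoint Z) (y : Y) :
    Function.Bijective (i.stalkMap y).hom := by
  refine ⟨?_, i.stalkMap_surjective y⟩
  rw [injective_iff_map_eq_zero]
  intro s hs
  have hf : IsField (Z.presheaf.stalk (i (genericPoint Y))) := by
    rw [h]
    exact Field.toIsField Z.functionField
  have h1 := Scheme.Hom.stalkSpecializes_stalkMap_apply i (genericPoint Y) y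
    (genericPoint_specializes y) s
  have h2 : i.stalkMap y s = 0 := hs
  rw [h2, map_zero] at h1
  have h3 : Z.presheaf.stalkSpecializes (i.base.hom.map_specializes
      (genericPoint_specializes y)) s = 0 := by
    by_contra hne
    obtain ⟨t, ht⟩ := hf.mul_inv_cancel hne
    have h4 : (i.stalkMap (genericPoint Y)).hom 1 = 0 := by
      rw [← ht, map_mul]
      have h5 : (i.stalkMap (genericPoint Y)).hom (Z.presheaf.stalkSpecializes
        (i.base.hom.map_specializes (genericPoint_specializes y)) s) = 0 := h1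
      rw [h5, zero_mul]
    rw [map_one] at h4
    exact one_ne_zero h4
  have h6 : Function.Injective (algebraMap (Z.presheaf.stalk (i y)) Z.functionField) :=
    IsFractionRing.injective _ _
  apply h6
  rw [map_zero]
  have h7 := congrArg (Z.presheaf.stalkSpecializes
    (genericPoint_specializes (i (genericPoint Y)))).hom h3
  rw [map_zero] at h7
  refine Eq.trans ?_ h7
  have h8 := congr($(TopCat.Presheaf.stalkSpecializes_comp Z.presheaf
    (genericPoint_specializes (i (genericPoint Y)))
    (i.base.hom.map_specializes (genericPoint_specializes y))) s)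
  exact h8.symm

set_option backward.isDefEq.respectTransparency false in
/-- The stalk at the generic point is a fraction field of the polynomial ring. -/
lemma exists_consts [CharZero K] {n : ℕ} {Y : Scheme.{0}} [IsIntegral Y]
    (j : Y ⟶ Spec (CommRingCat.of (MvPolynomial (Fin n) K))) [IsOpenImmersion j]
    (u v : Y.functionField) (h : u ^ 3 + v ^ 3 + 1 = 0) :
    ∃ c : K, u = gk (j ≫ Spec.map (CommRingCat.ofHom (MvPolynomial.C (R := K) (σ := Fin n))))
      (genericPoint Y) c := by
  let R : CommRingCat := CommRingCat.of (MvPolynomial (Fin n) K)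
  let p : Spec R := j (genericPoint Y)
  let _ : Algebra R ((Spec R).presheaf.stalk p) := StructureSheaf.stalkAlgebra R p
  have h1 : IsLocalization.AtPrime ((Spec R).presheaf.stalk p) p.asIdeal :=
    StructureSheaf.IsLocalization.to_stalk R p
  have hp : p.asIdeal = ⊥ := by
    have h2 : p = genericPoint (Spec R) := genericPoint_eq_of_isOpenImmersion j
    rw [h2, genericPoint_eq_bot_of_affine]
    rfl
  have h3 : p.asIdeal.primeCompl = nonZeroDivisors R := by
    ext x
    rw [mem_nonZeroDivisors_iff_ne_zero]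
    change x ∉ p.asIdeal ↔ _
    rw [hp]
    rfl
  have h4 : IsFractionRing R ((Spec R).presheaf.stalk p) := by
    rw [IsFractionRing, ← h3]
    exact h1
  let e : (Spec R).presheaf.stalk p ≃+* Y.functionField :=
    (asIso (j.stalkMap (genericPoint Y))).commRingCatIsoToRingEquiv
  let φ : MvPolynomial (Fin n) K →+* Y.functionField :=
    (e : (Spec R).presheaf.stalk p →+* Y.functionField).comp
      (algebraMap R ((Spec R).presheaf.stalk p))
  let _ : Algebra (MvPolynomial (Fin n) K) Y.functionField := φ.toAlgebra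
  let e' : (Spec R).presheaf.stalk p ≃ₐ[MvPolynomial (Fin n) K] Y.functionField :=
    { e with commutes' := fun r => rfl }
  have h5 : IsFractionRing (MvPolynomial (Fin n) K) Y.functionField :=
    IsLocalization.isLocalization_of_algEquiv _ e'
  obtain ⟨c, d, hc, hd⟩ := Pool.Agent.N849.Cusp.flt_gen K n Y.functionField u v h
  refine ⟨c, hc.trans ?_⟩
  rw [← stalkMap_gk j _ _ rfl (genericPoint Y) c, gk_affine]
  rfl

/-- A criterion for the non-existence of stratifications. -/
theorem no_stratification [CharZero K] {Z : Scheme.{0}} [IsIntegral Z]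
    (π : Z ⟶ Spec (CommRingCat.of K)) (ξ : Z)
    (H1 : ∀ z : Z, z ⤳ ξ → z = genericPoint Z ∨ z = ξ)
    (H2 : ¬ IsIntegrallyClosed (Z.presheaf.stalk ξ))
    (H3 : ∃ u v : Z.presheaf.stalk ξ, u ^ 3 + v ^ 3 + 1 ∈ maximalIdeal (Z.presheaf.stalk ξ) ∧
      ∀ c : K, u - gk π ξ c ∉ maximalIdeal (Z.presheaf.stalk ξ)) :
    ¬ HasAffineStratification K π := by
  rintro ⟨m, Y, i, himm, -, -, hcov, haff⟩
  obtain ⟨a, y₀, hy⟩ := hcov ξ
  obtain ⟨n, j, hj, hcomm⟩ := haff a
  have hi := himm a
  have hne : Nonempty (Y a) := ⟨y₀⟩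
  have hYa : IsIntegral (Y a) := isIntegral_of_isOpenImmersion j
  have hg : i a (genericPoint (Y a)) ⤳ ξ := by
    rw [← hy]
    exact (i a).base.hom.map_specializes (genericPoint_specializes y₀)
  rcases H1 _ hg with h | h
  · apply H2
    subst hy
    have h1 := bijective_stalkMap (i a) h y₀
    have h2 : IsIntegrallyClosed ((Y a).presheaf.stalk y₀) :=
      normal_stalk (R := CommRingCat.of (MvPolynomial (Fin n) K)) j y₀
    exact IsIntegrallyClosed.of_equiv (RingEquiv.ofBijective _ h1).symm
  · subst h
    obtain ⟨u, v, huv, hu⟩ := H3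
    let ψ := ((i a).stalkMap (genericPoint (Y a))).hom
    have hψ : ∀ s, s ∈ maximalIdeal (Z.presheaf.stalk (i a (genericPoint (Y a)))) ↔
        ψ s = 0 := by
      intro s
      have hl : IsLocalHom ψ := inferInstance
      rw [mem_maximalIdeal, mem_nonunits_iff]
      rw [← isUnit_map_iff ψ s]
      rw [isUnit_iff_ne_zero, not_not]
    rw [hψ, map_add, map_add, map_pow, map_pow, map_one] at huv
    obtain ⟨c, hc⟩ := exists_consts j (ψ u) (ψ v) huv
    apply hu c
    rw [hψ, map_sub, sub_eq_zero, hc]
    exact (stalkMap_gk (i a) π _ hcomm (genericPoint (Y a)) c).symm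

end

end Pool.Agent.N212
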