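import Pool.Agent.N212.T2
import Pool.Agent.R924.Defs

set_option autoImplicit false
set_option linter.unusedVariables false

/-!
Scalars on the projective spectrum.
-/

open CategoryTheory Limits TopologicalSpace AlgebraicGeometry Opposite TopCat

namespace Pool.Agent.N212

noncomputable section

set_option backward.isDefEq.respectTransparency false

open Pool.Agent.W506 Pool.Agent.R924 Pool.Agent.W456

section Zero

universe u

open HomogeneousLocalization

variable {A : Type u} [CommRing A] {σ : Type*} [SetLike σ A] [AddSubgroupClass σ A]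
  (𝒜 : ℕ → σ) [GradedRing 𝒜]

lemma ι_toSpecZero {f : A} {m : ℕ} (hf : f ∈ 𝒜 m) (hm : 0 < m) :
    (Proj.basicOpen 𝒜 f).ι ≫ Proj.toSpecZero 𝒜 = (Proj.basicOpen 𝒜 f).toSpecΓ ≫
      Spec.map (CommRingCat.ofHom (fromZeroRingHom 𝒜 _) ≫ Proj.awayToSection 𝒜 f) := by
  have h := Proj.awayι_toSpecZero 𝒜 f hf hm
  rw [← Proj.basicOpenIsoSpec_inv_ι, Category.assoc, Iso.inv_comp_eq, Proj.basicOpenIsoSpec_hom,
    Proj.basicOpenToSpec, Category.assoc, ← Spec.map_comp] at h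
  exact h

lemma toSpecZero_appTop {f : A} {m : ℕ} (hf : f ∈ 𝒜 m) (hm : 0 < m) :
    (Scheme.ΓSpecIso (CommRingCat.of (𝒜 0))).inv ≫ (Proj.toSpecZero 𝒜).appTop ≫
      (Proj 𝒜).presheaf.map (homOfLE (le_top : Proj.basicOpen 𝒜 f ≤ ⊤)).op =
      CommRingCat.ofHom (fromZeroRingHom 𝒜 _) ≫ Proj.awayToSection 𝒜 f := by
  have h1 := congrArg Scheme.Hom.appTop (ι_toSpecZero 𝒜 hf hm)
  rw [Scheme.Hom.comp_appTop, Scheme.Hom.comp_appTop] at h1
  rw [Scheme.Opens.toSpecΓ_appTop] at h1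
  rw [← Category.assoc, Scheme.ΓSpecIso_naturality] at h1
  have h2 : (Proj.basicOpen 𝒜 f).ι.appTop ≫ (Proj.basicOpen 𝒜 f).topIso.hom =
      (Proj 𝒜).presheaf.map (homOfLE (le_top : Proj.basicOpen 𝒜 f ≤ ⊤)).op := by
    rw [Scheme.Opens.ι_appTop, Scheme.Opens.topIso_hom, ← Functor.map_comp]
    rfl
  rw [Iso.inv_comp_eq, ← h2, ← Category.assoc, h1, Category.assoc, Iso.inv_hom_id,
    Category.comp_id]

end Zero

/-- The category of modules is linear over the base field. -/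
abbrev linMod {k : Type} [Field k] {X : Scheme.{0}} (π : X ⟶ Spec (CommRingCat.of k)) :
    Linear k X.Modules := Linear.ofRingMorphism ((gammaCenter X).comp (skK π))

variable {k : Type} [Field k] {A : Type} [CommRing A] [Algebra k A]
  (𝒜 : ℕ → Submodule k A) [GradedAlgebra 𝒜]

/-- The structure morphism of the projective spectrum. -/
def pr0 : Proj 𝒜 ⟶ Spec (CommRingCat.of k) :=
  Proj.toSpecZero 𝒜 ≫ Spec.map (CommRingCat.ofHom (algebraMap k (𝒜 0)))

variable {𝒜}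

lemma fv_skK (c : k) {U : (Proj 𝒜).Opens} (x : ProjectiveSpectrum.top 𝒜) (hx : x ∈ U) :
    (fv (resTop U (skK (pr0 𝒜) c)) x hx).val = Localization.mk (algebraMap k A c) 1 := by
  obtain ⟨n, f, -, hn, hf, hfx⟩ := exists_den x 0
  have h1 := toSpecZero_appTop 𝒜 hf hn
  have h2 : (Scheme.ΓSpecIso (CommRingCat.of k)).inv ≫ (pr0 𝒜).appTop ≫
      (Proj 𝒜).presheaf.map (homOfLE (le_top : Proj.basicOpen 𝒜 f ≤ ⊤)).op =
      CommRingCat.ofHom (algebraMap k (𝒜 0)) ≫
        CommRingCat.ofHom (HomogeneousLocalization.fromZeroRingHom 𝒜 _) ≫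
        Proj.awayToSection 𝒜 _ := by
    rw [← h1, pr0, Scheme.Hom.comp_appTop, Category.assoc, ← Scheme.ΓSpecIso_inv_naturality_assoc]
  have h3 := congr($h2 c)
  have h4 : fv (resTop U (skK (pr0 𝒜) c)) x hx =
      fv (resTop (Proj.basicOpen 𝒜 f) (skK (pr0 𝒜) c)) x hfx := rfl
  rw [h4]
  have h5 : resTop (Proj.basicOpen 𝒜 f) (skK (pr0 𝒜) c) = Proj.awayToSection 𝒜 f
    (HomogeneousLocalization.fromZeroRingHom 𝒜 _ (algebraMap k (𝒜 0) c)) := h3
  rw [h5]
  rfl

lemma vl_smulEnd {N : GM 𝒜} {j : ℤ} (c : k) {U : (Proj 𝒜).Opens} (s : Γ(til N j, U))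
    (x : ProjectiveSpectrum.top 𝒜) (hx : x ∈ U) :
    vl ((smulEnd (skK (pr0 𝒜) c) (til N j)).app U s) x hx =
      (Localization.mk (algebraMap k A c) 1 : Localization (pc x)) • vl s x hx := by
  rw [smulEnd_app, vl_smul, fv_skK]

/-- The linear structure is the one of the base field. -/
def IsLin {X : Scheme.{0}} (π : X ⟶ Spec (CommRingCat.of k)) [Linear k X.Modules] : Prop :=
  ∀ {M M' : X.Modules} (c : k) (φ : M ⟶ M'), c • φ = smulEnd (skK π c) M ≫ φ

lemma isLin_linMod {X : Scheme.{0}} (π : X ⟶ Spec (CommRingCat.of k)) :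
    @IsLin k _ X π (linMod π) := fun _ _ => rfl

/-- Scalar multiples of the morphisms attached to maps of graded modules. -/
lemma lin_tmap [Linear k (Proj 𝒜).Modules] (hl : IsLin (pr0 𝒜)) {N N' : GM 𝒜} {e : ℤ} (c : k)
    (f g : GH N N' e) (hfg : ∀ m, g.f m = algebraMap k A c • f.f m) {j j' : ℤ} (h : j' = j + e) :
    c • tmap f h = tmap g h := by
  rw [hl, ← smulEnd_nat]
  apply ap_ext
  intro U s
  apply vl_ext
  intro x hx
  rw [ap_comp]
  refine (vl_smulEnd c _ x hx).trans ?_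
  rw [vl_tmap, vl_tmap]
  obtain ⟨V, hV, hxV, n, m, a, h1, h2, h3⟩ := exists_frac s x hx
  obtain ⟨h4, h5⟩ := h3 x hxV
  rw [h5, lmap_mk, lmap_mk, hfg, LocalizedModule.mk_smul_mk, one_mul]

end

end Pool.Agent.N212
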