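import Pool.Agent.N212.Q1
import Pool.Agent.W506.D1

set_option autoImplicit false
set_option linter.unusedVariables false

/-!
Comparison of cocycles with values in a K-injective complex with morphisms out of a resolved
object.
-/

open CategoryTheory Limits CochainComplex CochainComplex.HomComplex Preadditive

namespace Pool.Agent.N212

noncomputable section

/-- The functor represented by an object is exact on a complex. -/
def HomExact {C : Type*} [Category C] [Abelian C] (G : C) (L : CochainComplex C ℤ) : Prop :=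
  ∀ (p q r : ℤ) (_ : p + 1 = q) (_ : q + 1 = r) (f : G ⟶ L.X q), f ≫ L.d q r = 0 →
    ∃ g : G ⟶ L.X p, g ≫ L.d p q = f

variable {C : Type*} [Category C] [Abelian C] {K I : CochainComplex C ℤ} (κ : K ⟶ I) {G : C}
  {ε : G ⟶ K.X 0} (w : ε ≫ K.d 0 1 = 0)

include w in
theorem cmp_lift (hG : HomExact G (mappingCone κ)) {p q r : ℤ} (hpq : p + 1 = q)
    (hqr : q + 1 = r) (z : Cochain K I q) (hz : δ q r z = 0) :
    ∃ (v : G ⟶ K.X q) (β : G ⟶ I.X p), v ≫ K.d q r = 0 ∧
      ε ≫ z.v 0 q (zero_add q) = v ≫ κ.f q + β ≫ I.d p q := by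
  have h1 : ε ≫ z.v 0 q (zero_add q) ≫ I.d q r = 0 := by
    have h2 := Cochain.congr_v hz 0 r (by lia)
    rw [δ_v q r hqr z 0 r (by lia) q 1 (by lia) (by lia), Cochain.zero_v] at h2
    have h3 : z.v 0 q (zero_add q) ≫ I.d q r = -(r.negOnePow • K.d 0 1 ≫ z.v 1 r (by lia)) :=
      eq_neg_of_add_eq_zero_left h2
    rw [h3, comp_neg, Units.smul_def, comp_zsmul, reassoc_of% w, zero_comp, smul_zero, neg_zero]
  obtain ⟨g, hg⟩ := hG p q r hpq hqr (ε ≫ z.v 0 q (zero_add q) ≫ (mappingCone.inr κ).f q) (by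
    rw [Category.assoc, Category.assoc, mappingCone.inr_f_d, reassoc_of% h1, zero_comp])
  have e1 : g ≫ (mappingCone.fst κ).1.v p q hpq ≫ K.d q r = 0 := by
    have h2 := congrArg (fun t => t ≫ (mappingCone.fst κ).1.v q r hqr) hg
    simp only [Category.assoc] at h2
    rw [mappingCone.d_fst_v κ p q r hpq hqr, mappingCone.inr_f_fst_v, comp_zero, comp_zero,
      comp_neg, neg_eq_zero] at h2
    exact h2
  have e2 := congrArg (fun t => t ≫ (mappingCone.snd κ).v q q (add_zero q)) hg
  simp only [Category.assoc] at e2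
  rw [mappingCone.d_snd_v κ p q hpq, mappingCone.inr_f_snd_v, Category.comp_id, comp_add] at e2
  exact ⟨g ≫ (mappingCone.fst κ).1.v p q hpq, g ≫ (mappingCone.snd κ).v p p (add_zero p),
    (Category.assoc _ _ _).trans e1, by rw [Category.assoc, Category.assoc]; exact e2.symm⟩

theorem cmp_desc (hG : HomExact G (mappingCone κ)) {o p q r : ℤ} (hop : o + 1 = p)
    (hpq : p + 1 = q) (hqr : q + 1 = r)
    (v : G ⟶ K.X q) (hv : v ≫ K.d q r = 0) (β : G ⟶ I.X p) (h : v ≫ κ.f q = β ≫ I.d p q) :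
    ∃ a : G ⟶ K.X p, a ≫ K.d p q = v := by
  have hqp : q + (-1) = p := by lia
  have hrq : r + (-1) = q := by lia
  obtain ⟨g, hg⟩ := hG o p q hop hpq (v ≫ (mappingCone.inl κ).v q p hqp -
      β ≫ (mappingCone.inr κ).f p) (by
    rw [sub_comp, Category.assoc, Category.assoc, mappingCone.inr_f_d,
      mappingCone.inl_v_d κ q p r hqp hrq, comp_sub, reassoc_of% hv, zero_comp, sub_zero,
      reassoc_of% h, sub_self])
  have e1 := congrArg (fun t => t ≫ (mappingCone.fst κ).1.v p q hpq) hg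
  simp only [Category.assoc] at e1
  rw [mappingCone.d_fst_v κ o p q hop hpq, sub_comp, Category.assoc, Category.assoc,
    mappingCone.inl_v_fst_v κ q p hpq, mappingCone.inr_f_fst_v, comp_zero, sub_zero,
    Category.comp_id] at e1
  exact ⟨-(g ≫ (mappingCone.fst κ).1.v o p hop), by rw [neg_comp, Category.assoc, ← e1, comp_neg]⟩

theorem cmp_unique [I.IsKInjective] (hq : QuasiIso (augC K ε w)) {p q r : ℤ}
    (hpq : p + 1 = q) (hqr : q + 1 = r)
    (f : Cochain K I q) (hf : δ q r f = 0) (β : G ⟶ I.X p)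
    (h : ε ≫ f.v 0 q (zero_add q) = β ≫ I.d p q) :
    ∃ b : Cochain K I p, δ p q b = f := by
  have hac : (mappingCone (augC K ε w)).Acyclic :=
    (Pool.Agent.W506.quasiIso_iff_acyclic_mappingCone (augC K ε w)).1 hq
  let α : Cochain ((singleFunctor C 0).obj G) I p := Cochain.fromSingleMk β (zero_add p)
  let φ : (singleFunctor C 0).obj G ⟶ K := augC K ε w
  have hα : δ p q α = (Cochain.ofHom φ).comp f (zero_add q) := by
    rw [Cochain.δ_fromSingleMk β (zero_add p) q q (zero_add q), ← h]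
    obtain ⟨g, hg⟩ := Cochain.fromSingleMk_surjective
      ((Cochain.ofHom φ).comp f (zero_add q)) q (zero_add q)
    rw [← hg]
    congr 1
    have h1 := Cochain.congr_v hg 0 q (zero_add q)
    rw [Cochain.fromSingleMk_v, Cochain.zero_cochain_comp_v, Cochain.ofHom_v] at h1
    have h2 : φ.f 0 = (HomologicalComplex.singleObjXSelf (ComplexShape.up ℤ) 0 G).hom ≫ ε :=
      augC_f K ε w
    rw [h2] at h1
    have h3 : (HomologicalComplex.singleObjXSelf (ComplexShape.up ℤ) 0 G).hom ≫ g =
      (HomologicalComplex.singleObjXSelf (ComplexShape.up ℤ) 0 G).hom ≫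
        ε ≫ f.v 0 q (zero_add q) := h1.trans (Category.assoc _ _ _)
    exact ((cancel_epi _).1 h3).symm
  let z : Cocycle K I q := Cocycle.mk f r hqr hf
  let Z : Cocycle (mappingCone φ) I q := mappingCone.descCocycle φ (q.negOnePow • α) z hpq (by
    rw [δ_units_smul, hα]
    rfl)
  obtain ⟨c, hc⟩ := IsKInjective.eq_δ_of_cocycle Z hac p hpq
  refine ⟨(Cochain.ofHom (mappingCone.inr φ)).comp c (zero_add p), ?_⟩
  rw [δ_ofHom_comp, hc]
  exact mappingCone.inr_descCochain φ _ _ hpq

end

end Pool.Agent.N212
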