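import Pool.Agent.N212.DG.Defs
import Pool.Agent.N212.Q2

set_option autoImplicit false
set_option linter.unusedVariables false

/-!
The DG algebra computes the derived endomorphisms.
-/

open CategoryTheory Limits CochainComplex CochainComplex.HomComplex Preadditive

namespace Pool.Agent.N212

noncomputable section

variable {k : Type} [Field k] {C : Type*} [Category C] [Abelian C] [Linear k C]
  {R : DG.DGAlg.{0, 0} k} {K I : CochainComplex C ℤ} (ρ : DG.Action R K) (κ : K ⟶ I) {G : C}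
  {ε : G ⟶ K.X 0} (w : ε ≫ K.d 0 1 = 0)

include w in
lemma ev_d {q r : ℤ} (h : q + 1 = r) (a : R.A q) :
    ε ≫ (ρ.act r (R.d q r h a)).v 0 r (zero_add r) =
      (ε ≫ (ρ.act q a).v 0 q (zero_add q)) ≫ K.d q r := by
  rw [ρ.act_d h a, δ_v q r h _ 0 r (zero_add r) q 1 (by omega) (by omega), comp_add,
    Units.smul_def, comp_zsmul, reassoc_of% w, zero_comp, smul_zero, add_zero, Category.assoc]

theorem morita_surj [I.IsKInjective] (hq : QuasiIso (augC K ε w))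
    (hG : HomExact G (mappingCone κ))
    (hinj : ∀ (q : ℤ) (a : R.A q), ε ≫ (ρ.act q a).v 0 q (zero_add q) = 0 → a = 0)
    (hsurj : ∀ (q : ℤ) (v : G ⟶ K.X q), ∃ a : R.A q, ε ≫ (ρ.act q a).v 0 q (zero_add q) = v)
    (p q r : ℤ) (h₁ : p + 1 = q) (h₂ : q + 1 = r) (z : Cochain K I q) (hz : δ q r z = 0) :
      ∃ (a : R.A q) (b : Cochain K I p), R.d q r h₂ a = 0 ∧
        (ρ.act q a).comp (Cochain.ofHom κ) (add_zero q) = z + δ p q b := by
  obtain ⟨v, β, hv, hvβ⟩ := cmp_lift κ w hG h₁ h₂ z hz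
  obtain ⟨a, rfl⟩ := hsurj q v
  have h3 : R.d q r h₂ a = 0 := by
    apply hinj
    rw [ev_d ρ w h₂ a]
    exact hv
  have h4 : δ q r (z - (ρ.act q a).comp (Cochain.ofHom κ) (add_zero q)) = 0 := by
    rw [δ_sub, hz, δ_comp_ofHom, ← ρ.act_d h₂, h3, map_zero, Cochain.zero_comp, sub_zero]
  obtain ⟨b, hb⟩ := cmp_unique w hq h₁ h₂ _ h4 β (by
    rw [Cochain.sub_v, comp_sub, hvβ, Cochain.comp_zero_cochain_v, Cochain.ofHom_v,
      Category.assoc, add_sub_cancel_left])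
  refine ⟨a, -b, h3, ?_⟩
  rw [δ_neg, hb]
  abel

theorem morita_inj (hG : HomExact G (mappingCone κ))
    (hinj : ∀ (q : ℤ) (a : R.A q), ε ≫ (ρ.act q a).v 0 q (zero_add q) = 0 → a = 0)
    (hsurj : ∀ (q : ℤ) (v : G ⟶ K.X q), ∃ a : R.A q, ε ≫ (ρ.act q a).v 0 q (zero_add q) = v)
    (p q r : ℤ) (h₁ : p + 1 = q) (h₂ : q + 1 = r) (a : R.A q) (ha : R.d q r h₂ a = 0)
    (b : Cochain K I p) (hb : (ρ.act q a).comp (Cochain.ofHom κ) (add_zero q) = δ p q b)
    (w' : ε ≫ K.d 0 1 = 0) :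
        ∃ a' : R.A p, a = R.d p q h₁ a' := by
  have h3 : (ε ≫ (ρ.act q a).v 0 q (zero_add q)) ≫ K.d q r = 0 := by
    rw [← ev_d ρ w' h₂ a, ha, map_zero, Cochain.zero_v, comp_zero]
  have h4 : (ε ≫ (ρ.act q a).v 0 q (zero_add q)) ≫ κ.f q =
      (ε ≫ b.v 0 p (zero_add p)) ≫ I.d p q := by
    have h5 := Cochain.congr_v hb 0 q (zero_add q)
    rw [Cochain.comp_zero_cochain_v, Cochain.ofHom_v,
      δ_v p q h₁ _ 0 q (zero_add q) p 1 (by omega) (by omega)] at h5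
    rw [Category.assoc, h5, comp_add, Units.smul_def, comp_zsmul, reassoc_of% w', zero_comp,
      smul_zero, add_zero, Category.assoc]
  obtain ⟨u, hu⟩ := cmp_desc κ hG (o := p - 1) (by omega) h₁ h₂ _ h3 _ h4
  obtain ⟨a', rfl⟩ := hsurj p u
  refine ⟨a', ?_⟩
  rw [← sub_eq_zero]
  apply hinj
  rw [map_sub, Cochain.sub_v, comp_sub, ev_d ρ w' h₁ a', hu, sub_self]

end

end Pool.Agent.N212
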