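import Pool.Agent.N212.DG.Sub
import Pool.Agent.N212.E6

set_option autoImplicit false
set_option linter.unusedVariables false

/-!
The finite-dimensional DG algebra.
-/

open MvPolynomial

namespace Pool.Agent.N212

noncomputable section

attribute [local instance] MvPolynomial.gradedAlgebra

variable (k : Type) [Field k]

lemma kE_smul_mul (c : k) (a b : E k) : (c • a) * b = c • (a * b) := by
  apply E_ext
  · exact smul_mul_assoc c a.fst b.fst
  · refine (mul_snd₁ _ _).trans (Eq.trans ?_ (ksmul_snd₁ c (a * b)).symm)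
    rw [mul_snd₁, ksmul_fst, ksmul_snd₁, smul_add, smul_assoc]
    congr 1
    exact smul_comm b.fst c a.snd.1
  · refine (mul_snd₂ _ _).trans (Eq.trans ?_ (ksmul_snd₂ c (a * b)).symm)
    rw [mul_snd₂, ksmul_fst, ksmul_snd₂, smul_add, smul_assoc]
    congr 1
    exact smul_comm b.fst c a.snd.2

lemma kE_mul_smul (c : k) (a b : E k) : a * (c • b) = c • (a * b) := by
  rw [mul_comm, kE_smul_mul, mul_comm]

lemma kMa_smul_mul (c : k) (a b : Ma k) : (c • a) * b = c • (a * b) := by
  ext1 i l
  rw [Matrix.mul_apply, Matrix.smul_apply, Matrix.mul_apply, Finset.smul_sum]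
  exact Finset.sum_congr rfl fun j _ => kE_smul_mul k c (a i j) (b j l)

lemma kMa_mul_smul (c : k) (a b : Ma k) : a * (c • b) = c • (a * b) := by
  ext1 i l
  rw [Matrix.mul_apply, Matrix.smul_apply, Matrix.mul_apply, Finset.smul_sum]
  exact Finset.sum_congr rfl fun j _ => kE_mul_smul k c (a i j) (b j l)

/-- The DG algebra. -/
def RR : DG.DGAlg.{0, 0} k :=
  DG.DGAlg.ofSub (RA k) (DM k) (kMa_smul_mul k) (kMa_mul_smul k) one_mem_RA
    (fun ha hb => mul_mem_RA ha hb) (fun ha => DM_mem ha) DM_DM (fun ha b => DM_mul ha b)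

end

end Pool.Agent.N212
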