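import Pool.Agent.N212.R1

set_option autoImplicit false
set_option linter.unusedVariables false

/-!
The DG algebra is finite-dimensional.
-/

open MvPolynomial

namespace Pool.Agent.N212

noncomputable section

attribute [local instance] MvPolynomial.gradedAlgebra

variable (k : Type) [Field k]

lemma fg_homZ (i : ℤ) : (homZ (PH k) i).FG := by
  by_cases hi : 0 ≤ i
  · obtain ⟨n, rfl⟩ := Int.eq_ofNat_of_zero_le hi
    have e : homZ (PH k) (n : ℤ) = homogeneousSubmodule (Fin 3) k n := by
      ext a
      exact mem_homZ_nat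
    rw [e]
    exact homogeneousSubmodule_fg (Fin 3) k n
  · have e : homZ (PH k) i = ⊥ := by
      rw [eq_bot_iff]
      intro a ha
      exact (Submodule.mem_bot k).2 (homZ_neg (not_le.1 hi) ha)
    rw [e]
    exact Submodule.fg_bot

lemma fg_Kd (p i : ℤ) : (Kd k p i).FG := by
  rw [Kd]
  split_ifs
  · exact (fg_homZ k _).map _
  · exact (fg_homZ k _).map _
  · exact (fg_homZ k _).map _
  · exact Submodule.fg_bot

lemma finite_RA (n : ℤ) : Module.Finite k (RA k n) := by
  have h1 : ∀ i j : Fin 3, Module.Finite k (Kd k n ((i : ℕ) - (j : ℕ) : ℤ)) :=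
    fun i j => Module.Finite.iff_fg.2 (fg_Kd k n _)
  let f : RA k n →ₗ[k] (∀ i j : Fin 3, Kd k n ((i : ℕ) - (j : ℕ) : ℤ)) :=
    { toFun := fun r i j => ⟨(r : Ma k) i j, r.2 i j⟩
      map_add' := fun a b => rfl
      map_smul' := fun c a => rfl }
  refine Module.Finite.of_injective f ?_
  intro a b hab
  apply Subtype.ext
  funext i j
  exact congrArg Subtype.val (congrFun (congrFun hab i) j)

lemma RA_other (n : ℤ) (h0 : n ≠ 0) (h1 : n ≠ 1) (h2 : n ≠ 2) : Subsingleton (RA k n) := by
  refine ⟨fun a b => ?_⟩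
  apply Subtype.ext
  funext i j
  have ha := a.2 i j
  have hb := b.2 i j
  rw [Kd_other h0 h1 h2, Submodule.mem_bot] at ha hb
  rw [ha, hb]

/-- The DG algebra is finite-dimensional. -/
theorem finite_RR : (RR k).IsFiniteDimensional := by
  refine ⟨finite_RA k, ?_⟩
  refine (Set.toFinite {0, 1, 2}).subset ?_
  intro n hn
  by_contra h
  simp only [Set.mem_insert_iff, Set.mem_singleton_iff, not_or] at h
  have h3 : Nontrivial (RA k n) := hn
  have h4 := RA_other k n h.1 h.2.1 h.2.2
  exact not_subsingleton (RA k n) h4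

end

end Pool.Agent.N212
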