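import Pool.Agent.N212.C2
import Pool.Agent.N212.Q2

set_option autoImplicit false
set_option linter.unusedVariables false

/-!
The resolution by injective sheaves and the acyclicity of the generators.
-/

open CategoryTheory Limits TopologicalSpace AlgebraicGeometry Opposite TopCat
open CochainComplex CochainComplex.HomComplex

namespace Pool.Agent.N212

noncomputable section

set_option backward.isDefEq.respectTransparency false

open Pool.Agent.W506 Pool.Agent.R924 Pool.Agent.W456

section General

/-- An injective resolution of a bounded below complex. -/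
structure IRes {C : Type*} [Category C] [Abelian C] (K : CochainComplex C ℤ) where
  /-- the complex -/
  I : CochainComplex C ℤ
  /-- the quasi-isomorphism -/
  κ : K ⟶ I
  qi : QuasiIso κ
  inj : ∀ p, Injective (I.X p)
  ge : I.IsStrictlyGE 0

lemma exists_ires {C : Type*} [Category C] [Abelian C] [EnoughInjectives C]
    (K : CochainComplex C ℤ) (hK : K.IsStrictlyGE 0) : Nonempty (IRes K) := by
  obtain ⟨L, i, hi, hinj, hL⟩ :=
    CochainComplex.Plus.modelCategoryQuillen.exists_quasiIso_injective K 0
  exact ⟨⟨L, i, hi, hinj, hL⟩⟩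

lemma IRes.isKInjective {C : Type*} [Category C] [Abelian C] {K : CochainComplex C ℤ}
    (r : IRes K) : r.I.IsKInjective := by
  have := r.inj
  have := r.ge
  exact isKInjective_of_injective r.I 0

lemma HomExact.of_iso {C : Type*} [Category C] [Abelian C] {G H : C} (e : G ≅ H)
    {L : CochainComplex C ℤ} (h : HomExact G L) : HomExact H L := by
  intro p q r hpq hqr f hf
  obtain ⟨g, hg⟩ := h p q r hpq hqr (e.hom ≫ f) (by rw [Category.assoc, hf, comp_zero])
  exact ⟨e.inv ≫ g, by rw [Category.assoc, hg, Iso.inv_hom_id_assoc]⟩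

lemma HomExact.sum {C : Type*} [Category C] [Abelian C] {ι : Type} [Fintype ι] {G : C}
    {H : ι → C} (p : ∀ a, G ⟶ H a) (i : ∀ a, H a ⟶ G) (hG : ∑ a, p a ≫ i a = 𝟙 G)
    {L : CochainComplex C ℤ} (h : ∀ a, HomExact (H a) L) : HomExact G L := by
  intro p' q r hpq hqr f hf
  have h1 : ∀ a, ∃ g : H a ⟶ L.X p', g ≫ L.d p' q = i a ≫ f := fun a =>
    h a p' q r hpq hqr (i a ≫ f) (by rw [Category.assoc, hf, comp_zero])
  choose g hg using h1
  refine ⟨∑ a, p a ≫ g a, ?_⟩
  rw [Preadditive.sum_comp]
  have h2 : ∀ a, (p a ≫ g a) ≫ L.d p' q = (p a ≫ i a) ≫ f := by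
    intro a
    rw [Category.assoc, hg, Category.assoc]
  rw [Finset.sum_congr rfl fun a _ => h2 a, ← Preadditive.sum_comp, hG, Category.id_comp]

variable {X : Scheme.{0}} {F : Frame X (Fin 3)} {α : F.Div} (A : Frame.Ample F α)
  {K : CochainComplex X.Modules ℤ} {δ : F.Div} (r : IRes K)

lemma cls_cone (hK : ∀ p, Cls δ (K.X p)) (p : ℤ) : Cls δ ((mappingCone r.κ).X p) := by
  refine cls_of_split δ (ι := Bool) (fun b => match b with | true => K.X (p + 1) | false => r.I.X p)
    (fun b => match b with
      | true => (mappingCone.fst r.κ).1.v p (p + 1) rfl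
      | false => (mappingCone.snd r.κ).v p p (add_zero p))
    (fun b => match b with
      | true => (mappingCone.inl r.κ).v (p + 1) p (by lia)
      | false => (mappingCone.inr r.κ).f p) ?_ ?_
  · rw [Fintype.sum_bool]
    exact mappingCone.id_X r.κ p (p + 1) rfl
  · rintro (_ | _)
    · have := r.inj p
      exact cls_of_flasque δ (flasque_of_injective (r.I.X p))
    · exact hK _

include A in
lemma homExact_lb (hK : ∀ p, Cls δ (K.X p)) (hz : ∀ p, p < 0 → IsZero (K.X p)) :
    HomExact (Frame.lb δ) (mappingCone r.κ) := by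
  intro p q s hpq hqs f hf
  have hac : (mappingCone r.κ).Acyclic := (quasiIso_iff_acyclic_mappingCone r.κ).1 r.qi
  refine hom_exact A (mappingCone r.κ) (cls_cone r hK) hac (-1) ?_ p q s hpq hqs f hf
  intro n hn
  have hI : IsZero (r.I.X n) := by
    have := r.ge
    exact r.I.isZero_of_isStrictlyGE 0 n (by omega)
  exact (mappingCone.isZero_X_iff r.κ n).2 ⟨hz _ (by omega), hI⟩

end General

end

end Pool.Agent.N212
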