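import Pool.Agent.N212.R1

set_option autoImplicit false
set_option linter.unusedVariables false

/-!
The action of the DG algebra on the resolution.
-/

open CategoryTheory Limits TopologicalSpace AlgebraicGeometry Opposite TopCat
open CochainComplex CochainComplex.HomComplex

namespace Pool.Agent.N212

noncomputable section

attribute [local instance] MvPolynomial.gradedAlgebra

variable (k : Type) [Field k]

/-- The graded maps attached to homogeneous matrices. -/
def LL {n : ℤ} (b : (RR k).A n) (p q : ℤ) (h : p + n = q) : GH (GK3 k p) (GK3 k q) 0 :=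
  macG (r := (show RA k n from b).1) (show RA k n from b).2 p q h

lemma LL_apply {n : ℤ} (b : (RR k).A n) (p q : ℤ) (h : p + n = q) (m : (GK3 k p).M) :
    (LL k b p q h).f m = mac (show RA k n from b).1 m := rfl

lemma LL_add {n : ℤ} (a b : (RR k).A n) (p q : ℤ) (h : p + n = q) (m : (GK3 k p).M) :
    (LL k (a + b) p q h).f m = (LL k a p q h).f m + (LL k b p q h).f m := by
  funext i
  change ∑ j, ((show RA k n from a).1 i j + (show RA k n from b).1 i j) *
    (show Fin 3 → E k from m) j = ∑ j, (show RA k n from a).1 i j * (show Fin 3 → E k from m) j +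
      ∑ j, (show RA k n from b).1 i j * (show Fin 3 → E k from m) j
  rw [← Finset.sum_add_distrib]
  exact Finset.sum_congr rfl fun j _ => add_mul _ _ _

lemma cu_algebraMap_smul (c : k) (e : E k) : (algebraMap k (cu k) c) • e = c • e := by
  apply E_ext
  · change (MvPolynomial.C c : P k) * e.fst = c • e.fst
    rw [MvPolynomial.smul_eq_C_mul]
  · change (MvPolynomial.C c : P k) • e.snd.1 = c • e.snd.1
    rw [← MvPolynomial.algebraMap_eq, algebraMap_smul]
  · change (MvPolynomial.C c : P k) • e.snd.2 = c • e.snd.2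
    rw [← MvPolynomial.algebraMap_eq, algebraMap_smul]

lemma LL_smul {n : ℤ} (c : k) (a : (RR k).A n) (p q : ℤ) (h : p + n = q) (m : (GK3 k p).M) :
    (LL k (c • a) p q h).f m = algebraMap k (cu k) c • (LL k a p q h).f m := by
  funext i
  change ∑ j, (c • (show RA k n from a).1 i j) * (show Fin 3 → E k from m) j =
    algebraMap k (cu k) c • ∑ j, (show RA k n from a).1 i j * (show Fin 3 → E k from m) j
  rw [cu_algebraMap_smul, Finset.smul_sum]
  exact Finset.sum_congr rfl fun j _ => kE_smul_mul k _ _ _

lemma LL_one (p : ℤ) (m : (GK3 k p).M) : (LL k (RR k).one p p (add_zero p)).f m = m :=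
  mac_one m

lemma LL_mul {p q r : ℤ} (h : p + q = r) (a : (RR k).A p) (b : (RR k).A q) (s t u : ℤ)
      (h₁ : s + q = t) (h₂ : t + p = u) (h₃ : s + r = u) (m : (GK3 k s).M) :
      (LL k ((RR k).mul h a b) s u h₃).f m = (LL k a t u h₂).f ((LL k b s t h₁).f m) :=
  mac_mul _ _ m

lemma LL_der {n n' : ℤ} (hn : n + 1 = n') (a : (RR k).A n) (p q p' q' : ℤ)
      (h₁ : p + n = q) (h₂ : q + 1 = q') (h₃ : p + 1 = p') (h₄ : p' + n = q') (h₅ : p + n' = q')
      (m : (GK3 k p).M) :
      (KD k q q' h₂).f ((LL k a p q h₁).f m) = (LL k ((RR k).d n n' hn a) p q' h₅).f m +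
        n.negOnePow • (LL k a p' q' h₄).f ((KD k p p' h₃).f m) := by
  funext i
  exact mac_D (p := p) (show RA k n from a).2 (show Fin 3 → E k from m) i

end

end Pool.Agent.N212
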