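import Pool.Agent.N212.DG.Defs
import Pool.Agent.N212.T11
import Pool.Agent.N212.T12

set_option autoImplicit false
set_option linter.unusedVariables false

/-!
Actions of DG algebras on complexes of sheaves attached to complexes of graded modules.
-/

open CategoryTheory Limits TopologicalSpace AlgebraicGeometry Opposite TopCat
open CochainComplex CochainComplex.HomComplex

namespace Pool.Agent.N212

noncomputable section

set_option backward.isDefEq.respectTransparency false

open Pool.Agent.W506 Pool.Agent.R924 Pool.Agent.W456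

variable {k : Type} [Field k] {A : Type} [CommRing A] [Algebra k A]
  {𝒜 : ℕ → Submodule k A} [GradedAlgebra 𝒜]
  (N : ℤ → GM 𝒜) (d : ∀ p q : ℤ, p + 1 = q → GH (N p) (N q) 0)
    (hd : ∀ (p q r : ℤ) (h : p + 1 = q) (h' : q + 1 = r) (m : (N p).M),
      (d q r h').f ((d p q h).f m) = 0) (j : ℤ)
  (R : DG.DGAlg.{0, 0} k)
  (L : ∀ {n : ℤ} (_ : R.A n) (p q : ℤ), p + n = q → GH (N p) (N q) 0)

/-- The cochain attached to a family of maps. -/
def actC (n : ℤ) (b : R.A n) : Cochain (tilC N d hd j) (tilC N d hd j) n :=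
  Cochain.mk fun p q h => tmap (L b p q h) (show j = j + 0 by rw [add_zero])

variable {N d hd j R L}

lemma actC_v (n : ℤ) (b : R.A n) (p q : ℤ) (h : p + n = q) :
    (actC N d hd j R L n b).v p q h = tmap (L b p q h) (show j = j + 0 by rw [add_zero]) := rfl

lemma actC_add (hadd : ∀ {n : ℤ} (a b : R.A n) (p q : ℤ) (h : p + n = q) (m : (N p).M),
      (L (a + b) p q h).f m = (L a p q h).f m + (L b p q h).f m) (n : ℤ) (a b : R.A n) :
    actC N d hd j R L n (a + b) = actC N d hd j R L n a + actC N d hd j R L n b := by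
  apply Cochain.ext
  intro p q h
  rw [Cochain.add_v, actC_v, actC_v, actC_v]
  exact (tmap_add' _ _ _ _ _ _ fun _ m _ => hadd a b p q h m).symm

lemma actC_smul [Linear k (Proj 𝒜).Modules] (hl : IsLin (pr0 𝒜))
    (hsmul : ∀ {n : ℤ} (c : k) (a : R.A n) (p q : ℤ) (h : p + n = q) (m : (N p).M),
      (L (c • a) p q h).f m = algebraMap k A c • (L a p q h).f m) (n : ℤ) (c : k) (a : R.A n) :
    actC N d hd j R L n (c • a) = c • actC N d hd j R L n a := by
  apply Cochain.ext
  intro p q h
  rw [Cochain.smul_v, actC_v, actC_v]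
  exact (lin_tmap hl c _ _ (fun m => hsmul c a p q h m) _).symm

lemma actC_one (hone : ∀ (p : ℤ) (m : (N p).M), (L R.one p p (add_zero p)).f m = m) :
    actC N d hd j R L 0 R.one = Cochain.ofHom (𝟙 (tilC N d hd j)) := by
  apply Cochain.ext₀
  intro p
  rw [Cochain.ofHom_v, actC_v]
  exact tmap_id' _ _ fun _ m _ => hone p m

lemma actC_mul (hmul : ∀ {p q r : ℤ} (h : p + q = r) (a : R.A p) (b : R.A q) (s t u : ℤ)
      (h₁ : s + q = t) (h₂ : t + p = u) (h₃ : s + r = u) (m : (N s).M),
      (L (R.mul h a b) s u h₃).f m = (L a t u h₂).f ((L b s t h₁).f m))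
    {p q r : ℤ} (h : p + q = r) (a : R.A p) (b : R.A q) :
    actC N d hd j R L r (R.mul h a b) =
      (actC N d hd j R L q b).comp (actC N d hd j R L p a) (by omega) := by
  apply Cochain.ext
  intro s u h₃
  rw [Cochain.comp_v _ _ _ s (s + q) u rfl (by omega), actC_v, actC_v, actC_v]
  exact (tmap_comp' _ _ _ _ _ _ fun _ m _ => hmul h a b s (s + q) u rfl (by omega) h₃ m).symm

lemma sgn_aux {C : Type*} [Category C] [Preadditive C] {X Y : C} (a b c : X ⟶ Y) (n n' : ℤ)
    (hn : n + 1 = n') (h1 : n.negOnePow = 1 → b + c = a) (h2 : n.negOnePow = -1 → a + c = b) :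
    b = a + n'.negOnePow • c := by
  rw [show n'.negOnePow = -n.negOnePow by rw [← hn, Int.negOnePow_succ]]
  rcases Int.units_eq_one_or n.negOnePow with h | h
  · rw [h, Units.neg_smul, one_smul, ← sub_eq_add_neg, eq_sub_iff_add_eq]
    exact h1 h
  · rw [h, neg_neg, one_smul]
    exact (h2 h).symm

variable (d) in
/-- The composition with the differential. -/
def lo {n : ℤ} (a : R.A n) (p q q' : ℤ) (h₁ : p + n = q) (h₂ : q + 1 = q')
    (L : ∀ {n : ℤ} (_ : R.A n) (p q : ℤ), p + n = q → GH (N p) (N q) 0) :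
    GH (N p) (N q') 0 where
  f := (d q q' h₂).f ∘ₗ (L a p q h₁).f
  map_deg := by
    intro i m hm
    have := (d q q' h₂).map_deg ((L a p q h₁).map_deg hm)
    rwa [add_zero] at this

variable (d) in
/-- The composition with the differential. -/
def lp {n : ℤ} (a : R.A n) (p p' q' : ℤ) (h₁ : p + 1 = p') (h₂ : p' + n = q')
    (L : ∀ {n : ℤ} (_ : R.A n) (p q : ℤ), p + n = q → GH (N p) (N q) 0) :
    GH (N p) (N q') 0 where
  f := (L a p' q' h₂).f ∘ₗ (d p p' h₁).f
  map_deg := by
    intro i m hm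
    have := (L a p' q' h₂).map_deg ((d p p' h₁).map_deg hm)
    rwa [add_zero] at this

lemma actC_v_d {n : ℤ} (a : R.A n) (p q q' : ℤ) (h₁ : p + n = q) (h₂ : q + 1 = q') :
    (actC N d hd j R L n a).v p q h₁ ≫ (tilC N d hd j).d q q' =
      tmap (lo d a p q q' h₁ h₂ L) (show j = j + 0 by rw [add_zero]) := by
  rw [tilC_d N d hd j _ _ h₂, actC_v]
  exact tmap_comp' _ _ _ (add_zero j).symm (add_zero j).symm (add_zero j).symm fun _ _ _ => rfl

lemma d_actC_v {n : ℤ} (a : R.A n) (p p' q' : ℤ) (h₁ : p + 1 = p') (h₂ : p' + n = q') :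
    (tilC N d hd j).d p p' ≫ (actC N d hd j R L n a).v p' q' h₂ =
      tmap (lp d a p p' q' h₁ h₂ L) (show j = j + 0 by rw [add_zero]) := by
  rw [tilC_d N d hd j _ _ h₁, actC_v]
  exact tmap_comp' _ _ _ (add_zero j).symm (add_zero j).symm (add_zero j).symm fun _ _ _ => rfl

lemma actC_d (hder : ∀ {n n' : ℤ} (hn : n + 1 = n') (a : R.A n) (p q p' q' : ℤ)
      (h₁ : p + n = q) (h₂ : q + 1 = q') (h₃ : p + 1 = p') (h₄ : p' + n = q') (h₅ : p + n' = q')
      (m : (N p).M),
      (d q q' h₂).f ((L a p q h₁).f m) = (L (R.d n n' hn a) p q' h₅).f m +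
        n.negOnePow • (L a p' q' h₄).f ((d p p' h₃).f m))
    {n n' : ℤ} (hn : n + 1 = n') (a : R.A n) :
    actC N d hd j R L n' (R.d n n' hn a) = δ n n' (actC N d hd j R L n a) := by
  apply Cochain.ext
  intro p q' h₅
  have h₂ : p + n + 1 = q' := by omega
  have h₄ : p + 1 + n = q' := by omega
  refine Eq.trans ?_ (δ_v n n' hn _ p q' h₅ (p + n) (p + 1) (by omega) rfl).symm
  rw [actC_v_d a p (p + n) q' rfl h₂, d_actC_v a p (p + 1) q' rfl h₄]
  have key := fun m => hder hn a p (p + n) (p + 1) q' rfl h₂ rfl h₄ h₅ m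
  apply sgn_aux _ _ _ n n' hn
  · intro h
    refine tmap_add' _ _ _ (add_zero j).symm (add_zero j).symm (add_zero j).symm
      fun i m hm => ?_
    have := key m
    rw [h, one_smul] at this
    exact this
  · intro h
    refine tmap_add' _ _ _ (add_zero j).symm (add_zero j).symm (add_zero j).symm
      fun i m hm => ?_
    have := key m
    rw [h, Units.neg_smul, one_smul, ← sub_eq_add_neg, eq_sub_iff_add_eq] at this
    exact this.symm

/-- The action of a DG algebra on a complex of sheaves. -/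
def actT [Linear k (Proj 𝒜).Modules] (hl : IsLin (pr0 𝒜))
    (hadd : ∀ {n : ℤ} (a b : R.A n) (p q : ℤ) (h : p + n = q) (m : (N p).M),
      (L (a + b) p q h).f m = (L a p q h).f m + (L b p q h).f m)
    (hsmul : ∀ {n : ℤ} (c : k) (a : R.A n) (p q : ℤ) (h : p + n = q) (m : (N p).M),
      (L (c • a) p q h).f m = algebraMap k A c • (L a p q h).f m)
    (hone : ∀ (p : ℤ) (m : (N p).M), (L R.one p p (add_zero p)).f m = m)
    (hmul : ∀ {p q r : ℤ} (h : p + q = r) (a : R.A p) (b : R.A q) (s t u : ℤ)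
      (h₁ : s + q = t) (h₂ : t + p = u) (h₃ : s + r = u) (m : (N s).M),
      (L (R.mul h a b) s u h₃).f m = (L a t u h₂).f ((L b s t h₁).f m))
    (hder : ∀ {n n' : ℤ} (hn : n + 1 = n') (a : R.A n) (p q p' q' : ℤ)
      (h₁ : p + n = q) (h₂ : q + 1 = q') (h₃ : p + 1 = p') (h₄ : p' + n = q') (h₅ : p + n' = q')
      (m : (N p).M),
      (d q q' h₂).f ((L a p q h₁).f m) = (L (R.d n n' hn a) p q' h₅).f m +
        n.negOnePow • (L a p' q' h₄).f ((d p p' h₃).f m)) :
    DG.Action R (tilC N d hd j) where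
  act := fun n =>
      { toFun := actC N d hd j R L n
        map_add' := actC_add hadd n
        map_smul' := actC_smul hl hsmul n }
  act_one := actC_one hone
  act_mul := actC_mul hmul
  act_d := actC_d hder

end

end Pool.Agent.N212
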