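import Pool.Agent.N212.C5
import Pool.Agent.N212.E4
import Pool.Agent.N212.R3
import Pool.Agent.N212.R4
import Pool.Agent.N212.T13

set_option autoImplicit false
set_option linter.unusedVariables false

/-!
The DG algebra computes the derived endomorphisms of the generator.
-/

open CategoryTheory Limits TopologicalSpace AlgebraicGeometry Opposite TopCat
open CochainComplex CochainComplex.HomComplex

namespace Pool.Agent.N212

noncomputable section

set_option backward.isDefEq.respectTransparency false

open Pool.Agent.W506 Pool.Agent.R924 Pool.Agent.W456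

attribute [local instance] MvPolynomial.gradedAlgebra

variable (k : Type) [Field k]

/-- The action. -/
def rhoA [Linear k (Zs k).Modules] (hl : IsLin (pr0 (cg k))) : DG.Action (RR k) (KK k) :=
  actT (L := LL k) hl (LL_add k) (LL_smul k) (LL_one k) (LL_mul k) (LL_der k)

lemma ev_rhoA [Linear k (Zs k).Modules] (hl : IsLin (pr0 (cg k))) (q : ℤ) (a : (RR k).A q) :
    eps k ≫ ((rhoA k hl).act q a).v 0 q (zero_add q) =
      tmap (maaG (show RA k q from a).2) (show (0 : ℤ) = 0 + 0 by rw [add_zero]) :=
  tmap_comp' _ _ _ (add_zero 0).symm (add_zero 0).symm (add_zero 0).symm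
    fun _ m _ => (mac_aug _ m).symm

lemma KK_ge : (KK k).IsStrictlyGE 0 := by
  rw [isStrictlyGE_iff]
  intro i hi
  exact KK_isZero k i (by omega) (by omega) (by omega)

variable [CharZero k]

theorem rhoA_inj [Linear k (Zs k).Modules] (hl : IsLin (pr0 (cg k))) (q : ℤ) (a : (RR k).A q)
    (h : eps k ≫ ((rhoA k hl).act q a).v 0 q (zero_add q) = 0) : a = 0 := by
  rw [ev_rhoA] at h
  exact Subtype.ext (maa_inj _ h)

theorem rhoA_surj [Linear k (Zs k).Modules] (hl : IsLin (pr0 (cg k))) (q : ℤ)
    (v : til (GA3 k) 0 ⟶ (KK k).X q) :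
    ∃ a : (RR k).A q, eps k ≫ ((rhoA k hl).act q a).v 0 q (zero_add q) = v := by
  obtain ⟨r, hr, hr'⟩ := exists_maa q v
  exact ⟨(⟨r, hr⟩ : RA k q), (ev_rhoA k hl q _).trans hr'.symm⟩

theorem homExact_GA (i : ℤ) (hi : i ≤ 2) (r : IRes (KK k)) :
    HomExact (til (GA k) i) (mappingCone r.κ) := by
  refine HomExact.of_iso (asIso (theta k i)) ?_
  exact homExact_lb (ampleFF k) r (fun p => cls_GK3 p i hi hi)
    (fun p hp => KK_isZero k p (by omega) (by omega) (by omega))

theorem homExact_G (r : IRes (KK k)) : HomExact (til (GA3 k) 0) (mappingCone r.κ) :=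
  HomExact.sum (pA k) (jA k) sumA fun a => homExact_GA k _ (by omega) r

end

end Pool.Agent.N212
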