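import Pool.Agent.N212.E8
import Pool.Agent.N212.Q3
import Pool.Agent.N212.R5
import Pool.Agent.N99.Cusp.Morita

set_option autoImplicit false
set_option linter.unusedVariables false

/-!
The DG category generated by the resolution.
-/

open CategoryTheory Limits TopologicalSpace AlgebraicGeometry Opposite TopCat
open CochainComplex CochainComplex.HomComplex

namespace Pool.Agent.N212

noncomputable section

set_option backward.isDefEq.respectTransparency false

open Pool.Agent.W506 Pool.Agent.R924 Pool.Agent.W456

attribute [local instance] MvPolynomial.gradedAlgebra HasDerivedCategory.standard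

variable (k : Type) [Field k] [CharZero k]

theorem quasiEquivalent_RR [Linear k (Zs k).Modules] (hl : IsLin (pr0 (cg k)))
    (r : IRes (KK k)) :
    DG.QuasiEquivalent (DG.InjDG k (Zs k).Modules
      (ObjectProperty.ofObj fun _ : Unit => DerivedCategory.Q.obj r.I).triangEnvelope)
      (DG.PerfDG (RR k)) := by
  have h1 := r.isKInjective
  have h2 := r.qi
  exact Pool.Agent.N99.stmMorita k (Zs k).Modules (RR k) (KK k) r.I (rhoA k hl) r.κ
    (fun p q s h₁ h₂ z hz => morita_surj (rhoA k hl) r.κ (eps_d k) (quasiIso_epsA k) (homExact_G k r)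
      (rhoA_inj k hl) (rhoA_surj k hl) p q s h₁ h₂ z hz)
    (fun p q s h₁ h₂ a ha b hb => morita_inj (rhoA k hl) r.κ (homExact_G k r)
      (rhoA_inj k hl) (rhoA_surj k hl) p q s h₁ h₂ a ha b hb (eps_d k))

end

end Pool.Agent.N212
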