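import Pool.Agent.N212.A2

set_option autoImplicit false
set_option linter.unusedVariables false

/-!
The prime ideal of the cuspidal curve.
-/

open MvPolynomial

namespace Pool.Agent.N212

noncomputable section

attribute [local instance] MvPolynomial.gradedAlgebra

variable {k : Type} [Field k]

/-! ### Values at points -/

/-- The value at a point. -/
def evp (a b c : k) : P k →+* k := eval (![a, b, c] : Fin 3 → k)

lemma evp_X0 (a b c : k) : evp a b c (X 0) = a := by
  simp [evp]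

lemma evp_X1 (a b c : k) : evp a b c (X 1) = b := by
  simp [evp]

lemma evp_X2 (a b c : k) : evp a b c (X 2) = c := by
  simp [evp]

lemma evp_C (a b c d : k) : evp a b c (C d) = d := eval_C d

lemma not_dvd_of {a b c : k} (ha : a ^ 3 + b ^ 3 + c ^ 3 = 0) {f : P k}
    (hf : evp a b c f ≠ 0) : ¬ hh k ∣ f := by
  rintro ⟨g, rfl⟩
  apply hf
  rw [map_mul, hh, map_add, map_add, map_pow, map_pow, map_pow, evp_X0, evp_X1, evp_X2, ha,
    zero_mul]

lemma not_dvd_X1 : ¬ hh k ∣ X 1 :=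
  not_dvd_of (a := -1) (b := 1) (c := 0) (by norm_num) (by rw [evp_X1]; norm_num)

lemma not_dvd_X0 : ¬ hh k ∣ X 0 :=
  not_dvd_of (a := -1) (b := 1) (c := 0) (by norm_num) (by rw [evp_X0]; norm_num)

lemma evp_ww (a b c : k) : evp a b c (ww k) = b ^ 3 + c ^ 3 := by
  rw [ww, map_add, map_pow, map_pow, evp_X1, evp_X2]

lemma evp_g4 (a b c : k) : evp a b c (g4 k : P k) = a ^ 4 + 4 * (b ^ 3 + c ^ 3) * a := by
  change evp a b c (X 0 ^ 4 + 4 * ww k * X 0) = _
  rw [map_add, map_mul, map_mul, map_pow, evp_X0, evp_ww, map_ofNat]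

variable [CharZero k]

lemma not_dvd_g4 : ¬ hh k ∣ (g4 k : P k) :=
  not_dvd_of (a := -1) (b := 1) (c := 0) (by norm_num) (by
    rw [evp_g4]
    norm_num)

lemma not_dvd_curve (c : k) : ¬ hh k ∣ 3 * X 1 * ww k - C c * (g4 k : P k) := by
  by_cases hc : c = 0
  · refine not_dvd_of (a := -1) (b := 1) (c := 0) (by norm_num) ?_
    rw [map_sub, map_mul, map_mul, map_mul, evp_X1, evp_ww, evp_C, map_ofNat, hc]
    norm_num
  · refine not_dvd_of (a := -1) (b := 0) (c := 1) (by norm_num) ?_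
    rw [map_sub, map_mul, map_mul, map_mul, evp_X1, evp_ww, evp_C, map_ofNat, evp_g4]
    norm_num
    exact hc

omit [CharZero k] in
lemma dvd_fermat : hh k ∣ (3 * X 1 * ww k) ^ 3 + (3 * X 2 * ww k) ^ 3 + (g4 k : P k) ^ 3 := by
  change hh k ∣ (3 * X 1 * ww k) ^ 3 + (3 * X 2 * ww k) ^ 3 + (X 0 ^ 4 + 4 * ww k * X 0) ^ 3
  refine ⟨27 * ww k ^ 3 + X 0 ^ 3 * (X 0 ^ 6 + 11 * X 0 ^ 3 * ww k + 37 * ww k ^ 2), ?_⟩
  rw [hh_eq, ww]
  ring

/-! ### The prime ideal -/

variable (k) in
/-- The prime ideal of the curve. -/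
def qI : Ideal (cu k) := (Ideal.span {hh k}).comap (cu k).val

omit [CharZero k] in
lemma mem_qI {a : cu k} : a ∈ qI k ↔ hh k ∣ (a : P k) := Ideal.mem_span_singleton

lemma prime_qI : (qI k).IsPrime := by
  have : (Ideal.span {hh k}).IsPrime :=
    (Ideal.span_singleton_prime hh_prime.ne_zero).2 hh_prime
  exact Ideal.comap_isPrime _ _

omit [CharZero k] in
lemma hom_qI : (qI k).IsHomogeneous (cg k) := by
  intro i a ha
  rw [mem_qI, decompose_apply]
  exact dvd_comp hh_mem (mem_qI.1 ha) i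

omit [CharZero k] in
/-- The equation of the normalisation. -/
lemma mem_of_ratio {a b : cu k} (h : X 0 * (b : P k) = X 1 * (a : P k)) : b ∈ qI k := by
  rw [mem_qI]
  have h1 := congrArg (dd k) h
  rw [Derivation.leibniz, Derivation.leibniz, pderiv_X_self, pderiv_X_of_ne (by decide),
    smul_eq_mul, smul_eq_mul, smul_eq_mul, smul_eq_mul, mul_one, mul_zero, add_zero] at h1
  have h2 : (b : P k) = X 1 * dd k (a : P k) - X 0 * dd k (b : P k) := by
    rw [← h1]
    ring
  rw [h2]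
  exact dvd_sub (a.2.mul_left _) (b.2.mul_left _)

omit [CharZero k] in
lemma aux_mem (f : P k) :
    f * (3 * X 0 ^ 3 * f - hh k * (3 * f + 2 * X 0 * dd k f)) ∈ cu k := by
  rw [mem_cu]
  refine ⟨-(dd k (f * (3 * f + 2 * X 0 * dd k f))), ?_⟩
  have e : f * (3 * X 0 ^ 3 * f - hh k * (3 * f + 2 * X 0 * dd k f)) =
      3 * (X 0 ^ 3 * (f * f)) - hh k * (f * (3 * f + 2 * X 0 * dd k f)) := by ring
  have h3 : dd k (3 : P k) = 0 := by
    have := pderiv_C (R := k) (i := (0 : Fin 3)) (a := (3 : k))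
    rwa [map_ofNat] at this
  rw [e, map_sub, Derivation.leibniz (dd k) (hh k), Derivation.leibniz (dd k) (3 : P k), h3, dd_hh,
    Derivation.leibniz (dd k) (X 0 ^ 3), Derivation.leibniz (dd k) f f, Derivation.leibniz_pow,
    pderiv_X_self]
  simp only [smul_eq_mul, nsmul_eq_mul]
  push_cast
  ring

/-- The primes contained in the prime of the curve. -/
theorem prime_le (p : Ideal (cu k)) [hp : p.IsPrime] (h : p ≤ qI k) : p = ⊥ ∨ p = qI k := by
  by_cases h0 : p = ⊥
  · exact Or.inl h0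
  right
  have hint : Algebra.IsIntegral (cu k) (P k) := inferInstance
  obtain ⟨Q, -, hQ, hQp⟩ := Ideal.exists_ideal_over_prime_of_isIntegral p (⊥ : Ideal (P k)) (by
      intro a ha
      have ha' : (a : P k) = 0 := ha
      have : a = 0 := Subtype.ext ha'
      rw [this]
      exact zero_mem _)
  have key : ∀ a : cu k, a ∈ p ↔ (a : P k) ∈ Q := by
    intro a
    rw [← hQp]
    rfl
  have h3 : IsUnit (3 : P k) := by
    have : (3 : P k) = C (3 : k) := by rw [map_ofNat]
    rw [this]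
    exact (isUnit_iff_ne_zero.2 (by norm_num : (3 : k) ≠ 0)).map C
  have hdiv : ∀ f ∈ Q, hh k ∣ f := by
    intro f hf
    have h1 : (⟨_, aux_mem f⟩ : cu k) ∈ p := (key _).2 (Q.mul_mem_right _ hf)
    have h2 : hh k ∣ f * (3 * X 0 ^ 3 * f - hh k * (3 * f + 2 * X 0 * dd k f)) :=
      mem_qI.1 (h h1)
    rcases hh_prime.dvd_or_dvd h2 with h | h
    · exact h
    · have h4 : hh k ∣ 3 * X 0 ^ 3 * f := by
        have := dvd_add h (dvd_mul_right (hh k) (3 * f + 2 * X 0 * dd k f))
        rwa [sub_add_cancel] at this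
      rcases hh_prime.dvd_or_dvd h4 with h | h
      · rcases hh_prime.dvd_or_dvd h with h | h
        · exact absurd (isUnit_of_dvd_unit h h3) hh_prime.not_isUnit
        · exact absurd (hh_prime.dvd_of_dvd_pow h) not_dvd_X0
      · exact h
  obtain ⟨a, ha, ha0⟩ := Submodule.exists_mem_ne_zero_of_ne_bot h0
  have ha' : (a : P k) ≠ 0 := fun e => ha0 (Subtype.ext e)
  obtain ⟨c, hc, hac⟩ :=
    (FiniteMultiplicity.of_prime_left hh_prime ha').exists_eq_pow_mul_and_not_dvd
  have hhQ : hh k ∈ Q := by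
    have h5 : hh k ^ (multiplicity (hh k) (a : P k)) * c ∈ Q := by
      rw [← hc]
      exact (key a).1 ha
    rcases hQ.mem_or_mem h5 with h | h
    · exact hQ.mem_of_pow_mem _ h
    · exact absurd (hdiv _ h) hac
  apply le_antisymm h
  intro b hb
  rw [key]
  exact Q.mem_of_dvd (mem_qI.1 hb) hhQ

end

end Pool.Agent.N212
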