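import Pool.Agent.N212.S2
import Pool.Agent.N212.T8

set_option autoImplicit false
set_option linter.unusedVariables false

/-!
The scheme has no stratification by open subschemes of affine spaces.
-/

open CategoryTheory Limits TopologicalSpace AlgebraicGeometry Opposite TopCat IsLocalRing

namespace Pool.Agent.N212

noncomputable section

set_option backward.isDefEq.respectTransparency false

open Pool.Agent.W506 Pool.Agent.R924

attribute [local instance] MvPolynomial.gradedAlgebra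

section Abstract

variable {L : Type} [CommRing L]

lemma quot_aux {F : Type} [Field F] (a b w c : F) (hb : b ≠ 0)
    (h : a ^ 4 + 4 * w * a * b ^ 3 - c * b ^ 4 = 0) :
    (a / b) ^ 4 + (4 * w * (a / b) + -c) = 0 := by
  have h2 : b ^ 4 ≠ 0 := pow_ne_zero _ hb
  apply mul_left_cancel₀ h2
  rw [mul_zero, ← h]
  field_simp
  ring

/-- Quotients satisfying the quartic equation exist in integrally closed domains. -/
lemma exists_quot [IsDomain L] [IsIntegrallyClosed L] (α β ω γ : L) (hβ : β ≠ 0)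
    (hrel : α ^ 4 + 4 * ω * α * β ^ 3 - γ * β ^ 4 = 0) : ∃ δ, α = β * δ := by
  have hβ' : algebraMap L (FractionRing L) β ≠ 0 := fun h =>
    hβ (IsFractionRing.injective L (FractionRing L) (h.trans (map_zero _).symm))
  have ht : IsIntegral L (algebraMap L (FractionRing L) α / algebraMap L (FractionRing L) β) := by
    refine ⟨Polynomial.X ^ 4 + (Polynomial.C (4 * ω) * Polynomial.X + Polynomial.C (-γ)), ?_, ?_⟩
    · apply Polynomial.monic_X_pow_add
      refine lt_of_le_of_lt Polynomial.degree_linear_le ?_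
      norm_num
    · have h1 := congrArg (algebraMap L (FractionRing L)) hrel
      rw [map_zero, map_sub, map_add, map_mul, map_mul, map_mul, map_mul, map_pow, map_pow,
        map_pow, map_ofNat] at h1
      rw [Polynomial.eval₂_add, Polynomial.eval₂_add, Polynomial.eval₂_mul, Polynomial.eval₂_pow,
        Polynomial.eval₂_X, Polynomial.eval₂_C, Polynomial.eval₂_C, map_neg, map_mul, map_ofNat]
      exact quot_aux _ _ _ _ hβ' h1
  obtain ⟨δ, hδ⟩ := IsIntegrallyClosed.isIntegral_iff.1 ht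
  refine ⟨δ, ?_⟩
  apply IsFractionRing.injective L (FractionRing L)
  rw [map_mul, hδ, mul_div_cancel₀ _ hβ']

lemma rel_of {M : Type} [Field M] (κ : L →+* M) (hκ : Function.Injective κ) (α β ω γ : L)
    (H Y X W : M) (hX : X ≠ 0) (eα : κ α = H ^ 2 * Y / X ^ 7) (eβ : κ β = H ^ 2 * X / X ^ 7)
    (eω : κ ω = W / X ^ 3) (eγ : κ γ = (Y ^ 4 + 4 * W * Y) / X ^ 4) :
    α ^ 4 + 4 * ω * α * β ^ 3 - γ * β ^ 4 = 0 := by
  apply hκ
  rw [map_zero, map_sub, map_add, map_mul, map_mul, map_mul, map_mul, map_pow, map_pow, map_pow,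
    eα, eβ, eω, eγ, map_ofNat]
  field_simp
  ring

end Abstract

variable (k : Type) [Field k]

instance nonempty_Zs : Nonempty (Zs k) := ⟨eta k⟩

instance integral_Zs : IsIntegral (Zs k) where
  component_integral U hU := by
    obtain ⟨x, hx⟩ := hU
    have he : eta k ∈ U := eta_mem (x := x) hx
    have h1 : Function.Injective (gFh U he) := fun a b hab => gF_ext (x := eta k) (hx := he) hab
    exact h1.isDomain _

lemma eta_specializes (x : ProjectiveSpectrum.top (cg k)) : (show Zs k from eta k) ⤳ x := by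
  rw [specializes_iff_mem_closure]
  refine (ProjectiveSpectrum.le_iff_mem_closure (𝒜 := cg k) (eta k) x).1 ?_
  rw [← ProjectiveSpectrum.as_ideal_le_as_ideal]
  exact bot_le

lemma generic_Zs : genericPoint (Zs k) = eta k := by
  have h1 : genericPoint (Zs k) ⤳ (show Zs k from eta k) :=
    genericPoint_specializes (α := Zs k) _
  exact (h1.antisymm (eta_specializes k (genericPoint (Zs k)))).eq

variable [CharZero k]

set_option linter.unusedSectionVars false

/-- The generic point of the curve. -/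
def xi : ProjectiveSpectrum.top (cg k) where
  asHomogeneousIdeal := ⟨qI k, hom_qI⟩
  isPrime := prime_qI
  not_irrelevant_le := by
    intro h
    have h1 : xx k ∈ qI k := h (HomogeneousIdeal.mem_irrelevant_of_mem (cg k) one_pos xx_mem)
    exact not_dvd_X1 (mem_qI.1 h1)

lemma mem_pc_xi {a : cu k} : a ∈ pc (xi k) ↔ ¬ hh k ∣ (a : P k) := Iff.not mem_qI

theorem spec_xi (z : Zs k) (h : z ⤳ (show Zs k from xi k)) :
    z = genericPoint (Zs k) ∨ z = xi k := by
  rw [specializes_iff_mem_closure] at h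
  have h1 := (ProjectiveSpectrum.le_iff_mem_closure (𝒜 := cg k) z (xi k)).2 h
  rw [← ProjectiveSpectrum.as_ideal_le_as_ideal] at h1
  have h2 : (show ProjectiveSpectrum.top (cg k) from z).asHomogeneousIdeal.toIdeal ≤ qI k := h1
  have hp := (show ProjectiveSpectrum.top (cg k) from z).isPrime
  rcases prime_le (show ProjectiveSpectrum.top (cg k) from z).asHomogeneousIdeal.toIdeal h2 with
    h | h
  · left
    rw [generic_Zs]
    apply ProjectiveSpectrum.ext
    apply HomogeneousIdeal.toIdeal_injective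
    rw [h]
    exact HomogeneousIdeal.toIdeal_bot.symm
  · right
    apply ProjectiveSpectrum.ext
    apply HomogeneousIdeal.toIdeal_injective
    exact h

/-! ### The local ring at the generic point of the curve -/

/-- The local ring as a homogeneous localization. -/
abbrev Lx : Type := HomogeneousLocalization.AtPrime (cg k) (xi k).asHomogeneousIdeal.toIdeal

variable {k} in
/-- Fractions. -/
def frx (i : ℕ) (a b : cu k) (ha : a ∈ cg k i) (hb : b ∈ cg k i) (hb' : ¬ hh k ∣ (b : P k)) :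
    Lx k := HomogeneousLocalization.mk ⟨i, ⟨a, ha⟩, ⟨b, hb⟩, (mem_pc_xi k).2 hb'⟩

variable {k} in
lemma kF_frx (i : ℕ) (a b : cu k) (ha : a ∈ cg k i) (hb : b ∈ cg k i)
    (hb' : ¬ hh k ∣ (b : P k)) : kF (xi k) (frx i a b ha hb hb') = nu (a : P k) / nu (b : P k) :=
  kF_of_val (xi k) _ a ⟨b, (mem_pc_xi k).2 hb'⟩ rfl

lemma hx_ne : ¬ hh k ∣ ((xx k : cu k) : P k) := not_dvd_X1

lemma hx_pow (n : ℕ) : ¬ hh k ∣ ((xx k ^ n : cu k) : P k) := fun h =>
  hx_ne k (hh_prime.dvd_of_dvd_pow (show hh k ∣ ((xx k : cu k) : P k) ^ n from h))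

lemma xpow_mem (n : ℕ) : xx k ^ n ∈ cg k n := by
  have := SetLike.pow_mem_graded (A := cg k) n xx_mem
  rwa [smul_eq_mul, mul_one] at this

/-- The element `h² y`. -/
def hy : cu k := ⟨hh k ^ 2 * MvPolynomial.X 0, sq_mul_mem _⟩

/-- The element `h² x`. -/
def hx : cu k := ⟨hh k ^ 2 * MvPolynomial.X 1, sq_mul_mem _⟩

lemma hy_mem : hy k ∈ cg k 7 :=
  MvPolynomial.IsHomogeneous.mul (m := 6) (n := 1) (hh_mem.pow 2) (MvPolynomial.isHomogeneous_X _ _)

lemma hx_mem : hx k ∈ cg k 7 :=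
  MvPolynomial.IsHomogeneous.mul (m := 6) (n := 1) (hh_mem.pow 2) (MvPolynomial.isHomogeneous_X _ _)

/-- The element `w`. -/
def wc : cu k := ⟨ww k, ww_mem_cu⟩

lemma wc_mem : wc k ∈ cg k 3 := ww_mem

lemma g4_deg : g4 k ∈ cg k 4 := by
  change (MvPolynomial.X 0 ^ 4 + 4 * ww k * MvPolynomial.X 0 : P k) ∈ PH k 4
  refine add_mem ((MvPolynomial.isHomogeneous_X_pow 0 4)) ?_
  have h4 : (4 : P k) ∈ PH k 0 := by
    have : (4 : P k) = MvPolynomial.C 4 := by rw [map_ofNat]
    rw [this]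
    exact MvPolynomial.isHomogeneous_C _ _
  have h5 := MvPolynomial.IsHomogeneous.mul (MvPolynomial.IsHomogeneous.mul h4 ww_mem)
    (MvPolynomial.isHomogeneous_X k (0 : Fin 3))
  exact h5

theorem not_normal : ¬ IsIntegrallyClosed (Lx k) := by
  intro hc
  have hdom : IsDomain (Lx k) := (kF_injective (xi k)).isDomain _
  let α : Lx k := frx 7 (hy k) (xx k ^ 7) (hy_mem k) (xpow_mem k 7) (hx_pow k 7)
  let β : Lx k := frx 7 (hx k) (xx k ^ 7) (hx_mem k) (xpow_mem k 7) (hx_pow k 7)
  let ω : Lx k := frx 3 (wc k) (xx k ^ 3) (wc_mem k) (xpow_mem k 3) (hx_pow k 3)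
  let γ : Lx k := frx 4 (g4 k) (xx k ^ 4) (g4_deg k) (xpow_mem k 4) (hx_pow k 4)
  have nx : nu (MvPolynomial.X 1 : P k) ≠ 0 := nu_ne_zero (MvPolynomial.X_ne_zero _)
  have nh : nu (hh k) ≠ 0 := nu_ne_zero hh_ne_zero
  have exp : ∀ n, nu ((xx k ^ n : cu k) : P k) = nu (MvPolynomial.X 1) ^ n := fun n =>
    map_pow nu _ _
  have eα : kF (xi k) α = nu (hh k) ^ 2 * nu (MvPolynomial.X 0) / nu (MvPolynomial.X 1) ^ 7 := by
    rw [kF_frx, exp]
    change nu (hh k ^ 2 * MvPolynomial.X 0) / _ = _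
    rw [map_mul, map_pow]
  have eβ : kF (xi k) β = nu (hh k) ^ 2 * nu (MvPolynomial.X 1) / nu (MvPolynomial.X 1) ^ 7 := by
    rw [kF_frx, exp]
    change nu (hh k ^ 2 * MvPolynomial.X 1) / _ = _
    rw [map_mul, map_pow]
  have eω : kF (xi k) ω = nu (ww k) / nu (MvPolynomial.X 1) ^ 3 := by
    rw [kF_frx, exp]
    rfl
  have eγ : kF (xi k) γ = (nu (MvPolynomial.X 0) ^ 4 + 4 * nu (ww k) * nu (MvPolynomial.X 0)) /
      nu (MvPolynomial.X 1) ^ 4 := by
    rw [kF_frx, exp]
    change nu (MvPolynomial.X 0 ^ 4 + 4 * ww k * MvPolynomial.X 0) / _ = _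
    rw [map_add, map_mul, map_mul, map_pow, map_ofNat]
  have hβ : β ≠ 0 := by
    intro h
    have h1 := congrArg (kF (xi k)) h
    rw [eβ, map_zero] at h1
    exact div_ne_zero (mul_ne_zero (pow_ne_zero _ nh) nx) (pow_ne_zero _ nx) h1
  have hrel : α ^ 4 + 4 * ω * α * β ^ 3 - γ * β ^ 4 = 0 :=
    rel_of (kF (xi k)) (kF_injective (xi k)) α β ω γ _ _ _ _ nx eα eβ eω eγ
  obtain ⟨δ, h3⟩ := exists_quot α β ω γ hβ hrel
  obtain ⟨b, c, hbc⟩ := exists_val (xi k) δ
  have h4 := congrArg (kF (xi k)) h3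
  rw [map_mul, eα, eβ, kF_of_val (xi k) δ b c hbc] at h4
  have nc : nu ((c : cu k) : P k) ≠ 0 := nu_pc_ne_zero c.2
  have h5 : nu (MvPolynomial.X 0 * ((c : cu k) : P k)) = nu (MvPolynomial.X 1 * (b : P k)) := by
    rw [map_mul, map_mul]
    field_simp at h4
    linear_combination h4
  have h6 := mem_of_ratio (nu_injective h5)
  exact c.2 h6

end

end Pool.Agent.N212
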