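import Pool.Agent.N212.S1
import Pool.Agent.N212.S3
import Pool.Agent.N212.T12

set_option autoImplicit false
set_option linter.unusedVariables false

/-!
The scheme has no stratification by open subschemes of affine spaces: conclusion.
-/

open CategoryTheory Limits TopologicalSpace AlgebraicGeometry Opposite TopCat IsLocalRing

namespace Pool.Agent.N212

noncomputable section

set_option backward.isDefEq.respectTransparency false

open Pool.Agent.W506 Pool.Agent.R924 Pool.Agent.W456

attribute [local instance] MvPolynomial.gradedAlgebra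

variable (k : Type) [Field k] [CharZero k]

lemma isUnit_of_mul {R : Type} [CommRing R] (a b : R) (h : a * b = 1) : IsUnit a :=
  IsUnit.of_mul_eq_one b h

lemma exists_of_isUnit {R : Type} [CommRing R] (a : R) (h : IsUnit a) : ∃ b, a * b = 1 :=
  isUnit_iff_exists_inv.1 h

variable {k} in
lemma isUnit_frx (i : ℕ) (a b : cu k) (ha : a ∈ cg k i) (hb : b ∈ cg k i)
    (hb' : ¬ hh k ∣ (b : P k)) (ha' : ¬ hh k ∣ (a : P k)) : IsUnit (frx i a b ha hb hb') := by
  have na : nu (a : P k) ≠ 0 := nu_ne_zero (fun h => ha' (h ▸ dvd_zero _))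
  have nb : nu (b : P k) ≠ 0 := nu_ne_zero (fun h => hb' (h ▸ dvd_zero _))
  refine isUnit_of_mul (R := Lx k) _ (frx i b a hb ha ha') ?_
  apply kF_injective (xi k)
  rw [map_mul, kF_frx, kF_frx, map_one]
  field_simp

variable {k} in
lemma not_isUnit_of (t : Lx k) (a b : cu k) (hb' : ¬ hh k ∣ (b : P k)) (ha' : hh k ∣ (a : P k))
    (ht : kF (xi k) t = nu (a : P k) / nu (b : P k)) : ¬ IsUnit t := by
  intro h
  obtain ⟨s, hs⟩ := exists_of_isUnit (R := Lx k) t h
  obtain ⟨c, d, hcd⟩ := exists_val (xi k) s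
  have h1 := congrArg (kF (xi k)) hs
  rw [map_mul, ht, kF_of_val (xi k) s c d hcd, map_one] at h1
  have nb : nu (b : P k) ≠ 0 := nu_ne_zero (fun h => hb' (h ▸ dvd_zero _))
  have nd : nu ((d : cu k) : P k) ≠ 0 := nu_pc_ne_zero d.2
  have h2 : nu ((a : P k) * (c : P k)) = nu ((b : P k) * ((d : cu k) : P k)) := by
    rw [map_mul, map_mul]
    field_simp at h1
    linear_combination h1
  have h3 := nu_injective h2
  have h4 : hh k ∣ (b : P k) * ((d : cu k) : P k) := h3 ▸ ha'.mul_right _
  rcases hh_prime.dvd_or_dvd h4 with h | h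
  · exact hb' h
  · exact (mem_pc_xi k).1 d.2 h

/-- The equivalence from the stalk. -/
def eS : (Zs k).presheaf.stalk (xi k) ≃+* Lx k := Proj.stalkIso' (cg k) (xi k)

lemma eS_gk (c : k) : kF (xi k) (eS k (gk (pr0 (cg k)) (xi k) c)) =
    nu (MvPolynomial.C c : P k) := by
  have h1 : eS k (gk (pr0 (cg k)) (xi k) c) =
      fv (resTop (⊤ : (Proj (cg k)).Opens) (skK (pr0 (cg k)) c)) (xi k) True.intro :=
    Proj.stalkIso'_germ (cg k) ⊤ (xi k) True.intro (skK (pr0 (cg k)) c)
  rw [h1, kF_of_val (xi k) _ _ _ (fv_skK c (U := (⊤ : (Proj (cg k)).Opens)) (xi k) True.intro)]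
  change nu (MvPolynomial.C c : P k) / nu (1 : P k) = _
  rw [map_one, div_one]

theorem stalk_not_normal : ¬ IsIntegrallyClosed ((Zs k).presheaf.stalk (xi k)) := by
  intro h
  exact not_normal k (IsIntegrallyClosed.of_equiv (eS k))

/-- The numerator `3xw`. -/
def numx : cu k := 3 * (xx k * wc k)

/-- The numerator `3zw`. -/
def numz : cu k := 3 * (zz k * wc k)

omit [CharZero k] in
lemma three_mul_mem (i : ℕ) (a : cu k) (ha : a ∈ cg k i) : 3 * a ∈ cg k i := by
  have : 3 * a = a + a + a := by ring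
  rw [this]
  exact add_mem (add_mem ha ha) ha

lemma numx_mem : numx k ∈ cg k 4 :=
  three_mul_mem k 4 _ (SetLike.mul_mem_graded (i := 1) (j := 3) xx_mem (wc_mem k))

lemma numz_mem : numz k ∈ cg k 4 :=
  three_mul_mem k 4 _ (SetLike.mul_mem_graded (i := 1) (j := 3) zz_mem (wc_mem k))

theorem stalk_curve : ∃ u v : (Zs k).presheaf.stalk (xi k),
    u ^ 3 + v ^ 3 + 1 ∈ maximalIdeal ((Zs k).presheaf.stalk (xi k)) ∧
      ∀ c : k, u - gk (pr0 (cg k)) (xi k) c ∉ maximalIdeal ((Zs k).presheaf.stalk (xi k)) := by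
  have hg : nu (g4 k : P k) ≠ 0 := nu_ne_zero (fun h => not_dvd_g4 (h ▸ dvd_zero _))
  refine ⟨(eS k).symm (frx 4 (numx k) (g4 k) (numx_mem k) (g4_deg k) not_dvd_g4),
    (eS k).symm (frx 4 (numz k) (g4 k) (numz_mem k) (g4_deg k) not_dvd_g4), ?_, ?_⟩
  · rw [mem_maximalIdeal, mem_nonunits_iff]
    intro h
    have h1 := h.map (eS k)
    rw [map_add, map_add, map_pow, map_pow, map_one, RingEquiv.apply_symm_apply,
      RingEquiv.apply_symm_apply] at h1
    refine not_isUnit_of _ (numx k ^ 3 + numz k ^ 3 + g4 k ^ 3) (g4 k ^ 3) ?_ ?_ ?_ h1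
    · exact fun h => not_dvd_g4 (hh_prime.dvd_of_dvd_pow (show hh k ∣ (g4 k : P k) ^ 3 from h))
    · have h2 := dvd_fermat (k := k)
      have h3 : ((numx k ^ 3 + numz k ^ 3 + g4 k ^ 3 : cu k) : P k) =
          (3 * MvPolynomial.X 1 * ww k) ^ 3 + (3 * MvPolynomial.X 2 * ww k) ^ 3 +
            (g4 k : P k) ^ 3 := by
        change (3 * (MvPolynomial.X 1 * ww k)) ^ 3 + (3 * (MvPolynomial.X 2 * ww k)) ^ 3 +
            (g4 k : P k) ^ 3 = _
        ring
      rw [h3]
      exact h2
    · rw [map_add, map_add, map_pow, map_pow, map_one, kF_frx, kF_frx]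
      change _ = nu ((numx k : P k) ^ 3 + (numz k : P k) ^ 3 + (g4 k : P k) ^ 3) /
        nu ((g4 k : P k) ^ 3)
      rw [map_add, map_add, map_pow, map_pow, map_pow]
      field_simp
  · intro c h
    rw [mem_maximalIdeal, mem_nonunits_iff] at h
    apply h
    have hd : ¬ hh k ∣ ((numx k - algebraMap k (cu k) c * g4 k : cu k) : P k) := by
      have h2 := not_dvd_curve c
      have h3 : ((numx k - algebraMap k (cu k) c * g4 k : cu k) : P k) =
          3 * MvPolynomial.X 1 * ww k - MvPolynomial.C c * (g4 k : P k) := by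
        change (3 * (MvPolynomial.X 1 * ww k)) - MvPolynomial.C c * (g4 k : P k) = _
        ring
      rw [h3]
      exact h2
    have hm : numx k - algebraMap k (cu k) c * g4 k ∈ cg k 4 := by
      refine sub_mem (numx_mem k) ?_
      rw [← Algebra.smul_def]
      exact Submodule.smul_mem _ _ (g4_deg k)
    have h1 := isUnit_frx 4 _ (g4 k) hm (g4_deg k) not_dvd_g4 hd
    have h2 : (eS k).symm (frx 4 (numx k) (g4 k) (numx_mem k) (g4_deg k) not_dvd_g4) -
        gk (pr0 (cg k)) (xi k) c = (eS k).symm (frx 4 _ (g4 k) hm (g4_deg k) not_dvd_g4) := by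
      apply (eS k).injective
      rw [map_sub, RingEquiv.apply_symm_apply, RingEquiv.apply_symm_apply]
      apply kF_injective (xi k)
      rw [map_sub, kF_frx, kF_frx, eS_gk]
      change _ = nu ((numx k : P k) - MvPolynomial.C c * (g4 k : P k)) / _
      rw [map_sub, map_mul]
      field_simp
    rw [h2]
    exact h1.map (eS k).symm

/-- The scheme has no stratification by open subschemes of affine spaces. -/
theorem no_strat : ¬ HasAffineStratification k (pr0 (cg k)) :=
  no_stratification (Z := Zs k) (pr0 (cg k)) (xi k) (spec_xi k) (stalk_not_normal k)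
    (stalk_curve k)

end

end Pool.Agent.N212
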