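import Pool.Agent.R924.P6

set_option autoImplicit false

/-!
Statement of a module of the project on finite-dimensional DG algebras and rationality: uniform
vanishing of morphisms from perfect complexes to coherent modules.
-/

open CategoryTheory Limits TopologicalSpace AlgebraicGeometry Opposite Pretriangulated

namespace Pool.Agent.N212

open Pool.Agent.W506 Pool.Agent.W456 Pool.Agent.R924

set_option backward.isDefEq.respectTransparency false

attribute [local instance] HasDerivedCategory.standard

/-- Uniform vanishing of morphisms to coherent modules in low degrees. -/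
def UV (X : Scheme.{0}) (A : DerivedCategory X.Modules) : Prop :=
  ∃ n : ℤ, ∀ (M : X.Modules) (_ : CohAll M) (m : ℤ) (_ : n ≤ m) (φ : A ⟶ (sg M)⟦m⟧), φ = 0

/-- Uniform vanishing for perfect complexes. -/
def StmU : Prop :=
  ∀ (X : Scheme.{0}) (_ : CompactSpace X) (_ : IsLocallyNoetherian X) (_ : X.IsSeparated)
    (A : DerivedCategory X.Modules), isPerfect X A → UV X A

end Pool.Agent.N212
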