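import Pool.Agent.W506.S1

set_option autoImplicit false

/-!
Sheaves of modules on the projective spectrum of a graded algebra associated with graded modules.
-/

open CategoryTheory Limits TopologicalSpace AlgebraicGeometry Opposite TopCat

namespace Pool.Agent.N212

noncomputable section

set_option backward.isDefEq.respectTransparency false

variable {k : Type} [Field k] {A : Type} [CommRing A] [Algebra k A]

/-- A module with a family of subgroups of homogeneous elements. -/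
structure GM (𝒜 : ℕ → Submodule k A) where
  /-- the module -/
  M : Type
  [grp : AddCommGroup M]
  [mod : Module A M]
  /-- the homogeneous elements -/
  deg : ℤ → AddSubgroup M
  smul_mem : ∀ {i : ℕ} {j : ℤ} {a : A} {m : M}, a ∈ 𝒜 i → m ∈ deg j → a • m ∈ deg (i + j)

attribute [instance] GM.grp GM.mod

variable {𝒜 : ℕ → Submodule k A} [GradedAlgebra 𝒜]

/-- The elements outside a homogeneous prime ideal. -/
abbrev pc (x : ProjectiveSpectrum.top 𝒜) : Submonoid A :=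
  x.asHomogeneousIdeal.toIdeal.primeCompl

/-- The localization at a point. -/
abbrev Lo (N : GM 𝒜) (x : ProjectiveSpectrum.top 𝒜) : Type := LocalizedModule (pc x) N.M

/-- Fractions of degree `j`. -/
def IsFr (N : GM 𝒜) (j : ℤ) {U : Opens (ProjectiveSpectrum.top 𝒜)} (s : ∀ x : U, Lo N x.1) : Prop :=
  ∃ (n : ℕ) (m : N.M) (a : A), m ∈ N.deg (n + j) ∧ a ∈ 𝒜 n ∧
    ∀ x : U, ∃ h : a ∈ pc x.1, s x = LocalizedModule.mk m ⟨a, h⟩

/-- The prelocal predicate. -/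
def frPre (N : GM 𝒜) (j : ℤ) : PrelocalPredicate (fun x : ProjectiveSpectrum.top 𝒜 => Lo N x) where
  pred {_} s := IsFr N j s
  res := by
    rintro V U i f ⟨n, m, a, h2, h3, h4⟩
    exact ⟨n, m, a, h2, h3, fun x => h4 (i x)⟩

/-- The local predicate. -/
def frLoc (N : GM 𝒜) (j : ℤ) : LocalPredicate (fun x : ProjectiveSpectrum.top 𝒜 => Lo N x) :=
  (frPre N j).sheafify

lemma exists_den (x : ProjectiveSpectrum.top 𝒜) (N : ℕ) :
    ∃ (n : ℕ) (a : A), N ≤ n ∧ 0 < n ∧ a ∈ 𝒜 n ∧ a ∈ pc x := by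
  classical
  obtain ⟨f, m, f_deg, hm, hx⟩ : ∃ (f : A) (m : ℕ) (_ : f ∈ 𝒜 m) (_ : 0 < m), f ∉ x.1 := by
    by_contra!
    refine x.not_irrelevant_le fun z hz ↦ ?_
    rw [← DirectSum.sum_support_decompose 𝒜 z]
    exact x.1.toIdeal.sum_mem fun k hk ↦ this _ k (SetLike.coe_mem _) <| by_contra <| by aesop
  refine ⟨(N + 1) • m, f ^ (N + 1), ?_, ?_, SetLike.pow_mem_graded _ f_deg,
    (pc x).pow_mem hx _⟩
  · rw [smul_eq_mul]
    nlinarith
  · rw [smul_eq_mul]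
    positivity

/-- The open set where an element does not vanish. -/
def Dp (a : A) : Opens (ProjectiveSpectrum.top 𝒜) := ProjectiveSpectrum.basicOpen 𝒜 a

lemma mem_Dp (a : A) (x : ProjectiveSpectrum.top 𝒜) : x ∈ Dp (𝒜 := 𝒜) a ↔ a ∈ pc x := Iff.rfl

/-- Sections. -/
def secGr (N : GM 𝒜) (j : ℤ) (U : Opens (ProjectiveSpectrum.top 𝒜)) :
    AddSubgroup (∀ x : U, Lo N x.1) where
  carrier := {f | (frLoc N j).pred f}
  add_mem' := by
    intro a b ha hb x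
    obtain ⟨Va, ma, ia, n, m, s, h2, h3, wa⟩ := ha x
    obtain ⟨Vb, mb, ib, n', m', s', h2', h3', wb⟩ := hb x
    refine ⟨Va ⊓ Vb, ⟨ma, mb⟩, Opens.infLELeft _ _ ≫ ia, n + n', s' • m + s • m', s * s',
      ?_, SetLike.mul_mem_graded h3 h3', fun y => ?_⟩
    · refine add_mem ?_ ?_
      · have := N.smul_mem h3' h2
        have e : (n' : ℤ) + (n + j) = (n + n' : ℕ) + j := by push_cast; ring
        rwa [e] at this
      · have := N.smul_mem h3 h2'
        have e : (n : ℤ) + (n' + j) = (n + n' : ℕ) + j := by push_cast; ring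
        rwa [e] at this
    · obtain ⟨hs, e⟩ := wa ⟨y.1, y.2.1⟩
      obtain ⟨hs', e'⟩ := wb ⟨y.1, y.2.2⟩
      exact ⟨(pc y.1).mul_mem hs hs', (congr($e + $e')).trans (LocalizedModule.mk_add_mk ..)⟩
  zero_mem' := by
    intro x
    exact ⟨U, x.2, 𝟙 _, 0, 0, 1, zero_mem _, SetLike.GradedOne.one_mem,
      fun y => ⟨one_mem _, (LocalizedModule.zero_mk _).symm⟩⟩
  neg_mem' := by
    intro a ha x
    obtain ⟨Va, ma, ia, n, m, s, h2, h3, wa⟩ := ha x
    refine ⟨Va, ma, ia, n, -m, s, neg_mem h2, h3, fun y => ?_⟩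
    obtain ⟨hs, e⟩ := wa y
    exact ⟨hs, (congrArg Neg.neg e).trans LocalizedModule.mk_neg.symm⟩

/-- The sheaf of types of sections. -/
def shTy (N : GM 𝒜) (j : ℤ) : TopCat.Sheaf Type (ProjectiveSpectrum.top 𝒜) :=
  subsheafToTypes (frLoc N j)

instance (N : GM 𝒜) (j : ℤ) (U : (Opens (ProjectiveSpectrum.top 𝒜))ᵒᵖ) :
    AddCommGroup ((shTy N j).1.obj U) :=
  (secGr N j U.unop).toAddCommGroup

/-- The presheaf of abelian groups. -/
def psAb (N : GM 𝒜) (j : ℤ) : TopCat.Presheaf Ab (ProjectiveSpectrum.top 𝒜) where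
  obj U := AddCommGrpCat.of ((shTy N j).1.obj U)
  map i := AddCommGrpCat.ofHom
    { toFun := (shTy N j).1.map i
      map_zero' := rfl
      map_add' := fun _ _ => rfl }

lemma smul_mem_sec (N : GM 𝒜) (j : ℤ) {U : Opens (ProjectiveSpectrum.top 𝒜)}
    (r : (ProjectiveSpectrum.StructureSheaf.structureSheafInType 𝒜).1.obj (op U))
    (s : (shTy N j).1.obj (op U)) :
    (frLoc N j).pred (fun x : U => (r.1 x).val • s.1 x) := by
  intro x
  obtain ⟨V, m, i, l, ⟨p, hp⟩, ⟨q, hq⟩, nin, hy⟩ := r.2 x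
  obtain ⟨Va, ma, ia, n, m', s', h2, h3, wa⟩ := s.2 x
  refine ⟨V ⊓ Va, ⟨m, ma⟩, Opens.infLERight _ _ ≫ ia, l + n, p • m', q * s',
      ?_, SetLike.mul_mem_graded hq h3, fun y => ?_⟩
  · have := N.smul_mem hp h2
    have e : (l : ℤ) + (n + j) = (l + n : ℕ) + j := by push_cast; ring
    rwa [e] at this
  obtain ⟨hs, e⟩ := wa ⟨y.1, y.2.2⟩
  have e1 := hy ⟨y.1, y.2.1⟩
  refine ⟨(pc y.1).mul_mem (nin ⟨y.1, y.2.1⟩) hs, ?_⟩
  have e2 : (r.1 (i ⟨y.1, y.2.1⟩)).val = Localization.mk p ⟨q, nin ⟨y.1, y.2.1⟩⟩ :=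
    (congrArg HomogeneousLocalization.val e1).trans rfl
  exact (congr($e2 • $e)).trans (LocalizedModule.mk_smul_mk ..)

instance modSec (N : GM 𝒜) (j : ℤ) (U : (Opens (ProjectiveSpectrum.top 𝒜))ᵒᵖ) :
    Module ((ProjectiveSpectrum.StructureSheaf.structureSheafInType 𝒜).1.obj U)
      ((shTy N j).1.obj U) where
  smul r s := ⟨fun x => (r.1 x).val • s.1 x, smul_mem_sec N j r s⟩
  one_smul s := Subtype.ext (funext fun x => by
    change (1 : HomogeneousLocalization.AtPrime 𝒜 x.1.asHomogeneousIdeal.toIdeal).val • s.1 x =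
      s.1 x
    rw [HomogeneousLocalization.val_one, one_smul])
  mul_smul r r' s := Subtype.ext (funext fun x => by
    change (r.1 x * r'.1 x).val • s.1 x = (r.1 x).val • ((r'.1 x).val • s.1 x)
    rw [HomogeneousLocalization.val_mul, mul_smul])
  smul_zero r := Subtype.ext (funext fun x => smul_zero (A := Lo N x.1) (r.1 x).val)
  zero_smul s := Subtype.ext (funext fun x => by
    change (0 : HomogeneousLocalization.AtPrime 𝒜 x.1.asHomogeneousIdeal.toIdeal).val • s.1 x = 0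
    rw [HomogeneousLocalization.val_zero, zero_smul])
  smul_add r s t := Subtype.ext (funext fun x => smul_add (r.1 x).val (s.1 x) (t.1 x))
  add_smul r r' s := Subtype.ext (funext fun x => by
    change (r.1 x + r'.1 x).val • s.1 x = (r.1 x).val • s.1 x + (r'.1 x).val • s.1 x
    rw [HomogeneousLocalization.val_add, add_smul])

/-- The presheaf of modules. -/
def psMod (N : GM 𝒜) (j : ℤ) :
    PresheafOfModules (ProjectiveSpectrum.StructureSheaf.structurePresheafInCommRing 𝒜 ⋙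
      forget₂ _ _) :=
  letI (U : (Opens (ProjectiveSpectrum.top 𝒜))ᵒᵖ) :
    Module ↑((ProjectiveSpectrum.StructureSheaf.structurePresheafInCommRing 𝒜 ⋙
      forget₂ CommRingCat RingCat).obj U) ↑((psAb N j).obj U) := modSec N j U
  .ofPresheaf (psAb N j) fun _ _ _ _ _ ↦ rfl

/-- The sheaf of modules associated with a graded module and an integer. -/
def til (N : GM 𝒜) (j : ℤ) : (Proj 𝒜).Modules where
  val := psMod N j
  isSheaf := (TopCat.Presheaf.isSheaf_iff_isSheaf_comp (forget AddCommGrpCat) _).2 (shTy N j).2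

open Pool.Agent.W506

/-- The value of a section at a point. -/
def vl {N : GM 𝒜} {j : ℤ} {U : (Proj 𝒜).Opens} (s : Γ(til N j, U)) (x : ProjectiveSpectrum.top 𝒜)
    (hx : x ∈ U) : Lo N x :=
  (show (shTy N j).1.obj (op U) from s).1 ⟨x, hx⟩

lemma vl_ext {N : GM 𝒜} {j : ℤ} {U : (Proj 𝒜).Opens} {s t : Γ(til N j, U)}
    (h : ∀ x hx, vl s x hx = vl t x hx) : s = t :=
  Subtype.ext (funext fun x => h x.1 x.2)

lemma vl_rs {N : GM 𝒜} {j : ℤ} {U V : (Proj 𝒜).Opens} (h : V ≤ U) (s : Γ(til N j, U))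
    (x : ProjectiveSpectrum.top 𝒜) (hx : x ∈ V) : vl (rs (til N j) h s) x hx = vl s x (h hx) := rfl

lemma vl_add {N : GM 𝒜} {j : ℤ} {U : (Proj 𝒜).Opens} (s t : Γ(til N j, U))
    (x : ProjectiveSpectrum.top 𝒜) (hx : x ∈ U) : vl (s + t) x hx = vl s x hx + vl t x hx := rfl

lemma vl_zero {N : GM 𝒜} {j : ℤ} {U : (Proj 𝒜).Opens}
    (x : ProjectiveSpectrum.top 𝒜) (hx : x ∈ U) : vl (0 : Γ(til N j, U)) x hx = 0 := rfl

/-- The value of a function at a point. -/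
def fv {U : (Proj 𝒜).Opens} (r : Γ(Proj 𝒜, U)) (x : ProjectiveSpectrum.top 𝒜)
    (hx : x ∈ U) : HomogeneousLocalization.AtPrime 𝒜 x.asHomogeneousIdeal.toIdeal :=
  (show (ProjectiveSpectrum.StructureSheaf.structureSheafInType 𝒜).1.obj (op U) from r).1 ⟨x, hx⟩

lemma vl_smul {N : GM 𝒜} {j : ℤ} {U : (Proj 𝒜).Opens} (r : Γ(Proj 𝒜, U)) (s : Γ(til N j, U))
    (x : ProjectiveSpectrum.top 𝒜) (hx : x ∈ U) :
    vl (r • s) x hx = (fv r x hx).val • vl s x hx := rfl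

lemma exists_frac {N : GM 𝒜} {j : ℤ} {U : (Proj 𝒜).Opens} (s : Γ(til N j, U))
    (x : ProjectiveSpectrum.top 𝒜) (hx : x ∈ U) :
    ∃ (V : (Proj 𝒜).Opens) (hV : V ≤ U) (_ : x ∈ V) (n : ℕ) (m : N.M) (a : A),
      m ∈ N.deg (n + j) ∧ a ∈ 𝒜 n ∧
      ∀ (y : ProjectiveSpectrum.top 𝒜) (hy : y ∈ V), ∃ h : a ∈ pc y,
        vl s y (hV hy) = LocalizedModule.mk m ⟨a, h⟩ := by
  obtain ⟨Va, ma, ia, n, m', s', h2, h3, wa⟩ :=
    (show (shTy N j).1.obj (op U) from s).2 ⟨x, hx⟩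
  exact ⟨Va, ia.le, ma, n, m', s', h2, h3, fun y hy => wa ⟨y, hy⟩⟩

/-- A section from its values. -/
def mkS (N : GM 𝒜) (j : ℤ) (U : (Proj 𝒜).Opens)
    (s : ∀ (x : ProjectiveSpectrum.top 𝒜) (_ : x ∈ U), Lo N x)
    (h : ∀ (x : ProjectiveSpectrum.top 𝒜) (_ : x ∈ U),
      ∃ (V : (Proj 𝒜).Opens) (hV : V ≤ U) (_ : x ∈ V) (n : ℕ) (m : N.M) (a : A),
      m ∈ N.deg (n + j) ∧ a ∈ 𝒜 n ∧
      ∀ (y : ProjectiveSpectrum.top 𝒜) (hy : y ∈ V), ∃ h : a ∈ pc y,
        s y (hV hy) = LocalizedModule.mk m ⟨a, h⟩) : Γ(til N j, U) :=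
  (⟨fun x => s x.1 x.2, by
    intro x
    obtain ⟨V, hV, hx, n, m, a, h2, h3, h4⟩ := h x.1 x.2
    exact ⟨V, hx, homOfLE hV, n, m, a, h2, h3, fun y => h4 y.1 y.2⟩⟩ :
      (shTy N j).1.obj (op U))

lemma vl_mkS (N : GM 𝒜) (j : ℤ) (U : (Proj 𝒜).Opens)
    (s : ∀ (x : ProjectiveSpectrum.top 𝒜) (_ : x ∈ U), Lo N x) (h) (x : ProjectiveSpectrum.top 𝒜)
    (hx : x ∈ U) : vl (mkS N j U s h) x hx = s x hx := rfl

end

end Pool.Agent.N212
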