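import Pool.Agent.N212.T1

set_option autoImplicit false
set_option linter.unusedVariables false

/-!
Functoriality of the sheaf associated with a graded module.
-/

open CategoryTheory Limits TopologicalSpace AlgebraicGeometry Opposite TopCat

namespace Pool.Agent.N212

noncomputable section

set_option backward.isDefEq.respectTransparency false

open Pool.Agent.W506

variable {k : Type} [Field k] {A : Type} [CommRing A] [Algebra k A]
  {𝒜 : ℕ → Submodule k A}

/-- Morphisms of graded modules of degree `e`. -/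
structure GH (N N' : GM 𝒜) (e : ℤ) where
  /-- the linear map -/
  f : N.M →ₗ[A] N'.M
  map_deg : ∀ {i : ℤ} {m : N.M}, m ∈ N.deg i → f m ∈ N'.deg (i + e)

variable [GradedAlgebra 𝒜]

/-- The map on localizations. -/
def lmap {N N' : GM 𝒜} (f : N.M →ₗ[A] N'.M) (x : ProjectiveSpectrum.top 𝒜) : Lo N x →+ Lo N' x :=
  (LocalizedModule.map (pc x) f).toAddMonoidHom

lemma lmap_mk {N N' : GM 𝒜} (f : N.M →ₗ[A] N'.M) (x : ProjectiveSpectrum.top 𝒜) (m : N.M)
    (a : pc x) : lmap f x (LocalizedModule.mk m a) = LocalizedModule.mk (f m) a :=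
  IsLocalizedModule.map_LocalizedModules (pc x) f m a

lemma lmap_smul {N N' : GM 𝒜} (f : N.M →ₗ[A] N'.M) (x : ProjectiveSpectrum.top 𝒜)
    (r : Localization (pc x)) (s : Lo N x) : lmap f x (r • s) = r • lmap f x s :=
  (LocalizedModule.map (pc x) f).map_smul r s

lemma tmap_mem {N N' : GM 𝒜} {e : ℤ} (f : GH N N' e) {j j' : ℤ} (h : j' = j + e)
    {U : (Proj 𝒜).Opens} (s : Γ(til N j, U)) (x : ProjectiveSpectrum.top 𝒜) (hx : x ∈ U) :
    ∃ (V : (Proj 𝒜).Opens) (hV : V ≤ U) (_ : x ∈ V) (n : ℕ) (m : N'.M) (a : A),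
      m ∈ N'.deg (n + j') ∧ a ∈ 𝒜 n ∧
      ∀ (y : ProjectiveSpectrum.top 𝒜) (hy : y ∈ V), ∃ h : a ∈ pc y,
        lmap f.f y (vl s y (hV hy)) = LocalizedModule.mk m ⟨a, h⟩ := by
  obtain ⟨V, hV, hx, n, m, a, h2, h3, h4⟩ := exists_frac s x hx
  refine ⟨V, hV, hx, n, f.f m, a, by rw [h, ← add_assoc]; exact f.map_deg h2, h3, fun y hy => ?_⟩
  obtain ⟨h5, h6⟩ := h4 y hy
  exact ⟨h5, by rw [h6, lmap_mk]⟩

/-- The morphism of sheaves associated with a morphism of graded modules. -/
def tmap {N N' : GM 𝒜} {e : ℤ} (f : GH N N' e) {j j' : ℤ} (h : j' = j + e) :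
    til N j ⟶ til N' j' :=
  ⟨PresheafOfModules.homMk
    { app := fun U => AddCommGrpCat.ofHom
        { toFun := fun s => mkS N' j' U.unop (fun x hx => lmap f.f x (vl s x hx))
            (tmap_mem f h s)
          map_zero' := vl_ext fun x hx => map_zero (lmap f.f x)
          map_add' := fun s t => vl_ext fun x hx => map_add (lmap f.f x) _ _ }
      naturality := fun U V i => rfl }
    (fun U r s => vl_ext fun x hx => lmap_smul f.f x _ _)⟩

lemma vl_tmap {N N' : GM 𝒜} {e : ℤ} (f : GH N N' e) {j j' : ℤ} (h : j' = j + e)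
    {U : (Proj 𝒜).Opens} (s : Γ(til N j, U)) (x : ProjectiveSpectrum.top 𝒜) (hx : x ∈ U) :
    vl (ap (tmap f h) U s) x hx = lmap f.f x (vl s x hx) := rfl

end

end Pool.Agent.N212
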