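import Pool.Agent.N212.A1
import Pool.Agent.N212.T4

set_option autoImplicit false
set_option linter.unusedVariables false

/-!
Generic values of sections.
-/

open CategoryTheory Limits TopologicalSpace AlgebraicGeometry Opposite TopCat

namespace Pool.Agent.N212

noncomputable section

set_option backward.isDefEq.respectTransparency false

open Pool.Agent.W506

attribute [local instance] MvPolynomial.gradedAlgebra

variable {k : Type} [Field k]

/-- The field of fractions of the polynomial ring. -/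
abbrev K0 (k : Type) [Field k] : Type := FractionRing (P k)

/-- The inclusion. -/
abbrev nu : P k →+* K0 k := algebraMap (P k) (K0 k)

lemma nu_injective : Function.Injective (nu (k := k)) := IsFractionRing.injective _ _

lemma nu_ne_zero {f : P k} (h : f ≠ 0) : nu f ≠ 0 := fun e => h (nu_injective (e.trans (map_zero nu).symm))

lemma pc_ne_zero {x : ProjectiveSpectrum.top (cg k)} {a : cu k} (ha : a ∈ pc x) : (a : P k) ≠ 0 := by
  intro h
  apply ha
  have : a = 0 := Subtype.ext h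
  rw [this]
  exact zero_mem _

lemma nu_pc_ne_zero {x : ProjectiveSpectrum.top (cg k)} {a : cu k} (ha : a ∈ pc x) :
    nu (a : P k) ≠ 0 := nu_ne_zero (pc_ne_zero ha)

/-- The generic value of an element of a localization. -/
def kS (x : ProjectiveSpectrum.top (cg k)) : Lo (GS k) x →+ K0 k where
  toFun s := LocalizedModule.liftOn s
    (fun p => nu (show P k from p.1) / nu ((p.2 : cu k) : P k)) (by
      rintro ⟨m, a⟩ ⟨m', a'⟩ ⟨u, hu⟩
      have h1 : ((u : cu k) : P k) * (((a' : cu k) : P k) * (show P k from m)) =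
        ((u : cu k) : P k) * (((a : cu k) : P k) * (show P k from m')) := hu
      have h2 := mul_left_cancel₀ (pc_ne_zero u.2) h1
      have h3 := congrArg nu h2
      rw [map_mul, map_mul] at h3
      change nu (show P k from m) / nu ((a : cu k) : P k) =
        nu (show P k from m') / nu ((a' : cu k) : P k)
      rw [div_eq_div_iff (nu_pc_ne_zero a.2) (nu_pc_ne_zero a'.2), mul_comm, h3, mul_comm])
  map_zero' := by
    rw [← LocalizedModule.zero_mk 1, LocalizedModule.liftOn_mk]
    change nu (0 : P k) / _ = 0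
    rw [map_zero, zero_div]
  map_add' s t := by
    induction s, t using LocalizedModule.induction_on₂ with
    | h m m' a a' =>
      rw [LocalizedModule.mk_add_mk, LocalizedModule.liftOn_mk, LocalizedModule.liftOn_mk,
        LocalizedModule.liftOn_mk]
      change nu (((a' : cu k) : P k) * (show P k from m) + ((a : cu k) : P k) *
        (show P k from m')) / nu (((a : cu k) : P k) * ((a' : cu k) : P k)) =
        nu (show P k from m) / nu ((a : cu k) : P k) + nu (show P k from m') / nu ((a' : cu k) : P k)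
      rw [map_add, map_mul, map_mul, map_mul]
      have h1 := nu_pc_ne_zero a.2
      have h2 := nu_pc_ne_zero a'.2
      field_simp

lemma kS_mk (x : ProjectiveSpectrum.top (cg k)) (m : P k) (a : pc x) :
    kS x (LocalizedModule.mk (M := (GS k).M) m a) = nu m / nu ((a : cu k) : P k) := rfl

lemma kS_injective (x : ProjectiveSpectrum.top (cg k)) : Function.Injective (kS x) := by
  rw [injective_iff_map_eq_zero]
  intro s hs
  induction s using LocalizedModule.induction_on with
  | h m a =>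
    rw [kS_mk x m a, div_eq_zero_iff] at hs
    have h1 : m = 0 := by
      rcases hs with h | h
      · exact nu_injective (h.trans (map_zero nu).symm)
      · exact absurd h (nu_pc_ne_zero a.2)
    rw [h1, LocalizedModule.zero_mk]

/-- The generic value of a function at a point. -/
def kF (x : ProjectiveSpectrum.top (cg k)) :
    HomogeneousLocalization.AtPrime (cg k) x.asHomogeneousIdeal.toIdeal →+* K0 k :=
  (IsLocalization.lift (M := pc x) (S := Localization (pc x)) (g := (nu.comp (cu k).val.toRingHom))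
    (fun a => (nu_pc_ne_zero a.2).isUnit)).comp (algebraMap _ (Localization (pc x)))

lemma kF_of_val (x : ProjectiveSpectrum.top (cg k))
    (r : HomogeneousLocalization.AtPrime (cg k) x.asHomogeneousIdeal.toIdeal) (a : cu k)
    (b : pc x) (h : r.val = Localization.mk a b) : kF x r = nu (a : P k) / nu ((b : cu k) : P k) := by
  change IsLocalization.lift (M := pc x) _ r.val = _
  rw [h, Localization.mk_eq_mk', IsLocalization.lift_mk', div_eq_mul_inv]
  congr 1
  apply Units.inv_eq_of_mul_eq_one_right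
  rw [IsUnit.coe_liftRight]
  exact mul_inv_cancel₀ (nu_pc_ne_zero b.2)

lemma exists_val (x : ProjectiveSpectrum.top (cg k))
    (r : HomogeneousLocalization.AtPrime (cg k) x.asHomogeneousIdeal.toIdeal) :
    ∃ (a : cu k) (b : pc x), r.val = Localization.mk a b := by
  obtain ⟨a, b, h⟩ := IsLocalization.exists_mk'_eq (pc x) r.val
  exact ⟨a, b, by rw [← h, Localization.mk_eq_mk']⟩

lemma kS_smul (x : ProjectiveSpectrum.top (cg k))
    (r : HomogeneousLocalization.AtPrime (cg k) x.asHomogeneousIdeal.toIdeal) (s : Lo (GS k) x) :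
    kS x (r.val • s) = kF x r * kS x s := by
  obtain ⟨a, b, h⟩ := exists_val x r
  rw [kF_of_val x r a b h, h]
  induction s using LocalizedModule.induction_on with
  | h m c =>
    rw [LocalizedModule.mk_smul_mk]
    have e := kS_mk x ((a : P k) * (show P k from m)) (b * c)
    refine Eq.trans e ?_
    rw [kS_mk x m c, div_mul_div_comm, map_mul]
    congr 1
    exact map_mul nu _ _

lemma kF_injective (x : ProjectiveSpectrum.top (cg k)) : Function.Injective (kF x) := by
  rw [injective_iff_map_eq_zero]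
  intro r hr
  obtain ⟨a, b, h⟩ := exists_val x r
  rw [kF_of_val x r a b h, div_eq_zero_iff] at hr
  have h1 : a = 0 := by
    rcases hr with h | h
    · exact Subtype.ext (nu_injective (h.trans (map_zero nu).symm))
    · exact absurd h (nu_pc_ne_zero b.2)
  apply HomogeneousLocalization.val_injective
  rw [h, h1, HomogeneousLocalization.val_zero, Localization.mk_zero]

variable (k) in
/-- The generic point. -/
def eta : ProjectiveSpectrum.top (cg k) where
  asHomogeneousIdeal := ⊥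
  isPrime := by
    change (⊥ : HomogeneousIdeal (cg k)).toIdeal.IsPrime
    rw [HomogeneousIdeal.toIdeal_bot]
    exact Ideal.isPrime_bot
  not_irrelevant_le := by
    intro h
    have h1 : xx k ∈ (⊥ : HomogeneousIdeal (cg k)).toIdeal := by
      apply h
      exact HomogeneousIdeal.mem_irrelevant_of_mem (cg k) one_pos xx_mem
    rw [HomogeneousIdeal.toIdeal_bot] at h1
    have h2 : (MvPolynomial.X 1 : P k) = 0 := congrArg Subtype.val h1
    exact MvPolynomial.X_ne_zero _ h2

lemma eta_mem_Dp {a : cu k} (ha : a ≠ 0) : a ∈ pc (eta k) := by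
  intro h
  have h1 : a ∈ (⊥ : HomogeneousIdeal (cg k)).toIdeal := h
  rw [HomogeneousIdeal.toIdeal_bot] at h1
  exact ha h1

lemma exists_Dp_le {V : (Zs k).Opens} {x : ProjectiveSpectrum.top (cg k)} (hx : x ∈ V) :
    ∃ (n : ℕ) (a : cu k), 0 < n ∧ a ∈ cg k n ∧ a ∈ pc x ∧ Dp (𝒜 := cg k) a ≤ V := by
  obtain ⟨_, ⟨r, rfl⟩, hxr, hrU⟩ :=
    (ProjectiveSpectrum.isTopologicalBasis_basic_opens (cg k)).exists_subset_of_mem_open hx V.2
  obtain ⟨n, hn⟩ := exists_comp_mem x (c := r) hxr
  obtain ⟨m, b, -, hm, hb, hbx⟩ := exists_den x 0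
  refine ⟨m + n, b * (DirectSum.decompose (cg k) r n : cu k), by lia,
    SetLike.mul_mem_graded hb (SetLike.coe_mem _), (pc x).mul_mem hbx hn, ?_⟩
  intro y hy
  apply hrU
  intro hyr
  apply hy
  exact Ideal.mul_mem_left _ _ (y.asHomogeneousIdeal.isHomogeneous n hyr)

lemma eta_mem {V : (Zs k).Opens} {x : ProjectiveSpectrum.top (cg k)} (hx : x ∈ V) : eta k ∈ V := by
  obtain ⟨n, a, hn, ha, hax, hle⟩ := exists_Dp_le hx
  exact hle (eta_mem_Dp (fun e => pc_ne_zero hax (by rw [e]; rfl)))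

/-- The generic value of a section at a point. -/
def gS {j : ℤ} {U : (Zs k).Opens} (s : Γ(til (GS k) j, U)) (x : ProjectiveSpectrum.top (cg k))
    (hx : x ∈ U) : K0 k := kS x (vl s x hx)

/-- The generic value of a function at a point. -/
def gF {U : (Zs k).Opens} (r : Γ(Zs k, U)) (x : ProjectiveSpectrum.top (cg k))
    (hx : x ∈ U) : K0 k := kF x (fv r x hx)

lemma exists_gS {j : ℤ} {U : (Zs k).Opens} (s : Γ(til (GS k) j, U))
    (x : ProjectiveSpectrum.top (cg k)) (hx : x ∈ U) :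
    ∃ (V : (Zs k).Opens) (hV : V ≤ U) (_ : x ∈ V) (n : ℕ) (m : P k) (a : cu k),
      m ∈ homZ (PH k) (n + j) ∧ a ∈ cg k n ∧
      ∀ (y : ProjectiveSpectrum.top (cg k)) (hy : y ∈ V), a ∈ pc y ∧
        gS s y (hV hy) = nu m / nu (a : P k) := by
  obtain ⟨V, hV, hx, n, m, a, h1, h2, h3⟩ := exists_frac s x hx
  refine ⟨V, hV, hx, n, m, a, h1, h2, fun y hy => ?_⟩
  obtain ⟨h4, h5⟩ := h3 y hy
  exact ⟨h4, by rw [gS, h5]; exact kS_mk y m ⟨a, h4⟩⟩

lemma gS_eta {j : ℤ} {U : (Zs k).Opens} (s : Γ(til (GS k) j, U))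
    (x : ProjectiveSpectrum.top (cg k)) (hx : x ∈ U) : gS s x hx = gS s (eta k) (eta_mem hx) := by
  obtain ⟨V, hV, hx, n, m, a, h1, h2, h3⟩ := exists_gS s x hx
  rw [(h3 x hx).2]
  exact (h3 (eta k) (eta_mem hx)).2.symm

lemma gS_const {j : ℤ} {U : (Zs k).Opens} (s : Γ(til (GS k) j, U))
    (x y : ProjectiveSpectrum.top (cg k)) (hx : x ∈ U) (hy : y ∈ U) : gS s x hx = gS s y hy := by
  rw [gS_eta s x hx, gS_eta s y hy]

lemma gS_rs {j : ℤ} {U V : (Zs k).Opens} (h : V ≤ U) (s : Γ(til (GS k) j, U))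
    (x : ProjectiveSpectrum.top (cg k)) (hx : x ∈ V) :
    gS (rs _ h s) x hx = gS s x (h hx) := rfl

lemma gS_add {j : ℤ} {U : (Zs k).Opens} (s t : Γ(til (GS k) j, U))
    (x : ProjectiveSpectrum.top (cg k)) (hx : x ∈ U) : gS (s + t) x hx = gS s x hx + gS t x hx :=
  map_add (kS x) _ _

lemma gS_zero {j : ℤ} {U : (Zs k).Opens}
    (x : ProjectiveSpectrum.top (cg k)) (hx : x ∈ U) : gS (0 : Γ(til (GS k) j, U)) x hx = 0 :=
  map_zero (kS x)

lemma gS_sub {j : ℤ} {U : (Zs k).Opens} (s t : Γ(til (GS k) j, U))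
    (x : ProjectiveSpectrum.top (cg k)) (hx : x ∈ U) : gS (s - t) x hx = gS s x hx - gS t x hx :=
  map_sub (kS x) _ _

lemma gS_smul {j : ℤ} {U : (Zs k).Opens} (r : Γ(Zs k, U)) (s : Γ(til (GS k) j, U))
    (x : ProjectiveSpectrum.top (cg k)) (hx : x ∈ U) : gS (r • s) x hx = gF r x hx * gS s x hx :=
  kS_smul x _ _

lemma gS_ext {j : ℤ} {U : (Zs k).Opens} {s t : Γ(til (GS k) j, U)}
    {x : ProjectiveSpectrum.top (cg k)} {hx : x ∈ U} (h : gS s x hx = gS t x hx) : s = t := by
  apply vl_ext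
  intro y hy
  apply kS_injective y
  change gS s y hy = gS t y hy
  rw [gS_const s y x hy hx, gS_const t y x hy hx, h]

/-- A section with a given generic value. -/
lemma exists_sec {j : ℤ} (U : (Zs k).Opens) (n : K0 k)
    (h : ∀ x ∈ U, ∃ (l : ℕ) (m : P k) (a : cu k), m ∈ homZ (PH k) (l + j) ∧ a ∈ cg k l ∧
      a ∈ pc x ∧ n = nu m / nu (a : P k)) :
    ∃ s : Γ(til (GS k) j, U), ∀ x hx, gS s x hx = n := by
  choose! l m a h1 h2 h3 h4 using h
  refine ⟨mkS (GS k) j U (fun x hx => LocalizedModule.mk (M := (GS k).M) (m x) ⟨a x, h3 x hx⟩)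
    fun x hx => ⟨Dp (a x) ⊓ U, inf_le_right, ⟨h3 x hx, hx⟩, l x, m x, a x, h1 x hx, h2 x hx,
      fun y hy => ⟨hy.1, ?_⟩⟩, fun x hx => ?_⟩
  · apply kS_injective y
    rw [kS_mk, kS_mk, ← h4 y hy.2]
    exact h4 x hx
  · rw [gS, vl_mkS, kS_mk]
    exact (h4 x hx).symm

lemma exists_gF {U : (Zs k).Opens} (r : Γ(Zs k, U))
    (x : ProjectiveSpectrum.top (cg k)) (hx : x ∈ U) :
    ∃ (V : (Zs k).Opens) (hV : V ≤ U) (_ : x ∈ V) (n : ℕ) (b a : cu k),
      b ∈ cg k n ∧ a ∈ cg k n ∧
      ∀ (y : ProjectiveSpectrum.top (cg k)) (hy : y ∈ V), a ∈ pc y ∧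
        gF r y (hV hy) = nu (b : P k) / nu (a : P k) := by
  obtain ⟨V, m, i, l, ⟨p, hp⟩, ⟨q, hq⟩, nin, hy⟩ :=
    (show (ProjectiveSpectrum.StructureSheaf.structureSheafInType (cg k)).1.obj (op U) from r).2
      ⟨x, hx⟩
  refine ⟨V, i.le, m, l, p, q, hp, hq, fun y h => ⟨nin ⟨y, h⟩, ?_⟩⟩
  exact kF_of_val y _ p ⟨q, nin ⟨y, h⟩⟩
    ((congrArg HomogeneousLocalization.val (hy ⟨y, h⟩)).trans rfl)

lemma gF_eta {U : (Zs k).Opens} (r : Γ(Zs k, U))
    (x : ProjectiveSpectrum.top (cg k)) (hx : x ∈ U) : gF r x hx = gF r (eta k) (eta_mem hx) := by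
  obtain ⟨V, hV, hx, n, m, a, h1, h2, h3⟩ := exists_gF r x hx
  rw [(h3 x hx).2]
  exact (h3 (eta k) (eta_mem hx)).2.symm

lemma gF_const {U : (Zs k).Opens} (r : Γ(Zs k, U))
    (x y : ProjectiveSpectrum.top (cg k)) (hx : x ∈ U) (hy : y ∈ U) : gF r x hx = gF r y hy := by
  rw [gF_eta r x hx, gF_eta r y hy]

lemma fv_add {U : (Zs k).Opens} (r r' : Γ(Zs k, U))
    (x : ProjectiveSpectrum.top (cg k)) (hx : x ∈ U) : fv (r + r') x hx = fv r x hx + fv r' x hx := rfl

lemma fv_mul {U : (Zs k).Opens} (r r' : Γ(Zs k, U))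
    (x : ProjectiveSpectrum.top (cg k)) (hx : x ∈ U) : fv (r * r') x hx = fv r x hx * fv r' x hx := rfl

lemma gF_ro {U V : (Zs k).Opens} (h : V ≤ U) (r : Γ(Zs k, U))
    (x : ProjectiveSpectrum.top (cg k)) (hx : x ∈ V) :
    gF (ro h r) x hx = gF r x (h hx) := rfl

lemma gF_add {U : (Zs k).Opens} (r r' : Γ(Zs k, U))
    (x : ProjectiveSpectrum.top (cg k)) (hx : x ∈ U) : gF (r + r') x hx = gF r x hx + gF r' x hx := by
  rw [gF, fv_add, map_add]
  rfl

lemma gF_mul {U : (Zs k).Opens} (r r' : Γ(Zs k, U))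
    (x : ProjectiveSpectrum.top (cg k)) (hx : x ∈ U) : gF (r * r') x hx = gF r x hx * gF r' x hx := by
  rw [gF, fv_mul, map_mul]
  rfl

lemma gF_one {U : (Zs k).Opens}
    (x : ProjectiveSpectrum.top (cg k)) (hx : x ∈ U) : gF (1 : Γ(Zs k, U)) x hx = 1 :=
  map_one (kF x)

lemma gF_zero {U : (Zs k).Opens}
    (x : ProjectiveSpectrum.top (cg k)) (hx : x ∈ U) : gF (0 : Γ(Zs k, U)) x hx = 0 :=
  map_zero (kF x)

lemma fv_ext {U : (Zs k).Opens} {r r' : Γ(Zs k, U)}
    (h : ∀ x hx, fv r x hx = fv r' x hx) : r = r' :=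
  Subtype.ext (funext fun x => h x.1 x.2)

lemma gF_ext {U : (Zs k).Opens} {r r' : Γ(Zs k, U)}
    {x : ProjectiveSpectrum.top (cg k)} {hx : x ∈ U} (h : gF r x hx = gF r' x hx) : r = r' := by
  apply fv_ext
  intro y hy
  apply kF_injective y
  change gF r y hy = gF r' y hy
  rw [gF_const r y x hy hx, gF_const r' y x hy hx, h]

end

end Pool.Agent.N212
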