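import Pool.Agent.N212.T6
import Pool.Agent.W506.S6

set_option autoImplicit false
set_option linter.unusedVariables false

/-!
Quasi-coherence of the sheaves of fractions of polynomials.
-/

open CategoryTheory Limits TopologicalSpace AlgebraicGeometry Opposite TopCat

namespace Pool.Agent.N212

noncomputable section

set_option backward.isDefEq.respectTransparency false

open Pool.Agent.W506

attribute [local instance] MvPolynomial.gradedAlgebra

variable {k : Type} [Field k]

lemma fr_inv {x : ProjectiveSpectrum.top (cg k)} {l : ℕ} {a b : cu k} (ha : a ∈ cg k l)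
    (hb : b ∈ cg k l) (hbx : b ∈ pc x) : Fr (Am k) x 0 (nu (a : P k) / nu (b : P k)) :=
  ⟨l, a, b, a.2, by rw [add_zero]; exact (mem_homZ_nat (𝒮 := PH k)).2 ha, hb, hbx, rfl⟩

lemma mem_basicOpen_of_frac {W : (Zs k).Opens} (f : Γ(Zs k, W))
    {x : ProjectiveSpectrum.top (cg k)} (hx : x ∈ W) {l : ℕ} {a b : cu k} (ha : a ∈ cg k l)
    (hb : b ∈ cg k l) (hax : a ∈ pc x) (hbx : b ∈ pc x)
    (h : gF f x hx = nu (b : P k) / nu (a : P k)) : x ∈ (Zs k).basicOpen f := by
  set V : (Zs k).Opens := Dp (a * b) ⊓ W with hV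
  have hxV : x ∈ V := ⟨(pc x).mul_mem hax hbx, hx⟩
  have hab : ∀ y ∈ V, a ∈ pc y ∧ b ∈ pc y := by
    intro y hy
    have h1 : a * b ∈ pc y := hy.1
    constructor
    · intro h2
      exact h1 (Ideal.mul_mem_right _ _ h2)
    · intro h2
      exact h1 (Ideal.mul_mem_left _ _ h2)
  obtain ⟨r, hr⟩ := exists_fun' V (nu (a : P k) / nu (b : P k)) (fun y hy =>
    fr_inv ha hb (hab y hy).2)
  have hle : V ≤ W := inf_le_right
  have h1 : ro hle f * r = 1 := by
    apply gF_ext (x := x) (hx := hxV)
    rw [gF_mul, gF_ro, hr, gF_one]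
    change gF f x hx * _ = 1
    rw [h]
    have e1 := nu_pc_ne_zero hax
    have e2 := nu_pc_ne_zero hbx
    field_simp
  have h2 : IsUnit (ro hle f) := IsUnit.of_mul_eq_one _ h1
  have h3 : (Zs k).basicOpen (ro hle f) = V := Scheme.basicOpen_of_isUnit _ h2
  rw [basicOpen_ro] at h3
  have h4 : x ∈ V ⊓ (Zs k).basicOpen f := by rw [h3]; exact hxV
  exact h4.2

lemma eta_mem_basicOpen {W : (Zs k).Opens} (f : Γ(Zs k, W)) (h0 : f ≠ 0) (hW : eta k ∈ W) :
    eta k ∈ (Zs k).basicOpen f := by
  have h1 : gF f (eta k) hW ≠ 0 := by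
    intro h
    apply h0
    apply gF_ext (x := eta k) (hx := hW)
    rw [h, gF_zero]
  obtain ⟨l, m, a, h2, h3, h4, h5, h6⟩ := gF_fr f (eta k) hW (eta k) hW
  rw [add_zero] at h3
  refine mem_basicOpen_of_frac f hW (l := l) (a := a) (b := ⟨m, h2⟩) h4
    ((mem_homZ_nat (𝒮 := PH k)).1 h3) h5 (eta_mem_Dp ?_) h6
  intro h
  apply h1
  have h7 : m = 0 := congrArg Subtype.val h
  rw [h6, h7, map_zero, zero_div]

/-- The open set of an affine cover argument. -/
lemma exists_bound (W : (Zs k).Opens) (hW : IsAffineOpen W) (P : ℕ → ProjectiveSpectrum.top (cg k) → Prop)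
    (hP : ∀ n m x, P n x → P (n + m) x)
    (h : ∀ x ∈ W, ∃ (n : ℕ) (V : (Zs k).Opens), x ∈ V ∧ V ≤ W ∧ ∀ y ∈ V, P n y) :
    ∃ n, ∀ x ∈ W, P n x := by
  classical
  choose! n V h1 h2 h3 using h
  have hc : IsCompact (W : Set (Zs k)) := hW.isCompact
  obtain ⟨t, hcov⟩ := hc.elim_nhds_subcover' (fun x hx => (V x : Set (Zs k)))
    (fun x hx => (V x).2.mem_nhds (h1 x hx))
  refine ⟨t.sum (fun x => n x.1), fun x hx => ?_⟩
  obtain ⟨y, hy, hxy⟩ := Set.mem_iUnion₂.1 (hcov hx)
  have h4 := hP _ (∑ z ∈ t.erase y, n z.1) x (h3 y.1 y.2 x hxy)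
  rwa [Finset.add_sum_erase t (fun z => n z.1) hy] at h4

lemma ext_empty {j : ℤ} {U : (Zs k).Opens} (hU : eta k ∉ U) (s t : Γ(til (GS k) j, U)) : s = t :=
  vl_ext fun x hx => absurd (eta_mem hx) hU

theorem qcOn_GS (j : ℤ) (W₀ : (Zs k).Opens) : QCOn (til (GS k) j) W₀ where
  ext W hW _ f s := by
    by_cases he : eta k ∈ (Zs k).basicOpen f
    swap
    · exact ⟨0, 0, ext_empty he _ _⟩
    have heW : eta k ∈ W := (Zs k).basicOpen_le f he
    set n := gS s (eta k) he with hn
    set φ := gF f (eta k) heW with hφ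
    have hφ0 : φ ≠ 0 := by
      intro h
      have h1 : f = 0 := gF_ext (x := eta k) (hx := heW) (by rw [gF_zero]; exact h)
      rw [h1, Scheme.basicOpen_zero] at he
      exact he
    have hfr : ∀ x ∈ W, Fr (Am k) x 0 φ := fun x hx => gF_fr f (eta k) heW x hx
    obtain ⟨r, hr⟩ := exists_bound W hW (fun r x => x ∈ W → Fr ⊤ x j (φ ^ r * n)) (by
      intro r m x h hx
      have h1 : Fr ⊤ x (0 + j) (φ ^ m * (φ ^ r * n)) := by
        refine Fr.mul ?_ (h hx)
        clear h
        induction m with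
        | zero =>
          rw [pow_zero]
          exact ⟨0, 1, 1, one_mem (cu k), by
            rw [add_zero]; exact (mem_homZ_nat (𝒮 := PH k)).2 (MvPolynomial.isHomogeneous_one _ _),
            SetLike.GradedOne.one_mem, one_mem _, by simp⟩
        | succ m ih =>
          have := Fr.mul (hfr x hx) ih
          rw [add_zero] at this
          rwa [pow_succ']
      rwa [zero_add, ← mul_assoc, ← pow_add, add_comm m] at h1) (by
      intro x hx
      obtain ⟨d, g, hd, hg, hgx, hle⟩ := exists_Dp_le hx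
      have hg0 : g ≠ 0 := fun e => pc_ne_zero hgx (by rw [e]; rfl)
      obtain ⟨r, m, hm1, hm2, hm3⟩ := exists_pow (Am k) hg hd hg0 0 φ (fun y hy => hfr y (hle hy))
      rw [add_zero] at hm2
      set b : cu k := ⟨m, hm1⟩ with hb
      have hbr : b ∈ cg k (r * d) := (mem_homZ_nat (𝒮 := PH k)).1 (by push_cast; exact hm2)
      have hgr : g ^ r ∈ cg k (r * d) := SetLike.pow_mem_graded r hg
      have hb0 : b ≠ 0 := by
        intro h
        apply hφ0
        have h7 : m = 0 := congrArg Subtype.val h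
        rw [hm3, h7, map_zero, zero_div]
      have hφ' : φ = nu (b : P k) / nu ((g ^ r : cu k) : P k) := by
        rw [hm3]
        congr 1
        exact (map_pow nu _ _).symm
      have hbg : ∀ y : ProjectiveSpectrum.top (cg k), b * g ∈ pc y → b ∈ pc y ∧ g ∈ pc y := by
        intro y h1
        constructor
        · intro h2
          exact h1 (Ideal.mul_mem_right _ _ h2)
        · intro h2
          exact h1 (Ideal.mul_mem_left _ _ h2)
      obtain ⟨r', m', -, hm2', hm3'⟩ := exists_pow (⊤ : Submodule (cu k) (P k)) (f := b * g)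
        (d := r * d + d) (SetLike.mul_mem_graded hbr hg) (by lia) (mul_ne_zero hb0 hg0) j n (by
          intro y hy
          obtain ⟨h1, h2⟩ := hbg y hy
          have hyD : y ∈ (Zs k).basicOpen f := by
            refine mem_basicOpen_of_frac f (hle h2) (a := g ^ r) (b := b) hgr hbr
              ((pc y).pow_mem h2 r) h1 ?_
            rw [← hφ', hφ]
            exact gF_const f _ _ _ _
          exact gS_fr s (eta k) he y hyD)
      refine ⟨r', Dp g, hgx, hle, fun y hy _ => ?_⟩
      refine ⟨r' * (r * d + d), m', (g ^ r * g) ^ r', trivial, ?_, ?_, ?_, ?_⟩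
      · push_cast at hm2' ⊢
        exact hm2'
      · exact SetLike.pow_mem_graded r' (SetLike.mul_mem_graded hgr hg)
      · exact (pc y).pow_mem ((pc y).mul_mem ((pc y).pow_mem hy r) hy) r'
      · rw [hm3', hφ']
        have e1 : nu (b : P k) ≠ 0 := nu_ne_zero (fun e => hb0 (Subtype.ext e))
        have e2 : nu (g : P k) ≠ 0 := nu_ne_zero (fun e => hg0 (Subtype.ext e))
        have e3 : nu ((b * g : cu k) : P k) = nu (b : P k) * nu (g : P k) := map_mul nu _ _
        have e4 : nu ((g ^ r : cu k) : P k) = nu (g : P k) ^ r := map_pow nu _ _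
        have e5 : nu (((g ^ r * g) ^ r' : cu k) : P k) = (nu (g : P k) ^ r * nu (g : P k)) ^ r' := by
          change nu (((g : P k) ^ r * (g : P k)) ^ r') = _
          rw [map_pow, map_mul, map_pow]
        rw [e3, e4, e5]
        rw [div_pow, mul_pow, mul_pow]
        field_simp)
    obtain ⟨t, ht⟩ := exists_sec' W (φ ^ r * n) (fun x hx => hr x hx hx)
    refine ⟨r, t, ?_⟩
    apply gS_ext (x := eta k) (hx := he)
    rw [gS_rs, ht]
    have key : ∀ q : ℕ, gS (ro ((Zs k).basicOpen_le f) f ^ q • s) (eta k) he = φ ^ q * n := by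
      intro q
      rw [gS_smul]
      congr 1
      induction q with
      | zero => rw [pow_zero, pow_zero, gF_one]
      | succ q ih => rw [pow_succ, pow_succ, gF_mul, ih, gF_ro]
    exact (key r).symm
  uniq W hW _ f t ht := by
    by_cases he : eta k ∈ (Zs k).basicOpen f
    · refine ⟨0, ?_⟩
      rw [pow_zero, one_smul]
      have heW : eta k ∈ W := (Zs k).basicOpen_le f he
      apply gS_ext (x := eta k) (hx := heW)
      rw [gS_zero, ← gS_rs ((Zs k).basicOpen_le f) t (eta k) he, ht, gS_zero]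
    · by_cases heW : eta k ∈ W
      · have h0 : f = 0 := by
          by_contra h0
          exact he (eta_mem_basicOpen f h0 heW)
        exact ⟨1, by rw [h0, pow_one, zero_smul]⟩
      · exact ⟨0, ext_empty heW _ _⟩

end

end Pool.Agent.N212
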