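import Pool.Agent.N212.Q1
import Pool.Agent.R924.A1

set_option autoImplicit false
set_option linter.unusedVariables false

/-!
General lemmas on sheaves of modules.
-/

open CategoryTheory Limits TopologicalSpace AlgebraicGeometry Opposite TopCat Pretriangulated

namespace Pool.Agent.N212

noncomputable section

open Pool.Agent.R924 Pool.Agent.W456

attribute [local instance] HasDerivedCategory.standard

section Abelian

universe w v u

variable {C : Type u} [Category.{v} C] [Abelian C] [HasDerivedCategory.{w} C]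

lemma mem_of_sum (T : ObjectProperty (DerivedCategory C)) [T.IsTriangulated]
    [T.IsClosedUnderIsomorphisms] [T.IsStableUnderRetracts] {G : C} (H : Fin 3 → C)
    (p : ∀ a, G ⟶ H a) (i : ∀ a, H a ⟶ G) (h : ∑ a, p a ≫ i a = 𝟙 G)
    (hH : ∀ a, T (sg (H a))) : T (sg G) := by
  let r : Retract G (H 0 ⊞ (H 1 ⊞ H 2)) := {
    i := biprod.lift (p 0) (biprod.lift (p 1) (p 2))
    r := biprod.desc (i 0) (biprod.desc (i 1) (i 2))
    retract := by
      rw [← h, Fin.sum_univ_three, biprod.lift_desc, biprod.lift_desc, add_assoc] }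
  exact T.prop_of_retract (r.map (DerivedCategory.singleFunctor _ 0))
    (mem_biprod T (hH 0) (mem_biprod T (hH 1) (hH 2)))

lemma iso_res_aux {K I : CochainComplex C ℤ} {G : C} (ε : G ⟶ K.X 0) (w : ε ≫ K.d 0 1 = 0)
    (h : QuasiIso (augC K ε w)) (κ : K ⟶ I) (hκ : QuasiIso κ) :
    Nonempty (DerivedCategory.Q.obj I ≅ sg G) :=
  ⟨(asIso (DerivedCategory.Q.map κ)).symm ≪≫ (asIso (DerivedCategory.Q.map (augC K ε w))).symm ≪≫
    ((DerivedCategory.singleFunctorIsoCompQ C 0).app G).symm⟩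

end Abelian

lemma mem_of_sumX {X : Scheme.{0}} (T : ObjectProperty (DerivedCategory X.Modules))
    [T.IsTriangulated] [T.IsClosedUnderIsomorphisms] [T.IsStableUnderRetracts] {G : X.Modules}
    (H : Fin 3 → X.Modules)
    (p : ∀ a, G ⟶ H a) (i : ∀ a, H a ⟶ G) (h : ∑ a, p a ≫ i a = 𝟙 G)
    (hH : ∀ a, T (sg (H a))) : T (sg G) := mem_of_sum T H p i h hH

lemma iso_resX {X : Scheme.{0}} {K I : CochainComplex X.Modules ℤ} {G : X.Modules}
    (ε : G ⟶ K.X 0) (w : ε ≫ K.d 0 1 = 0) (hm : Mono ε)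
    (hex : (ShortComplex.mk ε (K.d 0 1) w).Exact)
    (h : ∀ p : ℤ, p ≠ 0 → K.ExactAt p) (hz : IsZero (K.X (-1))) (κ : K ⟶ I) (hκ : QuasiIso κ) :
    Nonempty (DerivedCategory.Q.obj I ≅ sg G) :=
  iso_res_aux ε w (quasiIso_augC K ε w hex h hz) κ hκ

lemma quasiIso_augCX {X : Scheme.{0}} {K : CochainComplex X.Modules ℤ} {G : X.Modules}
    (ε : G ⟶ K.X 0) (w : ε ≫ K.d 0 1 = 0) (hm : Mono ε)
    (hex : (ShortComplex.mk ε (K.d 0 1) w).Exact)
    (h : ∀ p : ℤ, p ≠ 0 → K.ExactAt p) (hz : IsZero (K.X (-1))) : QuasiIso (augC K ε w) :=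
  quasiIso_augC K ε w hex h hz

end

end Pool.Agent.N212
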