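import Pool.Agent.N212.T9

set_option autoImplicit false
set_option linter.unusedVariables false

/-!
The powers of the ample line bundle as twists of the structure sheaf.
-/

open CategoryTheory Limits TopologicalSpace AlgebraicGeometry Opposite TopCat

namespace Pool.Agent.N212

noncomputable section

set_option backward.isDefEq.respectTransparency false

open Pool.Agent.W506 Pool.Agent.R924

attribute [local instance] MvPolynomial.gradedAlgebra

variable {k : Type} [Field k]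

lemma isGen_of_gA {m : ℤ} {U : (Zs k).Opens} (t : Γ(til (GA k) m, U)) (c : K0 k) (hc : c ≠ 0)
    (ht : ∀ x hx, gA t x hx = c) (hinv : ∀ x ∈ U, Fr (Am k) x (-m) c⁻¹) : IsGen t := by
  apply isGen_of
  · intro V hV s
    by_cases he : eta k ∈ V
    · obtain ⟨a, ha⟩ := exists_fun' V (gA s (eta k) he * c⁻¹) (by
        intro x hx
        have := (hinv x (hV hx)).mul (gA_fr s (eta k) he x hx)
        rwa [neg_add_cancel, mul_comm] at this)
      refine ⟨a, gA_ext (x := eta k) (hx := he) ?_⟩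
      rw [gA_smul, ha, gA_rs, ht, mul_assoc, inv_mul_cancel₀ hc, mul_one]
    · exact ⟨0, extA_empty he _ _⟩
  · intro V hV a ha
    by_cases he : eta k ∈ V
    · apply gF_ext (x := eta k) (hx := he)
      have h1 := congrArg (fun z => gA z (eta k) he) ha
      change gA _ _ _ = gA _ _ _ at h1
      rw [gA_smul, gA_rs, ht, gA_zero] at h1
      rw [gF_zero]
      exact (mul_eq_zero.1 h1).resolve_right hc
    · exact extF_empty he _ _

lemma nal_ne (i : Fin 3) : nu (al k i : P k) ≠ 0 := nu_ne_zero fun e => al_ne_zero i (Subtype.ext e)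

lemma fr_al (i : Fin 3) (d : ℕ) {x : ProjectiveSpectrum.top (cg k)} (hx : x ∈ UU k i) :
    Fr (Am k) x (-(8 * d : ℕ) : ℤ) (nu (al k i : P k) ^ d)⁻¹ := by
  refine ⟨8 * d, 1, al k i ^ d, one_mem (cu k), ?_, ?_, (pc x).pow_mem ((al_pc i x).2 hx) d, ?_⟩
  · rw [add_neg_cancel, ← Nat.cast_zero, mem_homZ_nat]
    exact MvPolynomial.isHomogeneous_one _ _
  · have := SetLike.pow_mem_graded (A := cg k) d (al_mem (k := k) i)
    rwa [smul_eq_mul, mul_comm] at this
  · rw [map_one, one_div]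
    congr 1
    exact (map_pow nu _ _).symm

lemma fr_al' (i : Fin 3) (d : ℕ) (x : ProjectiveSpectrum.top (cg k)) :
    Fr (Am k) x (-(-(8 * d : ℕ) : ℤ)) ((nu (al k i : P k) ^ d)⁻¹)⁻¹ := by
  rw [neg_neg, inv_inv]
  refine ⟨0, ((al k i ^ d : cu k) : P k), 1, ((al k i ^ d : cu k)).2, ?_,
    SetLike.GradedOne.one_mem, one_mem _, ?_⟩
  · rw [Nat.cast_zero, zero_add, mem_homZ_nat]
    have := SetLike.pow_mem_graded (A := cg k) d (al_mem (k := k) i)
    rw [smul_eq_mul, mul_comm] at this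
    exact this
  · have e : nu ((al k i ^ d : cu k) : P k) = nu (al k i : P k) ^ d := map_pow nu _ _
    rw [e]
    change _ = _ / nu (1 : P k)
    rw [map_one, div_one]

lemma exists_eg (d : ℕ) (i : Fin 3) : ∃ s : Γ(til (GA k) (-(8 * d : ℕ) : ℤ), (FF k).U i),
    ∀ x hx, gA s x hx = (nu (al k i : P k) ^ d)⁻¹ :=
  exists_secA _ _ fun x hx => fr_al i d hx

/-- The generators. -/
def eg (d : ℕ) (i : Fin 3) : Γ(til (GA k) (-(8 * d : ℕ) : ℤ), (FF k).U i) :=
  (exists_eg d i).choose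

lemma gA_eg (d : ℕ) (i : Fin 3) (x : ProjectiveSpectrum.top (cg k)) (hx : x ∈ (FF k).U i) :
    gA (eg d i) x hx = (nu (al k i : P k) ^ d)⁻¹ := (exists_eg d i).choose_spec x hx

lemma isGen_eg (d : ℕ) (i : Fin 3) : IsGen (eg (k := k) d i) :=
  isGen_of_gA _ _ (inv_ne_zero (pow_ne_zero _ (nal_ne i))) (gA_eg d i) fun x _ => fr_al' i d x

lemma gU_gam_pow (d : ℕ) (i : Fin 3) : gU (((gam k ^ d)⁻¹).1 i) =
    ((nu (al k i : P k) / nu (al k 0 : P k)) ^ d)⁻¹ := by
  have h : ((gam k ^ d)⁻¹).1 i = (((gam k).1 i) ^ d)⁻¹ := by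
    rw [Subgroup.coe_inv, Subgroup.coe_pow]
    rfl
  rw [h, gU_inv, ← zpow_natCast, gU_zpow, gU_gam, zpow_natCast]

lemma gF_trg (d : ℕ) (i j : Fin 3) (x : ProjectiveSpectrum.top (cg k))
    (hx : x ∈ (FF k).U i ⊓ (FF k).U j) :
    gF (Frame.tr ((gam k ^ d)⁻¹) i j) x hx =
      (nu (al k i : P k) / nu (al k j : P k)) ^ d := by
  rw [gF_const _ x (eta k) hx (le_inf ((FF k).le i) ((FF k).le j) eta_T)]
  rw [← gF_ro (le_inf ((FF k).le i) ((FF k).le j)) _ (eta k) eta_T, Frame.ro_tr]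
  change gU _ = _
  rw [gU_mul, gU_inv, gU_gam_pow, gU_gam_pow]
  have h0 := nal_ne (k := k) 0
  have hi := nal_ne (k := k) i
  have hj := nal_ne (k := k) j
  rw [inv_inv, ← inv_pow, ← mul_pow]
  congr 1
  field_simp

lemma compat_eg (d : ℕ) : Compat (FF k).U (Frame.tr ((gam k ^ d)⁻¹)) (eg (k := k) d) := by
  intro i j
  refine gA_ext (x := eta k) (hx := ⟨eta_UU i, eta_UU j⟩) ?_
  have hi := nal_ne (k := k) i
  have hj := nal_ne (k := k) j
  rw [gA_rs, gA_eg, gA_smul, gA_rs, gA_eg, gF_trg, div_pow]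
  have h1 := pow_ne_zero d hi
  have h2 := pow_ne_zero d hj
  field_simp

lemma exists_iso_lb (d : ℕ) :
    Nonempty (Frame.lb ((gam k ^ d)⁻¹) ≅ til (GA k) (-(8 * d : ℕ) : ℤ)) := by
  obtain ⟨f, hf⟩ := Frame.lb_hom ((gam k ^ d)⁻¹) (til (GA k) (-(8 * d : ℕ) : ℤ)) _ (compat_eg d)
  have : IsIso f := isIso_of_gen (FF k) _ (Frame.lbE _) (fun j => Frame.isGen_lbE _ j)
    (fun j => by rw [hf]; exact isGen_eg d j)
  exact ⟨asIso f⟩

end

end Pool.Agent.N212
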