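import Pool.Agent.N212.A3
import Pool.Agent.N212.T8

set_option autoImplicit false
set_option linter.unusedVariables false

/-!
The Koszul complex of two coordinates: graded modules.
-/

open MvPolynomial

namespace Pool.Agent.N212

noncomputable section

attribute [local instance] MvPolynomial.gradedAlgebra

variable (k : Type) [Field k]

/-- The ideal of the common zeros of two coordinates. -/
abbrev Jx : Ideal (P k) := Ideal.span {(X 1 : P k), X 2}

/-- The quotient by two coordinates. -/
def GQ : GM (cg k) where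
  M := P k ⧸ Jx k
  deg i := ((homZ (PH k) i).toAddSubgroup).map (Ideal.Quotient.mk (Jx k)).toAddMonoidHom
  smul_mem := by
    rintro i j a m ha ⟨f, hf, rfl⟩
    exact ⟨(a : P k) * f, mul_mem_homZ (𝒮 := PH k) ha hf, rfl⟩

/-- Pairs. -/
def GP : GM (cg k) where
  M := cu k × cu k
  deg i := (homZ (cg k) i).toAddSubgroup.prod (homZ (cg k) i).toAddSubgroup
  smul_mem ha hm := ⟨mul_mem_homZ ha hm.1, mul_mem_homZ ha hm.2⟩

variable {k}

lemma mk_zero_iff {f : P k} : (Ideal.Quotient.mk (Jx k) f = 0) ↔ f ∈ Jx k :=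
  Ideal.Quotient.eq_zero_iff_mem

lemma comp_Jx {f : P k} (hf : f ∈ Jx k) (n : ℕ) : homogeneousComponent n f ∈ Jx k := by
  obtain ⟨a, b, rfl⟩ := Ideal.mem_span_pair.1 hf
  have h1 : (X 1 : P k) ∈ PH k 1 := isHomogeneous_X _ _
  have h2 : (X 2 : P k) ∈ PH k 1 := isHomogeneous_X _ _
  have h : homogeneousComponent n (a * X 1 + b * X 2) = compZ (PH k) n (X 1 * a + X 2 * b) := by
    rw [mul_comm a, mul_comm b, compZ, if_pos (Int.natCast_nonneg n), Int.toNat_natCast,
      decompose_PH]
  rw [h, compZ_add, compZ_mul h1, compZ_mul h2]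
  exact add_mem (Ideal.mul_mem_right _ _ (Ideal.subset_span (Set.mem_insert _ _)))
    (Ideal.mul_mem_right _ _ (Ideal.subset_span (Set.mem_insert_of_mem _ rfl)))

instance : IsGr (GQ k) where
  comp_smul := by
    rintro i _ ⟨f, hf, rfl⟩ c hc n
    have h1 : (c : P k) * f ∈ Jx k := mk_zero_iff.1 hc
    have h2 : (homogeneousComponent n (c : P k)) * f ∈ Jx k := by
      by_cases hi : 0 ≤ i
      · obtain ⟨m, rfl⟩ := Int.eq_ofNat_of_zero_le hi
        have hf' : f ∈ PH k m := mem_homZ_nat.1 hf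
        have h3 := comp_Jx h1 (n + m)
        have h4 : homogeneousComponent (n + m) ((c : P k) * f) =
            homogeneousComponent n (c : P k) * f := by
          rw [← decompose_PH, ← decompose_PH]
          exact DirectSum.coe_decompose_mul_add_of_right_mem (PH k) hf'
        rwa [h4] at h3
      · rw [homZ_neg (not_le.1 hi) hf, mul_zero]
        exact zero_mem _
    rw [← decompose_apply] at h2
    exact mk_zero_iff.2 h2

instance : IsGr (GP k) where
  comp_smul := by
    intro i m hm c hc n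
    have h1 : (DirectSum.decompose (cg k) c n : cu k) • (show (GA k).M from m.1) = 0 :=
      IsGr.comp_smul (N := GA k) (hm.1) c (congrArg Prod.fst hc) n
    have h2 : (DirectSum.decompose (cg k) c n : cu k) • (show (GA k).M from m.2) = 0 :=
      IsGr.comp_smul (N := GA k) (hm.2) c (congrArg Prod.snd hc) n
    exact Prod.ext h1 h2

variable (k)

/-- The first map of the Koszul complex as a linear map. -/
def lA : cu k →ₗ[cu k] cu k × cu k :=
  LinearMap.prod (LinearMap.mulLeft (cu k) (zz k)) (-LinearMap.mulLeft (cu k) (xx k))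

lemma lA_apply (m : cu k) : lA k m = (zz k * m, -(xx k * m)) := rfl

/-- The second map of the Koszul complex as a linear map. -/
def lB : cu k × cu k →ₗ[cu k] cu k :=
  LinearMap.coprod (LinearMap.mulLeft (cu k) (xx k)) (LinearMap.mulLeft (cu k) (zz k))

lemma lB_apply (m : cu k × cu k) : lB k m = xx k * m.1 + zz k * m.2 := rfl

lemma homZ_xx {i : ℤ} {m : cu k} (hm : m ∈ homZ (cg k) i) : xx k * m ∈ homZ (cg k) (i + 1) := by
  have h := mul_mem_homZ (𝒮 := cg k) (i := 1) xx_mem hm
  rwa [add_comm] at h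

lemma homZ_zz {i : ℤ} {m : cu k} (hm : m ∈ homZ (cg k) i) : zz k * m ∈ homZ (cg k) (i + 1) := by
  have h := mul_mem_homZ (𝒮 := cg k) (i := 1) zz_mem hm
  rwa [add_comm] at h

/-- The first map of the Koszul complex. -/
def kosA : GH (GA k) (GP k) 1 where
  f := lA k
  map_deg := fun {i m} hm => ⟨homZ_zz k hm, (homZ (cg k) (i + 1)).neg_mem (homZ_xx k hm)⟩

/-- The second map of the Koszul complex. -/
def kosB : GH (GP k) (GA k) 1 where
  f := lB k
  map_deg := fun {i m} hm => add_mem (homZ_xx k hm.1) (homZ_zz k hm.2)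

/-- The projection to the quotient as a linear map. -/
def lC : cu k →ₗ[cu k] P k ⧸ Jx k where
  toFun m := Ideal.Quotient.mk (Jx k) (m : P k)
  map_add' _ _ := rfl
  map_smul' _ _ := rfl

/-- The projection to the quotient. -/
def kosC : GH (GA k) (GQ k) 0 where
  f := lC k
  map_deg := by
    intro i m hm
    rw [add_zero]
    exact ⟨((show cu k from m) : P k), mem_homZ_cg.1 hm, rfl⟩

/-- Multiplication by the third coordinate as a linear map. -/
def lY : (P k ⧸ Jx k) →ₗ[cu k] P k ⧸ Jx k where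
  toFun m := (X 0 : P k) • m
  map_add' _ _ := smul_add _ _ _
  map_smul' c m := smul_comm (X 0 : P k) (c : P k) m

/-- Multiplication by the third coordinate. -/
def kosY : GH (GQ k) (GQ k) 1 where
  f := lY k
  map_deg := by
    rintro i _ ⟨f, hf, rfl⟩
    refine ⟨X 0 * f, ?_, rfl⟩
    have h := mul_mem_homZ (𝒮 := PH k) (i := 1) (isHomogeneous_X _ _ : (X 0 : P k) ∈ PH k 1) hf
    rwa [add_comm] at h

variable {k}

lemma kos_BA (m : (GA k).M) : (kosB k).f ((kosA k).f m) = 0 := by
  change xx k * (zz k * (show cu k from m)) + zz k * -(xx k * (show cu k from m)) = 0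
  ring

lemma x1_mem_Jx (f : P k) : X 1 * f ∈ Jx k :=
  Ideal.mul_mem_right _ _ (Ideal.subset_span (Set.mem_insert _ _))

lemma x2_mem_Jx (f : P k) : X 2 * f ∈ Jx k :=
  Ideal.mul_mem_right _ _ (Ideal.subset_span (Set.mem_insert_of_mem _ rfl))

lemma kos_CB (m : (GP k).M) : (kosC k).f ((kosB k).f m) = 0 :=
  mk_zero_iff.2 (add_mem (x1_mem_Jx _) (x2_mem_Jx _))

lemma exists_chart (x : ProjectiveSpectrum.top (cg k)) :
    xx k ∈ pc x ∨ zz k ∈ pc x ∨ vv k ∈ pc x := by
  by_contra! h
  exact mem_irr (x := x) (not_not.1 h.1) (not_not.1 h.2.1) (not_not.1 h.2.2)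

lemma kosA_injective : Function.Injective (kosA k).f := by
  rw [injective_iff_map_eq_zero]
  intro m hm
  have h1 : zz k * (show cu k from m) = 0 := congrArg Prod.fst hm
  rcases mul_eq_zero.1 h1 with h | h
  · exact absurd (congrArg Subtype.val h) (X_ne_zero (2 : Fin 3))
  · exact h

/-- Multiples of the section of degree eight. -/
def vmul (f : P k) : cu k := ⟨hh k ^ 2 * (X 0 ^ 2 * f), sq_mul_mem _⟩

lemma vmul_coe (f : P k) : ((vmul f : cu k) : P k) = (vv k : P k) * f :=
  (mul_assoc _ _ _).symm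

lemma vmul_mem {f : P k} {i : ℤ} (hf : f ∈ homZ (PH k) i) : vmul f ∈ homZ (cg k) (8 + i) := by
  rw [mem_homZ_cg, vmul_coe]
  exact mul_mem_homZ (𝒮 := PH k) (i := 8) vv_mem hf

lemma lexact_AB : LExact (kosA k) (kosB k) := by
  intro x i m hm h0
  have h1 : xx k * (show cu k × cu k from m).1 + zz k * (show cu k × cu k from m).2 = 0 := h0
  rcases exists_chart x with h | h | h
  · refine ⟨1, xx k, -(show cu k × cu k from m).2, xx_mem, h, ?_, ?_⟩
    · have e : ((1 : ℕ) : ℤ) + i - 1 = i := by push_cast; ring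
      rw [e]
      exact (homZ (cg k) i).neg_mem hm.2
    · refine Prod.ext ?_ ?_
      · change zz k * -(show cu k × cu k from m).2 = xx k * (show cu k × cu k from m).1
        linear_combination -h1
      · change -(xx k * -(show cu k × cu k from m).2) = xx k * (show cu k × cu k from m).2
        ring
  · refine ⟨1, zz k, (show cu k × cu k from m).1, zz_mem, h, ?_, ?_⟩
    · have e : ((1 : ℕ) : ℤ) + i - 1 = i := by push_cast; ring
      rw [e]
      exact hm.1
    · refine Prod.ext ?_ ?_
      · rfl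
      · change -(xx k * (show cu k × cu k from m).1) = zz k * (show cu k × cu k from m).2
        linear_combination -h1
  · have h2 : (X 1 : P k) * ((show cu k × cu k from m).1 : P k) +
        X 2 * ((show cu k × cu k from m).2 : P k) = 0 := congrArg Subtype.val h1
    have h3 : (X 1 : P k) ∣ ((show cu k × cu k from m).2 : P k) := by
      have h4 : (X 1 ^ 1 : P k) ∣ X 2 ^ 1 * ((show cu k × cu k from m).2 : P k) := by
        rw [pow_one, pow_one]
        exact ⟨-((show cu k × cu k from m).1 : P k), by linear_combination h2⟩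
      have h5 := X_pow_dvd (by decide) 1 1 h4
      rwa [pow_one] at h5
    obtain ⟨e', he'⟩ := h3
    have h6 : ((show cu k × cu k from m).1 : P k) = -(X 2 * e') := by
      have h7 : (X 1 : P k) * (((show cu k × cu k from m).1 : P k) + X 2 * e') = 0 := by
        rw [he'] at h2
        linear_combination h2
      rcases mul_eq_zero.1 h7 with h | h
      · exact absurd h (X_ne_zero _)
      · linear_combination h
    have h8 : e' ∈ homZ (PH k) (i - 1) := by
      refine homZ_of_mul (l := 1) (isHomogeneous_X k (1 : Fin 3)) (X_ne_zero _) ?_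
      rw [← he']
      have e : ((1 : ℕ) : ℤ) + (i - 1) = i := by push_cast; ring
      rw [e]
      exact mem_homZ_cg.1 hm.2
    refine ⟨8, vv k, -(vmul e'), vv_mem, h, ?_, ?_⟩
    · have e : ((8 : ℕ) : ℤ) + i - 1 = 8 + (i - 1) := by push_cast; ring
      rw [e]
      exact (homZ (cg k) _).neg_mem (vmul_mem h8)
    · refine Prod.ext ?_ ?_
      · apply Subtype.ext
        change (X 2 : P k) * -((vmul e' : cu k) : P k) =
          (vv k : P k) * ((show cu k × cu k from m).1 : P k)
        rw [vmul_coe, h6]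
        ring
      · apply Subtype.ext
        change -((X 1 : P k) * -((vmul e' : cu k) : P k)) =
          (vv k : P k) * ((show cu k × cu k from m).2 : P k)
        rw [vmul_coe, he']
        ring

lemma lexact_BC : LExact (kosB k) (kosC k) := by
  intro x i m hm h0
  rcases exists_chart x with h | h | h
  · refine ⟨1, xx k, (show cu k × cu k from ((show cu k from m), 0)), xx_mem, h, ?_, ?_⟩
    · have e : ((1 : ℕ) : ℤ) + i - 1 = i := by push_cast; ring
      rw [e]
      exact ⟨hm, zero_mem _⟩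
    · change xx k * (show cu k from m) + zz k * 0 = xx k * (show cu k from m)
      ring
  · refine ⟨1, zz k, (show cu k × cu k from (0, (show cu k from m))), zz_mem, h, ?_, ?_⟩
    · have e : ((1 : ℕ) : ℤ) + i - 1 = i := by push_cast; ring
      rw [e]
      exact ⟨zero_mem _, hm⟩
    · change xx k * 0 + zz k * (show cu k from m) = zz k * (show cu k from m)
      ring
  · have h1 : ((show cu k from m) : P k) ∈ Jx k := mk_zero_iff.1 h0
    obtain ⟨a, b, hab⟩ := Ideal.mem_span_pair.1 h1
    obtain ⟨q₁, q₂, hq₁, hq₂, hq⟩ := hom_coeff₂ (𝒮 := PH k) (mem_homZ_cg.1 hm)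
      (isHomogeneous_X k (1 : Fin 3)) (isHomogeneous_X k (2 : Fin 3)) (p₁ := a) (p₂ := b)
      (by rw [← hab]; ring)
    refine ⟨8, vv k, (show cu k × cu k from (vmul q₁, vmul q₂)), vv_mem, h, ?_, ?_⟩
    · have e : ((8 : ℕ) : ℤ) + i - 1 = 8 + (i - (1 : ℕ)) := by push_cast; ring
      rw [e]
      exact ⟨vmul_mem hq₁, vmul_mem hq₂⟩
    · apply Subtype.ext
      change (X 1 : P k) * ((vmul q₁ : cu k) : P k) + X 2 * ((vmul q₂ : cu k) : P k) =
        (vv k : P k) * ((show cu k from m) : P k)
      rw [vmul_coe, vmul_coe, hq]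
      ring

lemma lsurj_C : LSurj (kosC k) := by
  rintro x i _ ⟨f, hf, rfl⟩
  rcases exists_chart x with h | h | h
  · refine ⟨1, xx k, 0, xx_mem, h, zero_mem _, ?_⟩
    rw [map_zero]
    exact (mk_zero_iff.2 (x1_mem_Jx f)).symm
  · refine ⟨1, zz k, 0, zz_mem, h, zero_mem _, ?_⟩
    rw [map_zero]
    exact (mk_zero_iff.2 (x2_mem_Jx f)).symm
  · refine ⟨8, vv k, vmul f, vv_mem, h, ?_, ?_⟩
    · have e : ((8 : ℕ) : ℤ) + i - 0 = 8 + i := by push_cast; ring
      rw [e]
      exact vmul_mem hf
    · change Ideal.Quotient.mk (Jx k) ((vmul f : cu k) : P k) = Ideal.Quotient.mk (Jx k) (vv k * f)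
      rw [vmul_coe]

lemma kosY_inj (i : ℤ) (m : (GQ k).M) (hm : m ∈ (GQ k).deg i) (h : (kosY k).f m = 0) :
    m = 0 := by
  obtain ⟨f, hf, rfl⟩ := hm
  have h1 : (X 0 * f : P k) ∈ Jx k := mk_zero_iff.1 h
  have h2 : (fe k (X 0)).Monic := by
    rw [fe_X0]
    exact Polynomial.monic_X
  have h3 := reg_span 1 1 h2 (G := f) (by rw [pow_one, pow_one]; exact h1)
  rw [pow_one, pow_one] at h3
  exact mk_zero_iff.2 h3

lemma lsurj_Y : LSurj (kosY k) := by
  rintro x i _ ⟨f, hf, rfl⟩
  rcases exists_chart x with h | h | h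
  · refine ⟨1, xx k, 0, xx_mem, h, zero_mem _, ?_⟩
    rw [map_zero]
    exact (mk_zero_iff.2 (x1_mem_Jx f)).symm
  · refine ⟨1, zz k, 0, zz_mem, h, zero_mem _, ?_⟩
    rw [map_zero]
    exact (mk_zero_iff.2 (x2_mem_Jx f)).symm
  · refine ⟨8, vv k, Ideal.Quotient.mk (Jx k) (hh k ^ 2 * X 0 * f), vv_mem, h,
      ⟨hh k ^ 2 * X 0 * f, ?_, rfl⟩, ?_⟩
    · have e : ((8 : ℕ) : ℤ) + i - 1 = ((3 * 2 + 1 : ℕ) : ℤ) + i := by push_cast; ring
      rw [e]
      exact mul_mem_homZ (𝒮 := PH k) (IsHomogeneous.mul (hh_mem.pow 2) (isHomogeneous_X k 0)) hf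
    · change Ideal.Quotient.mk (Jx k) (X 0 * (hh k ^ 2 * X 0 * f)) =
        Ideal.Quotient.mk (Jx k) (vv k * f)
      congr 1
      change X 0 * (hh k ^ 2 * X 0 * f) = hh k ^ 2 * X 0 ^ 2 * f
      ring

end

end Pool.Agent.N212
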