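import Pool.Agent.R924.A1

set_option autoImplicit false
set_option linter.unusedVariables false

/-!
Exact sequences of four objects and triangulated subcategories.
-/

open CategoryTheory Limits Pretriangulated

namespace Pool.Agent.N212

noncomputable section

open Pool.Agent.R924

section General

universe w v u

variable {C : Type u} [Category.{v} C] [Abelian C] {A B D E : C} (f : A ⟶ B) (g : B ⟶ D)
  (h : D ⟶ E) (w₁ : f ≫ g = 0) (w₂ : g ≫ h = 0)

lemma four_ses₁ [Mono f] (h₁ : (ShortComplex.mk f g w₁).Exact)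
    (h₂ : (ShortComplex.mk g h w₂).Exact) :
    (ShortComplex.mk f (kernel.lift h g w₂) (by
      rw [← cancel_mono (kernel.ι h), Category.assoc, kernel.lift_ι, w₁, zero_comp])).ShortExact where
  exact := by
    let S := ShortComplex.mk f (kernel.lift h g w₂) (by
      rw [← cancel_mono (kernel.ι h), Category.assoc, kernel.lift_ι, w₁, zero_comp])
    let φ : S ⟶ ShortComplex.mk f g w₁ :=
      { τ₁ := 𝟙 _
        τ₂ := 𝟙 _
        τ₃ := kernel.ι h
        comm₁₂ := by simp [S]
        comm₂₃ := by simp [S] }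
    have h5 : Epi φ.τ₁ := inferInstanceAs (Epi (𝟙 _))
    have h6 : IsIso φ.τ₂ := inferInstanceAs (IsIso (𝟙 _))
    have h7 : Mono φ.τ₃ := inferInstanceAs (Mono (kernel.ι _))
    exact (ShortComplex.exact_iff_of_epi_of_isIso_of_mono φ).2 h₁
  mono_f := inferInstanceAs (Mono f)
  epi_g := (ShortComplex.exact_iff_epi_kernel_lift _).1 h₂

lemma four_ses₂ [Epi h] : (ShortComplex.mk (kernel.ι h) h (kernel.condition h)).ShortExact where
  exact := ShortComplex.exact_of_f_is_kernel _ (kernelIsKernel h)
  mono_f := inferInstanceAs (Mono (kernel.ι h))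
  epi_g := inferInstanceAs (Epi h)

variable [HasDerivedCategory.{w} C] (T : ObjectProperty (DerivedCategory C)) [T.IsTriangulated]
  [T.IsClosedUnderIsomorphisms]

include w₁ w₂ in
lemma four_last [Mono f] [Epi h] (h₁ : (ShortComplex.mk f g w₁).Exact)
    (h₂ : (ShortComplex.mk g h w₂).Exact) (hA : T (sg A)) (hB : T (sg B)) (hD : T (sg D)) :
    T (sg E) :=
  mem_right T (four_ses₂ h) (mem_right T (four_ses₁ f g h w₁ w₂ h₁ h₂) hA hB) hD

include w₁ w₂ in
lemma four_first [Mono f] [Epi h] (h₁ : (ShortComplex.mk f g w₁).Exact)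
    (h₂ : (ShortComplex.mk g h w₂).Exact) (hB : T (sg B)) (hD : T (sg D)) (hE : T (sg E)) :
    T (sg A) :=
  mem_left T (four_ses₁ f g h w₁ w₂ h₁ h₂) hB (mem_left T (four_ses₂ h) hD hE)

end General

end

end Pool.Agent.N212
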