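import Pool.Agent.N212.C4a
import Pool.Agent.N212.V2
import Pool.Agent.N212.V3a

set_option autoImplicit false
set_option linter.unusedVariables false

/-!
The Koszul complexes in a triangulated subcategory.
-/

open CategoryTheory Limits TopologicalSpace AlgebraicGeometry Opposite TopCat Pretriangulated

namespace Pool.Agent.N212

noncomputable section

open Pool.Agent.W506 Pool.Agent.R924

set_option backward.isDefEq.respectTransparency false

attribute [local instance] MvPolynomial.gradedAlgebra HasDerivedCategory.standard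

variable (k : Type) [Field k]

/-- The inclusion of the first summand. -/
def inP : GH (GA k) (GP k) 0 where
  f := LinearMap.inl (cu k) (cu k) (cu k)
  map_deg := by
    intro i m hm
    rw [add_zero]
    exact ⟨hm, zero_mem _⟩

/-- The projection to the second summand. -/
def sdP : GH (GP k) (GA k) 0 where
  f := LinearMap.snd (cu k) (cu k) (cu k)
  map_deg := by
    intro i m hm
    rw [add_zero]
    exact hm.2

lemma lexact_P : LExact (inP k) (sdP k) := by
  intro x i m hm h0
  refine ⟨0, 1, (show cu k × cu k from m).1, SetLike.GradedOne.one_mem, one_mem _, ?_, ?_⟩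
  · have e : ((0 : ℕ) : ℤ) + i - 0 = i := by push_cast; ring
    rw [e]
    exact hm.1
  · rw [one_smul]
    exact Prod.ext rfl (show (0 : cu k) = (show cu k × cu k from m).2 from h0.symm)

lemma lsurj_P : LSurj (sdP k) := by
  intro x i m hm
  refine ⟨0, 1, (show cu k × cu k from (0, m)), SetLike.GradedOne.one_mem, one_mem _, ?_, ?_⟩
  · have e : ((0 : ℕ) : ℤ) + i - 0 = i := by push_cast; ring
    rw [e]
    exact ⟨zero_mem _, hm⟩
  · rw [one_smul]
    rfl

variable (T : ObjectProperty (DerivedCategory (Zs k).Modules)) [T.IsTriangulated]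
  [T.IsClosedUnderIsomorphisms]

lemma mem_GP (j : ℤ) (h : T (sg (til (GA k) j))) : T (sg (til (GP k) j)) :=
  mem_mid T (ses_tmap (inP k) (sdP k) (fun _ m _ hm => congrArg Prod.fst hm) (fun _ => rfl)
    (lexact_P k) (lsurj_P k) (j₁ := j) (j₂ := j) (j₃ := j) (by rw [add_zero]) (by rw [add_zero])) h h

lemma iso_GQ (j : ℤ) : Nonempty (til (GQ k) j ≅ til (GQ k) (j + 1)) := by
  have h1 : Mono (tmap (kosY k) (show j + 1 = j + 1 from rfl)) := mono_tmap' _ kosY_inj _
  have h2 : Epi (tmap (kosY k) (show j + 1 = j + 1 from rfl)) := epi_tmap _ lsurj_Y _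
  have := isIso_of_mono_of_epi (tmap (kosY k) (show j + 1 = j + 1 from rfl))
  exact ⟨asIso (tmap (kosY k) (show j + 1 = j + 1 from rfl))⟩

section Kos

variable (a b c : ℤ) (hab : b = a + 1) (hbc : c = b + 1)

lemma mem_kos_last (hA : T (sg (til (GA k) a))) (hB : T (sg (til (GA k) b)))
    (hC : T (sg (til (GA k) c))) (hab : b = a + 1) (hbc : c = b + 1) :
    T (sg (til (GQ k) c)) := by
  have h1 : Mono (tmap (kosA k) hab) := mono_tmap _ kosA_injective _
  have h2 : Epi (tmap (kosC k) (show c = c + 0 by rw [add_zero])) := epi_tmap _ lsurj_C _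
  exact four_last (tmap (kosA k) hab) (tmap (kosB k) hbc) (tmap (kosC k) (show c = c + 0 by rw [add_zero]))
    (tmap_comp_zero _ _ kos_BA _ _) (tmap_comp_zero _ _ kos_CB _ _) T
    (exact_tmap _ _ lexact_AB _ _ _) (exact_tmap _ _ lexact_BC _ _ _) hA (mem_GP k T b hB) hC

lemma mem_kos_first (hB : T (sg (til (GA k) b)))
    (hC : T (sg (til (GA k) c))) (hQ : T (sg (til (GQ k) c))) (hab : b = a + 1) (hbc : c = b + 1) :
    T (sg (til (GA k) a)) := by
  have h1 : Mono (tmap (kosA k) hab) := mono_tmap _ kosA_injective _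
  have h2 : Epi (tmap (kosC k) (show c = c + 0 by rw [add_zero])) := epi_tmap _ lsurj_C _
  exact four_first (tmap (kosA k) hab) (tmap (kosB k) hbc) (tmap (kosC k) (show c = c + 0 by rw [add_zero]))
    (tmap_comp_zero _ _ kos_BA _ _) (tmap_comp_zero _ _ kos_CB _ _) T
    (exact_tmap _ _ lexact_AB _ _ _) (exact_tmap _ _ lexact_BC _ _ _) (mem_GP k T b hB) hC hQ

end Kos

/-- All twists of the structure sheaf lie in the thick subcategory. -/
theorem mem_GA (h0 : T (sg (til (GA k) 0))) (h1 : T (sg (til (GA k) 1)))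
    (h2 : T (sg (til (GA k) 2))) (n : ℕ) : T (sg (til (GA k) (-(n : ℤ)))) := by
  have hQ2 : T (sg (til (GQ k) 2)) := mem_kos_last k T 0 1 2 h0 h1 h2 (by norm_num) (by norm_num)
  have hQ : ∀ m : ℕ, T (sg (til (GQ k) (2 - (m : ℤ)))) := by
    intro m
    induction m with
    | zero => exact hQ2
    | succ m ih =>
      obtain ⟨e⟩ := iso_GQ k (2 - ((m + 1 : ℕ) : ℤ))
      have e' : (2 - ((m + 1 : ℕ) : ℤ)) + 1 = 2 - (m : ℤ) := by push_cast; ring
      rw [e'] at e
      exact mem_iso T e.symm ih
  have key : ∀ m : ℕ, T (sg (til (GA k) (1 - (m : ℤ)))) ∧ T (sg (til (GA k) (-(m : ℤ)))) := by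
    intro m
    induction m with
    | zero => exact ⟨h1, h0⟩
    | succ m ih =>
      have e1 : (1 - ((m + 1 : ℕ) : ℤ)) = -(m : ℤ) := by push_cast; ring
      rw [e1]
      refine ⟨ih.2, ?_⟩
      have h3 := hQ (m + 1)
      have e2 : (2 - ((m + 1 : ℕ) : ℤ)) = 1 - (m : ℤ) := by push_cast; ring
      rw [e2] at h3
      exact mem_kos_first k T _ _ _ ih.2 ih.1 h3 (by push_cast; ring) (by ring)
  exact (key n).2

end

end Pool.Agent.N212
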