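import Pool.Agent.N212.C5a
import Pool.Agent.N212.V1
import Pool.Agent.N212.V3b

set_option autoImplicit false
set_option linter.unusedVariables false

/-!
The twists of the structure sheaf in a thick subcategory.
-/

open CategoryTheory Limits TopologicalSpace AlgebraicGeometry Opposite TopCat Pretriangulated

namespace Pool.Agent.N212

noncomputable section

open Pool.Agent.W506 Pool.Agent.R924

set_option backward.isDefEq.respectTransparency false

attribute [local instance] MvPolynomial.gradedAlgebra HasDerivedCategory.standard

variable (k : Type) [Field k]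

variable (T : ObjectProperty (DerivedCategory (Zs k).Modules)) [T.IsTriangulated]
  [T.IsClosedUnderIsomorphisms]

/-- The powers of the ample line bundle. -/
theorem mem_gam [T.IsStableUnderRetracts] (h : T (sg (til (GA3 k) 0))) (d : ℕ) :
    T (sg (Frame.lb ((gam k ^ d)⁻¹))) := by
  have h1 : ∀ i : Fin 3, T (sg (til (GA k) (i : ℕ))) := fun i =>
    T.prop_of_retract (((⟨jA k i, pA k i, jA_pA k i⟩ : Retract _ _)).map
      (DerivedCategory.singleFunctor _ 0)) h
  obtain ⟨e⟩ := exists_iso_lb (k := k) d
  exact mem_iso T e.symm (mem_GA k T (h1 0) (h1 1) (h1 2) (8 * d))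

end

end Pool.Agent.N212
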