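import Pool.Agent.N212.C5a
import Pool.Agent.N212.E8
import Pool.Agent.N212.R3
import Pool.Agent.N212.T12
import Pool.Agent.N212.V0
import Pool.Agent.N212.V3
import Pool.Agent.N475.Cusp.G6
import Pool.Agent.N878.Cusp.Thick

set_option autoImplicit false
set_option linter.unusedVariables false

/-!
The thick subcategory generated by the resolution consists of the perfect complexes.
-/

open CategoryTheory Limits TopologicalSpace AlgebraicGeometry Opposite TopCat Pretriangulated

namespace Pool.Agent.N212

noncomputable section

open Pool.Agent.W506 Pool.Agent.R924 Pool.Agent.W456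

attribute [local instance] MvPolynomial.gradedAlgebra HasDerivedCategory.standard

section General

variable {k : Type} [Field k] {A : Type} [CommRing A] [Algebra k A]
  (𝒜 : ℕ → Submodule k A) [GradedAlgebra 𝒜]

theorem isProper_of [Algebra.FiniteType k A]
    (h0 : ∀ a ∈ 𝒜 0, ∃ c : k, a = algebraMap k A c) [Nontrivial A] : IsProper (pr0 𝒜) := by
  have : IsScalarTower k (𝒜 0) A := ⟨fun c a b => by
    change (c • (a : A)) * b = c • ((a : A) * b)
    exact smul_mul_assoc c (a : A) b⟩
  have h1 : Algebra.FiniteType (𝒜 0) A := Algebra.FiniteType.of_restrictScalars_finiteType k (𝒜 0) A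
  have h4 : Function.Bijective (algebraMap k (𝒜 0)) := by
    constructor
    · intro a b hab
      exact (algebraMap k A).injective (congrArg Subtype.val hab)
    · rintro ⟨a, ha⟩
      obtain ⟨c, hc⟩ := h0 a ha
      exact ⟨c, Subtype.ext hc.symm⟩
  have h2 : IsIso (CommRingCat.ofHom (algebraMap k (𝒜 0))) := by
    rw [ConcreteCategory.isIso_iff_bijective]
    exact h4
  have h3 : IsIso (Spec.map (CommRingCat.ofHom (algebraMap k (𝒜 0)))) := inferInstance
  rw [pr0]
  infer_instance

end General

section Proper

variable (k : Type) [Field k]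

instance isProper_pr0 : IsProper (pr0 (cg k)) := isProper_of _ fun _ ha => zero_deg ha

instance compact_Zs : CompactSpace (Zs k) := by
  have := (quasiCompact_iff_compactSpace (f := pr0 (cg k))).1 inferInstance
  exact this

instance noeth_Zs : IsLocallyNoetherian (Zs k) := by
  have : IsLocallyNoetherian (Spec (CommRingCat.of k)) := inferInstance
  exact LocallyOfFiniteType.isLocallyNoetherian (pr0 (cg k))

instance separated_Zs : (Zs k).IsSeparated := inferInstanceAs (Scheme.IsSeparated (Proj (cg k)))

end Proper

variable (k : Type) [Field k] [CharZero k]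

set_option backward.isDefEq.respectTransparency false

omit [CharZero k] in
lemma perfect_lb (δ : (FF k).Div) : isPerfect (Zs k) (sg (Frame.lb δ)) := by
  refine ConeGood.isPerfect (coneGood_of_basis fun x => ?_)
  obtain ⟨j, hj⟩ := (FF k).cover x
  exact ⟨(FF k).U j, hj, 1, fun _ => Frame.lbE δ j, Frame.isGen_lbE δ j⟩

omit [CharZero k] in
lemma perfect_GA (i : ℤ) : isPerfect (Zs k) (sg (til (GA k) i)) :=
  isPerfect_of_iso ((DerivedCategory.singleFunctor _ 0).mapIso (asIso (theta k i)))
    (perfect_lb k (bet k ^ i))

omit [CharZero k] in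
lemma perfect_GA3 : isPerfect (Zs k) (sg (til (GA3 k) 0)) := by
  have h1 := (Pool.Agent.N878.Cusp.stmThick (Zs k) inferInstance inferInstance).1
  have h2 : (isPerfect (Zs k)).IsClosedUnderIsomorphisms := ⟨fun e h => isPerfect_of_iso e h⟩
  have h3 : (isPerfect (Zs k)).IsStableUnderRetracts :=
    (Pool.Agent.N878.Cusp.stmThick (Zs k) inferInstance inferInstance).2
  exact mem_of_sum (isPerfect (Zs k)) (fun a : Fin 3 => til (GA k) (a : ℕ)) (pA k) (jA k) sumA
    fun a => perfect_GA k _

variable {k} in
/-- The resolution represents the sum of line bundles. -/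
lemma iso_res (r : IRes (KK k)) : Nonempty (DerivedCategory.Q.obj r.I ≅ sg (til (GA3 k) 0)) :=
  iso_res_aux (eps k) (eps_d k) (quasiIso_epsA k) r.κ r.qi

theorem envelope_eq (r : IRes (KK k)) :
    (ObjectProperty.ofObj fun _ : Unit => DerivedCategory.Q.obj r.I).triangEnvelope =
      isPerfect (Zs k) := by
  obtain ⟨e⟩ := iso_res r
  apply le_antisymm
  · have h1 := (Pool.Agent.N878.Cusp.stmThick (Zs k) inferInstance inferInstance).1
    have h3 : (isPerfect (Zs k)).IsStableUnderRetracts :=
      (Pool.Agent.N878.Cusp.stmThick (Zs k) inferInstance inferInstance).2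
    refine (ObjectProperty.triangEnvelope_le_iff _).2 ?_
    rintro _ ⟨⟩
    exact isPerfect_of_iso e.symm (perfect_GA3 k)
  · have h1 : (ObjectProperty.ofObj fun _ : Unit =>
        DerivedCategory.Q.obj r.I).triangEnvelope (DerivedCategory.Q.obj r.I) :=
      ObjectProperty.le_triangEnvelope _ _ ⟨()⟩
    refine Pool.Agent.N475.Cusp.stmGen (Zs k) (Fin 3) inferInstance (FF k) (gam k) inferInstance
      inferInstance (ampleFF k) _ inferInstance inferInstance inferInstance (mem_gam k _ ?_)
    exact ObjectProperty.prop_of_iso _ e h1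

end

end Pool.Agent.N212
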