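import Pool.Agent.N212.R6
import Pool.Agent.N212.V4

set_option autoImplicit false
set_option linter.unusedVariables false

/-!
The DG category of perfect complexes.
-/

open CategoryTheory Limits TopologicalSpace AlgebraicGeometry Opposite TopCat Pretriangulated

namespace Pool.Agent.N212

noncomputable section

open Pool.Agent.W506 Pool.Agent.R924 Pool.Agent.W456

attribute [local instance] MvPolynomial.gradedAlgebra HasDerivedCategory.standard

set_option backward.isDefEq.respectTransparency false

variable (k : Type) [Field k] [CharZero k]

theorem dg_aux [Linear k (Zs k).Modules] (hl : IsLin (pr0 (cg k))) :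
    DG.QuasiEquivalent (DG.InjDG k (Zs k).Modules (isPerfect (Zs k))) (DG.PerfDG (RR k)) := by
  obtain ⟨r⟩ := exists_ires (KK k) (KK_ge k)
  rw [← envelope_eq k r]
  exact quasiEquivalent_RR k hl r

end

end Pool.Agent.N212
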